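import Pool.Agent.W5h48.AL.Fin

set_option autoImplicit false
set_option linter.unusedSimpArgs false

open Set Filter Topology
open scoped ContDiff

namespace Pool.Agent.W5h48.AL

section Gen

variable {E : Type*} [NormedAddCommGroup E] [NormedSpace ℝ E] {V : Set E}

/-- real analytic elements of the ring of smooth functions -/
def IsAn (f : Sm V) : Prop := ContDiffOn ℝ ω (ev f) V

theorem IsAn.add {f g : Sm V} (hf : IsAn f) (hg : IsAn g) : IsAn (f + g) :=
  (ContDiffOn.add hf hg).congr fun x _ => ev_add f g x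

theorem IsAn.mul {f g : Sm V} (hf : IsAn f) (hg : IsAn g) : IsAn (f * g) :=
  (ContDiffOn.mul hf hg).congr fun x _ => ev_mul f g x

theorem IsAn.sub {f g : Sm V} (hf : IsAn f) (hg : IsAn g) : IsAn (f - g) :=
  (ContDiffOn.sub hf hg).congr fun x _ => ev_sub f g x

theorem IsAn.neg {f : Sm V} (hf : IsAn f) : IsAn (-f) :=
  (ContDiffOn.neg hf).congr fun x _ => ev_neg f x

theorem IsAn.const (r : ℝ) : IsAn (algebraMap ℝ (Sm V) r) := by
  refine (contDiffOn_const (c := r)).congr fun x hx => ?_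
  rw [ev_of_mem _ hx]
  rfl

theorem IsAn.num (n : ℕ) [n.AtLeastTwo] : IsAn (ofNat(n) : Sm V) := by
  have h : (OfNat.ofNat n : Sm V) = algebraMap ℝ (Sm V) (OfNat.ofNat n) := by
    rw [map_ofNat]
  rw [h]
  exact IsAn.const _

theorem IsAn.mk' {f : E → ℝ} (hf : ContDiffOn ℝ ∞ f V) (h : ContDiffOn ℝ ω f V) :
    IsAn (mk f hf : Sm V) := h.congr fun x hx => ev_mk _ _ hx

theorem IsAn.pd {f : Sm V} (hV : IsOpen V) (v : E) (hf : IsAn f) : IsAn (pd hV v f) := by
  have h1 : ContDiffOn ℝ ω (fun x => fderiv ℝ (ev f) x v) V :=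
    (ContDiffOn.fderiv_of_isOpen hf hV (m := ω) (by simp)).clm_apply contDiffOn_const
  exact h1.congr fun x hx => ev_pd hV v f hx

end Gen

section Pull

variable {E₁ E₂ : Type*} [NormedAddCommGroup E₁] [NormedSpace ℝ E₁]
  [NormedAddCommGroup E₂] [NormedSpace ℝ E₂]

theorem IsAn.pull {V₁ : Set E₁} {V₂ : Set E₂} {g : E₁ → E₂} (hg : ContDiffOn ℝ ∞ g V₁)
    (hm : MapsTo g V₁ V₂) {f : Sm V₂} (hf : IsAn f) (h : ContDiffOn ℝ ω g V₁) :
    IsAn (pull g hg hm f) :=
  (ContDiffOn.comp hf h hm).congr fun x hx => ev_pull _ _ _ _ hx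

end Pull

section Hc

variable {W : Set E2} {dx dy η F : Sm W}

theorem gmap_an (h1 : IsAn dx) (h2 : IsAn dy) (h3 : IsAn η) :
    ContDiffOn ℝ ω (gmap dx dy η) (Dom dx dy η) := by
  have hh : ∀ f : Sm W, IsAn f → ContDiffOn ℝ ω (fun q : E2 × ℝ => ev f q.1) (Dom dx dy η) :=
    fun f hf => ContDiffOn.comp hf contDiff_fst.contDiffOn (fun q hq => hq.1)
  have h4 : ContDiffOn ℝ ω (fun q : E2 × ℝ => 1 + q.2 * ev η q.1) (Dom dx dy η) :=
    contDiffOn_const.add (contDiff_snd.contDiffOn.mul (hh η h3))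
  exact contDiff_fst.contDiffOn.add
    ((contDiff_snd.contDiffOn.div h4 (fun q hq => hq.2.1.ne')).smul ((hh dx h1).prodMk (hh dy h2)))

theorem hh_an (hW : IsOpen W) (h1 : IsAn dx) (h2 : IsAn dy) (h3 : IsAn η) (hF : IsAn F) (n : ℕ) :
    IsAn (hh dx dy η hW F n) := by
  induction n with
  | zero =>
    unfold hh gpull
    rw [Function.iterate_zero, id_eq]
    exact IsAn.pull _ _ hF (gmap_an h1 h2 h3)
  | succ n ih =>
    rw [← hh_succ]
    exact IsAn.pd _ _ ih

theorem Hc_an (hW : IsOpen W) (h1 : IsAn dx) (h2 : IsAn dy) (h3 : IsAn η) (hF : IsAn F) (n : ℕ) :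
    IsAn (Hc dx dy η hW F n) :=
  IsAn.pull _ _ (hh_an hW h1 h2 h3 hF n) ((contDiff_id.prodMk contDiff_const).contDiffOn)

theorem base_an (hW : IsOpen W) {F L μ Gi : Sm W} (B : Base (pX hW) (pY hW) cx cy F L μ Gi)
    (hL : ∀ z ∈ W, 0 < ev L z) (hF : IsAn F) : IsAn L ∧ IsAn μ := by
  have hh : IsAn (hForm hW F) := by
    unfold hForm
    have h1 := hF.pd hW (((1 : ℝ), (0 : ℝ)) : E2)
    have h2 := hF.pd hW (((0 : ℝ), (1 : ℝ)) : E2)
    exact (h1.mul ((h2.mul (h2.pd hW _)).sub (h1.mul (h2.pd hW _)))).sub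
      (h2.mul ((h2.mul (h1.pd hW _)).sub (h1.mul (h1.pd hW _))))
  have h6 : ∀ z ∈ W, ev (hForm hW F) z = ev L z ^ 6 := fun z hz => by
    have h := congrArg (fun f => ev f z) B.hL
    simp only [ev_mul] at h
    unfold hForm
    rw [← h]
    ring
  have hLa : IsAn L := by
    have h1 : ContDiffOn ℝ ω (fun z => ev (hForm hW F) z ^ (1 / 6 : ℝ)) W :=
      ContDiffOn.rpow_const_of_ne hh fun z hz => by
        rw [h6 z hz]
        exact (pow_pos (hL z hz) 6).ne'
    refine h1.congr fun z hz => ?_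
    rw [h6 z hz, ← Real.rpow_natCast, ← Real.rpow_mul (hL z hz).le]
    norm_num
  refine ⟨hLa, ?_⟩
  have h1 : ContDiffOn ℝ ω (fun z => (ev L z)⁻¹) W := ContDiffOn.inv hLa fun z hz => (hL z hz).ne'
  refine h1.congr fun z hz => ?_
  have h := congrArg (fun f => ev f z) B.Lμ
  simp only [ev_mul, ev_one hz] at h
  exact eq_inv_of_mul_eq_one_right h

end Hc

end Pool.Agent.W5h48.AL
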