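import Pool.Agent.W5h48.AL.Struct

set_option autoImplicit false
set_option linter.unusedSimpArgs false

namespace Pool.Agent.W5h48.AL

variable {A : Type*} [CommRing A] [Algebra ℝ A]

/-- plane data -/
structure Base (X Y : Derivation ℝ A A) (x y F L μ Gi : A) : Prop where
  Xx : X x = 1
  Xy : X y = 0
  Yx : Y x = 0
  Yy : Y y = 1
  XY : ∀ f, X (Y f) = Y (X f)
  Lμ : L * μ = 1
  hL : L * L * L * L * L * L = X F * (Y F * X (Y F) - X F * Y (Y F)) -
    Y F * (Y F * X (X F) - X F * Y (X F))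
  hG : (X F * X F + Y F * Y F) * Gi = 1

/-- coordinates of the tangential field -/
def dX (Y : Derivation ℝ A A) (F μ : A) : A := μ * μ * μ * Y F
def dY (X : Derivation ℝ A A) (F μ : A) : A := -(μ * μ * μ * X F)

/-- the tangential derivation -/
def DD (X Y : Derivation ℝ A A) (F μ : A) : Derivation ℝ A A := dX Y F μ • X + dY X F μ • Y

theorem DD_app (X Y : Derivation ℝ A A) (F μ f : A) :
    DD X Y F μ f = dX Y F μ * X f + dY X F μ * Y f := rfl

def eta (X Y : Derivation ℝ A A) (F L μ : A) : A := μ * DD X Y F μ L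

def wX (X Y : Derivation ℝ A A) (F L μ : A) : A :=
  DD X Y F μ (dX Y F μ) + 2 * eta X Y F L μ * dX Y F μ
def wY (X Y : Derivation ℝ A A) (F L μ : A) : A :=
  DD X Y F μ (dY X F μ) + 2 * eta X Y F L μ * dY X F μ

/-- the transversal derivation -/
def dd (X Y : Derivation ℝ A A) (F L μ : A) : Derivation ℝ A A :=
  wX X Y F L μ • X + wY X Y F L μ • Y

theorem dd_app (X Y : Derivation ℝ A A) (F L μ f : A) :
    dd X Y F L μ f = wX X Y F L μ * X f + wY X Y F L μ * Y f := rfl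

/-- the relations -/
structure Rel (D δ : Derivation ℝ A A) (x y F L η dx dy wx wy k0 k1 a β : A)
    (p0 p1 p2 : Fin 3 → A) : Prop where
  frame : Frame D δ k0 k1 a β p0 p1 p2
  Dx : D x = dx
  Dy : D y = dy
  δx : δ x = wx
  δy : δ y = wy
  DF : D F = 0
  δF : δ F = 1
  DL : D L = η * L
  Ddx : D dx = wx - 2 * η * dx
  Ddy : D dy = wy - 2 * η * dy
  Dwx : D wx = -η * wx + (k1 - D η - η * η) * dx
  Dwy : D wy = -η * wy + (k1 - D η - η * η) * dy
  δdx : δ dx = D wx + β * dx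
  δdy : δ dy = D wy + β * dy
  hc : k0 + D a = δ η - (k1 + β) * η + η * D η + η * η * η
  p00 : p0 0 = L * x
  p01 : p0 1 = L * y
  p02 : p0 2 = L
  hΔ : L * L * L * (dx * wy - dy * wx) = 1

theorem Base.rel {X Y : Derivation ℝ A A} {x y F L μ Gi : A} (B : Base X Y x y F L μ Gi) :
    ∃ (k0 k1 a β : A) (p0 p1 p2 : Fin 3 → A),
      Rel (DD X Y F μ) (dd X Y F L μ) x y F L (eta X Y F L μ) (dX Y F μ) (dY X F μ)
        (wX X Y F L μ) (wY X Y F L μ) k0 k1 a β p0 p1 p2 := by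
  obtain ⟨Xx, Xy, Yx, Yy, XY, Lμ, hL, hG⟩ := B
  obtain ⟨dx, hdx⟩ : ∃ dx, dx = dX Y F μ := ⟨_, rfl⟩
  obtain ⟨dy, hdy⟩ : ∃ dy, dy = dY X F μ := ⟨_, rfl⟩
  obtain ⟨D, hD⟩ : ∃ D, D = DD X Y F μ := ⟨_, rfl⟩
  obtain ⟨η, hη⟩ : ∃ η, η = eta X Y F L μ := ⟨_, rfl⟩
  obtain ⟨wx, hwx⟩ : ∃ wx, wx = wX X Y F L μ := ⟨_, rfl⟩
  obtain ⟨wy, hwy⟩ : ∃ wy, wy = wY X Y F L μ := ⟨_, rfl⟩
  obtain ⟨δ, hδ⟩ : ∃ δ, δ = dd X Y F L μ := ⟨_, rfl⟩
  rw [← hdx, ← hdy, ← hD, ← hη, ← hwx, ← hwy, ← hδ]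
  have Df : ∀ f, D f = dx * X f + dy * Y f := fun f => by rw [hD, hdx, hdy]; rfl
  have δf : ∀ f, δ f = wx * X f + wy * Y f := fun f => by rw [hδ, hwx, hwy]; rfl
  have hη' : η = μ * D L := by rw [hη, hD]; rfl
  have hwx' : wx = D dx + 2 * η * dx := by rw [hwx, hη, hD, hdx]; rfl
  have hwy' : wy = D dy + 2 * η * dy := by rw [hwy, hη, hD, hdy]; rfl
  have hdx' : dx = μ * μ * μ * Y F := by rw [hdx]; rfl
  have hdy' : dy = -(μ * μ * μ * X F) := by rw [hdy]; rfl
  clear hdx hdy hD hη hwx hwy hδ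
  have Dx : D x = dx := by rw [Df, Xx, Yx]; ring
  have Dy : D y = dy := by rw [Df, Xy, Yy]; ring
  have δx : δ x = wx := by rw [δf, Xx, Yx]; ring
  have δy : δ y = wy := by rw [δf, Xy, Yy]; ring
  have DF : D F = 0 := by rw [Df, hdx', hdy']; ring
  have dXF : dx * X F + dy * Y F = 0 := by rw [hdx', hdy']; ring
  have L6 : L * L * L * L * L * L * (μ * μ * μ * μ * μ * μ) = 1 := by
    have : L * L * L * L * L * L * (μ * μ * μ * μ * μ * μ) = (L * μ) ^ 6 := by ring
    rw [this, Lμ, one_pow]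
  have DL : D L = η * L := by
    rw [hη']
    linear_combination (-(D L)) * Lμ
  -- `D dx X F + D dy Y F = 1`
  have Ddx0 : D dx = (D μ * μ * μ * 3) * Y F + μ * μ * μ * D (Y F) := by
    rw [hdx']
    simp only [Derivation.leibniz, smul_eq_mul]
    ring
  have Ddy0 : D dy = -((D μ * μ * μ * 3) * X F + μ * μ * μ * D (X F)) := by
    rw [hdy', map_neg]
    simp only [Derivation.leibniz, smul_eq_mul]
    ring
  have hh : μ * μ * μ * (X F * D (Y F) - Y F * D (X F)) = 1 := by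
    rw [Df, Df, hdx', hdy']
    linear_combination L6 - (μ * μ * μ * μ * μ * μ) * hL
  have δF : δ F = 1 := by
    rw [δf, hwx', hwy', Ddx0, Ddy0]
    linear_combination hh + 2 * η * dXF
  -- commutator
  obtain ⟨b1, hb1⟩ : ∃ b1, b1 = δ dx - D wx := ⟨_, rfl⟩
  obtain ⟨b2, hb2⟩ : ∃ b2, b2 = δ dy - D wy := ⟨_, rfl⟩
  have comm0 : ∀ f, δ (D f) = D (δ f) + b1 * X f + b2 * Y f := by
    intro f
    rw [hb1, hb2]
    have e1 : δ (D f) = δ dx * X f + dx * δ (X f) + δ dy * Y f + dy * δ (Y f) := by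
      rw [Df f]
      simp only [map_add, Derivation.leibniz, smul_eq_mul]
      ring
    have e2 : D (δ f) = D wx * X f + wx * D (X f) + D wy * Y f + wy * D (Y f) := by
      rw [δf f]
      simp only [map_add, Derivation.leibniz, smul_eq_mul]
      ring
    rw [e1, e2, δf (X f), δf (Y f), Df (X f), Df (Y f), XY f]
    ring
  have hbF : b1 * X F + b2 * Y F = 0 := by
    have h := comm0 F
    rw [DF, δF, map_zero, Derivation.map_one_eq_zero] at h
    linear_combination -h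
  obtain ⟨β, hβ⟩ : ∃ β, β = L * L * L * Gi * (b1 * Y F - b2 * X F) := ⟨_, rfl⟩
  have L3 : L * L * L * (μ * μ * μ) = 1 := by
    have : L * L * L * (μ * μ * μ) = (L * μ) ^ 3 := by ring
    rw [this, Lμ, one_pow]
  have hβx : β * dx = b1 := by
    rw [hβ, hdx']
    linear_combination (Gi * (b1 * Y F - b2 * X F) * Y F) * L3 + b1 * hG - Gi * X F * hbF
  have hβy : β * dy = b2 := by
    rw [hβ, hdy']
    linear_combination (-Gi * (b1 * Y F - b2 * X F) * X F) * L3 + b2 * hG - Gi * Y F * hbF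
  have comm : ∀ f, δ (D f) = D (δ f) + β * D f := by
    intro f
    rw [comm0 f, Df f]
    linear_combination (-X f) * hβx - Y f * hβy
  -- the frame
  obtain ⟨p0, hp0⟩ : ∃ p0 : Fin 3 → A, p0 = ![L * x, L * y, L] := ⟨_, rfl⟩
  obtain ⟨p1, hp1⟩ : ∃ p1 : Fin 3 → A, p1 = fun j => D (p0 j) := ⟨_, rfl⟩
  obtain ⟨p2, hp2⟩ : ∃ p2 : Fin 3 → A, p2 = fun j => D (p1 j) := ⟨_, rfl⟩
  obtain ⟨p3, hp3⟩ : ∃ p3 : Fin 3 → A, p3 = fun j => D (p2 j) := ⟨_, rfl⟩
  have p00 : p0 0 = L * x := by rw [hp0]; rfl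
  have p01 : p0 1 = L * y := by rw [hp0]; rfl
  have p02 : p0 2 = L := by rw [hp0]; rfl
  have Dp0 : ∀ j, D (p0 j) = p1 j := fun j => by rw [hp1]
  have Dp1 : ∀ j, D (p1 j) = p2 j := fun j => by rw [hp2]
  have Dp2 : ∀ j, D (p2 j) = p3 j := fun j => by rw [hp3]
  have Ddx1 : D dx = wx - 2 * η * dx := by rw [hwx']; ring
  have Ddy1 : D dy = wy - 2 * η * dy := by rw [hwy']; ring
  have p10 : p1 0 = η * L * x + L * dx := by
    rw [← Dp0, p00]
    simp only [Derivation.leibniz, smul_eq_mul, DL, Dx]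
    ring
  have p11 : p1 1 = η * L * y + L * dy := by
    rw [← Dp0, p01]
    simp only [Derivation.leibniz, smul_eq_mul, DL, Dy]
    ring
  have p12 : p1 2 = η * L := by rw [← Dp0, p02, DL]
  have p20 : p2 0 = (D η + η * η) * L * x + L * wx := by
    rw [← Dp1, p10]
    simp only [map_add, Derivation.leibniz, smul_eq_mul, DL, Dx, Ddx1]
    ring
  have p21 : p2 1 = (D η + η * η) * L * y + L * wy := by
    rw [← Dp1, p11]
    simp only [map_add, Derivation.leibniz, smul_eq_mul, DL, Dy, Ddy1]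
    ring
  have p22 : p2 2 = (D η + η * η) * L := by
    rw [← Dp1, p12]
    simp only [map_add, Derivation.leibniz, smul_eq_mul, DL]
    ring
  have hdet : det3 p0 p1 p2 = 1 := by
    unfold det3
    rw [p00, p01, p02, p10, p11, p12, p20, p21, p22, hwx', hwy', Ddx0, Ddy0, hdx', hdy']
    linear_combination (L * L * L * (μ * μ * μ)) * hh + L3
  have hΔ : L * L * L * (dx * wy - dy * wx) = 1 := by
    rw [hwx', hwy', Ddx0, Ddy0, hdx', hdy']
    linear_combination (L * L * L * (μ * μ * μ)) * hh + L3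
  obtain ⟨k0, hk0⟩ : ∃ k0, k0 = det3 p3 p1 p2 := ⟨_, rfl⟩
  obtain ⟨k1, hk1⟩ : ∃ k1, k1 = det3 p0 p3 p2 := ⟨_, rfl⟩
  have hz : det3 p0 p1 p3 = 0 := by
    have h := congrArg D hdet
    unfold det3 at h ⊢
    simp only [map_add, map_sub, Derivation.leibniz, smul_eq_mul, Dp0, Dp1, Dp2,
      Derivation.map_one_eq_zero] at h
    linear_combination h
  have Dp2' : ∀ j, D (p2 j) = k0 * p0 j + k1 * p1 j := by
    intro j
    have h := cramer3 p0 p1 p2 p3 j
    rw [hdet, hz, ← hk0, ← hk1] at h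
    rw [Dp2]
    linear_combination h
  obtain ⟨a, ha⟩ : ∃ a, a = μ * (δ L - D (D L)) := ⟨_, rfl⟩
  have haL : δ L = D (D L) + a * L := by
    rw [ha]
    linear_combination (-(δ L - D (D L))) * Lμ
  have DDL : D (D L) = (D η + η * η) * L := by
    rw [DL]
    simp only [Derivation.leibniz, smul_eq_mul, DL]
    ring
  have hp0j : ∀ j, δ (p0 j) = p2 j + a * p0 j := by
    intro j
    fin_cases j
    · show δ (p0 0) = p2 0 + a * p0 0
      rw [p00, p20]
      simp only [Derivation.leibniz, smul_eq_mul, haL, δx, DDL]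
      ring
    · show δ (p0 1) = p2 1 + a * p0 1
      rw [p01, p21]
      simp only [Derivation.leibniz, smul_eq_mul, haL, δy, DDL]
      ring
    · show δ (p0 2) = p2 2 + a * p0 2
      rw [p02, p22, haL, DDL]
  have Lc : ∀ u v : A, u * L = v * L → u = v := fun u v h => by
    linear_combination μ * h - (u - v) * Lμ
  -- third component of `D p2`
  have q2 := Dp2' 2
  have q0 := Dp2' 0
  have q1 := Dp2' 1
  rw [p22, p02, p12] at q2
  rw [p20, p00, p10] at q0
  rw [p21, p01, p11] at q1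
  simp only [map_add, Derivation.leibniz, smul_eq_mul, DL, Dx, Dy, Ddx1, Ddy1] at q0 q1 q2
  have Dwx : D wx = -η * wx + (k1 - D η - η * η) * dx := by
    apply Lc
    linear_combination q0 - x * q2
  have Dwy : D wy = -η * wy + (k1 - D η - η * η) * dy := by
    apply Lc
    linear_combination q1 - y * q2
  have hc : k0 + D a = δ η - (k1 + β) * η + η * D η + η * η * η := by
    apply Lc
    have h := comm L
    rw [haL, DDL, DL] at h
    simp only [map_add, Derivation.leibniz, smul_eq_mul, DL, haL, DDL] at h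
    linear_combination -h - q2
  refine ⟨k0, k1, a, β, p0, p1, p2, ⟨⟨comm, Dp0, Dp1, Dp2', hp0j, hdet⟩, Dx, Dy, δx, δy, DF, δF, DL,
    Ddx1, Ddy1, Dwx, Dwy, ?_, ?_, hc, p00, p01, p02, hΔ⟩⟩
  · linear_combination -hb1 - hβx
  · linear_combination -hb2 - hβy

end Pool.Agent.W5h48.AL
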