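import Pool.Agent.W5h48.AL.Main

set_option autoImplicit false
set_option linter.unusedSimpArgs false

open Set Filter Topology
open scoped ContDiff

namespace Pool.Agent.W5h48.AL

/-- second derivative of `F` along its tangent vector -/
noncomputable def bend (F : E2 → ℝ) (p : E2) : ℝ :=
  iteratedDeriv 2 (fun s : ℝ => F (p + s • tang F p)) 0

theorem bend_eq {W : Set E2} (hW : IsOpen W) (F : E2 → ℝ) (hF : ContDiffOn ℝ ∞ F W) {p : E2}
    (hp : p ∈ W) : bend F p = -ev (hForm hW (mk F hF)) p := by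
  obtain ⟨v, hv⟩ : ∃ v, v = tang F p := ⟨_, rfl⟩
  have hline : ∀ t : ℝ, HasDerivAt (fun t : ℝ => p + t • v) v t := by
    intro t
    have := ((hasDerivAt_id t).smul_const v).const_add p
    rwa [one_smul] at this
  have hcont : Continuous (fun t : ℝ => p + t • v) := by fun_prop
  have hmem : ∀ᶠ s in 𝓝 (0 : ℝ), p + s • v ∈ W := by
    apply hcont.continuousAt.preimage_mem_nhds
    rw [zero_smul, add_zero]
    exact hW.mem_nhds hp
  have hder : ∀ (h : Sm W) (s : ℝ), p + s • v ∈ W →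
      HasDerivAt (fun t : ℝ => ev h (p + t • v))
        (v.1 * ev (pX hW h) (p + s • v) + v.2 * ev (pY hW h) (p + s • v)) s := by
    intro h s hs
    rw [← fd_eq hW h hs]
    exact HasFDerivAt.comp_hasDerivAt (f := fun t : ℝ => p + t • v) s
      (ev_diff hW h hs) (hline s)
  have h1 : (fun s : ℝ => F (p + s • v)) =ᶠ[𝓝 0] fun s => ev (mk F hF : Sm W) (p + s • v) := by
    filter_upwards [hmem] with s hs
    exact (ev_mk _ _ hs).symm
  have h2 : deriv (fun s : ℝ => ev (mk F hF : Sm W) (p + s • v)) =ᶠ[𝓝 0] fun s =>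
      v.1 * ev (pX hW (mk F hF)) (p + s • v) + v.2 * ev (pY hW (mk F hF)) (p + s • v) := by
    filter_upwards [hmem] with s hs
    exact (hder _ s hs).deriv
  have hp' : p + (0 : ℝ) • v ∈ W := by rw [zero_smul, add_zero]; exact hp
  have h3 : HasDerivAt (fun s : ℝ => v.1 * ev (pX hW (mk F hF)) (p + s • v) +
      v.2 * ev (pY hW (mk F hF)) (p + s • v))
      (v.1 * (v.1 * ev (pX hW (pX hW (mk F hF))) p + v.2 * ev (pY hW (pX hW (mk F hF))) p) +
      v.2 * (v.1 * ev (pX hW (pY hW (mk F hF))) p + v.2 * ev (pY hW (pY hW (mk F hF))) p)) 0 := by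
    have a1 := (hder (pX hW (mk F hF)) 0 hp').const_mul v.1
    have a2 := (hder (pY hW (mk F hF)) 0 hp').const_mul v.2
    have a3 := a1.add a2
    simp only [zero_smul, add_zero] at a3
    exact a3
  have h4 : bend F p = v.1 * (v.1 * ev (pX hW (pX hW (mk F hF))) p +
      v.2 * ev (pY hW (pX hW (mk F hF))) p) +
      v.2 * (v.1 * ev (pX hW (pY hW (mk F hF))) p + v.2 * ev (pY hW (pY hW (mk F hF))) p) := by
    unfold bend
    rw [← hv, iteratedDeriv_succ, iteratedDeriv_one]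
    rw [Filter.EventuallyEq.deriv_eq (h1.deriv.trans h2)]
    exact h3.deriv
  rw [h4]
  have e1 : v.1 = ev (pY hW (mk F hF)) p := by
    rw [pd_mk hW _ _ _ hp, hv]
    rfl
  have e2 : v.2 = -ev (pX hW (mk F hF)) p := by
    rw [pd_mk hW _ _ _ hp, hv]
    rfl
  have e3 : ev (pY hW (pX hW (mk F hF))) p = ev (pX hW (pY hW (mk F hF))) p := by
    rw [pd_comm hW]
  unfold hForm
  simp only [ev_sub, ev_mul]
  rw [e1, e2, e3]
  ring

theorem bend_cont {W : Set E2} (hW : IsOpen W) (F : E2 → ℝ) (hF : ContDiffOn ℝ ∞ F W) :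
    ContinuousOn (bend F) W := by
  have h1 : ContinuousOn (fun p => -ev (hForm hW (mk F hF)) p) W := (ev_smooth _).continuousOn.neg
  exact h1.congr fun p hp => bend_eq hW F hF hp

theorem tang_neg (F : E2 → ℝ) (p : E2) : tang (-F) p = -tang F p := by
  unfold tang
  rw [fderiv_neg]
  ext <;> simp

theorem PI_neg {F : E2 → ℝ} {p : E2} (h : PI F p) : PI (-F) p := by
  obtain ⟨κ, ε, hε, H⟩ := h
  refine ⟨-κ, ε, hε, fun x y hx0 hx1 hy0 hy1 hxy => ?_⟩
  rw [tang_neg, Pi.neg_apply, Pi.neg_apply, neg_inj, smul_neg, smul_neg, sub_neg_eq_add,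
    ← sub_eq_add_neg] at hxy
  have := H y x hy0 hy1 hx0 hx1 hxy.symm
  linarith

theorem bend_neg (F : E2 → ℝ) (p : E2) : bend (-F) p = -bend F p := by
  unfold bend
  rw [tang_neg]
  have h2 := iteratedDeriv_comp_neg 2 (fun s : ℝ => -F (p + s • tang F p)) 0
  have h1 : (fun s : ℝ => (-F) (p + s • -tang F p)) =
      fun s : ℝ => (fun s : ℝ => -F (p + s • tang F p)) (-s) := by
    funext s
    simp
  rw [h1]
  refine h2.trans ?_
  rw [iteratedDeriv_fun_neg]
  simp

end Pool.Agent.W5h48.AL
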