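import Pool.Agent.W5h48.AL.Flat

set_option autoImplicit false
set_option linter.unusedSimpArgs false
set_option linter.unusedVariables false

open Set Filter Topology
open scoped ContDiff

namespace Pool.Agent.W5h48.AL

theorem exists_equiv (τ : E2) (g : E2 →L[ℝ] ℝ)
    (h : τ.1 * g ((0 : ℝ), (1 : ℝ)) - τ.2 * g ((1 : ℝ), (0 : ℝ)) ≠ 0) :
    ∃ A : E2 ≃L[ℝ] E2, (A : E2 →L[ℝ] E2) = (τ.1 • ContinuousLinearMap.fst ℝ ℝ ℝ +
      τ.2 • ContinuousLinearMap.snd ℝ ℝ ℝ).prod g := by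
  obtain ⟨B, hB⟩ : ∃ B : E2 →L[ℝ] E2, B = (τ.1 • ContinuousLinearMap.fst ℝ ℝ ℝ +
      τ.2 • ContinuousLinearMap.snd ℝ ℝ ℝ).prod g := ⟨_, rfl⟩
  have hinj : Function.Injective B.toLinearMap := by
    rw [← LinearMap.ker_eq_bot, LinearMap.ker_eq_bot']
    intro v hv
    have h6 : v = v.1 • ((1 : ℝ), (0 : ℝ)) + v.2 • ((0 : ℝ), (1 : ℝ)) := by
      ext <;> simp
    have e1 : τ.1 * v.1 + τ.2 * v.2 = 0 := by
      have := congrArg Prod.fst hv
      rw [hB] at this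
      simpa using this
    have e2 : v.1 * g ((1 : ℝ), (0 : ℝ)) + v.2 * g ((0 : ℝ), (1 : ℝ)) = 0 := by
      have := congrArg Prod.snd hv
      rw [hB] at this
      have h7 : g v = 0 := by simpa using this
      rw [h6, map_add, map_smul, map_smul, smul_eq_mul, smul_eq_mul] at h7
      exact h7
    have e3 : (τ.1 * g ((0 : ℝ), (1 : ℝ)) - τ.2 * g ((1 : ℝ), (0 : ℝ))) * v.1 = 0 := by
      linear_combination g ((0 : ℝ), (1 : ℝ)) * e1 - τ.2 * e2
    have e4 : (τ.1 * g ((0 : ℝ), (1 : ℝ)) - τ.2 * g ((1 : ℝ), (0 : ℝ))) * v.2 = 0 := by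
      linear_combination τ.1 * e2 - g ((1 : ℝ), (0 : ℝ)) * e1
    exact Prod.ext ((mul_eq_zero.mp e3).resolve_left h) ((mul_eq_zero.mp e4).resolve_left h)
  refine ⟨(LinearEquiv.ofInjectiveEndo B.toLinearMap hinj).toContinuousLinearEquiv, ?_⟩
  rw [← hB]
  ext <;> rfl

/-- the closure of a union of leaves is locally a union of leaves -/
theorem box {U V : Set E2} (hU : IsOpen U) {F : E2 → ℝ} (hF : ContDiffOn ℝ ∞ F U)
    (hreg : ∀ p ∈ U, tang F p ≠ 0)
    (hsat : ∀ c, LC F U c → (∃ s, c s ∈ V) → ∀ t, c t ∈ V) {z0 : E2} (hz : z0 ∈ U)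
    (hcl : z0 ∈ closure V) : ∀ᶠ z in 𝓝 z0, F z = F z0 → z ∈ closure V := by
  have hFat : ∀ p ∈ U, ContDiffAt ℝ ∞ F p := fun p hp => hF.contDiffAt (hU.mem_nhds hp)
  obtain ⟨τ, hτ⟩ : ∃ τ, τ = tang F z0 := ⟨_, rfl⟩
  obtain ⟨Φ, hΦ⟩ : ∃ Φ : E2 → E2, Φ = fun p => (τ.1 * p.1 + τ.2 * p.2, F p) := ⟨_, rfl⟩
  have hder : ∀ p ∈ U, HasStrictFDerivAt Φ ((τ.1 • ContinuousLinearMap.fst ℝ ℝ ℝ +
      τ.2 • ContinuousLinearMap.snd ℝ ℝ ℝ).prod (fderiv ℝ F p)) p := by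
    intro p hp
    rw [hΦ]
    have h1 : HasStrictFDerivAt F (fderiv ℝ F p) p := (hFat p hp).hasStrictFDerivAt (by simp)
    have h2 : HasStrictFDerivAt (fun p : E2 => τ.1 * p.1 + τ.2 * p.2)
        (τ.1 • ContinuousLinearMap.fst ℝ ℝ ℝ + τ.2 • ContinuousLinearMap.snd ℝ ℝ ℝ) p :=
      (τ.1 • ContinuousLinearMap.fst ℝ ℝ ℝ + τ.2 • ContinuousLinearMap.snd ℝ ℝ ℝ).hasStrictFDerivAt
    exact h2.prodMk h1
  obtain ⟨N, hN⟩ : ∃ N : Set E2, N = {p | p ∈ U ∧
    0 < τ.1 * fderiv ℝ F p ((0 : ℝ), (1 : ℝ)) - τ.2 * fderiv ℝ F p ((1 : ℝ), (0 : ℝ))} := ⟨_, rfl⟩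
  have hcd : ∀ v : E2, ContinuousOn (fun p => fderiv ℝ F p v) U := fun v =>
    ((hF.fderiv_of_isOpen hU (m := ∞) (by simp)).continuousOn).clm_apply continuousOn_const
  have hN0 : N ∈ 𝓝 z0 := by
    have h0 : 0 < τ.1 * fderiv ℝ F z0 ((0 : ℝ), (1 : ℝ)) -
        τ.2 * fderiv ℝ F z0 ((1 : ℝ), (0 : ℝ)) := by
      have h1 := hreg z0 hz
      unfold tang at hτ h1
      have h2 := sq_pos' h1
      rw [hτ]
      simp only
      nlinarith
    have h3 : ContinuousAt (fun p => τ.1 * fderiv ℝ F p ((0 : ℝ), (1 : ℝ)) -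
        τ.2 * fderiv ℝ F p ((1 : ℝ), (0 : ℝ))) z0 :=
      (((hcd _).continuousAt (hU.mem_nhds hz)).const_mul _).sub
        (((hcd _).continuousAt (hU.mem_nhds hz)).const_mul _)
    have h4 := h3.eventually (lt_mem_nhds h0)
    rw [hN]
    filter_upwards [hU.mem_nhds hz, h4] with p h5 h6 using ⟨h5, h6⟩
  have hNe : ∀ p ∈ N, ∃ A : E2 ≃L[ℝ] E2, HasFDerivAt Φ (A : E2 →L[ℝ] E2) p := by
    intro p hp
    rw [hN] at hp
    obtain ⟨A, hA⟩ := exists_equiv τ (fderiv ℝ F p) hp.2.ne'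
    exact ⟨A, by rw [hA]; exact (hder p hp.1).hasFDerivAt⟩
  have hz0N : z0 ∈ N := mem_of_mem_nhds hN0
  obtain ⟨A0, hA0⟩ := exists_equiv τ (fderiv ℝ F z0) (by
    rw [hN] at hz0N
    exact hz0N.2.ne')
  have hs0 : HasStrictFDerivAt Φ (A0 : E2 →L[ℝ] E2) z0 := by rw [hA0]; exact hder z0 hz
  obtain ⟨e, he⟩ : ∃ e : OpenPartialHomeomorph E2 E2, e = hs0.toOpenPartialHomeomorph Φ := ⟨_, rfl⟩
  have hecoe : ∀ p, e p = Φ p := fun p => by rw [he, HasStrictFDerivAt.toOpenPartialHomeomorph_coe]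
  have hesrc : z0 ∈ e.source := by rw [he]; exact hs0.mem_toOpenPartialHomeomorph_source
  have hetgt : Φ z0 ∈ e.target := by rw [← hecoe]; exact e.map_source hesrc
  have hsymm0 : e.symm (Φ z0) = z0 := by rw [← hecoe]; exact e.left_inv hesrc
  have hcs : ContinuousAt e.symm (Φ z0) := e.symm.continuousAt hetgt
  have h1 : e.target ∩ e.symm ⁻¹' N ∈ 𝓝 (Φ z0) := by
    refine inter_mem (e.open_target.mem_nhds hetgt) (hcs.preimage_mem_nhds ?_)
    rw [hsymm0]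
    exact hN0
  obtain ⟨δ, hδ, hball⟩ := Metric.mem_nhds_iff.mp h1
  obtain ⟨x0, hx0⟩ : ∃ x, x = τ.1 * z0.1 + τ.2 * z0.2 := ⟨_, rfl⟩
  have hΦ0 : Φ z0 = (x0, F z0) := by rw [hΦ, hx0]
  have hin : ∀ x u : ℝ, |x - x0| < δ → |u - F z0| < δ → ((x, u) : E2) ∈ Metric.ball (Φ z0) δ := by
    intro x u hx hu
    rw [hΦ0, Metric.mem_ball, Prod.dist_eq, Real.dist_eq, Real.dist_eq]
    exact max_lt hx hu
  have hβN : ∀ x u : ℝ, |x - x0| < δ → |u - F z0| < δ → e.symm ((x, u) : E2) ∈ N :=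
    fun x u hx hu => (hball (hin x u hx hu)).2
  have hβΦ : ∀ x u : ℝ, |x - x0| < δ → |u - F z0| < δ → Φ (e.symm ((x, u) : E2)) = (x, u) := by
    intro x u hx hu
    rw [← hecoe]
    exact e.right_inv (hball (hin x u hx hu)).1
  have hβd : ∀ x u : ℝ, |x - x0| < δ → |u - F z0| < δ → ∃ v : E2, v ≠ 0 ∧
      HasDerivAt (fun x : ℝ => e.symm ((x, u) : E2)) v x := by
    intro x u hx hu
    obtain ⟨A, hA⟩ := hNe _ (hβN x u hx hu)
    have h2 : HasFDerivAt e.symm (A.symm : E2 →L[ℝ] E2) ((x, u) : E2) := by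
      refine e.hasFDerivAt_symm (hball (hin x u hx hu)).1 ?_
      have h3 : (e : E2 → E2) = Φ := funext hecoe
      rw [h3]
      exact hA
    have h4 : HasDerivAt (fun x : ℝ => ((x, u) : E2)) ((1, 0) : E2) x :=
      (hasDerivAt_id x).prodMk (hasDerivAt_const x u)
    refine ⟨A.symm ((1, 0) : E2), ?_,
      HasFDerivAt.comp_hasDerivAt (f := fun x : ℝ => ((x, u) : E2)) x h2 h4⟩
    intro h5
    have h6 : ((1, 0) : E2) = 0 := by
      have := congrArg A h5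
      rwa [A.apply_symm_apply, map_zero] at this
    exact one_ne_zero (congrArg Prod.fst h6)
  -- saturation inside the box
  have hbox : ∀ u : ℝ, |u - F z0| < δ → (∃ x1 : ℝ, |x1 - x0| < δ ∧ e.symm ((x1, u) : E2) ∈ V) →
      ∀ x : ℝ, |x - x0| < δ → e.symm ((x, u) : E2) ∈ V := by
    intro u hu hex x hx
    obtain ⟨φ, hφ⟩ : ∃ φ : ℝ → ℝ, φ = fun s => x0 + δ * (2 / Real.pi) * Real.arctan s := ⟨_, rfl⟩
    have hφin : ∀ s, |φ s - x0| < δ := by
      intro s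
      rw [hφ]
      simp only [add_sub_cancel_left]
      have hp := Real.pi_pos
      have h2 : |Real.arctan s| < Real.pi / 2 := abs_lt.mpr
        ⟨Real.neg_pi_div_two_lt_arctan s, Real.arctan_lt_pi_div_two s⟩
      rw [abs_mul, abs_of_pos (by positivity : 0 < δ * (2 / Real.pi))]
      calc δ * (2 / Real.pi) * |Real.arctan s| < δ * (2 / Real.pi) * (Real.pi / 2) :=
            mul_lt_mul_of_pos_left h2 (by positivity)
        _ = δ := by field_simp
    have hφsurj : ∀ x : ℝ, |x - x0| < δ → ∃ s, φ s = x := by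
      intro x hx
      have hp := Real.pi_pos
      rw [abs_lt] at hx
      refine ⟨Real.tan ((x - x0) / δ * (Real.pi / 2)), ?_⟩
      have h3 : -1 < (x - x0) / δ := by rw [lt_div_iff₀ hδ]; linarith
      have h4 : (x - x0) / δ < 1 := by rw [div_lt_iff₀ hδ]; linarith
      rw [hφ]
      simp only
      rw [Real.arctan_tan (by nlinarith) (by nlinarith)]
      field_simp
      ring
    have hφd : ∀ s, HasDerivAt φ (δ * (2 / Real.pi) * (1 / (1 + s ^ 2))) s := by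
      intro s
      rw [hφ]
      exact ((Real.hasDerivAt_arctan s).const_mul _).const_add x0
    have hLC : LC F U (fun s => e.symm ((φ s, u) : E2)) := by
      have hd : ∀ s, ∃ v : E2, v ≠ 0 ∧ HasDerivAt (fun s => e.symm ((φ s, u) : E2)) v s := by
        intro s
        obtain ⟨v, hv, hvd⟩ := hβd (φ s) u (hφin s) hu
        refine ⟨(δ * (2 / Real.pi) * (1 / (1 + s ^ 2))) • v, ?_, ?_⟩
        · have hp := Real.pi_pos
          have : 0 < δ * (2 / Real.pi) * (1 / (1 + s ^ 2)) := by positivity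
          exact smul_ne_zero this.ne' hv
        · exact HasDerivAt.scomp s hvd (hφd s)
      have hmem : ∀ s, e.symm ((φ s, u) : E2) ∈ U := fun s => by
        have := hβN (φ s) u (hφin s) hu
        rw [hN] at this
        exact this.1
      have hval : ∀ s, F (e.symm ((φ s, u) : E2)) = u := fun s => by
        have := congrArg Prod.snd (hβΦ (φ s) u (hφin s) hu)
        rw [hΦ] at this
        exact this
      refine ⟨fun s => ?_, fun s => ?_, hmem, fun s => ?_, fun s => hreg _ (hmem s)⟩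
      · obtain ⟨v, -, hv⟩ := hd s
        exact hv.differentiableAt
      · obtain ⟨v, hv0, hv⟩ := hd s
        rw [hv.deriv]
        exact hv0
      · rw [hval, hval]
    obtain ⟨x1, hx1, hV1⟩ := hex
    obtain ⟨s1, hs1⟩ := hφsurj x1 hx1
    obtain ⟨s2, hs2⟩ := hφsurj x hx
    have := hsat _ hLC ⟨s1, by simp only [hs1]; exact hV1⟩ s2
    simp only [hs2] at this
    exact this
  -- conclusion
  have hxc : Continuous fun p : E2 => τ.1 * p.1 + τ.2 * p.2 := by fun_prop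
  have hnear : ∀ᶠ p in 𝓝 z0, p ∈ e.source ∧ |τ.1 * p.1 + τ.2 * p.2 - x0| < δ ∧
      |F p - F z0| < δ := by
    have a1 : ∀ᶠ p in 𝓝 z0, |τ.1 * p.1 + τ.2 * p.2 - x0| < δ := by
      have h2 : ContinuousAt (fun p : E2 => |τ.1 * p.1 + τ.2 * p.2 - x0|) z0 := by fun_prop
      refine h2.eventually (gt_mem_nhds ?_)
      show |τ.1 * z0.1 + τ.2 * z0.2 - x0| < δ
      rw [hx0, sub_self, abs_zero]
      exact hδ
    have a2 : ∀ᶠ p in 𝓝 z0, |F p - F z0| < δ := by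
      have h2 : ContinuousAt (fun p : E2 => |F p - F z0|) z0 :=
        (((hFat z0 hz).continuousAt).sub continuousAt_const).abs
      refine h2.eventually (gt_mem_nhds ?_)
      show |F z0 - F z0| < δ
      rw [sub_self, abs_zero]
      exact hδ
    filter_upwards [e.open_source.mem_nhds hesrc, a1, a2] with p b1 b2 b3 using ⟨b1, b2, b3⟩
  filter_upwards [hnear] with z hzn hFz
  obtain ⟨x, hx⟩ : ∃ x, x = τ.1 * z.1 + τ.2 * z.2 := ⟨_, rfl⟩
  have hxδ : |x - x0| < δ := by rw [hx]; exact hzn.2.1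
  have hzβ : e.symm ((x, F z0) : E2) = z := by
    have h2 : Φ z = (x, F z0) := by rw [hΦ, hx, ← hFz]
    rw [← h2, ← hecoe]
    exact e.left_inv hzn.1
  have hne : (𝓝[V] z0).NeBot := mem_closure_iff_nhdsWithin_neBot.mp hcl
  have htend : Tendsto (fun p => e.symm ((x, F p) : E2)) (𝓝[V] z0) (𝓝 z) := by
    have h2 : ContinuousAt (fun p : E2 => ((x, F p) : E2)) z0 :=
      continuousAt_const.prodMk (hFat z0 hz).continuousAt
    have h3 : ContinuousAt e.symm ((x, F z0) : E2) :=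
      e.symm.continuousAt (hball (hin x (F z0) hxδ (by simpa using hδ))).1
    have h4 : ContinuousAt (fun p => e.symm ((x, F p) : E2)) z0 :=
      ContinuousAt.comp (f := fun p : E2 => ((x, F p) : E2)) h3 h2
    have h5 : Tendsto (fun p => e.symm ((x, F p) : E2)) (𝓝[V] z0)
      (𝓝 (e.symm ((x, F z0) : E2))) := h4.tendsto.mono_left nhdsWithin_le_nhds
    rwa [hzβ] at h5
  refine mem_closure_of_tendsto htend ?_
  filter_upwards [self_mem_nhdsWithin, mem_nhdsWithin_of_mem_nhds hnear] with p hpV hpn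
  refine hbox (F p) hpn.2.2 ⟨τ.1 * p.1 + τ.2 * p.2, hpn.2.1, ?_⟩ x hxδ
  have h2 : Φ p = (τ.1 * p.1 + τ.2 * p.2, F p) := by rw [hΦ]
  rw [← h2, ← hecoe, e.left_inv hpn.1]
  exact hpV

end Pool.Agent.W5h48.AL
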