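import Pool.Agent.W5h48.AL.Base

set_option autoImplicit false
set_option linter.unusedSimpArgs false

namespace Pool.Agent.W5h48.AL

variable {A A' : Type*} [CommRing A] [Algebra ℝ A] [CommRing A'] [Algebra ℝ A']

/-- restriction of the relations to a smaller open set -/
theorem restrict_frame {X Y D δ : Derivation ℝ A A} {X' Y' D' δ' : Derivation ℝ A' A'}
    {r : A →ₐ[ℝ] A'} {x y F L η dx dy wx wy k0 k1 a β : A} {p0 p1 p2 : Fin 3 → A}
    (R : Rel D δ x y F L η dx dy wx wy k0 k1 a β p0 p1 p2)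
    (hD : ∀ f, D f = dx * X f + dy * Y f) (hδ : ∀ f, δ f = wx * X f + wy * Y f)
    (hD' : ∀ f, D' f = r dx * X' f + r dy * Y' f) (hδ' : ∀ f, δ' f = r wx * X' f + r wy * Y' f)
    (rX : ∀ f, r (X f) = X' (r f)) (rY : ∀ f, r (Y f) = Y' (r f))
    (XY' : ∀ f, X' (Y' f) = Y' (X' f)) :
    (∀ f, r (D f) = D' (r f)) ∧ (∀ f, r (δ f) = δ' (r f)) ∧
    Frame D' δ' (r k0) (r k1) (r a) (r β) (fun j => r (p0 j)) (fun j => r (p1 j))
      (fun j => r (p2 j)) := by
  have rD : ∀ f, r (D f) = D' (r f) := fun f => by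
    rw [hD, hD', map_add, map_mul, map_mul, rX, rY]
  have rδ : ∀ f, r (δ f) = δ' (r f) := fun f => by
    rw [hδ, hδ', map_add, map_mul, map_mul, rX, rY]
  refine ⟨rD, rδ, ?_, ?_, ?_, ?_, ?_, ?_⟩
  · intro f
    have e1 : δ' (D' f) = δ' (r dx) * X' f + r dx * δ' (X' f) + δ' (r dy) * Y' f +
        r dy * δ' (Y' f) := by
      rw [hD' f]
      simp only [map_add, Derivation.leibniz, smul_eq_mul]
      ring
    have e2 : D' (δ' f) = D' (r wx) * X' f + r wx * D' (X' f) + D' (r wy) * Y' f +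
        r wy * D' (Y' f) := by
      rw [hδ' f]
      simp only [map_add, Derivation.leibniz, smul_eq_mul]
      ring
    have e3 : δ' (r dx) = D' (r wx) + r β * r dx := by
      rw [← rδ, R.δdx, map_add, rD, map_mul]
    have e4 : δ' (r dy) = D' (r wy) + r β * r dy := by
      rw [← rδ, R.δdy, map_add, rD, map_mul]
    rw [e1, e2, e3, e4, hδ' (X' f), hδ' (Y' f), hD' (X' f), hD' (Y' f), hD' f, XY' f]
    ring
  · intro j
    rw [← rD, R.frame.Dp0]
  · intro j
    rw [← rD, R.frame.Dp1]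
  · intro j
    rw [← rD, R.frame.Dp2, map_add, map_mul, map_mul]
  · intro j
    rw [← rδ, R.frame.δp0, map_add, map_mul]
  · have h := congrArg r R.frame.det
    unfold det3 at h ⊢
    simp only [map_add, map_sub, map_mul, map_one] at h
    exact h

/-- the jet relations on an open set where the Taylor coefficients vanish -/
theorem jet_of {X Y D δ : Derivation ℝ A A} {X' Y' D' δ' : Derivation ℝ A' A'}
    {r : A →ₐ[ℝ] A'} {x y F L η dx dy wx wy k0 k1 a β H5 H7 : A} {p0 p1 p2 : Fin 3 → A}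
    (R : Rel D δ x y F L η dx dy wx wy k0 k1 a β p0 p1 p2)
    (hD : ∀ f, D f = dx * X f + dy * Y f) (hδ : ∀ f, δ f = wx * X f + wy * Y f)
    (hD' : ∀ f, D' f = r dx * X' f + r dy * Y' f) (hδ' : ∀ f, δ' f = r wx * X' f + r wy * Y' f)
    (rX : ∀ f, r (X f) = X' (r f)) (rY : ∀ f, r (Y f) = Y' (r f))
    (XY' : ∀ f, X' (Y' f) = Y' (X' f))
    (h5 : H5 = 24 * (k0 + D a) - 6 * D (k1 + β))
    (h7 : H7 = D (D H5 + 30 * δ (k1 + β) - 120 * (k1 + β) * (k1 + β))
      - 6 * δ H5 + 30 * (k1 + β) * H5 + 720 * (k0 + D a) * (k1 + β))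
    (z5 : r H5 = 0) (z7 : r H7 = 0) :
    ∃ i, 3 * i = D' (r β) + 2 * (r k0 + D' (r a)) ∧ r k0 = 3 * (r k0 + D' (r a)) + i ∧
      3 * (r k1 + r a + r β) = r k1 ∧ Jet D' δ' (r k1) (r β) (r k0 + D' (r a)) i := by
  obtain ⟨rD, rδ, T⟩ := restrict_frame R hD hδ hD' hδ' rX rY XY'
  have g5 := congrArg r h5
  have g7 := congrArg r h7
  rw [z5] at g5
  rw [z7] at g7
  simp only [map_add, map_sub, map_mul, map_ofNat, rD, rδ, z5, map_zero, mul_zero, sub_zero,
    add_zero, zero_add, Derivation.leibniz, smul_eq_mul, der_num] at g5 g7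
  have q1 : D' (r k1 + r β) = 4 * (r k0 + D' (r a)) := by
    refine nat_cancel (n := 6) (by norm_num) ?_
    push_cast
    rw [map_add]
    linear_combination g5
  refine T.jet q1 ?_
  refine nat_cancel (n := 30) (by norm_num) ?_
  push_cast
  rw [map_add] at q1
  simp only [map_add]
  linear_combination -g7 + 240 * (r k1 + r β) * q1

/-- cross product -/
def cr (u v : Fin 3 → A) : Fin 3 → A :=
  ![u 1 * v 2 - u 2 * v 1, u 2 * v 0 - u 0 * v 2, u 0 * v 1 - u 1 * v 0]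

theorem D_cr (D : Derivation ℝ A A) (u v : Fin 3 → A) (j : Fin 3) :
    D (cr u v j) = cr (fun j => D (u j)) v j + cr u (fun j => D (v j)) j := by
  fin_cases j <;>
  · simp only [cr, Fin.zero_eta, Fin.mk_one, Fin.reduceFinMk, Matrix.cons_val_zero,
      Matrix.cons_val_one, Matrix.cons_val, map_sub, Derivation.leibniz, smul_eq_mul]
    ring

theorem cr_lin (u v w z : Fin 3 → A) (a b c : A) (j : Fin 3) :
    cr (fun j => a * u j + b * v j + c * w j) z j = a * cr u z j + b * cr v z j + c * cr w z j ∧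
    cr z (fun j => a * u j + b * v j + c * w j) j = a * cr z u j + b * cr z v j + c * cr z w j := by
  constructor <;> fin_cases j <;>
  · simp only [cr, Fin.zero_eta, Fin.mk_one, Fin.reduceFinMk, Matrix.cons_val_zero,
      Matrix.cons_val_one, Matrix.cons_val]
    ring

theorem cr_self (u : Fin 3 → A) (j : Fin 3) : cr u u j = 0 := by
  fin_cases j <;>
  · simp only [cr, Fin.zero_eta, Fin.mk_one, Fin.reduceFinMk, Matrix.cons_val_zero,
      Matrix.cons_val_one, Matrix.cons_val]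
    ring

theorem cr_anti (u v : Fin 3 → A) (j : Fin 3) : cr u v j = -cr v u j := by
  fin_cases j <;>
  · simp only [cr, Fin.zero_eta, Fin.mk_one, Fin.reduceFinMk, Matrix.cons_val_zero,
      Matrix.cons_val_one, Matrix.cons_val]
    ring

/-- the conic of the leaf -/
def Bf (k1 : A) (p0 p1 p2 : Fin 3 → A) (j l : Fin 3) : A :=
  cr p2 p0 j * cr p2 p0 l - (cr p1 p2 j * cr p0 p1 l + cr p0 p1 j * cr p1 p2 l) -
    k1 * (cr p0 p1 j * cr p0 p1 l)

/-- the second conic -/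
def Cf (c c' : A) (p0 p1 p2 : Fin 3 → A) (j l : Fin 3) : A :=
  cr p1 p2 j * cr p1 p2 l - c * (cr p2 p0 j * cr p0 p1 l + cr p0 p1 j * cr p2 p0 l) -
    c' * (cr p0 p1 j * cr p0 p1 l)

theorem forms {D δ : Derivation ℝ A A} {k0 k1 a β c : A} {p0 p1 p2 : Fin 3 → A}
    (T : Frame D δ k0 k1 a β p0 p1 p2) (hc : c = k0 + D a) (hk0 : k0 = 3 * c)
    (hm : 3 * (k1 + a + β) = k1) (J : Jet D δ k1 β c 0) (j l : Fin 3) :
    D (Bf k1 p0 p1 p2 j l) = 0 ∧ D (Cf c (D c) p0 p1 p2 j l) = 2 * c * Bf k1 p0 p1 p2 j l ∧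
    δ (Bf k1 p0 p1 p2 j l) = -2 * (k1 + a + β) * Bf k1 p0 p1 p2 j l +
      2 * Cf c (D c) p0 p1 p2 j l ∧
    δ (Cf c (D c) p0 p1 p2 j l) = -2 * a * Cf c (D c) p0 p1 p2 j l := by
  obtain ⟨c1, hc1⟩ : ∃ c1, D c = c1 := ⟨_, rfl⟩
  obtain ⟨m, hm'⟩ : ∃ m, m = k1 + a + β := ⟨_, rfl⟩
  have Dk := J.Dk
  have Dβ := J.Dβ
  have hδk := J.δk
  have hδc := J.δc
  have hδi := J.δi
  simp only [map_zero, mul_zero, sub_zero, add_zero, hc1] at Dk Dβ hδk hδc hδi
  have hDc1 : D c1 = 4 * k1 * c := by linear_combination -hδi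
  have hDm : D m = 2 * c := by
    refine nat_cancel (n := 3) (by norm_num) ?_
    have h := congrArg D hm
    rw [← hm'] at h
    simp only [Derivation.leibniz, smul_eq_mul, der_num, Dk] at h
    push_cast
    linear_combination h
  have htr : a + 2 * m + β = 0 := by
    have := T.trace
    rw [hm']
    linear_combination this
  have hδc1 : δ c1 = 6 * c * c + 4 * β * c1 + 2 * k1 * c1 := by
    have h := J.comm c
    rw [hc1, hδc] at h
    simp only [map_add, Derivation.leibniz, smul_eq_mul, der_num, Dk, Dβ, hc1] at h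
    linear_combination h
  -- derivatives of the dual frame
  have hp2 : (fun j => D (p2 j)) = fun j => k0 * p0 j + k1 * p1 j + 0 * p2 j := by
    funext j
    rw [T.Dp2]; ring
  have hp0' : (fun j => D (p0 j)) = p1 := by funext j; exact T.Dp0 j
  have hp1' : (fun j => D (p1 j)) = p2 := by funext j; exact T.Dp1 j
  have d0 : (fun j => δ (p0 j)) = fun j => a * p0 j + 0 * p1 j + 1 * p2 j := by
    funext j
    rw [T.δp0]; ring
  have d1 : (fun j => δ (p1 j)) = fun j => c * p0 j + m * p1 j + 0 * p2 j := by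
    funext j
    rw [T.δp1, ← hc, ← hm']; ring
  have d2 : (fun j => δ (p2 j)) = fun j => c1 * p0 j + 3 * c * p1 j + (m + β) * p2 j := by
    funext j
    rw [T.δp2, ← hc, ← hm', hc1, hDm]
    have e : k1 + a + 2 * β = m + β := by rw [hm']; ring
    rw [e]
    ring
  have U0 : ∀ j, D (cr p1 p2 j) = -k0 * cr p0 p1 j := fun j => by
    rw [D_cr, hp1', hp2, (cr_lin p0 p1 p2 p1 k0 k1 0 j).2, cr_self, cr_self, cr_anti p1 p0]
    ring
  have U1 : ∀ j, D (cr p2 p0 j) = -k1 * cr p0 p1 j - cr p1 p2 j := fun j => by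
    rw [D_cr, hp0', hp2, (cr_lin p0 p1 p2 p0 k0 k1 0 j).1, cr_self, cr_anti p1 p0, cr_anti p2 p1]
    ring
  have U2 : ∀ j, D (cr p0 p1 j) = -cr p2 p0 j := fun j => by
    rw [D_cr, hp0', hp1', cr_self, cr_anti p0 p2]
    ring
  have V0 : ∀ j, δ (cr p1 p2 j) = -a * cr p1 p2 j - c * cr p2 p0 j - c1 * cr p0 p1 j := fun j => by
    rw [D_cr, d1, d2, (cr_lin p0 p1 p2 p2 c m 0 j).1, (cr_lin p0 p1 p2 p1 c1 (3 * c) (m + β) j).2,
      cr_self, cr_self, cr_anti p0 p2, cr_anti p1 p0]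
    linear_combination (cr p1 p2 j) * htr
  have V1 : ∀ j, δ (cr p2 p0 j) = -m * cr p2 p0 j - 3 * c * cr p0 p1 j := fun j => by
    rw [D_cr, d0, d2, (cr_lin p0 p1 p2 p0 c1 (3 * c) (m + β) j).1, (cr_lin p0 p1 p2 p2 a 0 1 j).2,
      cr_self, cr_self, cr_anti p1 p0, cr_anti p2 p1]
    linear_combination (cr p2 p0 j) * htr
  have V2 : ∀ j, δ (cr p0 p1 j) = -(m + β) * cr p0 p1 j - cr p1 p2 j := fun j => by
    rw [D_cr, d0, d1, (cr_lin p0 p1 p2 p1 a 0 1 j).1, (cr_lin p0 p1 p2 p0 c m 0 j).2,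
      cr_self, cr_self, cr_anti p2 p1, cr_anti p0 p2]
    linear_combination (cr p0 p1 j) * htr
  have hm3 : 3 * m = k1 := by rw [hm']; exact hm
  rw [← hm']
  unfold Bf Cf
  refine ⟨?_, ?_, ?_, ?_⟩
  · simp only [map_add, map_sub, Derivation.leibniz, smul_eq_mul, U0, U1, U2, Dk]
    linear_combination (2 * cr p0 p1 j * cr p0 p1 l) * hk0
  · simp only [map_add, map_sub, Derivation.leibniz, smul_eq_mul, U0, U1, U2, Dk, hc1, hDc1]
    linear_combination (-(cr p0 p1 j * cr p1 p2 l) - cr p1 p2 j * cr p0 p1 l) * hk0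
  · simp only [map_add, map_sub, Derivation.leibniz, smul_eq_mul, V0, V1, V2, hδk, hc1]
    linear_combination (cr p1 p2 j * cr p0 p1 l + cr p0 p1 j * cr p1 p2 l) * htr -
      (cr p0 p1 l * cr p1 p2 j + cr p0 p1 j * cr p1 p2 l) * hm3
  · simp only [map_add, map_sub, Derivation.leibniz, smul_eq_mul, V0, V1, V2, hδc, hc1, hδc1]
    linear_combination (-2 * (c * (cr p2 p0 l * cr p0 p1 j + cr p0 p1 l * cr p2 p0 j) +
      c1 * (cr p0 p1 l * cr p0 p1 j))) * htr + (2 * (c * (cr p2 p0 l * cr p0 p1 j +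
      cr p0 p1 l * cr p2 p0 j) + c1 * (cr p0 p1 l * cr p0 p1 j))) * hm3

end Pool.Agent.W5h48.AL
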