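import Pool.Agent.W5h48.AL.Geo

set_option autoImplicit false
set_option linter.unusedSimpArgs false

open Set Filter Topology
open scoped ContDiff

namespace Pool.Agent.W5h48.AL

theorem fd_eq {U : Set E2} (hU : IsOpen U) (f : Sm U) {w : E2} (hw : w ∈ U) (u : E2) :
    fderiv ℝ (ev f) w u = u.1 * ev (pX hU f) w + u.2 * ev (pY hU f) w := by
  rw [ev_pd hU _ _ hw, ev_pd hU _ _ hw]
  have h6 : u = u.1 • ((1 : ℝ), (0 : ℝ)) + u.2 • ((0 : ℝ), (1 : ℝ)) := by
    ext <;> simp
  conv_lhs => rw [h6]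
  rw [map_add, map_smul, map_smul, smul_eq_mul, smul_eq_mul]

/-- bound of finitely many smooth functions on a closed ball -/
theorem exists_bound {U : Set E2} (s : Finset (Sm U)) {z : E2} {r : ℝ}
    (hr : Metric.closedBall z r ⊆ U) :
    ∃ M : ℝ, 0 ≤ M ∧ ∀ f ∈ s, ∀ w ∈ Metric.closedBall z r, |ev f w| ≤ M := by
  classical
  induction s using Finset.induction_on with
  | empty => exact ⟨0, le_rfl, by simp⟩
  | insert f s hf ih =>
    obtain ⟨M, hM, h⟩ := ih
    obtain ⟨C, hC⟩ := (isCompact_closedBall z r).exists_bound_of_continuousOn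
      ((ev_smooth f).continuousOn.mono hr)
    refine ⟨max M C, hM.trans (le_max_left _ _), fun g hg w hw => ?_⟩
    rcases Finset.mem_insert.mp hg with rfl | hg
    · exact (hC w hw).trans (le_max_right _ _)
    · exact (h g hg w hw).trans (le_max_left _ _)

theorem lin_zero {U : Set E2} (hU : IsOpen U) (hUc : IsPreconnected U)
    {f g a1 a2 a3 a4 b1 b2 b3 b4 : Sm U}
    (hXf : pX hU f = a1 * f + a2 * g) (hXg : pX hU g = a3 * f + a4 * g)
    (hYf : pY hU f = b1 * f + b2 * g) (hYg : pY hU g = b3 * f + b4 * g) {z0 : E2} (hz0 : z0 ∈ U)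
    (f0 : ev f z0 = 0) (g0 : ev g z0 = 0) : ∀ z ∈ U, ev f z = 0 ∧ ev g z = 0 := by
  classical
  obtain ⟨S, hS⟩ : ∃ S : Set E2, S = {z | z ∈ U ∧ ev f z = 0 ∧ ev g z = 0} := ⟨_, rfl⟩
  have hSo : IsOpen S := by
    rw [isOpen_iff_mem_nhds]
    intro z1 hz1
    rw [hS] at hz1
    obtain ⟨hz1U, hf1, hg1⟩ := hz1
    obtain ⟨r, hr, hball⟩ := Metric.nhds_basis_closedBall.mem_iff.mp (hU.mem_nhds hz1U)
    obtain ⟨M, hM0, hM⟩ := exists_bound ({a1, a2, a3, a4, b1, b2, b3, b4} : Finset (Sm U)) hball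
    refine Filter.mem_of_superset (Metric.ball_mem_nhds z1 hr) fun z hz => ?_
    have hzU : z ∈ U := hball (Metric.ball_subset_closedBall hz)
    obtain ⟨u, hu⟩ : ∃ u, u = z - z1 := ⟨_, rfl⟩
    have hmem : ∀ t ∈ Icc (0 : ℝ) 1, z1 + t • u ∈ Metric.closedBall z1 r := by
      intro t ht
      rw [mem_closedBall_iff_norm, add_sub_cancel_left, norm_smul, Real.norm_eq_abs,
        abs_of_nonneg ht.1]
      have h1 : ‖u‖ < r := by rw [hu]; exact mem_ball_iff_norm.mp hz
      nlinarith [ht.2, norm_nonneg u]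
    have hline : ∀ t : ℝ, HasDerivAt (fun t : ℝ => z1 + t • u) u t := by
      intro t
      have := ((hasDerivAt_id t).smul_const u).const_add z1
      rwa [one_smul] at this
    have hder : ∀ (h : Sm U) (t : ℝ), t ∈ Icc (0 : ℝ) 1 →
        HasDerivAt (fun t : ℝ => ev h (z1 + t • u))
          (u.1 * ev (pX hU h) (z1 + t • u) + u.2 * ev (pY hU h) (z1 + t • u)) t := by
      intro h t ht
      rw [← fd_eq hU h (hball (hmem t ht))]
      exact HasFDerivAt.comp_hasDerivAt (f := fun t : ℝ => z1 + t • u) t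
        (ev_diff hU h (hball (hmem t ht))) (hline t)
    have hgr := norm_le_gronwallBound_of_norm_deriv_right_le
      (f := fun t : ℝ => ((ev f (z1 + t • u), ev g (z1 + t • u)) : ℝ × ℝ))
      (f' := fun t : ℝ => ((u.1 * ev (pX hU f) (z1 + t • u) + u.2 * ev (pY hU f) (z1 + t • u),
        u.1 * ev (pX hU g) (z1 + t • u) + u.2 * ev (pY hU g) (z1 + t • u)) : ℝ × ℝ))
      (δ := 0) (K := 4 * M * ‖u‖) (ε := 0) (a := 0) (b := 1)
      (fun t ht => ((hder f t ht).prodMk (hder g t ht)).continuousAt.continuousWithinAt)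
      (fun t ht => ((hder f t (Ico_subset_Icc_self ht)).prodMk
        (hder g t (Ico_subset_Icc_self ht))).hasDerivWithinAt)
      (by simp [hf1, hg1])
      (fun t ht => by
        have hw := hmem t (Ico_subset_Icc_self ht)
        obtain ⟨w, hwd⟩ : ∃ w, w = z1 + t • u := ⟨_, rfl⟩
        rw [← hwd] at hw
        simp only [← hwd]
        have e1 : |u.1| ≤ ‖u‖ := norm_fst_le u
        have e2 : |u.2| ≤ ‖u‖ := norm_snd_le u
        obtain ⟨N, hN⟩ : ∃ N, N = ‖((ev f w, ev g w) : ℝ × ℝ)‖ := ⟨_, rfl⟩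
        have e3 : |ev f w| ≤ N := by rw [hN]; exact norm_fst_le ((ev f w, ev g w) : ℝ × ℝ)
        have e4 : |ev g w| ≤ N := by rw [hN]; exact norm_snd_le ((ev f w, ev g w) : ℝ × ℝ)
        have hN0 : 0 ≤ N := by rw [hN]; exact norm_nonneg _
        have key : ∀ c d : Sm U, c ∈ ({a1, a2, a3, a4, b1, b2, b3, b4} : Finset (Sm U)) →
            d ∈ ({a1, a2, a3, a4, b1, b2, b3, b4} : Finset (Sm U)) →
            |ev (c * f + d * g) w| ≤ 2 * M * N := by
          intro c d hc hd
          rw [ev_add, ev_mul, ev_mul]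
          have h1 := hM c hc w hw
          have h2 := hM d hd w hw
          calc |ev c w * ev f w + ev d w * ev g w| ≤ |ev c w * ev f w| + |ev d w * ev g w| :=
                abs_add_le _ _
            _ = |ev c w| * |ev f w| + |ev d w| * |ev g w| := by rw [abs_mul, abs_mul]
            _ ≤ M * N + M * N := add_le_add (mul_le_mul h1 e3 (abs_nonneg _) hM0)
                (mul_le_mul h2 e4 (abs_nonneg _) hM0)
            _ = 2 * M * N := by ring
        have key2 : ∀ c d c' d' : Sm U,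
            c ∈ ({a1, a2, a3, a4, b1, b2, b3, b4} : Finset (Sm U)) →
            d ∈ ({a1, a2, a3, a4, b1, b2, b3, b4} : Finset (Sm U)) →
            c' ∈ ({a1, a2, a3, a4, b1, b2, b3, b4} : Finset (Sm U)) →
            d' ∈ ({a1, a2, a3, a4, b1, b2, b3, b4} : Finset (Sm U)) →
            |u.1 * ev (c * f + d * g) w + u.2 * ev (c' * f + d' * g) w| ≤ 4 * M * ‖u‖ * N := by
          intro c d c' d' h1 h2 h3 h4
          have i1 := key c d h1 h2
          have i2 := key c' d' h3 h4
          calc |u.1 * ev (c * f + d * g) w + u.2 * ev (c' * f + d' * g) w|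
              ≤ |u.1 * ev (c * f + d * g) w| + |u.2 * ev (c' * f + d' * g) w| := abs_add_le _ _
            _ = |u.1| * |ev (c * f + d * g) w| + |u.2| * |ev (c' * f + d' * g) w| := by
                rw [abs_mul, abs_mul]
            _ ≤ ‖u‖ * (2 * M * N) + ‖u‖ * (2 * M * N) :=
                add_le_add (mul_le_mul e1 i1 (abs_nonneg _) (norm_nonneg _))
                (mul_le_mul e2 i2 (abs_nonneg _) (norm_nonneg _))
            _ = 4 * M * ‖u‖ * N := by ring
        rw [add_zero, ← hN, hXf, hXg, hYf, hYg, Prod.norm_def]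
        exact max_le (key2 _ _ _ _ (by simp) (by simp) (by simp) (by simp))
          (key2 _ _ _ _ (by simp) (by simp) (by simp) (by simp)))
      1 ⟨by norm_num, le_rfl⟩
    rw [gronwallBound_ε0_δ0] at hgr
    have h1 : z1 + (1 : ℝ) • u = z := by rw [hu]; simp
    simp only [h1] at hgr
    have h2 := norm_le_zero_iff.mp hgr
    rw [hS]
    exact ⟨hzU, congrArg Prod.fst h2, congrArg Prod.snd h2⟩
  have hsub := hUc.subset_of_closure_inter_subset hSo ⟨z0, hz0, by rw [hS]; exact ⟨hz0, f0, g0⟩⟩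
    (fun z hz => by
      have key : ∀ h : Sm U, (∀ w ∈ S, ev h w = 0) → ev h z = 0 := by
        intro h hh
        have h1 : ContinuousAt (ev h) z := (ev_contDiffAt hU h hz.2).continuousAt
        have h2 : (𝓝[S] z).NeBot := mem_closure_iff_nhdsWithin_neBot.mp hz.1
        have h3 : Tendsto (ev h) (𝓝[S] z) (𝓝 (ev h z)) := h1.tendsto.mono_left nhdsWithin_le_nhds
        have h4 : Tendsto (ev h) (𝓝[S] z) (𝓝 0) := by
          refine tendsto_const_nhds.congr' ?_
          filter_upwards [self_mem_nhdsWithin] with w hw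
          exact (hh w hw).symm
        exact tendsto_nhds_unique h3 h4
      rw [hS]
      refine ⟨hz.2, key f fun w hw => ?_, key g fun w hw => ?_⟩
      · rw [hS] at hw; exact hw.2.1
      · rw [hS] at hw; exact hw.2.2)
  intro z hz
  have := hsub hz
  rw [hS] at this
  exact this.2

end Pool.Agent.W5h48.AL
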