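import Pool.Agent.W5h48.AL.Idn

set_option autoImplicit false
set_option linter.unusedSimpArgs false

open Set Filter Topology
open scoped ContDiff

namespace Pool.Agent.W5h48.AL

section CoreZ

variable {W U : Set E2} (hW : IsOpen W) (F0 : E2 → ℝ) (hF : ContDiffOn ℝ ∞ F0 W)
  {L μ η dx dy wx wy k0 k1 a β : Sm W} {p0 p1 p2 : Fin 3 → Sm W}
  {D δ : Derivation ℝ (Sm W) (Sm W)}

include hW in
theorem jetVz (hD : ∀ f, D f = dx * pX hW f + dy * pY hW f) (hδ : ∀ f, δ f = wx * pX hW f + wy * pY hW f)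
    (R : Rel D δ cx cy (mk F0 hF) L η dx dy wx wy k0 k1 a β p0 p1 p2)
    {V : Set E2} (hV : IsOpen V) (hVW : V ⊆ W) 
    (hz : ∀ z ∈ V, ev (Hc dx dy η hW (mk F0 hF) 5) z = 0 ∧
      ev (Hc dx dy η hW (mk F0 hF) 7) z = 0)
    {D' δ' : Derivation ℝ (Sm V) (Sm V)}
    (hD' : ∀ f, D' f = res hVW dx * pX hV f + res hVW dy * pY hV f)
    (hδ' : ∀ f, δ' f = res hVW wx * pX hV f + res hVW wy * pY hV f) :
    ∃ i, 3 * i = D' (res hVW β) + 2 * (res hVW k0 + D' (res hVW a)) ∧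
      res hVW k0 = 3 * (res hVW k0 + D' (res hVW a)) + i ∧
      3 * (res hVW k1 + res hVW a + res hVW β) = res hVW k1 ∧
      Jet D' δ' (res hVW k1) (res hVW β) (res hVW k0 + D' (res hVW a)) i := by
  obtain ⟨-, -, -, c5, c7⟩ := coef_rel hW R hD hδ
  exact jet_of (X' := pX hV) (Y' := pY hV) (D' := D') (δ' := δ') (r := res hVW) R hD hδ hD' hδ'
      (fun f => res_pd hV hW _ _ f) (fun f => res_pd hV hW _ _ f) (fun f => pd_comm hV _ _ f)
      c5 c7
      (by
        apply Sm_ext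
        intro z hzV
        rw [ev_res _ _ hzV, ev_zero]
        exact (hz z hzV).1)
      (by
        apply Sm_ext
        intro z hzV
        rw [ev_res _ _ hzV, ev_zero]
        exact (hz z hzV).2)

include hW in
/-- `i` vanishes -/
theorem i_zeroz (hD : ∀ f, D f = dx * pX hW f + dy * pY hW f) (hδ : ∀ f, δ f = wx * pX hW f + wy * pY hW f)
    (R : Rel D δ cx cy (mk F0 hF) L η dx dy wx wy k0 k1 a β p0 p1 p2)
    (hU : IsOpen U) (hUW : U ⊆ W) 
    (hz : ∀ z ∈ U, ev (Hc dx dy η hW (mk F0 hF) 5) z = 0 ∧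
      ev (Hc dx dy η hW (mk F0 hF) 7) z = 0)
    {D' δ' : Derivation ℝ (Sm U) (Sm U)}
    (hD' : ∀ f, D' f = res hUW dx * pX hU f + res hUW dy * pY hU f)
    (hδ' : ∀ f, δ' f = res hUW wx * pX hU f + res hUW wy * pY hU f) {i : Sm U}
    (hi : 3 * i = D' (res hUW β) + 2 * (res hUW k0 + D' (res hUW a))) : i = 0 := by
  by_contra hne
  have h1 : ∃ z0 ∈ U, ev i z0 ≠ 0 := by
    by_contra h
    push Not at h
    apply hne
    apply Sm_ext
    intro z hz
    rw [h z hz, ev_zero]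
  obtain ⟨z0, hz0, hz0'⟩ := h1
  obtain ⟨V, hVd⟩ : ∃ V : Set E2, V = U ∩ {z | ev i z ≠ 0} := ⟨_, rfl⟩
  have hV : IsOpen V := by
    rw [hVd]
    exact (ev_smooth i).continuousOn.isOpen_inter_preimage hU isOpen_compl_singleton
  have hVU : V ⊆ U := by rw [hVd]; exact inter_subset_left
  have hVW : V ⊆ W := hVU.trans hUW
  have hz0V : z0 ∈ V := by rw [hVd]; exact ⟨hz0, hz0'⟩
  obtain ⟨j, hj, -, -, J⟩ := jetVz hW F0 hF hD hδ R hV hVW
    (fun z hzz => hz z (hVU hzz))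
    (D' := res hVW dx • pX hV + res hVW dy • pY hV)
    (δ' := res hVW wx • pX hV + res hVW wy • pY hV) (fun f => rfl) (fun f => rfl)
  have hres : ∀ f : Sm W, res hVU (res hUW f) = res hVW f := by
    intro f
    apply Sm_ext
    intro z hz
    rw [ev_res _ _ hz, ev_res _ _ (hVU hz), ev_res _ _ hz]
  have hD2 : ∀ f : Sm U, res hVU (D' f) =
      (res hVW dx • pX hV + res hVW dy • pY hV) (res hVU f) := by
    intro f
    rw [hD', map_add, map_mul, map_mul, hres, hres, res_pd hV hU, res_pd hV hU]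
    rfl
  have hij : j = res hVU i := by
    refine nat_cancel (n := 3) (by norm_num) ?_
    push_cast
    have h := congrArg (res hVU) hi
    rw [map_mul, map_add, map_mul, map_add, hD2, hD2, hres, hres, hres, map_ofNat, map_ofNat] at h
    rw [hj, h]
  have hunit : IsUnit j := by
    apply isUnit_of_ne
    intro z hz
    rw [hij, ev_res _ _ hz]
    rw [hVd] at hz
    exact hz.2
  have h1 := J.tab.trivial_of_unit hunit
  have h2 := congrArg (fun f => ev f z0) h1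
  simp only [ev_one hz0V, ev_zero] at h2
  exact one_ne_zero h2

include hW in
theorem core2z (hD : ∀ f, D f = dx * pX hW f + dy * pY hW f) (hδ : ∀ f, δ f = wx * pX hW f + wy * pY hW f)
    (R : Rel D δ cx cy (mk F0 hF) L η dx dy wx wy k0 k1 a β p0 p1 p2)
    (hU : IsOpen U) (hUW : U ⊆ W) 
    (hz : ∀ z ∈ U, ev (Hc dx dy η hW (mk F0 hF) 5) z = 0 ∧
      ev (Hc dx dy η hW (mk F0 hF) 7) z = 0)
    {D' δ' : Derivation ℝ (Sm U) (Sm U)}
    (hD' : ∀ f, D' f = res hUW dx * pX hU f + res hUW dy * pY hU f)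
    (hδ' : ∀ f, δ' f = res hUW wx * pX hU f + res hUW wy * pY hU f) (j l : Fin 3) :
    D' (res hUW (Bf k1 p0 p1 p2 j l)) = 0 ∧
    D' (res hUW (Cf (k0 + D a) (D (k0 + D a)) p0 p1 p2 j l)) =
      2 * res hUW (k0 + D a) * res hUW (Bf k1 p0 p1 p2 j l) ∧
    δ' (res hUW (Bf k1 p0 p1 p2 j l)) =
      -2 * res hUW (k1 + a + β) * res hUW (Bf k1 p0 p1 p2 j l) +
      2 * res hUW (Cf (k0 + D a) (D (k0 + D a)) p0 p1 p2 j l) ∧
    δ' (res hUW (Cf (k0 + D a) (D (k0 + D a)) p0 p1 p2 j l)) =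
      -2 * res hUW a * res hUW (Cf (k0 + D a) (D (k0 + D a)) p0 p1 p2 j l) := by
  obtain ⟨i, hi, hk0, hm, J⟩ := jetVz hW F0 hF hD hδ R hU hUW hz hD' hδ'
  have i0 := i_zeroz hW F0 hF hD hδ R hU hUW hz hD' hδ' hi
  subst i0
  obtain ⟨rD, rδ, T⟩ := restrict_frame (X := pX hW) (Y := pY hW) (X' := pX hU) (Y' := pY hU)
    (r := res hUW) R hD hδ hD' hδ' (fun f => res_pd hU hW _ _ f) (fun f => res_pd hU hW _ _ f)
    (fun f => pd_comm hU _ _ f)
  have hc : res hUW (k0 + D a) = res hUW k0 + D' (res hUW a) := by rw [map_add, rD]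
  rw [← hc] at hk0 J
  have h := forms T hc (by rw [hk0]; ring) hm J j l
  rw [map_Bf, map_Cf, rD, map_add (res hUW) (k1 + a) β, map_add (res hUW) k1 a]
  exact h

end CoreZ

end Pool.Agent.W5h48.AL
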