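import Pool.Agent.W5h48.AL.Sign

set_option autoImplicit false
set_option linter.unusedSimpArgs false

open Set Filter Topology
open scoped ContDiff

namespace Pool.Agent.W5h48.AL

/-- regular parametrized piece of a level curve -/
structure LC (F : E2 → ℝ) (W : Set E2) (c : ℝ → E2) : Prop where
  diff : Differentiable ℝ c
  reg : ∀ t, deriv c t ≠ 0
  mem : ∀ t, c t ∈ W
  lev : ∀ t, F (c t) = F (c 0)
  tan : ∀ t, tang F (c t) ≠ 0

/-- derivation along the level curves -/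
noncomputable def Dl {W : Set E2} (hW : IsOpen W) (F : Sm W) : Derivation ℝ (Sm W) (Sm W) :=
  pY hW F • pX hW - pX hW F • pY hW

theorem Dl_app {W : Set E2} (hW : IsOpen W) (F f : Sm W) :
    Dl hW F f = pY hW F * pX hW f - pX hW F * pY hW f := rfl

theorem sq_pos' {a b : ℝ} (h : ((b, -a) : E2) ≠ 0) : 0 < a ^ 2 + b ^ 2 := by
  by_contra hn
  have h1 : a = 0 := by nlinarith [sq_nonneg a, sq_nonneg b]
  have h2 : b = 0 := by nlinarith [sq_nonneg a, sq_nonneg b]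
  apply h
  rw [h1, h2, neg_zero]
  rfl

theorem along {W : Set E2} (hW : IsOpen W) {F : E2 → ℝ} (hF : ContDiffOn ℝ ∞ F W) {c : ℝ → E2}
    (h : LC F W c) (t : ℝ) :
    ∃ μ : ℝ, μ ≠ 0 ∧ deriv c t = μ • tang F (c t) ∧
      ∀ f : Sm W, HasDerivAt (fun s => ev f (c s)) (μ * ev (Dl hW (mk F hF) f) (c t)) t := by
  have hct := h.mem t
  have h1 : HasDerivAt (fun s => F (c s)) (fderiv ℝ F (c t) (deriv c t)) t :=
    HasFDerivAt.comp_hasDerivAt t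
      (((hF.contDiffAt (hW.mem_nhds hct)).differentiableAt (by simp)).hasFDerivAt)
      (h.diff t).hasDerivAt
  have h2 : HasDerivAt (fun s => F (c s)) 0 t := by
    have : (fun s => F (c s)) = fun _ => F (c 0) := funext h.lev
    rw [this]
    exact hasDerivAt_const _ _
  have h3 := h1.unique h2
  have hX : ev (pX hW (mk F hF)) (c t) = fderiv ℝ F (c t) ((1 : ℝ), (0 : ℝ)) := pd_mk hW _ _ _ hct
  have hY : ev (pY hW (mk F hF)) (c t) = fderiv ℝ F (c t) ((0 : ℝ), (1 : ℝ)) := pd_mk hW _ _ _ hct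
  have h4 : fderiv ℝ F (c t) (deriv c t) = (deriv c t).1 * ev (pX hW (mk F hF)) (c t) +
      (deriv c t).2 * ev (pY hW (mk F hF)) (c t) := by
    rw [← fd_eq hW _ hct]
    congr 1
    have : (ev (mk F hF : Sm W)) =ᶠ[𝓝 (c t)] F := by
      filter_upwards [hW.mem_nhds hct] with y hy
      exact ev_mk _ _ hy
    rw [this.fderiv_eq]
  rw [h3] at h4
  have htan := h.tan t
  unfold tang at htan ⊢
  rw [← hX, ← hY] at htan ⊢
  obtain ⟨fx, hfx⟩ : ∃ a, a = ev (pX hW (mk F hF)) (c t) := ⟨_, rfl⟩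
  obtain ⟨fy, hfy⟩ : ∃ a, a = ev (pY hW (mk F hF)) (c t) := ⟨_, rfl⟩
  obtain ⟨v, hv⟩ : ∃ v, v = deriv c t := ⟨_, rfl⟩
  have hr := h.reg t
  rw [← hv] at h4 hr ⊢
  rw [← hfx, ← hfy] at h4 htan ⊢
  have hs := sq_pos' htan
  obtain ⟨μ, hμ⟩ : ∃ μ, μ = (v.1 * fy - v.2 * fx) / (fx ^ 2 + fy ^ 2) := ⟨_, rfl⟩
  have e1 : v.1 = μ * fy := by
    rw [hμ]
    field_simp
    linear_combination fx * (-h4)
  have e2 : v.2 = -(μ * fx) := by
    rw [hμ]
    field_simp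
    linear_combination fy * (-h4)
  have e3 : v = μ • ((fy, -fx) : E2) := by
    ext
    · simpa using e1
    · simpa using e2
  refine ⟨μ, ?_, e3, fun f => ?_⟩
  · rintro rfl
    apply hr
    rw [e3, zero_smul]
  · have h5 : HasDerivAt (fun s => ev f (c s)) (fderiv ℝ (ev f) (c t) (deriv c t)) t :=
      HasFDerivAt.comp_hasDerivAt t (ev_diff hW f hct) (h.diff t).hasDerivAt
    convert h5 using 1
    rw [fd_eq hW f hct, ← hv, e1, e2, Dl_app, ev_sub, ev_mul, ev_mul, ← hfx, ← hfy]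
    ring

theorem zero_step {W : Set E2} (hW : IsOpen W) {F : E2 → ℝ} (hF : ContDiffOn ℝ ∞ F W) {c : ℝ → E2}
    (h : LC F W c) {f : Sm W} {t0 t1 : ℝ} (h0 : ∀ t ∈ Ioo t0 t1, ev f (c t) = 0) :
    ∀ t ∈ Ioo t0 t1, ev (Dl hW (mk F hF) f) (c t) = 0 := by
  intro t ht
  obtain ⟨μ, hμ, -, hd⟩ := along hW hF h t
  have h1 : (fun s => ev f (c s)) =ᶠ[𝓝 t] fun _ => 0 := by
    filter_upwards [isOpen_Ioo.mem_nhds ht] with s hs
    exact h0 s hs
  have h2 := (hd f).unique ((hasDerivAt_const t (0 : ℝ)).congr_of_eventuallyEq h1)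
  exact (mul_eq_zero.mp h2).resolve_left hμ

theorem zero_end {W : Set E2} (hW : IsOpen W) {F : E2 → ℝ} {c : ℝ → E2}
    (h : LC F W c) (f : Sm W) {t0 t1 : ℝ} (h01 : t0 < t1) (h0 : ∀ t ∈ Ioo t0 t1, ev f (c t) = 0) :
    ev f (c t1) = 0 := by
  have h1 : ContinuousAt (fun t => ev f (c t)) t1 :=
    ContinuousAt.comp (ev_contDiffAt hW f (h.mem t1)).continuousAt (h.diff t1).continuousAt
  have h2 : t1 ∈ closure (Ioo t0 t1) := by
    rw [closure_Ioo h01.ne]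
    exact ⟨h01.le, le_rfl⟩
  have h3 : (𝓝[Ioo t0 t1] t1).NeBot := mem_closure_iff_nhdsWithin_neBot.mp h2
  have h4 : Tendsto (fun t => ev f (c t)) (𝓝[Ioo t0 t1] t1) (𝓝 (ev f (c t1))) :=
    h1.tendsto.mono_left nhdsWithin_le_nhds
  have h5 : Tendsto (fun t => ev f (c t)) (𝓝[Ioo t0 t1] t1) (𝓝 0) := by
    refine tendsto_const_nhds.congr' ?_
    filter_upwards [self_mem_nhdsWithin] with w hw
    exact (h0 w hw).symm
  exact tendsto_nhds_unique h4 h5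

/-- the quadratic function of a form -/
noncomputable def Gq {W : Set E2} (Q : Fin 3 → Fin 3 → ℝ) : Sm W :=
  (Q 0 0) • (cx * cx) + (Q 0 1 + Q 1 0) • (cx * cy) + (Q 1 1) • (cy * cy) +
    (Q 0 2 + Q 2 0) • cx + (Q 1 2 + Q 2 1) • cy + (Q 2 2) • 1

theorem ev_Gq {W : Set E2} (Q : Fin 3 → Fin 3 → ℝ) {p : E2} (hp : p ∈ W) :
    ev (Gq Q : Sm W) p = form Q ![p.1, p.2, 1] := by
  unfold Gq form
  simp only [ev_add, ev_smul, ev_mul, ev_mk _ _ hp, ev_one hp, Matrix.cons_val_zero,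
    Matrix.cons_val_one, Matrix.cons_val]
  ring

theorem pX_Gq {W : Set E2} (hW : IsOpen W) (Q : Fin 3 → Fin 3 → ℝ) :
    pX hW (Gq Q) = (2 * Q 0 0) • cx + (Q 0 1 + Q 1 0) • cy + (Q 0 2 + Q 2 0) • 1 := by
  obtain ⟨e1, e2, e3, e4⟩ := coords hW
  unfold Gq
  simp only [map_add, Derivation.map_smul, Derivation.leibniz, smul_eq_mul, e1, e2, e3, e4,
    Derivation.map_one_eq_zero, smul_zero, mul_one, mul_zero, add_zero, zero_add, mul_smul]
  module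

theorem pY_Gq {W : Set E2} (hW : IsOpen W) (Q : Fin 3 → Fin 3 → ℝ) :
    pY hW (Gq Q) = (Q 0 1 + Q 1 0) • cx + (2 * Q 1 1) • cy + (Q 1 2 + Q 2 1) • 1 := by
  obtain ⟨e1, e2, e3, e4⟩ := coords hW
  unfold Gq
  simp only [map_add, Derivation.map_smul, Derivation.leibniz, smul_eq_mul, e1, e2, e3, e4,
    Derivation.map_one_eq_zero, smul_zero, mul_one, mul_zero, add_zero, zero_add, mul_smul]
  module

theorem curv_ne {W : Set E2} (hW : IsOpen W) {F : E2 → ℝ} (hF : ContDiffOn ℝ ∞ F W) {c : ℝ → E2}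
    (h : LC F W c) {Q : Fin 3 → Fin 3 → ℝ} (hs : ∀ i j, Q i j = Q j i)
    (hd : (Matrix.of Q).det ≠ 0) {t0 t1 : ℝ}
    (h01 : t0 < t1) (hcon : ∀ t ∈ Ioo t0 t1, form Q ![(c t).1, (c t).2, 1] = 0) :
    bend F (c t1) ≠ 0 := by
  intro hb
  have g0 : ∀ t ∈ Ioo t0 t1, ev (Gq Q : Sm W) (c t) = 0 := fun t ht => by
    rw [ev_Gq _ (h.mem t), hcon t ht]
  have g1 := zero_step hW hF h g0
  have g2 := zero_step hW hF h g1
  have k0 := zero_end hW h _ h01 g0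
  have k1 := zero_end hW h _ h01 g1
  have k2 := zero_end hW h _ h01 g2
  have hp := h.mem t1
  have htan := h.tan t1
  obtain ⟨p, hpd⟩ : ∃ p, p = c t1 := ⟨_, rfl⟩
  rw [← hpd] at hb k0 k1 k2 hp htan
  obtain ⟨e1, e2, e3, e4⟩ := coords hW
  rw [bend_eq hW F hF hp] at hb
  rw [ev_Gq _ hp] at k0
  have hX : ev (pX hW (mk F hF)) p = fderiv ℝ F p ((1 : ℝ), (0 : ℝ)) := pd_mk hW _ _ _ hp
  have hY : ev (pY hW (mk F hF)) p = fderiv ℝ F p ((0 : ℝ), (1 : ℝ)) := pd_mk hW _ _ _ hp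
  unfold tang at htan
  rw [← hX, ← hY] at htan
  have s01 : Q 1 0 = Q 0 1 := hs 1 0
  have s02 : Q 2 0 = Q 0 2 := hs 2 0
  have s12 : Q 2 1 = Q 1 2 := hs 2 1
  have cm : pY hW (pX hW (mk F hF)) = pX hW (pY hW (mk F hF)) := pd_comm hW _ _ _
  simp only [Dl_app, map_sub, map_add, Derivation.leibniz, smul_eq_mul, pX_Gq, pY_Gq,
    Derivation.map_smul, e1, e2, e3, e4, Derivation.map_one_eq_zero, cm, ev_add, ev_sub, ev_mul,
    ev_smul, ev_mk _ _ hp, ev_one hp, ev_zero, s01, s02, s12] at k1 k2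
  unfold hForm at hb
  simp only [ev_sub, ev_mul, cm] at hb
  unfold form at k0
  simp only [Matrix.cons_val_zero, Matrix.cons_val_one, Matrix.cons_val, s01, s02, s12] at k0
  rw [Matrix.det_fin_three] at hd
  simp only [Matrix.of_apply, s01, s02, s12] at hd
  obtain ⟨fx, hfx⟩ : ∃ a, a = ev (pX hW (mk F hF)) p := ⟨_, rfl⟩
  obtain ⟨fy, hfy⟩ : ∃ a, a = ev (pY hW (mk F hF)) p := ⟨_, rfl⟩
  obtain ⟨fxx, hfxx⟩ : ∃ a, a = ev (pX hW (pX hW (mk F hF))) p := ⟨_, rfl⟩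
  obtain ⟨fxy, hfxy⟩ : ∃ a, a = ev (pX hW (pY hW (mk F hF))) p := ⟨_, rfl⟩
  obtain ⟨fyy, hfyy⟩ : ∃ a, a = ev (pY hW (pY hW (mk F hF))) p := ⟨_, rfl⟩
  rw [← hfx, ← hfy] at htan
  rw [← hfx, ← hfy] at k1
  rw [← hfx, ← hfy, ← hfxx, ← hfxy, ← hfyy] at k2 hb
  obtain ⟨A, hA⟩ : ∃ A, A = Q 0 0 := ⟨_, rfl⟩
  obtain ⟨B, hB⟩ : ∃ A, A = Q 0 1 := ⟨_, rfl⟩
  obtain ⟨C, hC⟩ : ∃ A, A = Q 1 1 := ⟨_, rfl⟩
  obtain ⟨D, hD⟩ : ∃ A, A = Q 0 2 := ⟨_, rfl⟩
  obtain ⟨E, hE⟩ : ∃ A, A = Q 1 2 := ⟨_, rfl⟩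
  obtain ⟨K, hK⟩ : ∃ A, A = Q 2 2 := ⟨_, rfl⟩
  rw [← hA, ← hB, ← hC, ← hD, ← hE, ← hK] at k0 hd
  rw [← hA, ← hB, ← hC, ← hD, ← hE] at k1 k2
  obtain ⟨x, hx⟩ : ∃ x, x = p.1 := ⟨_, rfl⟩
  obtain ⟨y, hy⟩ : ∃ x, x = p.2 := ⟨_, rfl⟩
  rw [← hx, ← hy] at k0 k1 k2
  have hsp := sq_pos' htan
  obtain ⟨gx, hgx⟩ : ∃ g, g = 2 * (A * x + B * y + D) := ⟨_, rfl⟩
  obtain ⟨gy, hgy⟩ : ∃ g, g = 2 * (B * x + C * y + E) := ⟨_, rfl⟩
  have K1 : fy * gx - fx * gy = 0 := by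
    rw [hgx, hgy]
    linear_combination k1
  have q2 : fy ^ 2 * (2 * A) - 2 * fx * fy * (2 * B) + fx ^ 2 * (2 * C) = 0 := by
    have h1 : fy ^ 2 * (2 * A) - 2 * fx * fy * (2 * B) + fx ^ 2 * (2 * C) +
        gx * (fy * fxy - fx * fyy) - gy * (fy * fxx - fx * fxy) = 0 := by
      rw [hgx, hgy]
      linear_combination k2
    have h2 : (fx ^ 2 + fy ^ 2) * (fy ^ 2 * (2 * A) - 2 * fx * fy * (2 * B) + fx ^ 2 * (2 * C)) = 0 := by
      have m1 : (fx ^ 2 + fy ^ 2) * gx = (fx * gx + fy * gy) * fx := by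
        linear_combination fy * K1
      have m2 : (fx ^ 2 + fy ^ 2) * gy = (fx * gx + fy * gy) * fy := by
        linear_combination (-fx) * K1
      linear_combination (fx ^ 2 + fy ^ 2) * h1 - (fy * fxy - fx * fyy) * m1 +
        (fy * fxx - fx * fxy) * m2 + (fx * gx + fy * gy) * hb
    exact (mul_eq_zero.mp h2).resolve_left hsp.ne'
  have hN : gy ^ 2 * (2 * A) - 2 * gx * gy * (2 * B) + gx ^ 2 * (2 * C) = 0 := by
    have m1 : (fx ^ 2 + fy ^ 2) * gx = (fx * gx + fy * gy) * fx := by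
      linear_combination fy * K1
    have m2 : (fx ^ 2 + fy ^ 2) * gy = (fx * gx + fy * gy) * fy := by
      linear_combination (-fx) * K1
    have h2 : (fx ^ 2 + fy ^ 2) ^ 2 *
        (gy ^ 2 * (2 * A) - 2 * gx * gy * (2 * B) + gx ^ 2 * (2 * C)) = 0 := by
      have : (fx ^ 2 + fy ^ 2) ^ 2 *
        (gy ^ 2 * (2 * A) - 2 * gx * gy * (2 * B) + gx ^ 2 * (2 * C)) =
        ((fx ^ 2 + fy ^ 2) * gy) ^ 2 * (2 * A) - 2 * ((fx ^ 2 + fy ^ 2) * gx) *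
          ((fx ^ 2 + fy ^ 2) * gy) * (2 * B) + ((fx ^ 2 + fy ^ 2) * gx) ^ 2 * (2 * C) := by ring
      rw [this, m1, m2]
      linear_combination (fx * gx + fy * gy) ^ 2 * q2
    exact (mul_eq_zero.mp h2).resolve_left (pow_pos hsp 2).ne'
  apply hd
  rw [hgx, hgy] at hN
  linear_combination (A * C - B ^ 2) * k0 - hN / 8

/-- along a flat leaf the direction of the tangent is constant -/
theorem flat_dir {W : Set E2} (hW : IsOpen W) {F : E2 → ℝ} (hF : ContDiffOn ℝ ∞ F W)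
    {c : ℝ → E2} (h : LC F W c) (hcon : ∀ t, bend F (c t) = 0) (t : ℝ) :
    (tang F (c 0)).1 * (tang F (c t)).2 - (tang F (c 0)).2 * (tang F (c t)).1 = 0 := by
  obtain ⟨n, hn⟩ : ∃ n, n = tang F (c 0) := ⟨_, rfl⟩
  obtain ⟨f1, hf1⟩ : ∃ f : Sm W, f = pX hW (mk F hF) := ⟨_, rfl⟩
  obtain ⟨f2, hf2⟩ : ∃ f : Sm W, f = pY hW (mk F hF) := ⟨_, rfl⟩
  have htan : ∀ t, tang F (c t) = (ev f2 (c t), -ev f1 (c t)) := fun t => by
    unfold tang
    rw [hf1, hf2, pd_mk hW _ _ _ (h.mem t), pd_mk hW _ _ _ (h.mem t)]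
  have hspos : ∀ t, 0 < ev f1 (c t) ^ 2 + ev f2 (c t) ^ 2 := fun t => by
    apply sq_pos'
    rw [← htan]
    exact h.tan t
  obtain ⟨r, hr⟩ : ∃ r : ℝ → ℝ, r = fun t => (n.1 * ev f1 (c t) + n.2 * ev f2 (c t)) ^ 2 /
    (ev f1 (c t) ^ 2 + ev f2 (c t) ^ 2) := ⟨_, rfl⟩
  have hrd : ∀ t, HasDerivAt r 0 t := by
    intro t
    obtain ⟨μ, hμ, -, hd⟩ := along hW hF h t
    have d1 := hd f1
    have d2 := hd f2
    have hb := hcon t
    rw [bend_eq hW F hF (h.mem t)] at hb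
    unfold hForm at hb
    have cm : pY hW (pX hW (mk F hF)) = pX hW (pY hW (mk F hF)) := pd_comm hW _ _ _
    have hb' : ev f1 (c t) * ev (Dl hW (mk F hF) f2) (c t) -
        ev f2 (c t) * ev (Dl hW (mk F hF) f1) (c t) = 0 := by
      rw [hf1, hf2, Dl_app, Dl_app]
      simp only [ev_sub, ev_mul] at hb ⊢
      linear_combination -hb
    have hsp := hspos t
    have d3 := ((d1.const_mul n.1).add (d2.const_mul n.2)).pow 2
    have d4 := (d1.pow 2).add (d2.pow 2)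
    have d5 := d3.div d4 hsp.ne'
    rw [hr]
    refine d5.congr_deriv ?_
    rw [div_eq_zero_iff]
    left
    simp only [Pi.add_apply, Pi.pow_apply]
    obtain ⟨a, ha⟩ : ∃ a, a = ev f1 (c t) := ⟨_, rfl⟩
    obtain ⟨b, hb2⟩ : ∃ a, a = ev f2 (c t) := ⟨_, rfl⟩
    obtain ⟨a', ha'⟩ : ∃ a, a = ev (Dl hW (mk F hF) f1) (c t) := ⟨_, rfl⟩
    obtain ⟨b', hb2'⟩ : ∃ a, a = ev (Dl hW (mk F hF) f2) (c t) := ⟨_, rfl⟩
    rw [← ha, ← hb2, ← ha', ← hb2'] at hb'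
    simp only [← ha, ← hb2, ← ha', ← hb2']
    push_cast
    linear_combination (2 * μ * (n.1 * a + n.2 * b) * (n.2 * a - n.1 * b)) * hb'
  have hconst : ∀ t, r t = r 0 := fun t =>
    is_const_of_deriv_eq_zero (fun t => (hrd t).differentiableAt) (fun t => (hrd t).deriv) t 0
  have hr0 : r 0 = 0 := by
    rw [hr]
    simp only
    rw [hn, htan 0]
    simp only
    rw [div_eq_zero_iff]
    left
    ring
  have hN : ∀ t, n.1 * ev f1 (c t) + n.2 * ev f2 (c t) = 0 := fun t => by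
    have h1 : r t = 0 := (hconst t).trans hr0
    rw [hr] at h1
    simp only at h1
    rw [div_eq_zero_iff] at h1
    rcases h1 with h1 | h1
    · exact pow_eq_zero_iff (two_ne_zero) |>.mp h1
    · exact absurd h1 (hspos t).ne'
  rw [← hn, htan t]
  linear_combination -hN t

theorem exists_curved {W : Set E2} (hW : IsOpen W) {F : E2 → ℝ} (hF : ContDiffOn ℝ ∞ F W)
    {c : ℝ → E2} (h : LC F W c) {T : ℝ} (hT : 0 < T) (hper : c T = c 0) :
    ∃ t, bend F (c t) ≠ 0 := by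
  by_contra hcon
  push Not at hcon
  have hN := flat_dir hW hF h hcon
  obtain ⟨n, hn⟩ : ∃ n, n = tang F (c 0) := ⟨_, rfl⟩
  simp only [← hn] at hN
  -- Rolle
  have hdc : ∀ t, HasDerivAt (fun t => n.1 * (c t).1 + n.2 * (c t).2)
      (n.1 * (deriv c t).1 + n.2 * (deriv c t).2) t := fun t => by
    have h1 := (h.diff t).hasDerivAt
    have h2 : HasDerivAt (fun t => (c t).1) (deriv c t).1 t :=
      HasFDerivAt.comp_hasDerivAt t (hasFDerivAt_fst (𝕜 := ℝ) (p := c t)) h1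
    have h3 : HasDerivAt (fun t => (c t).2) (deriv c t).2 t :=
      HasFDerivAt.comp_hasDerivAt t (hasFDerivAt_snd (𝕜 := ℝ) (p := c t)) h1
    exact (h2.const_mul _).add (h3.const_mul _)
  obtain ⟨t1, -, ht1⟩ := exists_hasDerivAt_eq_zero (f := fun t => n.1 * (c t).1 + n.2 * (c t).2)
    (f' := fun t => n.1 * (deriv c t).1 + n.2 * (deriv c t).2) hT
    (fun t _ => (hdc t).continuousAt.continuousWithinAt) (by simp only [hper]) (fun t _ => hdc t)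
  obtain ⟨μ, hμ, hμc, -⟩ := along hW hF h t1
  have h2 := hN t1
  have h3 := h.tan t1
  have h4 := h.tan 0
  rw [← hn] at h4
  obtain ⟨w, hw⟩ : ∃ w, w = tang F (c t1) := ⟨_, rfl⟩
  rw [← hw] at h2 h3 hμc
  rw [hμc] at ht1
  simp only [Prod.smul_fst, Prod.smul_snd, smul_eq_mul] at ht1
  have h1 : n.1 * w.1 + n.2 * w.2 = 0 := by
    have : μ * (n.1 * w.1 + n.2 * w.2) = 0 := by linear_combination ht1
    exact (mul_eq_zero.mp this).resolve_left hμ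
  have h5 : 0 < n.1 ^ 2 + n.2 ^ 2 := by
    have := sq_pos' (a := -n.2) (b := n.1) (by rw [neg_neg]; exact h4)
    nlinarith
  have h6 : 0 < w.1 ^ 2 + w.2 ^ 2 := by
    have := sq_pos' (a := -w.2) (b := w.1) (by rw [neg_neg]; exact h3)
    nlinarith
  have : (n.1 ^ 2 + n.2 ^ 2) * (w.1 ^ 2 + w.2 ^ 2) = 0 := by
    linear_combination (n.1 * w.1 + n.2 * w.2) * h1 + (n.1 * w.2 - n.2 * w.1) * h2
  exact absurd this (mul_pos h5 h6).ne'

end Pool.Agent.W5h48.AL
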