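import Pool.Agent.W5h48.AL.MainZ
import Pool.Agent.W5h48.AL.Box

set_option autoImplicit false
set_option linter.unusedSimpArgs false
set_option linter.unusedVariables false

open Set Filter Topology
open scoped ContDiff

namespace Pool.Agent.W5h48.AL

theorem res_an {V W : Set E2} (h : V ⊆ W) {f : Sm W} (hf : IsAn f) : IsAn (res h f) :=
  IsAn.pull _ _ hf contDiffOn_id

theorem local_an_neg {W U : Set E2} (hW : IsOpen W) (hU : IsOpen U) (hUW : U ⊆ W)
    (hUc : IsConnected U) (F : E2 → ℝ) (hF : ContDiffOn ℝ ω F W) (hb : ∀ p ∈ W, bend F p < 0)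
    (hreg : ∀ p ∈ W, tang F p ≠ 0) {C : Set ℝ} {q0 : E2} (hq : q0 ∈ U)
    (hC : AccPt (F q0) (𝓟 C)) (hproj : ∀ p ∈ U, F p ∈ C → PI F p) : Local F W U := by
  have hF' : ContDiffOn ℝ ∞ F W := hF.of_le (by simp)
  have hFa : IsAn (mk F hF' : Sm W) := IsAn.mk' hF' hF
  obtain ⟨B, Q₁, Q₂, h1, h2, h3, h4, h5, h6, h7⟩ := pencilz hW hU hUW hUc F hF'
    (fun z hz => by
      have := hb z hz
      rw [bend_eq hW F hF' hz] at this
      linarith) (by
      intro L μ Gi Bs hL hμ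
      obtain ⟨hLa, hμa⟩ := base_an hW Bs hL hFa
      obtain ⟨k0, k1, a, β, p0, p1, p2, R⟩ := Bs.rel
      obtain ⟨c1, c2, c3, -, -⟩ := coef_rel hW R
        (D := DD (pX hW) (pY hW) (mk F hF') μ) (δ := dd (pX hW) (pY hW) (mk F hF') L μ)
        (fun f => rfl) (fun f => rfl)
      have a1 : IsAn (dX (pY hW) (mk F hF') μ) := ((hμa.mul hμa).mul hμa).mul (hFa.pd hW _)
      have a2 : IsAn (dY (pX hW) (mk F hF') μ) := (((hμa.mul hμa).mul hμa).mul (hFa.pd hW _)).neg
      have a3 : IsAn (eta (pX hW) (pY hW) (mk F hF') L μ) := by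
        unfold eta
        rw [DD_app]
        exact hμa.mul ((a1.mul (hLa.pd hW _)).add (a2.mul (hLa.pd hW _)))
      have hz := fun z (hz : z ∈ U) (hzC : F z ∈ C) => hc_zero hW F hF' hμ
        (dx := dX (pY hW) (mk F hF') μ) (dy := dY (pX hW) (mk F hF') μ)
        (η := eta (pX hW) (pY hW) (mk F hF') L μ) rfl rfl c1 c2 c3 (hUW hz) (hproj z hz hzC)
      have key : ∀ n : ℕ, (∀ z ∈ U, F z ∈ C → ev (Hc (dX (pY hW) (mk F hF') μ)
          (dY (pX hW) (mk F hF') μ) (eta (pX hW) (pY hW) (mk F hF') L μ) hW (mk F hF') n) z = 0) →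
          ∀ z ∈ U, ev (Hc (dX (pY hW) (mk F hF') μ)
          (dY (pX hW) (mk F hF') μ) (eta (pX hW) (pY hW) (mk F hF') L μ) hW (mk F hF') n) z = 0 := by
        intro n hn z hzU
        have b1 := res_an hUW (Hc_an hW a1 a2 a3 hFa n)
        have b2 := vanish_near hU (hF.mono hUW) b1 hq (hreg q0 (hUW hq)) hC
          (fun p hp hpC => by rw [ev_res hUW _ hp]; exact hn p hp hpC)
        have b3 := vanish_conn hU hUc.isPreconnected b1 hq b2 z hzU
        rwa [ev_res hUW _ hzU] at b3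
      exact fun z hzU => ⟨key 5 (fun z h1 h2 => (hz z h1 h2).1) z hzU,
        key 7 (fun z h1 h2 => (hz z h1 h2).2) z hzU⟩)
  refine ⟨fun j l => ev (B j l), Q₁, Q₂, h1, h2, h3, fun p hp hpc => ⟨h4 p hp, h5 p hp, h6 p hp hpc,
    fun j l => ⟨(ev_diff hW (B j l) hp).differentiableAt, fun v hv => h7 p hp hpc v hv j l⟩⟩⟩

theorem accPt_neg {x : ℝ} {C : Set ℝ} (h : AccPt x (𝓟 C)) : AccPt (-x) (𝓟 (-C)) := by
  rw [accPt_iff_frequently] at h ⊢
  refine (continuous_neg.tendsto x).frequently (h.mono fun y hy => ⟨?_, ?_⟩)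
  · intro h1
    exact hy.1 (neg_injective h1)
  · rw [Set.mem_neg, neg_neg]
    exact hy.2

theorem local_an {W U : Set E2} (hW : IsOpen W) (hU : IsOpen U) (hUW : U ⊆ W)
    (hUc : IsConnected U) (F : E2 → ℝ) (hF : ContDiffOn ℝ ω F W) (hb : ∀ p ∈ W, bend F p ≠ 0)
    (hreg : ∀ p ∈ W, tang F p ≠ 0) {C : Set ℝ} {q0 : E2} (hq : q0 ∈ U)
    (hC : AccPt (F q0) (𝓟 C)) (hproj : ∀ p ∈ U, F p ∈ C → PI F p) : Local F W U := by
  have hF' : ContDiffOn ℝ ∞ F W := hF.of_le (by simp)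
  have hcont := bend_cont hW F hF'
  have hopen : ∀ s : Set ℝ, IsOpen s → IsOpen (W ∩ bend F ⁻¹' s) := fun s hs =>
    hcont.isOpen_inter_preimage hW hs
  have hsign : (∀ p ∈ U, bend F p < 0) ∨ ∀ p ∈ U, 0 < bend F p := by
    by_contra hcon
    push Not at hcon
    obtain ⟨⟨z1, hz1, h1⟩, z2, hz2, h2⟩ := hcon
    obtain ⟨z, hz, hz0⟩ := hUc.isPreconnected.intermediate_value hz2 hz1 (hcont.mono hUW)
      (show (0 : ℝ) ∈ Icc (bend F z2) (bend F z1) from ⟨h2, h1⟩)
    exact hb z (hUW hz) hz0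
  rcases hsign with hs | hs
  · have hW' := hopen (Iio 0) isOpen_Iio
    refine local_sub (W' := W ∩ bend F ⁻¹' Iio 0) (local_an_neg hW' hU
      (fun z hz => ⟨hUW hz, hs z hz⟩) hUc F (hF.mono inter_subset_left) (fun p hp => hp.2)
      (fun p hp => hreg p hp.1) hq hC hproj) ?_
    rintro z ⟨hz, hzc⟩
    refine ⟨hz, lt_of_le_of_ne ?_ (hb z hz)⟩
    have h2 : (𝓝[U] z).NeBot := mem_closure_iff_nhdsWithin_neBot.mp hzc
    have h3 : Tendsto (bend F) (𝓝[U] z) (𝓝 (bend F z)) :=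
      (hcont.continuousAt (hW.mem_nhds hz)).tendsto.mono_left nhdsWithin_le_nhds
    exact le_of_tendsto h3 (by filter_upwards [self_mem_nhdsWithin] with w hw using (hs w hw).le)
  · have hW' := hopen (Ioi 0) isOpen_Ioi
    have h1 : Local F (W ∩ bend F ⁻¹' Ioi 0) U := by
      obtain ⟨b, Q₁, Q₂, h1, h2, h3, h4⟩ := local_an_neg hW' hU
        (fun z hz => ⟨hUW hz, hs z hz⟩) hUc (-F) (hF.neg.mono inter_subset_left)
        (fun p hp => by
          rw [bend_neg]
          have : 0 < bend F p := hp.2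
          linarith)
        (fun p hp => by
          rw [tang_neg]
          exact neg_ne_zero.mpr (hreg p hp.1)) hq (C := -C) (accPt_neg hC)
        (fun p hp hpC => PI_neg (hproj p hp (by
          rw [Set.mem_neg, Pi.neg_apply, neg_neg] at hpC
          exact hpC)))
      refine ⟨b, Q₁, Q₂, h1, h2, h3, fun p hp hpc => ?_⟩
      obtain ⟨g1, g2, g3, g4⟩ := h4 p hp hpc
      refine ⟨g1, g2, g3, fun j l => ⟨(g4 j l).1, fun v hv => (g4 j l).2 v ?_⟩⟩
      rw [fderiv_neg]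
      simp [hv]
    refine local_sub h1 ?_
    rintro z ⟨hz, hzc⟩
    refine ⟨hz, lt_of_le_of_ne ?_ (hb z hz).symm⟩
    have h2 : (𝓝[U] z).NeBot := mem_closure_iff_nhdsWithin_neBot.mp hzc
    have h3 : Tendsto (bend F) (𝓝[U] z) (𝓝 (bend F z)) :=
      (hcont.continuousAt (hW.mem_nhds hz)).tendsto.mono_left nhdsWithin_le_nhds
    exact ge_of_tendsto h3 (by filter_upwards [self_mem_nhdsWithin] with w hw using (hs w hw).le)

/-- A leaf which starts in a component of the set of nonzero curvature stays there, if this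
component carries a pencil. -/
theorem stay {U : Set E2} (hU : IsOpen U) {F : E2 → ℝ} (hF : ContDiffOn ℝ ∞ F U)
    {q0 : E2} (hloc : Local F (U ∩ bend F ⁻¹' {0}ᶜ)
      (connectedComponentIn (U ∩ bend F ⁻¹' {0}ᶜ) q0)) {c : ℝ → E2} (hL : LC F U c)
    {t0 t' : ℝ} (ht' : t0 < t') (ht0 : c t0 ∈ connectedComponentIn (U ∩ bend F ⁻¹' {0}ᶜ) q0) :
    c t' ∈ connectedComponentIn (U ∩ bend F ⁻¹' {0}ᶜ) q0 := by
  obtain ⟨U', hU'd⟩ : ∃ U', U' = U ∩ bend F ⁻¹' {0}ᶜ := ⟨_, rfl⟩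
  rw [← hU'd] at hloc ht0 ⊢
  have hU' : IsOpen U' := by
    rw [hU'd]
    exact (bend_cont hU F hF).isOpen_inter_preimage hU isClosed_singleton.isOpen_compl
  have hUU : U' ⊆ U := by rw [hU'd]; exact inter_subset_left
  obtain ⟨V, hVd⟩ : ∃ V, V = connectedComponentIn U' q0 := ⟨_, rfl⟩
  rw [← hVd] at hloc ht0 ⊢
  have hV : IsOpen V := by rw [hVd]; exact hU'.connectedComponentIn
  have hVc : IsPreconnected V := by rw [hVd]; exact isPreconnected_connectedComponentIn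
  have hVU : V ⊆ U' := by rw [hVd]; exact connectedComponentIn_subset _ _
  by_contra hcon
  obtain ⟨S, hS⟩ : ∃ S : Set ℝ, S = Ici t0 ∩ c ⁻¹' Vᶜ := ⟨_, rfl⟩
  have hSc : IsClosed S := by
    rw [hS]
    exact isClosed_Ici.inter (hV.isClosed_compl.preimage hL.diff.continuous)
  have hSb : BddBelow S := ⟨t0, fun s hs => by rw [hS] at hs; exact hs.1⟩
  have hSn : S.Nonempty := ⟨t', by
    rw [hS]
    exact ⟨ht'.le, hcon⟩⟩
  have hts := hSc.csInf_mem hSn hSb
  obtain ⟨t1, ht1⟩ : ∃ t1, t1 = sInf S := ⟨_, rfl⟩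
  rw [← ht1] at hts
  have hlt : t0 < t1 := by
    rw [hS] at hts
    refine lt_of_le_of_ne hts.1 ?_
    rintro rfl
    exact hts.2 ht0
  have hIoo : ∀ s, t0 ≤ s → s < t1 → c s ∈ V := by
    intro s hs0 hs1
    by_contra hn
    have : s ∈ S := by rw [hS]; exact ⟨hs0, hn⟩
    have := csInf_le hSb this
    rw [← ht1] at this
    linarith
  have hne := continuation hU hF hL hUU hloc hlt (fun s hs =>
    ⟨hVU (hIoo s hs.1.le hs.2), subset_closure (hIoo s hs.1.le hs.2)⟩)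
  have hin : c t1 ∈ U' := by rw [hU'd]; exact ⟨hL.mem t1, hne⟩
  have hcl : c t1 ∈ closure V := by
    have h1 : t1 ∈ closure (Ioo t0 t1) := by
      rw [closure_Ioo hlt.ne]
      exact ⟨hlt.le, le_rfl⟩
    exact closure_mono (by
      rintro _ ⟨s, hs, rfl⟩
      exact hIoo s hs.1.le hs.2) (image_closure_subset_closure_image hL.diff.continuous ⟨t1, h1, rfl⟩)
  have hpre : IsPreconnected (insert (c t1) V) := hVc.subset_closure
    (subset_insert _ _) (insert_subset hcl subset_closure)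
  have hsub : insert (c t1) V ⊆ connectedComponentIn U' (c t0) :=
    hpre.subset_connectedComponentIn (mem_insert_of_mem _ ht0) (insert_subset hin hVU)
  have h8 : connectedComponentIn U' (c t0) = V := by
    rw [hVd] at ht0 ⊢
    exact (connectedComponentIn_eq ht0).symm
  rw [h8] at hsub
  have h9 : c t1 ∈ V := hsub (mem_insert _ _)
  rw [hS] at hts
  exact hts.2 h9

theorem stay' {U : Set E2} (hU : IsOpen U) {F : E2 → ℝ} (hF : ContDiffOn ℝ ∞ F U)
    {q0 : E2} (hloc : Local F (U ∩ bend F ⁻¹' {0}ᶜ)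
      (connectedComponentIn (U ∩ bend F ⁻¹' {0}ᶜ) q0)) (c : ℝ → E2) (hL : LC F U c)
    (hex : ∃ s, c s ∈ connectedComponentIn (U ∩ bend F ⁻¹' {0}ᶜ) q0) (t : ℝ) :
    c t ∈ connectedComponentIn (U ∩ bend F ⁻¹' {0}ᶜ) q0 := by
  obtain ⟨s, hs⟩ := hex
  rcases lt_trichotomy s t with h | h | h
  · exact stay hU hF hloc hL h hs
  · rw [← h]; exact hs
  · have := stay hU hF hloc hL.rev (t0 := -s) (t' := -t) (by linarith) (by simpa using hs)
    simpa using this

/-- if one component carries a pencil and all leaves are closed, there is only one component -/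
theorem curved_of_component {U : Set E2} (hU : IsOpen U) (hUc : IsConnected U) {F : E2 → ℝ}
    (hF : ContDiffOn ℝ ∞ F U) (hreg : ∀ p ∈ U, tang F p ≠ 0)
    (hclosed : ∀ p ∈ U, ∃ c, CL F U c ∧ p ∈ range c)
    {q0 : E2} (hq : q0 ∈ U) (hb : bend F q0 ≠ 0) (hloc : Local F (U ∩ bend F ⁻¹' {0}ᶜ)
      (connectedComponentIn (U ∩ bend F ⁻¹' {0}ᶜ) q0)) : ∀ p ∈ U, bend F p ≠ 0 := by
  have hsat := stay' hU hF hloc
  obtain ⟨U', hU'd⟩ : ∃ U', U' = U ∩ bend F ⁻¹' {0}ᶜ := ⟨_, rfl⟩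
  rw [← hU'd] at hsat
  have hU' : IsOpen U' := by
    rw [hU'd]
    exact (bend_cont hU F hF).isOpen_inter_preimage hU isClosed_singleton.isOpen_compl
  have hUU : U' ⊆ U := by rw [hU'd]; exact inter_subset_left
  have hq' : q0 ∈ U' := by rw [hU'd]; exact ⟨hq, hb⟩
  obtain ⟨V, hVd⟩ : ∃ V, V = connectedComponentIn U' q0 := ⟨_, rfl⟩
  rw [← hVd] at hsat
  have hV : IsOpen V := by rw [hVd]; exact hU'.connectedComponentIn
  have hVc : IsPreconnected V := by rw [hVd]; exact isPreconnected_connectedComponentIn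
  have hVU : V ⊆ U' := by rw [hVd]; exact connectedComponentIn_subset _ _
  have hqV : q0 ∈ V := by rw [hVd]; exact mem_connectedComponentIn hq'
  have hcl : ∀ p ∈ U, p ∈ closure V → p ∈ V := by
    intro p hp hpc
    obtain ⟨c, hc, t1, hct⟩ := hclosed p hp
    have hL := hc.toLC subset_rfl hreg
    obtain ⟨T, hT, hper⟩ := hc.per
    obtain ⟨t0, ht0⟩ := exists_curved hU hF hL hT (by simpa using hper 0)
    -- all points of the leaf are in the closure
    have hall : ∀ t, c t ∈ closure V := by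
      have hA : IsClopen {t | c t ∈ closure V} := by
        refine ⟨isClosed_closure.preimage hL.diff.continuous, ?_⟩
        rw [isOpen_iff_mem_nhds]
        intro t ht
        have h1 := box hU hF hreg hsat (hL.mem t) ht
        have h2 : ∀ᶠ s in 𝓝 t, F (c s) = F (c t) → c s ∈ closure V :=
          hL.diff.continuous.continuousAt.eventually h1
        filter_upwards [h2] with s hs
        exact hs (by rw [hL.lev s, hL.lev t])
      have hne : {t | c t ∈ closure V}.Nonempty := ⟨t1, by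
        show c t1 ∈ closure V
        rw [hct]; exact hpc⟩
      have := hA.eq_univ hne
      intro t
      have : t ∈ {t | c t ∈ closure V} := by rw [this]; exact mem_univ t
      exact this
    have hin : c t0 ∈ U' := by rw [hU'd]; exact ⟨hL.mem t0, ht0⟩
    have hpre : IsPreconnected (insert (c t0) V) := hVc.subset_closure
      (subset_insert _ _) (insert_subset (hall t0) subset_closure)
    have hsub : insert (c t0) V ⊆ V := by
      conv_rhs => rw [hVd]
      exact hpre.subset_connectedComponentIn (mem_insert_of_mem _ hqV) (insert_subset hin hVU)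
    have := hsat c hL ⟨t0, hsub (mem_insert _ _)⟩ t1
    rwa [hct] at this
  have hsub : U ⊆ V := hUc.isPreconnected.subset_of_closure_inter_subset hV ⟨q0, hq, hqV⟩
    (fun p hp => hcl p hp.2 hp.1)
  intro p hp
  have := hVU (hsub hp)
  rw [hU'd] at this
  exact this.2

theorem fin_of_local {F : E2 → ℝ} {W U : Set E2} (hW : IsOpen W) (hU : IsOpen U) (hUW : U ⊆ W)
    (hUc : IsConnected U) (hF : ContDiffOn ℝ ∞ F W) (hreg : ∀ p ∈ W, tang F p ≠ 0)
    (hbU : ∀ p ∈ U, bend F p ≠ 0) (hloc : Local F (W ∩ bend F ⁻¹' {0}ᶜ) U) :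
    ∃ Q₁ Q₂ : Matrix (Fin 3) (Fin 3) ℝ, Q₁.IsSymm ∧ Q₂.IsSymm ∧ LinearIndependent ℝ ![Q₁, Q₂] ∧
      ∀ c : ℝ → E2, CL F (W ∩ closure U) c →
        ∃ l₁ l₂ : ℝ, (l₁ • Q₁ + l₂ • Q₂).det ≠ 0 ∧ IsEll (range c) ∧
          range c = {p | form (fun i j => (l₁ • Q₁ + l₂ • Q₂) i j) ![p.1, p.2, 1] = 0} := by
  have hcurv : ∀ c : ℝ → E2, CL F (W ∩ closure U) c → ∀ t, bend F (c t) ≠ 0 := by
    intro c hc t
    have hL := hc.toLC inter_subset_left hreg
    obtain ⟨T, hT, hper⟩ := hc.per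
    obtain ⟨t0, ht0⟩ := exists_curved hW hF hL hT (by simpa using hper 0)
    have hWW : W ∩ bend F ⁻¹' {0}ᶜ ⊆ W := inter_subset_left
    intro hcon
    obtain ⟨t', ht', hct'⟩ := exists_later hT hper t0 t
    have hcb : Continuous fun t => bend F (c t) := by
      rw [continuous_iff_continuousAt]
      intro s
      exact ContinuousAt.comp ((bend_cont hW F hF).continuousAt (hW.mem_nhds (hc.mem s).1))
        (hc.diff s).continuousAt
    obtain ⟨S, hS⟩ : ∃ S : Set ℝ, S = Ici t0 ∩ (fun t => bend F (c t)) ⁻¹' {0} := ⟨_, rfl⟩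
    have hSc : IsClosed S := by
      rw [hS]
      exact isClosed_Ici.inter (isClosed_singleton.preimage hcb)
    have hSb : BddBelow S := ⟨t0, fun s hs => by rw [hS] at hs; exact hs.1⟩
    have hSn : S.Nonempty := ⟨t', by
      rw [hS]
      refine ⟨ht'.le, ?_⟩
      show bend F (c t') = 0
      rw [hct', hcon]⟩
    have hts := hSc.csInf_mem hSn hSb
    obtain ⟨t1, ht1⟩ : ∃ t1, t1 = sInf S := ⟨_, rfl⟩
    rw [← ht1] at hts
    have hlt : t0 < t1 := by
      rw [hS] at hts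
      refine lt_of_le_of_ne hts.1 ?_
      rintro rfl
      exact ht0 hts.2
    have hne := continuation hW hF hL hWW hloc hlt (fun s hs => by
      refine ⟨⟨(hc.mem s).1, fun hb0 => ?_⟩, (hc.mem s).2⟩
      have : s ∈ S := by rw [hS]; exact ⟨hs.1.le, hb0⟩
      have := csInf_le hSb this
      rw [← ht1] at this
      exact absurd hs.2 (not_lt.mpr this))
    rw [hS] at hts
    exact hne hts.2
  obtain ⟨b, Q₁, Q₂, h1, h2, h3, h4⟩ := hloc
  have hd : ∀ p ∈ (W ∩ bend F ⁻¹' {0}ᶜ) ∩ closure U, DifferentiableAt ℝ F p := fun p hp =>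
    (hF.contDiffAt (hW.mem_nhds hp.1.1)).differentiableAt (by simp)
  refine ⟨Q₁, Q₂, h1, h2, h3, ?_⟩
  intro c hc
  have hne := hcurv c hc
  have hmem' : ∀ t ∈ (univ : Set ℝ), c t ∈ (W ∩ bend F ⁻¹' {0}ᶜ) ∩ closure U := fun t _ =>
    ⟨⟨(hc.mem t).1, hne t⟩, (hc.mem t).2⟩
  have hc' := b_const (fun p hp => (h4 p hp.1 hp.2).2.2.2) hd isOpen_univ isPreconnected_univ
    hc.diff.differentiableOn hmem' (fun s _ t _ => by rw [hc.lev s, hc.lev t])
  obtain ⟨g1, -, g3, -⟩ := h4 _ (hmem' 0 (mem_univ _)).1 (hmem' 0 (mem_univ _)).2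
  obtain ⟨T, hT, hper⟩ := hc.per
  have key := ell (q := fun j l => b j l (c 0)) (symm_of_span h1 h2 g3) (by rw [g1]; norm_num)
    hc.diff hc.reg hT (by simpa using hper 0) (fun t => by
      have h6 : (fun j l => b j l (c 0)) = fun j l => b j l (c t) := by
        funext j l
        exact hc' _ (mem_univ _) _ (mem_univ _) j l
      rw [h6]
      exact (h4 _ (hmem' t (mem_univ _)).1 (hmem' t (mem_univ _)).2).2.1)
  obtain ⟨l₁, l₂, g3⟩ := g3
  refine ⟨l₁, l₂, by rw [← g3, g1]; norm_num, key.2, ?_⟩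
  rw [← g3]
  exact key.1

theorem main_an {F : E2 → ℝ} {W U K : Set E2} {C : Set ℝ} (hW : IsOpen W) (hU : IsOpen U)
    (hUW : U ⊆ W) (hUc : IsConnected U) (hF : ContDiffOn ℝ ω F W)
    (hreg : ∀ p ∈ W, tang F p ≠ 0) (hclosed : ∀ p ∈ U, ∃ c, CL F U c ∧ p ∈ range c)
    (hK : IsCompact K) (hKU : K ⊆ U) (hC : C.Infinite) (hCK : C ⊆ F '' K)
    (hproj : ∀ p ∈ U, F p ∈ C → PI F p) :
    ∃ Q₁ Q₂ : Matrix (Fin 3) (Fin 3) ℝ, Q₁.IsSymm ∧ Q₂.IsSymm ∧ LinearIndependent ℝ ![Q₁, Q₂] ∧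
      ∀ c : ℝ → E2, CL F (W ∩ closure U) c →
        ∃ l₁ l₂ : ℝ, (l₁ • Q₁ + l₂ • Q₂).det ≠ 0 ∧ IsEll (range c) ∧
          range c = {p | form (fun i j => (l₁ • Q₁ + l₂ • Q₂) i j) ![p.1, p.2, 1] = 0} := by
  have hF' : ContDiffOn ℝ ∞ F W := hF.of_le (by simp)
  -- accumulation leaf
  have hFK : IsCompact (F '' K) := hK.image_of_continuousOn (hF.continuousOn.mono (hKU.trans hUW))
  obtain ⟨v, hv, hacc⟩ := hC.exists_accPt_of_subset_isCompact hFK hCK
  obtain ⟨p0, hp0, rfl⟩ := hv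
  obtain ⟨c, hc, t1, hct⟩ := hclosed p0 (hKU hp0)
  have hL := hc.toLC subset_rfl (fun p hp => hreg p (hUW hp))
  obtain ⟨T, hT, hper⟩ := hc.per
  obtain ⟨t0, ht0⟩ := exists_curved hU (hF'.mono hUW) hL hT (by simpa using hper 0)
  obtain ⟨q0, hq0⟩ : ∃ q0, q0 = c t0 := ⟨_, rfl⟩
  rw [← hq0] at ht0
  have hq : q0 ∈ U := by rw [hq0]; exact hL.mem t0
  have hFq : F q0 = F p0 := by rw [hq0, ← hct, hL.lev t0, hL.lev t1]
  rw [← hFq] at hacc
  obtain ⟨U', hU'd⟩ : ∃ U', U' = U ∩ bend F ⁻¹' {0}ᶜ := ⟨_, rfl⟩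
  have hU' : IsOpen U' := by
    rw [hU'd]
    exact (bend_cont hU F (hF'.mono hUW)).isOpen_inter_preimage hU isClosed_singleton.isOpen_compl
  have hUU : U' ⊆ U := by rw [hU'd]; exact inter_subset_left
  have hq' : q0 ∈ U' := by rw [hU'd]; exact ⟨hq, ht0⟩
  have hloc : Local F U' (connectedComponentIn U' q0) :=
    local_an hU' hU'.connectedComponentIn (connectedComponentIn_subset _ _)
      (isConnected_connectedComponentIn_iff.mpr hq') F (hF.mono (hUU.trans hUW))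
      (fun p hp => by rw [hU'd] at hp; exact hp.2) (fun p hp => hreg p (hUW (hUU hp)))
      (mem_connectedComponentIn hq') hacc
      (fun p hp hpC => hproj p (hUU (connectedComponentIn_subset _ _ hp)) hpC)
  rw [hU'd] at hloc
  have hbU := curved_of_component hU hUc (hF'.mono hUW) (fun p hp => hreg p (hUW hp)) hclosed hq
    ht0 hloc
  have hW' : IsOpen (W ∩ bend F ⁻¹' {0}ᶜ) :=
    (bend_cont hW F hF').isOpen_inter_preimage hW isClosed_singleton.isOpen_compl
  exact fin_of_local hW hU hUW hUc hF' hreg hbU (local_an hW' hU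
    (fun p hp => ⟨hUW hp, hbU p hp⟩) hUc F (hF.mono inter_subset_left) (fun p hp => hp.2)
    (fun p hp => hreg p hp.1) hq hacc hproj)

end Pool.Agent.W5h48.AL
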