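import Pool.Agent.W5h48.AL.Geo

set_option autoImplicit false
set_option linter.unusedSimpArgs false

open Set Filter Topology
open scoped ContDiff

namespace Pool.Agent.W5h48.AL

section Dom

variable {W : Set E2}

/-- the point with the projective coordinate `t` on the tangent line -/
noncomputable def gmap (dx dy η : Sm W) (q : E2 × ℝ) : E2 :=
  q.1 + (q.2 / (1 + q.2 * ev η q.1)) • ((ev dx q.1, ev dy q.1) : E2)

def Dom (dx dy η : Sm W) : Set (E2 × ℝ) :=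
  {q | q.1 ∈ W ∧ 0 < 1 + q.2 * ev η q.1 ∧ gmap dx dy η q ∈ W}

variable (dx dy η : Sm W)

theorem cd_ev (f : Sm W) {S : Set (E2 × ℝ)} (hS : ∀ q ∈ S, q.1 ∈ W) :
    ContDiffOn ℝ ∞ (fun q : E2 × ℝ => ev f q.1) S :=
  (ev_smooth f).comp contDiff_fst.contDiffOn hS

theorem gmap_smooth' : ContDiffOn ℝ ∞ (gmap dx dy η)
    {q | q.1 ∈ W ∧ 0 < 1 + q.2 * ev η q.1} := by
  have h1 : ∀ f : Sm W, ContDiffOn ℝ ∞ (fun q : E2 × ℝ => ev f q.1)
      {q | q.1 ∈ W ∧ 0 < 1 + q.2 * ev η q.1} := fun f => cd_ev f (fun q hq => hq.1)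
  have h2 : ContDiffOn ℝ ∞ (fun q : E2 × ℝ => 1 + q.2 * ev η q.1)
      {q | q.1 ∈ W ∧ 0 < 1 + q.2 * ev η q.1} :=
    contDiffOn_const.add (contDiff_snd.contDiffOn.mul (h1 η))
  exact contDiff_fst.contDiffOn.add
    ((contDiff_snd.contDiffOn.div h2 (fun q hq => hq.2.ne')).smul ((h1 dx).prodMk (h1 dy)))

theorem gmap_smooth : ContDiffOn ℝ ∞ (gmap dx dy η) (Dom dx dy η) :=
  (gmap_smooth' dx dy η).mono fun q hq => ⟨hq.1, hq.2.1⟩

theorem gmap_maps : MapsTo (gmap dx dy η) (Dom dx dy η) W := fun _ hq => hq.2.2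

theorem Dom_open (hW : IsOpen W) : IsOpen (Dom dx dy η) := by
  have h0 : IsOpen {q : E2 × ℝ | q.1 ∈ W} := hW.preimage continuous_fst
  have h1 : ContinuousOn (fun q : E2 × ℝ => 1 + q.2 * ev η q.1) {q : E2 × ℝ | q.1 ∈ W} :=
    continuousOn_const.add (continuousOn_snd.mul (cd_ev η (fun q hq => hq)).continuousOn)
  have h2 : IsOpen {q : E2 × ℝ | q.1 ∈ W ∧ 0 < 1 + q.2 * ev η q.1} :=
    h1.isOpen_inter_preimage h0 isOpen_Ioi
  have h3 := (gmap_smooth' dx dy η).continuousOn.isOpen_inter_preimage h2 hW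
  have h4 : Dom dx dy η = {q : E2 × ℝ | q.1 ∈ W ∧ 0 < 1 + q.2 * ev η q.1} ∩
      gmap dx dy η ⁻¹' W := by
    ext q
    constructor
    · rintro ⟨a, b, c⟩
      exact ⟨⟨a, b⟩, c⟩
    · rintro ⟨⟨a, b⟩, c⟩
      exact ⟨a, b, c⟩
  rw [h4]
  exact h3

theorem zero_mem {z : E2} (hz : z ∈ W) : ((z, (0 : ℝ)) : E2 × ℝ) ∈ Dom dx dy η := by
  refine ⟨hz, by simp, ?_⟩
  simpa [gmap] using hz

theorem fst_maps : MapsTo (fun q : E2 × ℝ => q.1) (Dom dx dy η) W := fun _ hq => hq.1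

theorem zero_maps : MapsTo (fun z : E2 => ((z, (0 : ℝ)) : E2 × ℝ)) W (Dom dx dy η) :=
  fun _ hz => zero_mem dx dy η hz

theorem fst_smooth {S : Set (E2 × ℝ)} : ContDiffOn ℝ ∞ (fun q : E2 × ℝ => q.1) S :=
  contDiff_fst.contDiffOn

theorem zero_smooth {S : Set E2} : ContDiffOn ℝ ∞ (fun z : E2 => ((z, (0 : ℝ)) : E2 × ℝ)) S :=
  (contDiff_id.prodMk contDiff_const).contDiffOn

/-- pullback along the projection -/
noncomputable def iota : Sm W →ₐ[ℝ] Sm (Dom dx dy η) :=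
  pull (fun q : E2 × ℝ => q.1) fst_smooth (fst_maps dx dy η)

/-- pullback along `gmap` -/
noncomputable def gpull : Sm W →ₐ[ℝ] Sm (Dom dx dy η) :=
  pull (gmap dx dy η) (gmap_smooth dx dy η) (gmap_maps dx dy η)

/-- restriction to `t = 0` -/
noncomputable def sigma : Sm (Dom dx dy η) →ₐ[ℝ] Sm W :=
  pull (fun z : E2 => ((z, (0 : ℝ)) : E2 × ℝ)) zero_smooth (zero_maps dx dy η)

noncomputable def tt : Sm (Dom dx dy η) :=
  mk (fun q : E2 × ℝ => q.2) contDiff_snd.contDiffOn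

noncomputable def vv : Sm (Dom dx dy η) :=
  mk (fun q : E2 × ℝ => (1 + q.2 * ev η q.1)⁻¹)
    ((contDiffOn_const.add (contDiff_snd.contDiffOn.mul (cd_ev η (fun _ hq => hq.1)))).inv
      (fun _ hq => hq.2.1.ne'))

theorem vv_mul : vv dx dy η * (1 + tt dx dy η * iota dx dy η η) = 1 := by
  apply Sm_ext
  intro q hq
  have h1 := hq.2.1
  rw [ev_mul, ev_add, ev_one hq, ev_mul]
  unfold vv tt iota
  rw [ev_mk _ _ hq, ev_mk _ _ hq, ev_pull _ _ _ _ hq]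
  exact inv_mul_cancel₀ h1.ne'

theorem gpull_x : gpull dx dy η cx =
    iota dx dy η cx + tt dx dy η * vv dx dy η * iota dx dy η dx := by
  apply Sm_ext
  intro q hq
  rw [ev_add, ev_mul, ev_mul]
  unfold vv tt iota gpull
  rw [ev_mk _ _ hq, ev_mk _ _ hq, ev_pull _ _ _ _ hq, ev_pull _ _ _ _ hq, ev_pull _ _ _ _ hq]
  unfold cx
  rw [ev_mk _ _ hq.2.2, ev_mk _ _ hq.1]
  simp [gmap, div_eq_mul_inv]

theorem gpull_y : gpull dx dy η cy =
    iota dx dy η cy + tt dx dy η * vv dx dy η * iota dx dy η dy := by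
  apply Sm_ext
  intro q hq
  rw [ev_add, ev_mul, ev_mul]
  unfold vv tt iota gpull
  rw [ev_mk _ _ hq, ev_mk _ _ hq, ev_pull _ _ _ _ hq, ev_pull _ _ _ _ hq, ev_pull _ _ _ _ hq]
  unfold cy
  rw [ev_mk _ _ hq.2.2, ev_mk _ _ hq.1]
  simp [gmap, div_eq_mul_inv]

variable (hW : IsOpen W)

theorem pd_iota (w : E2 × ℝ) (f : Sm W) :
    pd (Dom_open dx dy η hW) w (iota dx dy η f) = iota dx dy η (pd hW w.1 f) := by
  apply Sm_ext
  intro q hq
  unfold iota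
  rw [ev_pd_pull _ hW _ _ _ _ _ hq, ev_pull _ _ _ _ hq, ev_pd hW _ _ hq.1]
  have : fderiv ℝ (fun q : E2 × ℝ => q.1) q w = w.1 := by
    rw [(hasFDerivAt_fst (𝕜 := ℝ) (p := q)).fderiv]; rfl
  rw [this]

theorem pd_tt (w : E2 × ℝ) :
    pd (Dom_open dx dy η hW) w (tt dx dy η) = algebraMap ℝ _ w.2 := by
  apply Sm_ext
  intro q hq
  unfold tt
  rw [pd_mk _ _ _ _ hq, ev_of_mem _ hq]
  rw [(hasFDerivAt_snd (𝕜 := ℝ) (p := q)).fderiv]
  rfl

theorem sigma_iota (f : Sm W) : sigma dx dy η (iota dx dy η f) = f := by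
  apply Sm_ext
  intro z hz
  unfold sigma iota
  rw [ev_pull _ _ _ _ hz, ev_pull _ _ _ _ (zero_mem dx dy η hz)]

theorem sigma_gpull (f : Sm W) : sigma dx dy η (gpull dx dy η f) = f := by
  apply Sm_ext
  intro z hz
  unfold sigma gpull
  rw [ev_pull _ _ _ _ hz, ev_pull _ _ _ _ (zero_mem dx dy η hz)]
  simp [gmap]

theorem sigma_tt : sigma dx dy η (tt dx dy η) = 0 := by
  apply Sm_ext
  intro z hz
  unfold sigma tt
  rw [ev_pull _ _ _ _ hz, ev_mk _ _ (zero_mem dx dy η hz), ev_zero]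

theorem sigma_pd (v : E2) (b : Sm (Dom dx dy η)) :
    sigma dx dy η (pd (Dom_open dx dy η hW) (v, 0) b) = pd hW v (sigma dx dy η b) := by
  apply Sm_ext
  intro z hz
  unfold sigma
  rw [ev_pull _ _ _ _ hz, ev_pd_pull hW (Dom_open dx dy η hW) _ _ _ _ _ hz,
    ev_pd _ _ _ (zero_mem dx dy η hz)]
  congr 1
  have h1 : HasFDerivAt (fun z : E2 => ((z, (0 : ℝ)) : E2 × ℝ))
      ((ContinuousLinearMap.id ℝ E2).prod (0 : E2 →L[ℝ] ℝ)) z :=
    (hasFDerivAt_id z).prodMk (hasFDerivAt_const (0 : ℝ) z)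
  rw [h1.fderiv]
  rfl

end Dom

end Pool.Agent.W5h48.AL
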