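import Mathlib

set_option autoImplicit false
set_option linter.unusedSimpArgs false

namespace Pool.Agent.W5h48.AL

variable {A : Type*} [CommRing A] [Algebra ℝ A]

theorem der_num (D : Derivation ℝ A A) (n : ℕ) [n.AtLeastTwo] : D (ofNat(n) : A) = 0 := by
  have h : (OfNat.ofNat n : A) = ((OfNat.ofNat n : ℕ) : A) := (Nat.cast_ofNat).symm
  rw [h]
  exact D.map_natCast _

theorem nat_cancel {n : ℕ} (hn : n ≠ 0) {x y : A} (h : (n : A) * x = (n : A) * y) : x = y := by
  have h1 : ((n : ℝ)⁻¹) • ((n : A) * x) = ((n : ℝ)⁻¹) • ((n : A) * y) := by rw [h]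
  have h2 : ∀ z : A, ((n : ℝ)⁻¹) • ((n : A) * z) = z := fun z => by
    have h3 : ((n : A) * z) = (n : ℝ) • z := by
      rw [Algebra.smul_def, map_natCast]
    rw [h3, smul_smul, inv_mul_cancel₀ (by exact_mod_cast hn), one_smul]
  rwa [h2, h2] at h1

structure Jet (D δ : Derivation ℝ A A) (k β c i : A) : Prop where
  comm : ∀ f, δ (D f) = D (δ f) + β * D f
  Dβ : D β = 3 * i - 2 * c
  Dk : D k = 6 * c - 3 * i
  δk : δ k = 4 * D c - D i + 2 * β * k
  δc : δ c = 3 * β * c + 2 * k * c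
  δi : δ i = D (D c) - 4 * k * c + (3 * β + k) * i
  DDi : D (D i) = 7 * D (D c) - 28 * k * c + 9 * k * i

/-- the table of derivatives -/
structure Tab (D δ : Derivation ℝ A A) (k β c0 c1 c2 c3 i0 i1 : A) : Prop where
  comm : ∀ f, δ (D f) = D (δ f) + β * D f
  Dβ : D β = 3 * i0 - 2 * c0
  Dk : D k = 6 * c0 - 3 * i0
  Dc0 : D c0 = c1
  Dc1 : D c1 = c2
  Dc2 : D c2 = c3
  Dc3 : D c3 = 72 * c0 * c1 + 39 * c0 * i1 - 64 * k * k * c0 + 75 * c1 * i0 + 20 * k * c2 - 30 * i0 * i1
  Di0 : D i0 = i1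
  Di1 : D i1 = 7 * c2 - 28 * k * c0 + 9 * k * i0
  δk : δ k = 4 * c1 - i1 + 2 * β * k
  δc0 : δ c0 = 3 * β * c0 + 2 * k * c0
  δi0 : δ i0 = c2 - 4 * k * c0 + (3 * β + k) * i0

theorem Jet.tab {D δ : Derivation ℝ A A} {k β c i : A} (J : Jet D δ k β c i) :
    Tab D δ k β c (D c) (D (D c)) (D (D (D c))) i (D i) := by
  obtain ⟨c1, h1⟩ : ∃ c1, D c = c1 := ⟨_, rfl⟩
  obtain ⟨c2, h2⟩ : ∃ c2, D c1 = c2 := ⟨_, rfl⟩
  obtain ⟨c3, h3⟩ : ∃ c3, D c2 = c3 := ⟨_, rfl⟩
  obtain ⟨c4, h4⟩ : ∃ c4, D c3 = c4 := ⟨_, rfl⟩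
  obtain ⟨i1, g1⟩ : ∃ i1, D i = i1 := ⟨_, rfl⟩
  have hβ := J.Dβ
  have hk := J.Dk
  have hδk := J.δk
  have hδc := J.δc
  have hδi := J.δi
  have g2 := J.DDi
  simp only [h1, h2, g1] at hδk hδi g2
  have d1 : δ c1 = 4 * β * c1 + 2 * k * c1 + 6 * c * c + 3 * c * i := by
    have h := J.comm c
    rw [hδc, h1] at h
    simp only [map_add, map_sub, Derivation.leibniz, smul_eq_mul, der_num, h1, hβ, hk] at h
    linear_combination h
  have d2 : δ c2 = 5 * β * c2 + 2 * k * c2 + 16 * c * c1 + 9 * c1 * i + 3 * c * i1 := by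
    have h := J.comm c1
    rw [d1, h2] at h
    simp only [map_add, map_sub, Derivation.leibniz, smul_eq_mul, der_num, h1, h2, g1, hβ, hk] at h
    linear_combination h
  have e1 : δ i1 = 4 * β * i1 + c3 - 4 * k * c1 + k * i1 - 24 * c * c + 12 * c * i + 6 * i * i := by
    have h := J.comm i
    rw [hδi, g1] at h
    simp only [map_add, map_sub, Derivation.leibniz, smul_eq_mul, der_num, h1, h2, h3, g1, hβ, hk] at h
    linear_combination h
  have e5 : c4 = 72 * c * c1 + 39 * c * i1 - 64 * k * k * c + 75 * c1 * i + 20 * k * c2 -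
      30 * i * i1 := by
    have h := J.comm i1
    rw [g2, e1] at h
    simp only [map_add, map_sub, Derivation.leibniz, smul_eq_mul, der_num, h1, h2, h3, h4, g1, g2,
      hβ, hk, hδk, hδc, hδi, d1, d2] at h
    linear_combination -h
  subst h1 h2 h3 h4 g1
  exact ⟨J.comm, J.Dβ, J.Dk, rfl, rfl, rfl, e5, rfl, J.DDi, J.δk, J.δc, J.δi⟩

namespace Tab

variable {D δ : Derivation ℝ A A} {k β c0 c1 c2 c3 i0 i1 : A}

theorem δc1 (T : Tab D δ k β c0 c1 c2 c3 i0 i1) :
    δ c1 = 4 * β * c1 + 2 * k * c1 + 6 * c0 * c0 + 3 * c0 * i0 := by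
  have h := T.comm c0
  rw [T.δc0, T.Dc0] at h
  simp only [map_add, map_sub, Derivation.leibniz, smul_eq_mul, der_num, T.Dc0, T.Dβ, T.Dk] at h
  linear_combination h

theorem δc2 (T : Tab D δ k β c0 c1 c2 c3 i0 i1) :
    δ c2 = 5 * β * c2 + 2 * k * c2 + 16 * c0 * c1 + 9 * c1 * i0 + 3 * c0 * i1 := by
  have h := T.comm c1
  rw [T.δc1, T.Dc1] at h
  simp only [map_add, map_sub, Derivation.leibniz, smul_eq_mul, der_num, T.Dc0, T.Dc1, T.Di0, T.Dβ,
    T.Dk] at h
  linear_combination h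

theorem δi1 (T : Tab D δ k β c0 c1 c2 c3 i0 i1) :
    δ i1 = 4 * β * i1 + c3 - 4 * k * c1 + k * i1 - 24 * c0 * c0 + 12 * c0 * i0 + 6 * i0 * i0 := by
  have h := T.comm i0
  rw [T.δi0, T.Di0] at h
  simp only [map_add, map_sub, Derivation.leibniz, smul_eq_mul, der_num, T.Dc0, T.Dc1, T.Dc2, T.Di0,
    T.Dβ, T.Dk] at h
  linear_combination h

theorem δc3 (T : Tab D δ k β c0 c1 c2 c3 i0 i1) :
    δ c3 = 6 * β * c3 + 2 * k * c3 + 18 * c0 * c2 + 18 * c2 * i0 + 16 * c1 * c1 + 12 * c1 * i1 +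
      3 * c0 * (7 * c2 - 28 * k * c0 + 9 * k * i0) := by
  have h := T.comm c2
  rw [T.δc2, T.Dc2] at h
  simp only [map_add, map_sub, Derivation.leibniz, smul_eq_mul, der_num, T.Dc0, T.Dc1, T.Dc2, T.Di0,
    T.Di1, T.Dβ, T.Dk] at h
  linear_combination h

theorem r7 (T : Tab D δ k β c0 c1 c2 c3 i0 i1) :
    9 * i0 * i0 * i0 - 9 * c0 * i0 * i0 - 72 * c0 * c0 * i0 + 4 * c2 * i1 + 3 * c3 * i0
      - 16 * c0 * i1 * k - 12 * c1 * i0 * k = 0 := by
  have h := T.comm c3
  rw [T.δc3, T.Dc3] at h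
  simp only [map_add, map_sub, Derivation.leibniz, smul_eq_mul, der_num, T.Dc0, T.Dc1, T.Dc2, T.Dc3,
    T.Di0, T.Di1, T.Dβ, T.Dk, T.δc0, T.δc1, T.δc2, T.δc3, T.δi0, T.δi1, T.δk] at h
  refine nat_cancel (n := 20) (by norm_num) ?_
  push_cast
  linear_combination -h

theorem r7d (T : Tab D δ k β c0 c1 c2 c3 i0 i1) :
    4 * c2 * c2 - 24 * c0 * c0 * i1 + 64 * c0 * c0 * k * k + 36 * c1 * i0 * i0 + c3 * i1
      - 9 * i0 * i0 * i1 - 32 * c0 * c2 * k + 21 * c0 * i0 * i1 - 48 * c0 * i0 * k * k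
      - 4 * c1 * i1 * k + 12 * c2 * i0 * k = 0 := by
  have h := congrArg D T.r7
  simp only [map_add, map_sub, map_zero, Derivation.leibniz, smul_eq_mul, der_num, T.Dc0, T.Dc1,
    T.Dc2, T.Dc3, T.Di0, T.Di1, T.Dβ, T.Dk] at h
  refine nat_cancel (n := 7) (by norm_num) ?_
  push_cast
  linear_combination h

theorem r7dd (T : Tab D δ k β c0 c1 c2 c3 i0 i1) :
    60 * c0 * i1 * i1 - 360 * c0 * c0 * c2 + 1440 * c0 * c0 * c0 * k + 15 * c2 * c3
      - 63 * c2 * i0 * i0 - 48 * i0 * i1 * i1 - 81 * i0 * i0 * i0 * k + 240 * c0 * c1 * k * k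
      + 315 * c0 * c2 * i0 - 60 * c0 * c3 * k + 729 * c0 * i0 * i0 * k - 112 * c0 * i1 * k * k
      - 1764 * c0 * c0 * i0 * k - 60 * c1 * c2 * k + 180 * c1 * i0 * i1 - 84 * c1 * i0 * k * k
      + 28 * c2 * i1 * k + 21 * c3 * i0 * k = 0 := by
  have h := congrArg D T.r7d
  simp only [map_add, map_sub, map_zero, Derivation.leibniz, smul_eq_mul, der_num, T.Dc0, T.Dc1,
    T.Dc2, T.Dc3, T.Di0, T.Di1, T.Dβ, T.Dk] at h
  refine nat_cancel (n := 1) (by norm_num) ?_
  push_cast
  linear_combination h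

theorem r9 (T : Tab D δ k β c0 c1 c2 c3 i0 i1) :
    28 * c0 * i1 * i1 - 168 * c0 * c0 * c2 + 672 * c0 * c0 * c0 * k + 7 * c2 * c3
      + 105 * c2 * i0 * i0 + 27 * i0 * i0 * i0 * k + 112 * c0 * c1 * k * k
      + 147 * c0 * c2 * i0 - 28 * c0 * c3 * k - 195 * c0 * i0 * i0 * k - 48 * c0 * i1 * k * k
      - 804 * c0 * c0 * i0 * k - 28 * c1 * c2 * k + 84 * c1 * i0 * i1 - 36 * c1 * i0 * k * k
      + 12 * c2 * i1 * k + 9 * c3 * i0 * k = 0 := by
  have h := congrArg δ T.r7
  simp only [map_add, map_sub, map_zero, Derivation.leibniz, smul_eq_mul, der_num, T.δc0, T.δc1,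
    T.δc2, T.δc3, T.δi0, T.δi1, T.δk] at h
  refine nat_cancel (n := 1) (by norm_num) ?_
  push_cast
  linear_combination h - 9 * β * T.r7

theorem relA (T : Tab D δ k β c0 c1 c2 c3 i0 i1) (hi : IsUnit i0) :
    6 * i0 * (c2 - 4 * k * c0) + i1 * i1 + 3 * k * i0 * i0 = 0 := by
  refine hi.mul_left_cancel ?_
  refine nat_cancel (n := 336) (by norm_num) ?_
  push_cast
  linear_combination 4 * k * T.r7 - 7 * T.r7dd + 15 * T.r9

theorem relC (T : Tab D δ k β c0 c1 c2 c3 i0 i1) (hi : IsUnit i0) :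
    4 * i1 * (c2 - 4 * k * c0) + 8 * k * i0 * i1 + 36 * c0 * i0 * i0 - 9 * i0 * i0 * i0 = 0 := by
  have h := congrArg D (T.relA hi)
  simp only [map_add, map_sub, map_zero, Derivation.leibniz, smul_eq_mul, der_num, T.Dc0, T.Dc1,
    T.Dc2, T.Dc3, T.Di0, T.Di1, T.Dβ, T.Dk] at h
  refine nat_cancel (n := 3) (by norm_num) ?_
  push_cast
  linear_combination h - 2 * T.r7

theorem exists_div (n : ℕ) (hn : n ≠ 0) (x : A) : ∃ y : A, (n : A) * y = x := by
  refine ⟨(n : ℝ)⁻¹ • x, ?_⟩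
  have h3 : ∀ z : A, ((n : A) * z) = (n : ℝ) • z := fun z => by
    rw [Algebra.smul_def, map_natCast]
  rw [h3, smul_smul, mul_inv_cancel₀ (by exact_mod_cast hn), one_smul]

/-- If `i` is a unit, the ring is trivial. -/
theorem trivial_of_unit (T : Tab D δ k β c0 c1 c2 c3 i0 i1) (hi : IsUnit i0) : (1 : A) = 0 := by
  obtain ⟨u, hu⟩ := hi.exists_right_inv
  obtain ⟨q, hq⟩ := exists_div 6 (by norm_num) (i1 * u)
  obtain ⟨K, hK⟩ := exists_div 12 (by norm_num) k
  obtain ⟨M, hM⟩ := exists_div 8 (by norm_num) i0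
  push_cast at hq hK hM
  have hi1 : i1 = 6 * q * i0 := by linear_combination (-i1) * hu - i0 * hq
  have hz : c2 = 48 * K * c0 - 6 * i0 * (q * q + K) := by
    refine hi.mul_left_cancel ?_
    refine nat_cancel (n := 6) (by norm_num) ?_
    push_cast
    have h := T.relA hi
    rw [hi1, ← hK] at h
    linear_combination h
  have hc : c0 = 2 * M + 4 * q * q * q - 12 * K * q := by
    refine hi.mul_left_cancel ?_
    refine hi.mul_left_cancel ?_
    refine nat_cancel (n := 36) (by norm_num) ?_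
    push_cast
    have h := T.relC hi
    rw [hi1, ← hK, hz] at h
    linear_combination h - 9 * i0 * i0 * hM
  have hDM : D M = 6 * q * M := by
    refine nat_cancel (n := 8) (by norm_num) ?_
    push_cast
    have h := congrArg D hM
    simp only [Derivation.leibniz, smul_eq_mul, der_num, T.Di0] at h
    rw [hi1] at h
    linear_combination h - 6 * q * hM
  have hDK : D K = -M + 2 * q * q * q - 6 * K * q := by
    refine nat_cancel (n := 12) (by norm_num) ?_
    push_cast
    have h := congrArg D hK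
    simp only [Derivation.leibniz, smul_eq_mul, der_num, T.Dk, hc, ← hM] at h
    linear_combination h
  have hDq : D q = 11 * K - 13 * q * q := by
    refine hi.mul_left_cancel ?_
    refine nat_cancel (n := 6) (by norm_num) ?_
    push_cast
    have h := congrArg D hi1
    simp only [Derivation.leibniz, smul_eq_mul, der_num, T.Di0, T.Di1] at h
    rw [hz, ← hK, hi1] at h
    linear_combination -h
  have hMu : IsUnit M := by
    have h : (8 : A) * M = i0 := hM
    rw [← h] at hi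
    exact isUnit_of_mul_isUnit_right hi
  have hc1 : c1 = 24 * q * M - 180 * q * q * q * q + 360 * K * q * q - 132 * K * K := by
    have h := congrArg D hc
    simp only [map_add, map_sub, Derivation.leibniz, smul_eq_mul, der_num, T.Dc0, hDM, hDK, hDq] at h
    linear_combination h
  have hz' : c2 = 48 * K * c0 - 48 * M * (q * q + K) := by
    linear_combination hz + 6 * (q * q + K) * hM
  have hc3 : c3 = 48 * (-M + 2 * q * q * q - 6 * K * q) * c0 + 48 * K * c1
      - 288 * q * M * (q * q + K)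
      - 48 * M * (2 * q * (11 * K - 13 * q * q) + (-M + 2 * q * q * q - 6 * K * q)) := by
    have h := congrArg D hz'
    simp only [map_add, map_sub, Derivation.leibniz, smul_eq_mul, der_num, T.Dc0, T.Dc2, hDM, hDK,
      hDq] at h
    linear_combination h
  have F1 : (K - q * q) * (M + 21 * q * (K - q * q)) = 0 := by
    have h := congrArg D hc1
    simp only [map_add, map_sub, Derivation.leibniz, smul_eq_mul, der_num, T.Dc1, hDM, hDK, hDq] at h
    rw [hz', hc] at h
    refine nat_cancel (n := 480) (by norm_num) ?_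
    push_cast
    linear_combination -h
  have G1 : M * (2 * M * q - 19 * (K - q * q) * (K - q * q)) = 0 := by
    have h := T.r7d
    rw [hc3, hz', hc1, hc, hi1, ← hK, ← hM] at h
    refine hMu.mul_left_cancel ?_
    refine nat_cancel (n := 18432) (by norm_num) ?_
    push_cast
    linear_combination h
  have G2 : M * (q * (2 * M * q - 23 * (K - q * q) * (K - q * q))) = 0 := by
    have h := T.r9
    rw [hc3, hz', hc1, hc, hi1, ← hK, ← hM] at h
    refine hMu.mul_left_cancel ?_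
    refine nat_cancel (n := 258048) (by norm_num) ?_
    push_cast
    linear_combination h
  have F2 : M * (K - q * q) + 21 * q * (K - q * q) * (K - q * q) = 0 := by linear_combination F1
  have G3 : M * (2 * (q * (K - q * q) * (K - q * q))) = 0 := by
    refine nat_cancel (n := 2) (by norm_num) ?_
    push_cast
    linear_combination q * G1 - G2
  have G4 : q * (K - q * q) * (K - q * q) = 0 := by
    refine hMu.mul_left_cancel ?_
    refine nat_cancel (n := 2) (by norm_num) ?_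
    push_cast
    linear_combination G3
  have G5 : K - q * q = 0 := by
    refine hMu.mul_left_cancel ?_
    linear_combination F2 - 21 * G4
  have G6 : q = 0 := by
    refine hMu.mul_left_cancel ?_
    refine hMu.mul_left_cancel ?_
    refine nat_cancel (n := 2) (by norm_num) ?_
    push_cast
    linear_combination G1 + 19 * M * (K - q * q) * G5
  have G7 : K = 0 := by
    have h := hDq
    rw [G6, map_zero] at h
    refine nat_cancel (n := 11) (by norm_num) ?_
    push_cast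
    linear_combination -h
  have G8 : M = 0 := by
    have h := hDK
    rw [G6, G7, map_zero] at h
    linear_combination h
  rw [G8] at hMu
  have : (0 : A) = 1 := isUnit_zero_iff.mp hMu
  exact this.symm

end Tab

end Pool.Agent.W5h48.AL
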