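import Pool.Agent.W5h48.AL.Pencil

set_option autoImplicit false
set_option linter.unusedSimpArgs false

open Set Filter Topology
open scoped ContDiff

namespace Pool.Agent.W5h48.AL

/-- an ellipse -/
def IsEll (S : Set E2) : Prop :=
  ∃ m u v : E2, u.1 * v.2 - u.2 * v.1 ≠ 0 ∧
    S = range fun θ : ℝ => m + Real.cos θ • u + Real.sin θ • v

theorem exists_angle {a b : ℝ} (h : a ^ 2 + b ^ 2 = 1) : ∃ θ : ℝ, Real.cos θ = a ∧ Real.sin θ = b := by
  have h1 : ‖(⟨a, b⟩ : ℂ)‖ = 1 := by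
    rw [Complex.norm_def, Complex.normSq_mk, Real.sqrt_eq_one]
    linarith
  have h2 : (⟨a, b⟩ : ℂ) ≠ 0 := by
    intro h0
    rw [h0, norm_zero] at h1
    exact zero_ne_one h1
  refine ⟨Complex.arg ⟨a, b⟩, ?_, ?_⟩
  · rw [Complex.cos_arg h2, h1, div_one]
  · rw [Complex.sin_arg, h1, div_one]

theorem rolle2 {c : ℝ → E2} (hc : Differentiable ℝ c) {T : ℝ} (hT : 0 < T) (hper : c T = c 0)
    (n1 n2 : ℝ) : ∃ t, n1 * (deriv c t).1 + n2 * (deriv c t).2 = 0 := by
  have hdc : ∀ t, HasDerivAt (fun t => n1 * (c t).1 + n2 * (c t).2)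
      (n1 * (deriv c t).1 + n2 * (deriv c t).2) t := fun t => by
    have h1 := (hc t).hasDerivAt
    have h2 : HasDerivAt (fun t => (c t).1) (deriv c t).1 t :=
      HasFDerivAt.comp_hasDerivAt t (hasFDerivAt_fst (𝕜 := ℝ) (p := c t)) h1
    have h3 : HasDerivAt (fun t => (c t).2) (deriv c t).2 t :=
      HasFDerivAt.comp_hasDerivAt t (hasFDerivAt_snd (𝕜 := ℝ) (p := c t)) h1
    exact (h2.const_mul _).add (h3.const_mul _)
  obtain ⟨t1, -, ht1⟩ := exists_hasDerivAt_eq_zero (f := fun t => n1 * (c t).1 + n2 * (c t).2)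
    (f' := fun t => n1 * (deriv c t).1 + n2 * (deriv c t).2) hT
    (fun t _ => (hdc t).continuousAt.continuousWithinAt) (by simp only [hper]) (fun t _ => hdc t)
  exact ⟨t1, ht1⟩

theorem ell_aux {A B C D E K : ℝ}
    (hd : A * C * K + 2 * B * D * E - A * E ^ 2 - C * D ^ 2 - K * B ^ 2 ≠ 0) {c : ℝ → E2}
    (hc : Differentiable ℝ c) (hr : ∀ t, deriv c t ≠ 0) {T : ℝ} (hT : 0 < T) (hper : c T = c 0)
    (hG : ∀ t, A * (c t).1 ^ 2 + 2 * B * (c t).1 * (c t).2 + C * (c t).2 ^ 2 + 2 * D * (c t).1 +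
      2 * E * (c t).2 + K = 0) :
    range c = {p : E2 | A * p.1 ^ 2 + 2 * B * p.1 * p.2 + C * p.2 ^ 2 + 2 * D * p.1 +
      2 * E * p.2 + K = 0} ∧ IsEll (range c) := by
  have hx : ∀ t, HasDerivAt (fun t => (c t).1) (deriv c t).1 t := fun t =>
    HasFDerivAt.comp_hasDerivAt t (hasFDerivAt_fst (𝕜 := ℝ) (p := c t)) (hc t).hasDerivAt
  have hy : ∀ t, HasDerivAt (fun t => (c t).2) (deriv c t).2 t := fun t =>
    HasFDerivAt.comp_hasDerivAt t (hasFDerivAt_snd (𝕜 := ℝ) (p := c t)) (hc t).hasDerivAt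
  have hne : ∀ t, 0 < (deriv c t).1 ^ 2 + (deriv c t).2 ^ 2 := fun t => by
    by_contra hn
    have h1 : (deriv c t).1 = 0 := by nlinarith [sq_nonneg (deriv c t).1, sq_nonneg (deriv c t).2]
    have h2 : (deriv c t).2 = 0 := by nlinarith [sq_nonneg (deriv c t).1, sq_nonneg (deriv c t).2]
    exact hr t (Prod.ext h1 h2)
  have hG' : ∀ t, (A * (c t).1 + B * (c t).2 + D) * (deriv c t).1 +
      (B * (c t).1 + C * (c t).2 + E) * (deriv c t).2 = 0 := fun t => by
    have h1 := (((((((hx t).pow 2).const_mul A).add (((hx t).mul (hy t)).const_mul (2 * B))).add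
      (((hy t).pow 2).const_mul C)).add ((hx t).const_mul (2 * D))).add
      ((hy t).const_mul (2 * E))).add_const K
    have h2 : HasDerivAt (fun t => A * (c t).1 ^ 2 + 2 * B * (c t).1 * (c t).2 + C * (c t).2 ^ 2 +
        2 * D * (c t).1 + 2 * E * (c t).2 + K) 0 t := by
      have : (fun t => A * (c t).1 ^ 2 + 2 * B * (c t).1 * (c t).2 + C * (c t).2 ^ 2 +
        2 * D * (c t).1 + 2 * E * (c t).2 + K) = fun _ => 0 := funext hG
      rw [this]
      exact hasDerivAt_const _ _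
    have h3 : HasDerivAt (fun t => A * (c t).1 ^ 2 + 2 * B * (c t).1 * (c t).2 + C * (c t).2 ^ 2 +
        2 * D * (c t).1 + 2 * E * (c t).2 + K) _ t := h1.congr_of_eventuallyEq
      (Filter.Eventually.of_forall fun s => by
        simp only [Pi.add_apply, Pi.mul_apply, Pi.pow_apply]
        ring)
    have h4 := h3.unique h2
    push_cast at h4
    linear_combination h4 / 2
  -- definiteness
  have hΔ : 0 < A * C - B ^ 2 := by
    by_contra hle
    obtain ⟨v1, v2, hv, hv0⟩ : ∃ v1 v2 : ℝ, 0 < v1 ^ 2 + v2 ^ 2 ∧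
        A * v1 ^ 2 + 2 * B * v1 * v2 + C * v2 ^ 2 = 0 := by
      by_cases hA : A = 0
      · exact ⟨1, 0, by norm_num, by rw [hA]; ring⟩
      · obtain ⟨s, hs⟩ : ∃ s : ℝ, s ^ 2 = B ^ 2 - A * C :=
          ⟨Real.sqrt (B ^ 2 - A * C), Real.sq_sqrt (by linarith)⟩
        refine ⟨s - B, A, ?_, ?_⟩
        · have : 0 < A ^ 2 := by positivity
          nlinarith [sq_nonneg (s - B)]
        · linear_combination A * hs
    obtain ⟨t, ht⟩ := rolle2 hc hT hper (-v2) v1
    have e11 := hG t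
    have e1 := hG' t
    have hn := hne t
    obtain ⟨x, hx⟩ : ∃ x, x = (c t).1 := ⟨_, rfl⟩
    obtain ⟨y, hy⟩ : ∃ y, y = (c t).2 := ⟨_, rfl⟩
    obtain ⟨x', hx'⟩ : ∃ x, x = (deriv c t).1 := ⟨_, rfl⟩
    obtain ⟨y', hy'⟩ : ∃ x, x = (deriv c t).2 := ⟨_, rfl⟩
    rw [← hx, ← hy] at e11
    rw [← hx, ← hy, ← hx', ← hy'] at e1
    rw [← hx', ← hy'] at hn ht
    have hw : v1 * x' + v2 * y' ≠ 0 := by
      intro h0
      have : (v1 ^ 2 + v2 ^ 2) * (x' ^ 2 + y' ^ 2) = 0 := by
        linear_combination (v1 * x' + v2 * y') * h0 + (-v2 * x' + v1 * y') * ht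
      exact absurd this (mul_pos hv hn).ne'
    have e12 : (A * x + B * y + D) * v1 + (B * x + C * y + E) * v2 = 0 := by
      have : (v1 * x' + v2 * y') * ((A * x + B * y + D) * v1 + (B * x + C * y + E) * v2) = 0 := by
        linear_combination (v1 ^ 2 + v2 ^ 2) * e1 + ((A * x + B * y + D) * v2 -
          (B * x + C * y + E) * v1) * ht
      exact (mul_eq_zero.mp this).resolve_left hw
    have : (A * C * K + 2 * B * D * E - A * E ^ 2 - C * D ^ 2 - K * B ^ 2) *
        (v1 ^ 2 + v2 ^ 2) ^ 2 = 0 := by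
      obtain ⟨e13, h13⟩ : ∃ e, e = -(A * x + B * y + D) * v2 + (B * x + C * y + E) * v1 := ⟨_, rfl⟩
      obtain ⟨e23, h23⟩ : ∃ e, e = -A * v1 * v2 + B * (v1 ^ 2 - v2 ^ 2) + C * v1 * v2 := ⟨_, rfl⟩
      obtain ⟨e33, h33⟩ : ∃ e, e = A * v2 ^ 2 - 2 * B * v1 * v2 + C * v1 ^ 2 := ⟨_, rfl⟩
      have : (A * C * K + 2 * B * D * E - A * E ^ 2 - C * D ^ 2 - K * B ^ 2) *
        (v1 ^ 2 + v2 ^ 2) ^ 2 = (A * x ^ 2 + 2 * B * x * y + C * y ^ 2 + 2 * D * x +
          2 * E * y + K) * ((A * v1 ^ 2 + 2 * B * v1 * v2 + C * v2 ^ 2) * e33 - e23 ^ 2) -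
          ((A * x + B * y + D) * v1 + (B * x + C * y + E) * v2) *
            (((A * x + B * y + D) * v1 + (B * x + C * y + E) * v2) * e33 - 2 * e23 * e13) -
          (A * v1 ^ 2 + 2 * B * v1 * v2 + C * v2 ^ 2) * e13 ^ 2 := by
        rw [h13, h23, h33]
        ring
      rw [this, e11, e12, hv0]
      ring
    exact hd ((mul_eq_zero.mp this).resolve_right (pow_pos hv 2).ne')
  have hA : A ≠ 0 := by
    rintro rfl
    nlinarith [sq_nonneg B]
  obtain ⟨Δ, hΔd⟩ : ∃ Δ, Δ = A * C - B ^ 2 := ⟨_, rfl⟩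
  rw [← hΔd] at hΔ
  obtain ⟨d, hdd⟩ : ∃ d, d = A * C * K + 2 * B * D * E - A * E ^ 2 - C * D ^ 2 - K * B ^ 2 :=
    ⟨_, rfl⟩
  rw [← hdd] at hd
  obtain ⟨m1, hm1⟩ : ∃ m, m = (B * E - C * D) / Δ := ⟨_, rfl⟩
  obtain ⟨m2, hm2⟩ : ∃ m, m = (B * D - A * E) / Δ := ⟨_, rfl⟩
  have hm1' : Δ * m1 = B * E - C * D := by rw [hm1]; field_simp
  have hm2' : Δ * m2 = B * D - A * E := by rw [hm2]; field_simp
  have c1 : A * m1 + B * m2 + D = 0 := by
    have : Δ * (A * m1 + B * m2 + D) = 0 := by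
      rw [hΔd] at hm1' hm2' ⊢
      linear_combination A * hm1' + B * hm2'
    exact (mul_eq_zero.mp this).resolve_left hΔ.ne'
  have c2 : B * m1 + C * m2 + E = 0 := by
    have : Δ * (B * m1 + C * m2 + E) = 0 := by
      rw [hΔd] at hm1' hm2' ⊢
      linear_combination B * hm1' + C * hm2'
    exact (mul_eq_zero.mp this).resolve_left hΔ.ne'
  have c3 : Δ * (D * m1 + E * m2 + K) = d := by
    rw [hdd]
    linear_combination D * hm1' + E * hm2' + K * hΔd
  obtain ⟨ρ, hρ⟩ : ∃ ρ, ρ = -A * (d / Δ) := ⟨_, rfl⟩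
  have c4 : D * m1 + E * m2 + K = d / Δ := by
    rw [eq_div_iff hΔ.ne', ← c3]
    ring
  have key : ∀ x y : ℝ, (A * (x - m1) + B * (y - m2)) ^ 2 + Δ * (y - m2) ^ 2 - ρ =
      A * (A * x ^ 2 + 2 * B * x * y + C * y ^ 2 + 2 * D * x + 2 * E * y + K) := fun x y => by
    rw [hρ, ← c4, hΔd]
    linear_combination (-2 * A * x + A * m1) * c1 + (-2 * A * y + A * m2) * c2
  have hρ0 : 0 < ρ := by
    have h1 := key (c 0).1 (c 0).2
    rw [hG 0, mul_zero] at h1
    have h2 : 0 ≤ ρ := by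
      nlinarith [sq_nonneg (A * ((c 0).1 - m1) + B * ((c 0).2 - m2)),
        mul_nonneg hΔ.le (sq_nonneg ((c 0).2 - m2))]
    refine lt_of_le_of_ne h2 ?_
    intro h3
    rw [hρ] at h3
    have h4 : A * (d / Δ) = 0 := by linarith
    rcases mul_eq_zero.mp h4 with h5 | h5
    · exact hA h5
    · rw [div_eq_zero_iff] at h5
      rcases h5 with h5 | h5
      · exact hd h5
      · exact hΔ.ne' h5
  obtain ⟨r, hr0, hrr⟩ : ∃ r : ℝ, 0 < r ∧ r ^ 2 = ρ :=
    ⟨Real.sqrt ρ, Real.sqrt_pos.mpr hρ0, Real.sq_sqrt hρ0.le⟩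
  obtain ⟨w, hw0, hww⟩ : ∃ w : ℝ, 0 < w ∧ w ^ 2 = Δ :=
    ⟨Real.sqrt Δ, Real.sqrt_pos.mpr hΔ, Real.sq_sqrt hΔ.le⟩
  obtain ⟨m, hm⟩ : ∃ m : E2, m = (m1, m2) := ⟨_, rfl⟩
  obtain ⟨u, hu⟩ : ∃ u : E2, u = (r / A, 0) := ⟨_, rfl⟩
  obtain ⟨v, hv⟩ : ∃ v : E2, v = (-(B * r) / (A * w), r / w) := ⟨_, rfl⟩
  have huv : u.1 * v.2 - u.2 * v.1 ≠ 0 := by
    rw [hu, hv]
    simp only
    rw [zero_mul, sub_zero]
    have := hr0.ne'
    have := hw0.ne'
    positivity
  have hpar : ∀ a b : ℝ, ∀ p : E2, a = (A * (p.1 - m1) + B * (p.2 - m2)) / r →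
      b = w * (p.2 - m2) / r → p = m + a • u + b • v := by
    intro a b p ha hb
    rw [ha, hb, hm, hu, hv]
    have := hr0.ne'
    have := hw0.ne'
    ext
    · simp only [Prod.fst_add, Prod.smul_fst, smul_eq_mul]
      field_simp
      ring
    · simp only [Prod.snd_add, Prod.smul_snd, smul_eq_mul]
      field_simp
      ring
  have hcirc : ∀ x y : ℝ, ((A * (x - m1) + B * (y - m2)) / r) ^ 2 + (w * (y - m2) / r) ^ 2 = 1 ↔
      A * x ^ 2 + 2 * B * x * y + C * y ^ 2 + 2 * D * x + 2 * E * y + K = 0 := by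
    intro x y
    have h1 := key x y
    have h2 : ((A * (x - m1) + B * (y - m2)) / r) ^ 2 + (w * (y - m2) / r) ^ 2 - 1 =
        A * (A * x ^ 2 + 2 * B * x * y + C * y ^ 2 + 2 * D * x + 2 * E * y + K) / ρ := by
      rw [← h1, ← hrr, ← hww]
      have := hr0.ne'
      field_simp
    constructor
    · intro h3
      rw [h3, sub_self, eq_comm, div_eq_zero_iff] at h2
      rcases h2 with h2 | h2
      · exact (mul_eq_zero.mp h2).resolve_left hA
      · exact absurd h2 hρ0.ne'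
    · intro h3
      rw [h3, mul_zero, zero_div] at h2
      linarith
  have hrange : {p : E2 | A * p.1 ^ 2 + 2 * B * p.1 * p.2 + C * p.2 ^ 2 + 2 * D * p.1 +
      2 * E * p.2 + K = 0} = range fun θ : ℝ => m + Real.cos θ • u + Real.sin θ • v := by
    ext p
    rw [mem_ofPred_eq, ← hcirc, mem_range]
    constructor
    · intro h
      obtain ⟨θ, h1, h2⟩ := exists_angle h
      exact ⟨θ, (hpar _ _ p h1 h2).symm⟩
    · rintro ⟨θ, rfl⟩
      have h1 : (A * ((m + Real.cos θ • u + Real.sin θ • v).1 - m1) +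
          B * ((m + Real.cos θ • u + Real.sin θ • v).2 - m2)) / r = Real.cos θ := by
        rw [hm, hu, hv]
        have := hr0.ne'
        have := hw0.ne'
        simp only [Prod.fst_add, Prod.smul_fst, Prod.snd_add, Prod.smul_snd, smul_eq_mul]
        field_simp
        ring
      have h2 : w * ((m + Real.cos θ • u + Real.sin θ • v).2 - m2) / r = Real.sin θ := by
        rw [hm, hu, hv]
        have := hr0.ne'
        have := hw0.ne'
        simp only [Prod.fst_add, Prod.smul_fst, Prod.snd_add, Prod.smul_snd, smul_eq_mul]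
        field_simp
        ring
      rw [h1, h2]
      exact Real.cos_sq_add_sin_sq θ
  have hfull : range c = {p : E2 | A * p.1 ^ 2 + 2 * B * p.1 * p.2 + C * p.2 ^ 2 + 2 * D * p.1 +
      2 * E * p.2 + K = 0} := by
    apply Set.Subset.antisymm
    · rintro _ ⟨t, rfl⟩
      exact hG t
    · intro p1 hp1
      by_contra hno
      rw [mem_range, not_exists] at hno
      rw [mem_ofPred_eq, ← hcirc] at hp1
      obtain ⟨a1, ha1⟩ : ∃ a, a = (A * (p1.1 - m1) + B * (p1.2 - m2)) / r := ⟨_, rfl⟩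
      obtain ⟨b1, hb1⟩ : ∃ a, a = w * (p1.2 - m2) / r := ⟨_, rfl⟩
      rw [← ha1, ← hb1] at hp1
      obtain ⟨a, ha⟩ : ∃ a : ℝ → ℝ, a = fun t => (A * ((c t).1 - m1) + B * ((c t).2 - m2)) / r :=
        ⟨_, rfl⟩
      obtain ⟨b, hb⟩ : ∃ b : ℝ → ℝ, b = fun t => w * ((c t).2 - m2) / r := ⟨_, rfl⟩
      have hab : ∀ t, a t ^ 2 + b t ^ 2 = 1 := fun t => by
        rw [ha, hb]
        exact (hcirc _ _).mpr (hG t)
      have hne1 : ∀ t, a t * a1 + b t * b1 ≠ 1 := by
        intro t h1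
        apply hno t
        have h2 : (a t - a1) ^ 2 + (b t - b1) ^ 2 = 0 := by
          linear_combination hab t + hp1 - 2 * h1
        have h3 : a t = a1 := by nlinarith [sq_nonneg (a t - a1), sq_nonneg (b t - b1)]
        have h4 : b t = b1 := by nlinarith [sq_nonneg (a t - a1), sq_nonneg (b t - b1)]
        rw [hpar a1 b1 p1 ha1 hb1, hpar (a t) (b t) (c t) (by rw [ha]) (by rw [hb]), h3, h4]
      obtain ⟨a', ha'⟩ : ∃ a' : ℝ → ℝ, a' = fun t =>
        (A * (deriv c t).1 + B * (deriv c t).2) / r := ⟨_, rfl⟩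
      obtain ⟨b', hb'⟩ : ∃ b' : ℝ → ℝ, b' = fun t => w * (deriv c t).2 / r := ⟨_, rfl⟩
      have da : ∀ t, HasDerivAt a (a' t) t := fun t => by
        rw [ha, ha']
        exact ((((hx t).sub_const m1).const_mul A).add
          (((hy t).sub_const m2).const_mul B)).div_const r
      have db : ∀ t, HasDerivAt b (b' t) t := fun t => by
        rw [hb, hb']
        exact (((hy t).sub_const m2).const_mul w).div_const r
      have dC : ∀ t, HasDerivAt (fun t => a t * a1 + b t * b1) (a' t * a1 + b' t * b1) t :=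
        fun t => ((da t).mul_const a1).add ((db t).mul_const b1)
      have dS : ∀ t, HasDerivAt (fun t => b t * a1 - a t * b1) (b' t * a1 - a' t * b1) t :=
        fun t => ((db t).mul_const a1).sub ((da t).mul_const b1)
      have dq : ∀ t, HasDerivAt (fun t => (b t * a1 - a t * b1) / (1 - (a t * a1 + b t * b1)))
          (((b' t * a1 - a' t * b1) * (1 - (a t * a1 + b t * b1)) -
            (b t * a1 - a t * b1) * (-(a' t * a1 + b' t * b1))) /
            (1 - (a t * a1 + b t * b1)) ^ 2) t := fun t =>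
        (dS t).div ((dC t).const_sub 1) (by
          intro h
          apply hne1 t
          linarith)
      have haT : a T = a 0 := by rw [ha]; simp only [hper]
      have hbT : b T = b 0 := by rw [hb]; simp only [hper]
      obtain ⟨t, -, ht⟩ := exists_hasDerivAt_eq_zero
        (f := fun t => (b t * a1 - a t * b1) / (1 - (a t * a1 + b t * b1)))
        (f' := fun t => ((b' t * a1 - a' t * b1) * (1 - (a t * a1 + b t * b1)) -
            (b t * a1 - a t * b1) * (-(a' t * a1 + b' t * b1))) /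
            (1 - (a t * a1 + b t * b1)) ^ 2) hT
        (fun t _ => (dq t).continuousAt.continuousWithinAt)
        (by simp only [haT, hbT]) (fun t _ => dq t)
      have hdab : a t * a' t + b t * b' t = 0 := by
        have h1 := ((da t).pow 2).add ((db t).pow 2)
        have h2 : HasDerivAt (a ^ 2 + b ^ 2) 0 t := by
          have : (a ^ 2 + b ^ 2) = fun _ => 1 := funext fun s => hab s
          rw [this]
          exact hasDerivAt_const _ _
        have h3 := h1.unique h2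
        push_cast at h3
        linear_combination h3 / 2
      have hCne := hne1 t
      have hab' := hab t
      have hn' := hne t
      have ha't : a' t = (A * (deriv c t).1 + B * (deriv c t).2) / r := by rw [ha']
      have hb't : b' t = w * (deriv c t).2 / r := by rw [hb']
      rw [div_eq_zero_iff] at ht
      obtain ⟨α, hα⟩ : ∃ x, x = a t := ⟨_, rfl⟩
      obtain ⟨β, hβ⟩ : ∃ x, x = b t := ⟨_, rfl⟩
      obtain ⟨α', hα'⟩ : ∃ x, x = a' t := ⟨_, rfl⟩
      obtain ⟨β', hβ'⟩ : ∃ x, x = b' t := ⟨_, rfl⟩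
      simp only [← hα, ← hβ, ← hα', ← hβ'] at ht hdab hCne hab' ha't hb't
      have ht1 : (β' * a1 - α' * b1) * (1 - (α * a1 + β * b1)) -
          (β * a1 - α * b1) * (-(α' * a1 + β' * b1)) = 0 := by
        rcases ht with ht | ht
        · exact ht
        · exfalso
          have := pow_eq_zero_iff (two_ne_zero) |>.mp ht
          apply hCne
          linarith
      -- rotation speed
      obtain ⟨om, hom⟩ : ∃ om, om = β' * α - α' * β := ⟨_, rfl⟩
      have h1 : om * (α * a1 + β * b1 - 1) = 0 := by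
        rw [hom]
        linear_combination ht1 + (β' * α - α' * β) * hp1 + (a1 * β' - b1 * α') * hab' +
          (b1 * α - a1 * β) * hdab
      have h2 : om = 0 := by
        rcases mul_eq_zero.mp h1 with h | h
        · exact h
        · exfalso
          apply hCne
          linarith
      have h3 : α' = 0 := by
        rw [hom] at h2
        linear_combination (-α') * hab' + α * hdab - β * h2
      have h4 : β' = 0 := by
        rw [hom] at h2
        linear_combination (-β') * hab' + β * hdab + α * h2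
      rw [h3, eq_comm, div_eq_zero_iff] at ha't
      rw [h4, eq_comm, div_eq_zero_iff] at hb't
      have h5 : (deriv c t).2 = 0 := by
        rcases hb't with h | h
        · exact (mul_eq_zero.mp h).resolve_left hw0.ne'
        · exact absurd h hr0.ne'
      have h6 : (deriv c t).1 = 0 := by
        rcases ha't with h | h
        · rw [h5, mul_zero, add_zero] at h
          exact (mul_eq_zero.mp h).resolve_left hA
        · exact absurd h hr0.ne'
      rw [h5, h6] at hn'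
      norm_num at hn'
  exact ⟨hfull, m, u, v, huv, hfull.trans hrange⟩

end Pool.Agent.W5h48.AL
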