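import Mathlib

set_option autoImplicit false
set_option linter.unusedSimpArgs false

open Set Filter Topology Asymptotics
open scoped ContDiff

namespace Pool.Agent.W5h48.AL

/-- integration of a little-o estimate -/
theorem littleO_int {g g' : ℝ → ℝ} (n : ℕ) (h : ∀ᶠ s in 𝓝 (0 : ℝ), HasDerivAt g (g' s) s)
    (ho : g' =o[𝓝 0] fun s => s ^ n) (h0 : g 0 = 0) : g =o[𝓝 0] fun s => s ^ (n + 1) := by
  rw [isLittleO_iff]
  intro c hc
  rw [isLittleO_iff] at ho
  obtain ⟨δ, hδ, h1⟩ := Metric.eventually_nhds_iff_ball.mp (h.and (ho hc))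
  refine Metric.eventually_nhds_iff_ball.mpr ⟨δ, hδ, fun s hs => ?_⟩
  rw [Metric.mem_ball, dist_zero_right] at hs
  have hsub : ∀ x ∈ Metric.closedBall (0 : ℝ) ‖s‖, x ∈ Metric.ball (0 : ℝ) δ := fun x hx =>
    Metric.closedBall_subset_ball hs hx
  have h2 := Convex.norm_image_sub_le_of_norm_hasDerivWithin_le (f := g) (f' := g')
    (s := Metric.closedBall (0 : ℝ) ‖s‖) (C := c * ‖s‖ ^ n) (x := 0) (y := s)
    (fun x hx => (h1 x (hsub x hx)).1.hasDerivWithinAt)
    (fun x hx => by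
      refine (h1 x (hsub x hx)).2.trans ?_
      rw [norm_pow]
      rw [mem_closedBall_zero_iff] at hx
      exact mul_le_mul_of_nonneg_left (pow_le_pow_left₀ (norm_nonneg _) hx n) hc.le)
    (convex_closedBall _ _) (Metric.mem_closedBall_self (norm_nonneg _))
    (mem_closedBall_zero_iff.mpr le_rfl)
  rw [h0, sub_zero, sub_zero] at h2
  rw [norm_pow, pow_succ, ← mul_assoc]
  exact h2

theorem c_zero {h : ℝ → ℝ} (hh : (fun s => h s + s ^ 2 / 2) =o[𝓝 0] fun s => s ^ 3) {c : ℝ}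
    (hinv : ∀ᶠ s in 𝓝 (0 : ℝ), h s = h (-(s / (1 + c * s)))) : c = 0 := by
  have hden : Tendsto (fun s : ℝ => 1 + c * s) (𝓝 0) (𝓝 1) := by
    have : Tendsto (fun s : ℝ => 1 + c * s) (𝓝 0) (𝓝 (1 + c * 0)) :=
      Continuous.tendsto (by fun_prop) 0
    simpa using this
  have hφ : Tendsto (fun s : ℝ => -(s / (1 + c * s))) (𝓝 0) (𝓝 0) := by
    have h1 : Tendsto (fun s : ℝ => -(s / (1 + c * s))) (𝓝 0) (𝓝 (-(0 / 1))) :=
      (tendsto_id.div hden one_ne_zero).neg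
    simpa using h1
  have hO : (fun s : ℝ => (-(s / (1 + c * s))) ^ 3) =O[𝓝 0] fun s => s ^ 3 := by
    refine IsBigO.pow ?_ 3
    refine IsBigO.of_bound 2 ?_
    have h2 := hden.eventually (lt_mem_nhds (show (1 / 2 : ℝ) < 1 by norm_num))
    filter_upwards [h2] with s hs
    rw [norm_neg, norm_div, div_le_iff₀ (norm_pos_iff.mpr (by linarith))]
    have h3 : 1 / 2 ≤ ‖1 + c * s‖ := by
      rw [Real.norm_eq_abs, abs_of_pos (by linarith)]
      exact hs.le
    nlinarith [norm_nonneg s]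
  have h4 : (fun s : ℝ => h (-(s / (1 + c * s))) + (-(s / (1 + c * s))) ^ 2 / 2) =o[𝓝 0]
      fun s => s ^ 3 := (hh.comp_tendsto hφ).trans_isBigO hO
  have h5 : (fun s : ℝ => (s ^ 2 - (-(s / (1 + c * s))) ^ 2) / 2) =o[𝓝 0] fun s => s ^ 3 := by
    refine (hh.sub h4).congr' ?_ EventuallyEq.rfl
    filter_upwards [hinv] with s hs
    rw [hs]
    ring
  have h6 := (h5.mono (nhdsWithin_le_nhds (s := {0}ᶜ))).tendsto_div_nhds_zero
  have h7 : Tendsto (fun s : ℝ => c * (2 + c * s) / (1 + c * s) ^ 2 / 2) (𝓝[≠] 0) (𝓝 c) := by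
    have h8 : Tendsto (fun s : ℝ => c * (2 + c * s) / (1 + c * s) ^ 2 / 2) (𝓝 0)
        (𝓝 (c * (2 + c * 0) / 1 ^ 2 / 2)) := by
      refine Tendsto.div_const (Tendsto.div ?_ (hden.pow 2) (by norm_num)) 2
      exact Continuous.tendsto (by fun_prop) 0
    have h9 : c * (2 + c * 0) / 1 ^ 2 / 2 = c := by ring
    rw [h9] at h8
    exact h8.mono_left nhdsWithin_le_nhds
  have h10 : Tendsto (fun s : ℝ => c * (2 + c * s) / (1 + c * s) ^ 2 / 2) (𝓝[≠] 0) (𝓝 0) := by
    refine h6.congr' ?_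
    have h11 := (hden.eventually (lt_mem_nhds (show (1 / 2 : ℝ) < 1 by norm_num))).filter_mono
      (nhdsWithin_le_nhds (s := {(0 : ℝ)}ᶜ))
    filter_upwards [h11, self_mem_nhdsWithin] with s hs hs0
    have hs1 : 1 + c * s ≠ 0 := by linarith
    have hs2 : s ≠ 0 := hs0
    obtain ⟨d, hd⟩ : ∃ d, d = 1 + c * s := ⟨_, rfl⟩
    rw [← hd] at hs1 ⊢
    have h12 : c * (2 + c * s) * s = d ^ 2 - 1 := by rw [hd]; ring
    rw [neg_sq, div_pow]
    field_simp
    linear_combination -h12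
  exact tendsto_nhds_unique h7 h10

theorem deriv_contDiffAt {f : ℝ → ℝ} {n : ℕ} {x : ℝ} (h : ContDiffAt ℝ (n + 1 : ℕ) f x) :
    ContDiffAt ℝ n (deriv f) x := by
  have h1 : ContDiffAt ℝ n (fderiv ℝ f) x := h.fderiv_right (by norm_cast)
  have h2 : deriv f = fun x => fderiv ℝ f x 1 := by
    funext x
    rw [fderiv_eq_smul_deriv, one_smul]
  rw [h2]
  exact h1.clm_apply contDiffAt_const

theorem taylor3 {φ : ℝ → ℝ} (hφ : ContDiffAt ℝ 4 φ 0) (h1 : iteratedDeriv 1 φ 0 = 0)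
    (h2 : iteratedDeriv 2 φ 0 = -1) (h3 : iteratedDeriv 3 φ 0 = 0) :
    (fun s => (φ s - φ 0) + s ^ 2 / 2) =o[𝓝 0] fun s => s ^ 3 := by
  have c1 : ContDiffAt ℝ 3 (deriv φ) 0 := deriv_contDiffAt (n := 3) (by exact_mod_cast hφ)
  have c2 : ContDiffAt ℝ 2 (deriv (deriv φ)) 0 := deriv_contDiffAt (n := 2) (by exact_mod_cast c1)
  have d0 : ∀ᶠ s in 𝓝 (0 : ℝ), HasDerivAt φ (deriv φ s) s := by
    filter_upwards [hφ.eventually (by norm_cast)] with s hs
    exact (hs.differentiableAt (by norm_num)).hasDerivAt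
  have d1 : ∀ᶠ s in 𝓝 (0 : ℝ), HasDerivAt (deriv φ) (deriv (deriv φ) s) s := by
    filter_upwards [c1.eventually (by norm_cast)] with s hs
    exact (hs.differentiableAt (by norm_num)).hasDerivAt
  rw [iteratedDeriv_one] at h1
  have e2 : deriv (deriv φ) 0 = -1 := by
    rw [← h2, iteratedDeriv_succ, iteratedDeriv_one]
  have e3 : deriv (deriv (deriv φ)) 0 = 0 := by
    have h4 := h3
    rw [iteratedDeriv_succ, iteratedDeriv_succ, iteratedDeriv_one] at h4
    exact h4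
  have d2 : HasDerivAt (deriv (deriv φ)) 0 0 := by
    have := (c2.differentiableAt (by norm_num)).hasDerivAt
    rwa [e3] at this
  have o2 : (fun s => deriv (deriv φ) s + 1) =o[𝓝 0] fun s : ℝ => s ^ 1 := by
    have h4 := hasDerivAt_iff_isLittleO.mp d2
    refine h4.congr (fun s => ?_) (fun s => by simp)
    rw [e2]
    simp
  have o1 : (fun s => deriv φ s + s) =o[𝓝 0] fun s : ℝ => s ^ 2 := by
    refine littleO_int 1 ?_ o2 (by rw [h1]; simp)
    filter_upwards [d1] with s hs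
    exact hs.add (hasDerivAt_id s)
  refine littleO_int 2 ?_ o1 (by simp)
  filter_upwards [d0] with s hs
  have h6 : HasDerivAt (fun s : ℝ => s ^ 2 / 2) s s := by
    refine ((hasDerivAt_pow 2 s).div_const 2).congr_deriv ?_
    norm_num
  exact (hs.sub_const (φ 0)).add h6

/-- A projective involution in the normalised coordinate is `s ↦ -s`. -/
theorem even_of_proj {φ : ℝ → ℝ} (hφ : ContDiffAt ℝ 4 φ 0) (h1 : iteratedDeriv 1 φ 0 = 0)
    (h2 : iteratedDeriv 2 φ 0 = -1) (h3 : iteratedDeriv 3 φ 0 = 0) {c ε : ℝ} (hε : 0 < ε)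
    (H : ∀ s u : ℝ, 0 < s → s < ε → 0 < u → u < ε → φ s = φ (-u) → 1 / s - 1 / u = c) :
    ∀ᶠ s in 𝓝 (0 : ℝ), φ s = φ (-s) := by
  have hT := taylor3 hφ h1 h2 h3
  -- strict maximum and continuity
  obtain ⟨r, hr, hmax, hcont⟩ : ∃ r > 0, (∀ s : ℝ, |s| < r → s ≠ 0 → φ s < φ 0) ∧
      ∀ s : ℝ, |s| < r → ContinuousAt φ s := by
    have h4 : ∀ᶠ s in 𝓝 (0 : ℝ), ‖(φ s - φ 0) + s ^ 2 / 2‖ ≤ 1 / 4 * ‖s ^ 3‖ :=
      (isLittleO_iff.mp hT) (by norm_num)
    have h5 : ∀ᶠ s in 𝓝 (0 : ℝ), ContinuousAt φ s := by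
      filter_upwards [hφ.eventually (by norm_cast)] with s hs
      exact hs.continuousAt
    obtain ⟨r, hr, h6⟩ := Metric.eventually_nhds_iff_ball.mp (h4.and h5)
    refine ⟨min r 1, by positivity, fun s hs hs0 => ?_, fun s hs => ?_⟩
    · have h7 := (h6 s (by
        rw [mem_ball_zero_iff, Real.norm_eq_abs]
        exact hs.trans_le (min_le_left _ _))).1
      rw [Real.norm_eq_abs, Real.norm_eq_abs, abs_pow] at h7
      have h8 := (abs_le.mp h7).2
      have h9 : |s| < 1 := hs.trans_le (min_le_right _ _)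
      have h10 : 0 < |s| := abs_pos.mpr hs0
      have h11 : s ^ 2 = |s| ^ 2 := (sq_abs s).symm
      rw [h11] at h8
      nlinarith [mul_pos h10 h10]
    · exact (h6 s (by
        rw [mem_ball_zero_iff, Real.norm_eq_abs]
        exact hs.trans_le (min_le_left _ _))).2
  obtain ⟨ρ, hρ⟩ : ∃ ρ, ρ = min r ε / 2 := ⟨_, rfl⟩
  have hρ0 : 0 < ρ := by rw [hρ]; positivity
  have hρr : ρ < r := by
    have := min_le_left r ε
    have h4 : 0 < min r ε := lt_min hr hε
    rw [hρ]; linarith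
  have hρε : ρ < ε := by
    have := min_le_right r ε
    have h4 : 0 < min r ε := lt_min hr hε
    rw [hρ]; linarith
  -- partner
  have hpart : ∀ᶠ s in 𝓝 (0 : ℝ), 0 < s → φ s = φ (-(s / (1 + (-c) * s))) := by
    have h4 : φ (-ρ) < φ 0 := hmax (-ρ) (by rwa [abs_neg, abs_of_pos hρ0]) (by linarith)
    have h5 : ∀ᶠ s in 𝓝 (0 : ℝ), φ (-ρ) < φ s :=
      (hcont 0 (by simpa using hr)).eventually (lt_mem_nhds h4)
    have h6 : ∀ᶠ s in 𝓝 (0 : ℝ), |s| < ρ := by
      have : Metric.ball (0 : ℝ) ρ ∈ 𝓝 (0 : ℝ) := Metric.ball_mem_nhds _ hρ0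
      filter_upwards [this] with s hs
      rwa [mem_ball_zero_iff, Real.norm_eq_abs] at hs
    filter_upwards [h5, h6] with s hs1 hs2 hs3
    have hs4 : s < ρ := (le_abs_self s).trans_lt hs2
    have hs5 : φ s < φ 0 := hmax s (hs2.trans hρr) hs3.ne'
    have hc : ContinuousOn φ (Icc (-ρ) 0) := fun x hx =>
      (hcont x (by rw [abs_lt]; exact ⟨by linarith [hx.1], by linarith [hx.2]⟩)).continuousWithinAt
    obtain ⟨x, hx, hxs⟩ := intermediate_value_Icc (by linarith) hc ⟨hs1.le, hs5.le⟩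
    have hx0 : x ≠ 0 := fun h0 => by
      rw [h0] at hxs
      linarith
    have hx1 : x < 0 := lt_of_le_of_ne hx.2 hx0
    have hx2 : -x < ε := by
      have := hx.1
      linarith
    have h7 := H s (-x) hs3 (hs4.trans hρε) (by linarith) hx2 (by rw [neg_neg, hxs])
    have h8 : x = -(s / (1 + (-c) * s)) := by
      have h9 : 1 + (-c) * s = -(s / x) := by
        rw [← h7]
        field_simp
        ring
      rw [h9]
      field_simp
    rw [← h8, hxs]
  have hden : Tendsto (fun s : ℝ => 1 + (-c) * s) (𝓝 0) (𝓝 1) := by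
    have : Tendsto (fun s : ℝ => 1 + (-c) * s) (𝓝 0) (𝓝 (1 + (-c) * 0)) :=
      Continuous.tendsto (by fun_prop) 0
    simpa using this
  have hφ' : Tendsto (fun s : ℝ => -(s / (1 + (-c) * s))) (𝓝 0) (𝓝 0) := by
    have h1 : Tendsto (fun s : ℝ => -(s / (1 + (-c) * s))) (𝓝 0) (𝓝 (-(0 / 1))) :=
      (tendsto_id.div hden one_ne_zero).neg
    simpa using h1
  have hinv : ∀ᶠ s in 𝓝 (0 : ℝ), φ s = φ (-(s / (1 + (-c) * s))) := by
    filter_upwards [hpart, hφ'.eventually hpart,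
      hden.eventually (lt_mem_nhds (show (0 : ℝ) < 1 by norm_num))] with s a1 a2 a3
    rcases lt_trichotomy s 0 with hs | hs | hs
    · have h4 : 0 < -(s / (1 + (-c) * s)) := by
        have : s / (1 + (-c) * s) < 0 := div_neg_of_neg_of_pos hs a3
        linarith
      have h5 := a2 h4
      have h6 : -(-(s / (1 + -c * s)) / (1 + -c * -(s / (1 + -c * s)))) = s := by
        obtain ⟨d, hd⟩ : ∃ d, d = 1 + -c * s := ⟨_, rfl⟩
        rw [← hd] at a3 ⊢
        have h7 : 1 + -c * -(s / d) = 1 / d := by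
          field_simp
          linarith
        rw [h7]
        field_simp
      rw [h6] at h5
      exact h5.symm
    · rw [hs]; simp
    · exact a1 hs
  have hc0 : -c = 0 := by
    refine c_zero (h := fun s => φ s - φ 0) hT ?_
    filter_upwards [hinv] with s hs
    rw [hs]
  filter_upwards [hinv] with s hs
  rw [hs, hc0]
  simp

theorem iteratedDeriv_odd {φ : ℝ → ℝ} (h : ∀ᶠ s in 𝓝 (0 : ℝ), φ s = φ (-s)) (n : ℕ)
    (hn : Odd n) : iteratedDeriv n φ 0 = 0 := by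
  have h1 : φ =ᶠ[𝓝 0] fun s => φ (-s) := h
  have h2 := h1.iteratedDeriv_eq n
  rw [iteratedDeriv_comp_neg, neg_zero, hn.neg_one_pow] at h2
  have h3 : iteratedDeriv n φ 0 = -iteratedDeriv n φ 0 := by
    simpa using h2
  linarith

end Pool.Agent.W5h48.AL
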