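import Pool.Agent.W5h48.AL.Flat
import Pool.Agent.W5h48.AL.Ell

set_option autoImplicit false
set_option linter.unusedSimpArgs false

open Set Filter Topology
open scoped ContDiff

namespace Pool.Agent.W5h48.AL

/-- closed leaf in `S` -/
structure CL (F : E2 → ℝ) (S : Set E2) (c : ℝ → E2) : Prop where
  diff : Differentiable ℝ c
  reg : ∀ t, deriv c t ≠ 0
  per : ∃ T : ℝ, 0 < T ∧ Function.Periodic c T
  mem : ∀ t, c t ∈ S
  lev : ∀ t, F (c t) = F (c 0)

theorem CL.toLC {F : E2 → ℝ} {S W : Set E2} {c : ℝ → E2} (h : CL F S c) (hS : S ⊆ W)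
    (hreg : ∀ p ∈ W, tang F p ≠ 0) : LC F W c :=
  ⟨h.diff, h.reg, fun t => hS (h.mem t), h.lev, fun t => hreg _ (hS (h.mem t))⟩

theorem b_const {F : E2 → ℝ} {S : Set E2} {b : Fin 3 → Fin 3 → E2 → ℝ}
    (hb : ∀ p ∈ S, ∀ j l, DifferentiableAt ℝ (b j l) p ∧
      ∀ v, fderiv ℝ F p v = 0 → fderiv ℝ (b j l) p v = 0)
    (hFd : ∀ p ∈ S, DifferentiableAt ℝ F p) {I : Set ℝ} (hI : IsOpen I) (hIc : IsPreconnected I)
    {c : ℝ → E2} (hc : DifferentiableOn ℝ c I) (hmem : ∀ t ∈ I, c t ∈ S)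
    (hlev : ∀ s ∈ I, ∀ t ∈ I, F (c s) = F (c t)) :
    ∀ s ∈ I, ∀ t ∈ I, ∀ j l, b j l (c s) = b j l (c t) := by
  have hd : ∀ t ∈ I, ∀ j l, HasDerivAt (fun t => b j l (c t)) 0 t := by
    intro t ht j l
    have hct : HasDerivAt c (deriv c t) t := ((hc t ht).differentiableAt (hI.mem_nhds ht)).hasDerivAt
    have h1 : HasDerivAt (fun s => F (c s)) (fderiv ℝ F (c t) (deriv c t)) t :=
      HasFDerivAt.comp_hasDerivAt t (hFd _ (hmem t ht)).hasFDerivAt hct
    have h2 : HasDerivAt (fun s => F (c s)) 0 t := by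
      refine (hasDerivAt_const t (F (c t))).congr_of_eventuallyEq ?_
      filter_upwards [hI.mem_nhds ht] with s hs
      exact hlev s hs t ht
    have h3 := h1.unique h2
    have h4 : HasDerivAt (fun s => b j l (c s)) (fderiv ℝ (b j l) (c t) (deriv c t)) t :=
      HasFDerivAt.comp_hasDerivAt t (hb _ (hmem t ht) j l).1.hasFDerivAt hct
    rwa [(hb _ (hmem t ht) j l).2 _ h3] at h4
  intro s hs t ht j l
  exact hI.is_const_of_deriv_eq_zero hIc
    (fun r hr => (hd r hr j l).differentiableAt.differentiableWithinAt)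
    (fun r hr => (hd r hr j l).deriv) hs ht

theorem symm_of_span {Q₁ Q₂ : Matrix (Fin 3) (Fin 3) ℝ} (h1 : Q₁.IsSymm) (h2 : Q₂.IsSymm)
    {q : Fin 3 → Fin 3 → ℝ} (h : ∃ l₁ l₂ : ℝ, Matrix.of q = l₁ • Q₁ + l₂ • Q₂) (i j : Fin 3) :
    q i j = q j i := by
  obtain ⟨l₁, l₂, h⟩ := h
  have e := fun i j => congrFun (congrFun h i) j
  have e1 := e i j
  have e2 := e j i
  simp only [Matrix.of_apply, Matrix.add_apply, Matrix.smul_apply, smul_eq_mul] at e1 e2
  rw [e1, e2, h1.apply j i, h2.apply j i]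

/-- the curvature does not vanish along a closed leaf, by continuation -/
theorem continuation {W : Set E2} (hW : IsOpen W) {F : E2 → ℝ} (hF : ContDiffOn ℝ ∞ F W)
    {c : ℝ → E2} (h : LC F W c) {W' U : Set E2} (hW' : W' ⊆ W) (hL : Local F W' U) {t0 t1 : ℝ}
    (h01 : t0 < t1) (hmem : ∀ t ∈ Ioo t0 t1, c t ∈ W' ∩ closure U) : bend F (c t1) ≠ 0 := by
  obtain ⟨b, Q₁, Q₂, h1, h2, h3, h4⟩ := hL
  have hd : ∀ p ∈ W' ∩ closure U, DifferentiableAt ℝ F p := fun p hp =>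
    (hF.contDiffAt (hW.mem_nhds (hW' hp.1))).differentiableAt (by simp)
  have hc := b_const (fun p hp => (h4 p hp.1 hp.2).2.2.2) hd isOpen_Ioo isPreconnected_Ioo
    h.diff.differentiableOn hmem (fun s _ t _ => by rw [h.lev s, h.lev t])
  have hs0 : (t0 + t1) / 2 ∈ Ioo t0 t1 := ⟨by linarith, by linarith⟩
  obtain ⟨g1, -, g3, -⟩ := h4 _ (hmem _ hs0).1 (hmem _ hs0).2
  refine curv_ne hW hF h (Q := fun j l => b j l (c ((t0 + t1) / 2))) (symm_of_span h1 h2 g3)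
    (by rw [g1]; norm_num) h01 fun t ht => ?_
  have : (fun j l => b j l (c ((t0 + t1) / 2))) = fun j l => b j l (c t) := by
    funext j l
    exact hc _ hs0 _ ht j l
  rw [this]
  exact (h4 _ (hmem t ht).1 (hmem t ht).2).2.1

theorem exists_later {c : ℝ → E2} {T : ℝ} (hT : 0 < T) (hper : Function.Periodic c T) (t0 t : ℝ) :
    ∃ t', t0 < t' ∧ c t' = c t := by
  obtain ⟨n, hn⟩ := exists_nat_gt ((t0 - t) / T)
  refine ⟨t + n * T, ?_, ?_⟩
  · rw [div_lt_iff₀ hT] at hn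
    linarith
  · exact hper.nat_mul n t

theorem curved_along {U : Set E2} (hU : IsOpen U) {F : E2 → ℝ} (hF : ContDiffOn ℝ ∞ F U)
    (hproj : ∀ p ∈ U, PI F p) {c : ℝ → E2} (hL : LC F U c) {t0 t' : ℝ} (ht' : t0 < t')
    (ht0 : bend F (c t0) ≠ 0) : bend F (c t') ≠ 0 := by
  obtain ⟨U', hU'd⟩ : ∃ U', U' = U ∩ bend F ⁻¹' {0}ᶜ := ⟨_, rfl⟩
  have hU' : IsOpen U' := by
    rw [hU'd]
    exact (bend_cont hU F hF).isOpen_inter_preimage hU isClosed_singleton.isOpen_compl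
  have hUU : U' ⊆ U := by rw [hU'd]; exact inter_subset_left
  have hmem0 : c t0 ∈ U' := by rw [hU'd]; exact ⟨hL.mem t0, ht0⟩
  obtain ⟨V, hVd⟩ : ∃ V, V = connectedComponentIn U' (c t0) := ⟨_, rfl⟩
  have hV : IsOpen V := by rw [hVd]; exact hU'.connectedComponentIn
  have hVc : IsConnected V := by rw [hVd]; exact isConnected_connectedComponentIn_iff.mpr hmem0
  have hVU : V ⊆ U' := by rw [hVd]; exact connectedComponentIn_subset _ _
  have hV0 : c t0 ∈ V := by rw [hVd]; exact mem_connectedComponentIn hmem0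
  have hloc := local_pencil hU' hV hVU hVc F (hF.mono hUU) (fun p hp => by
    rw [hU'd] at hp
    exact hp.2) (fun p hp => hproj p (hUU (hVU hp)))
  intro hcon
  obtain ⟨S, hS⟩ : ∃ S : Set ℝ, S = Ici t0 ∩ c ⁻¹' Vᶜ := ⟨_, rfl⟩
  have hSc : IsClosed S := by
    rw [hS]
    exact isClosed_Ici.inter (hV.isClosed_compl.preimage hL.diff.continuous)
  have hSb : BddBelow S := ⟨t0, fun s hs => by rw [hS] at hs; exact hs.1⟩
  have hSn : S.Nonempty := ⟨t', by
    rw [hS]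
    refine ⟨ht'.le, fun hV' => ?_⟩
    have := hVU hV'
    rw [hU'd] at this
    exact this.2 hcon⟩
  have hts := hSc.csInf_mem hSn hSb
  obtain ⟨t1, ht1⟩ : ∃ t1, t1 = sInf S := ⟨_, rfl⟩
  rw [← ht1] at hts
  have hlt : t0 < t1 := by
    rw [hS] at hts
    refine lt_of_le_of_ne hts.1 ?_
    rintro rfl
    exact hts.2 hV0
  have hIoo : ∀ s, t0 ≤ s → s < t1 → c s ∈ V := by
    intro s hs0 hs1
    by_contra hn
    have : s ∈ S := by rw [hS]; exact ⟨hs0, hn⟩
    have := csInf_le hSb this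
    rw [← ht1] at this
    linarith
  have hne := continuation hU hF hL hUU hloc hlt (fun s hs =>
    ⟨hVU (hIoo s hs.1.le hs.2), subset_closure (hIoo s hs.1.le hs.2)⟩)
  have hin : c t1 ∈ U' := by rw [hU'd]; exact ⟨hL.mem t1, hne⟩
  have hcl : c t1 ∈ closure V := by
    have h1 : t1 ∈ closure (Ioo t0 t1) := by
      rw [closure_Ioo hlt.ne]
      exact ⟨hlt.le, le_rfl⟩
    exact closure_mono (by
      rintro _ ⟨s, hs, rfl⟩
      exact hIoo s hs.1.le hs.2) (image_closure_subset_closure_image hL.diff.continuous ⟨t1, h1, rfl⟩)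
  have hpre : IsPreconnected (insert (c t1) V) := hVc.isPreconnected.subset_closure
    (subset_insert _ _) (insert_subset hcl subset_closure)
  have hsub : insert (c t1) V ⊆ V := by
    conv_rhs => rw [hVd]
    exact hpre.subset_connectedComponentIn (mem_insert_of_mem _ hV0)
      (insert_subset hin hVU)
  have h9 : c t1 ∈ V := hsub (mem_insert _ _)
  rw [hS] at hts
  exact hts.2 h9

/-- the curvature of the leaves does not vanish -/
theorem curved_of_PI {U : Set E2} (hU : IsOpen U) {F : E2 → ℝ} (hF : ContDiffOn ℝ ∞ F U)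
    (hreg : ∀ p ∈ U, tang F p ≠ 0) (hproj : ∀ p ∈ U, PI F p) {p : E2} (hp : p ∈ U) :
    bend F p ≠ 0 := by
  intro hcon
  obtain ⟨c, hc, hc0⟩ := exists_leaf hU hF hreg hp
  by_cases hflat : ∀ t, bend F (c t) = 0
  · exact not_flat hU hF hc hflat (by rw [hc0]; exact hproj p hp)
  · push Not at hflat
    obtain ⟨t, ht⟩ := hflat
    rw [← hc0] at hcon
    rcases lt_trichotomy t 0 with h | h | h
    · exact curved_along hU hF hproj hc h ht hcon
    · rw [h] at ht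
      exact ht hcon
    · have := curved_along hU hF hproj hc.rev (t0 := -t) (t' := 0) (by linarith)
        (by simpa using ht)
      simp only [neg_zero] at this
      exact this hcon

theorem curved_of_closure {W U : Set E2} (hW : IsOpen W) (hU : IsOpen U) (hUW : U ⊆ W)
    (hUc : IsConnected U) {F : E2 → ℝ} (hF : ContDiffOn ℝ ∞ F W)
    (hreg : ∀ p ∈ W, tang F p ≠ 0) (hbU : ∀ p ∈ U, bend F p ≠ 0) (hproj : ∀ p ∈ U, PI F p)
    {c : ℝ → E2} (hc : CL F (W ∩ closure U) c) (t : ℝ) : bend F (c t) ≠ 0 := by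
  have hL := hc.toLC inter_subset_left hreg
  obtain ⟨T, hT, hper⟩ := hc.per
  obtain ⟨t0, ht0⟩ := exists_curved hW hF hL hT (by simpa using hper 0)
  obtain ⟨W', hW'd⟩ : ∃ W', W' = W ∩ bend F ⁻¹' {0}ᶜ := ⟨_, rfl⟩
  have hW' : IsOpen W' := by
    rw [hW'd]
    exact (bend_cont hW F hF).isOpen_inter_preimage hW isClosed_singleton.isOpen_compl
  have hWW : W' ⊆ W := by rw [hW'd]; exact inter_subset_left
  have hloc := local_pencil hW' hU (fun p hp => by rw [hW'd]; exact ⟨hUW hp, hbU p hp⟩) hUc F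
    (hF.mono hWW) (fun p hp => by
    rw [hW'd] at hp
    exact hp.2) hproj
  by_contra hcon
  obtain ⟨t', ht', hct'⟩ := exists_later hT hper t0 t
  have hcb : Continuous fun t => bend F (c t) := by
    rw [continuous_iff_continuousAt]
    intro s
    exact ContinuousAt.comp ((bend_cont hW F hF).continuousAt (hW.mem_nhds (hc.mem s).1))
      (hc.diff s).continuousAt
  obtain ⟨S, hS⟩ : ∃ S : Set ℝ, S = Ici t0 ∩ (fun t => bend F (c t)) ⁻¹' {0} := ⟨_, rfl⟩
  have hSc : IsClosed S := by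
    rw [hS]
    exact isClosed_Ici.inter (isClosed_singleton.preimage hcb)
  have hSb : BddBelow S := ⟨t0, fun s hs => by rw [hS] at hs; exact hs.1⟩
  have hSn : S.Nonempty := ⟨t', by
    rw [hS]
    refine ⟨ht'.le, ?_⟩
    show bend F (c t') = 0
    rw [hct', hcon]⟩
  have hts := hSc.csInf_mem hSn hSb
  obtain ⟨t1, ht1⟩ : ∃ t1, t1 = sInf S := ⟨_, rfl⟩
  rw [← ht1] at hts
  have hlt : t0 < t1 := by
    rw [hS] at hts
    refine lt_of_le_of_ne hts.1 ?_
    rintro rfl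
    exact ht0 hts.2
  have hne := continuation hW hF hL hWW hloc hlt (fun s hs => by
    refine ⟨?_, (hc.mem s).2⟩
    rw [hW'd]
    refine ⟨(hc.mem s).1, fun hb0 => ?_⟩
    have : s ∈ S := by rw [hS]; exact ⟨hs.1.le, hb0⟩
    have := csInf_le hSb this
    rw [← ht1] at this
    exact absurd hs.2 (not_lt.mpr this))
  rw [hS] at hts
  exact hne hts.2

theorem ell {q : Fin 3 → Fin 3 → ℝ} (hs : ∀ i j, q i j = q j i) (hd : (Matrix.of q).det ≠ 0)
    {c : ℝ → E2} (hc : Differentiable ℝ c) (hr : ∀ t, deriv c t ≠ 0) {T : ℝ} (hT : 0 < T)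
    (hper : c T = c 0) (h0 : ∀ t, form q ![(c t).1, (c t).2, 1] = 0) :
    range c = {p : E2 | form q ![p.1, p.2, 1] = 0} ∧ IsEll (range c) := by
  have e : ∀ p : E2, form q ![p.1, p.2, 1] = q 0 0 * p.1 ^ 2 + 2 * q 0 1 * p.1 * p.2 +
      q 1 1 * p.2 ^ 2 + 2 * q 0 2 * p.1 + 2 * q 1 2 * p.2 + q 2 2 := by
    intro p
    unfold form
    simp only [Matrix.cons_val_zero, Matrix.cons_val_one, Matrix.cons_val]
    rw [hs 1 0, hs 2 0, hs 2 1]
    ring
  have h := ell_aux (A := q 0 0) (B := q 0 1) (C := q 1 1) (D := q 0 2) (E := q 1 2) (K := q 2 2)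
    (c := c) (by
      rw [Matrix.det_fin_three] at hd
      simp only [Matrix.of_apply] at hd
      rw [hs 1 0, hs 2 0, hs 2 1] at hd
      intro h
      apply hd
      linear_combination h) hc hr hT hper (fun t => by rw [← e]; exact h0 t)
  refine ⟨?_, h.2⟩
  rw [h.1]
  ext p
  rw [mem_ofPred_eq, mem_ofPred_eq, e]

theorem main {F : E2 → ℝ} {W U : Set E2} (hW : IsOpen W) (hU : IsOpen U) (hUW : U ⊆ W)
    (hUc : IsConnected U) (hF : ContDiffOn ℝ ∞ F W) (hreg : ∀ p ∈ W, tang F p ≠ 0)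
    (hproj : ∀ p ∈ U, PI F p) :
    ∃ Q₁ Q₂ : Matrix (Fin 3) (Fin 3) ℝ, Q₁.IsSymm ∧ Q₂.IsSymm ∧ LinearIndependent ℝ ![Q₁, Q₂] ∧
      (∀ (I : Set ℝ) (c : ℝ → E2), IsOpen I → IsPreconnected I → DifferentiableOn ℝ c I →
        (∀ t ∈ I, c t ∈ U) → (∀ s ∈ I, ∀ t ∈ I, F (c s) = F (c t)) →
        ∃ l₁ l₂ : ℝ, (l₁ • Q₁ + l₂ • Q₂).det ≠ 0 ∧ ∀ t ∈ I,
          form (fun i j => (l₁ • Q₁ + l₂ • Q₂) i j) ![(c t).1, (c t).2, 1] = 0) ∧
      ∀ c : ℝ → E2, CL F (W ∩ closure U) c →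
        ∃ l₁ l₂ : ℝ, (l₁ • Q₁ + l₂ • Q₂).det ≠ 0 ∧ IsEll (range c) ∧
          range c = {p | form (fun i j => (l₁ • Q₁ + l₂ • Q₂) i j) ![p.1, p.2, 1] = 0} := by
  have hbU : ∀ p ∈ U, bend F p ≠ 0 := fun p hp =>
    curved_of_PI hU (hF.mono hUW) (fun p hp => hreg p (hUW hp)) hproj hp
  obtain ⟨W', hW'd⟩ : ∃ W', W' = W ∩ bend F ⁻¹' {0}ᶜ := ⟨_, rfl⟩
  have hW' : IsOpen W' := by
    rw [hW'd]
    exact (bend_cont hW F hF).isOpen_inter_preimage hW isClosed_singleton.isOpen_compl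
  have hWW : W' ⊆ W := by rw [hW'd]; exact inter_subset_left
  have hUW' : U ⊆ W' := fun p hp => by rw [hW'd]; exact ⟨hUW hp, hbU p hp⟩
  obtain ⟨b, Q₁, Q₂, h1, h2, h3, h4⟩ := local_pencil hW' hU hUW' hUc F
    (hF.mono hWW) (fun p hp => by
    rw [hW'd] at hp
    exact hp.2) hproj
  have hd : ∀ p ∈ W' ∩ closure U, DifferentiableAt ℝ F p := fun p hp =>
    (hF.contDiffAt (hW.mem_nhds (hWW hp.1))).differentiableAt (by simp)
  refine ⟨Q₁, Q₂, h1, h2, h3, ?_, ?_⟩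
  · intro I c hI hIc hc hmem hlev
    rcases I.eq_empty_or_nonempty with rfl | ⟨s0, hs0⟩
    · obtain ⟨z0, hz0⟩ := hUc.nonempty
      obtain ⟨g1, -, ⟨l₁, l₂, g3⟩, -⟩ := h4 z0 (hUW' hz0) (subset_closure hz0)
      exact ⟨l₁, l₂, by rw [← g3, g1]; norm_num, by simp⟩
    · have hmem' : ∀ t ∈ I, c t ∈ W' ∩ closure U := fun t ht =>
        ⟨hUW' (hmem t ht), subset_closure (hmem t ht)⟩
      have hc' := b_const (fun p hp => (h4 p hp.1 hp.2).2.2.2) hd hI hIc hc hmem' hlev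
      obtain ⟨g1, -, ⟨l₁, l₂, g3⟩, -⟩ := h4 _ (hmem' _ hs0).1 (hmem' _ hs0).2
      refine ⟨l₁, l₂, by rw [← g3, g1]; norm_num, fun t ht => ?_⟩
      rw [← g3]
      have h6 : (fun j l => b j l (c s0)) = fun j l => b j l (c t) := by
        funext j l
        exact hc' _ hs0 _ ht j l
      show form (fun j l => b j l (c s0)) _ = 0
      rw [h6]
      exact (h4 _ (hmem' t ht).1 (hmem' t ht).2).2.1
  · intro c hc
    have hne := curved_of_closure hW hU hUW hUc hF hreg hbU hproj hc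
    have hmem' : ∀ t ∈ (univ : Set ℝ), c t ∈ W' ∩ closure U := fun t _ => by
      refine ⟨?_, (hc.mem t).2⟩
      rw [hW'd]
      exact ⟨(hc.mem t).1, hne t⟩
    have hc' := b_const (fun p hp => (h4 p hp.1 hp.2).2.2.2) hd isOpen_univ isPreconnected_univ
      hc.diff.differentiableOn hmem' (fun s _ t _ => by rw [hc.lev s, hc.lev t])
    obtain ⟨g1, -, g3, -⟩ := h4 _ (hmem' 0 (mem_univ _)).1 (hmem' 0 (mem_univ _)).2
    obtain ⟨T, hT, hper⟩ := hc.per
    have key := ell (q := fun j l => b j l (c 0)) (symm_of_span h1 h2 g3) (by rw [g1]; norm_num)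
      hc.diff hc.reg hT (by simpa using hper 0) (fun t => by
        have h6 : (fun j l => b j l (c 0)) = fun j l => b j l (c t) := by
          funext j l
          exact hc' _ (mem_univ _) _ (mem_univ _) j l
        rw [h6]
        exact (h4 _ (hmem' t (mem_univ _)).1 (hmem' t (mem_univ _)).2).2.1)
    obtain ⟨l₁, l₂, g3⟩ := g3
    refine ⟨l₁, l₂, by rw [← g3, g1]; norm_num, key.2, ?_⟩
    rw [← g3]
    exact key.1

end Pool.Agent.W5h48.AL
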