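import Pool.Agent.W5h48.AL.Dich

set_option autoImplicit false
set_option linter.unusedSimpArgs false
set_option linter.unusedVariables false

open Set Filter Topology
open scoped ContDiff

namespace Pool.Agent.W5h48.AL

/-- flat at `q0` -/
def Flat {V : Set E2} (q0 : E2) (f : Sm V) : Prop :=
  ∀ n : ℕ, ∃ K r : ℝ, 0 ≤ K ∧ 0 < r ∧ ∀ p ∈ Metric.ball q0 r, p ≠ q0 →
    |ev f p| ≤ K * ‖p - q0‖ ^ (n + 1)

theorem near_pts {q0 : E2} : (𝓝[≠] q0).NeBot := by infer_instance

theorem Flat.zero {V : Set E2} {q0 : E2} (hV : IsOpen V) (hq : q0 ∈ V) {f : Sm V}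
    (h : Flat q0 f) : ev f q0 = 0 := by
  obtain ⟨K, r, hK, hr, H⟩ := h 0
  have h1 : ContinuousAt (ev f) q0 := (ev_contDiffAt hV f hq).continuousAt
  have h2 : Tendsto (fun p => |ev f p|) (𝓝[≠] q0) (𝓝 |ev f q0|) :=
    (h1.abs).tendsto.mono_left nhdsWithin_le_nhds
  have h3 : Tendsto (fun p : E2 => K * ‖p - q0‖ ^ (0 + 1)) (𝓝[≠] q0) (𝓝 0) := by
    have : ContinuousAt (fun p : E2 => K * ‖p - q0‖ ^ (0 + 1)) q0 := by fun_prop
    have h4 := this.tendsto.mono_left (nhdsWithin_le_nhds (s := {q0}ᶜ))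
    simpa using h4
  have h5 : |ev f q0| ≤ 0 := by
    refine le_of_tendsto_of_tendsto h2 h3 ?_
    filter_upwards [mem_nhdsWithin_of_mem_nhds (Metric.ball_mem_nhds q0 hr),
      self_mem_nhdsWithin] with p hp hne
    exact H p hp hne
  exact abs_eq_zero.mp (le_antisymm h5 (abs_nonneg _))

theorem Flat.add {V : Set E2} {q0 : E2} {f g : Sm V} (hf : Flat q0 f) (hg : Flat q0 g) :
    Flat q0 (f + g) := by
  intro n
  obtain ⟨K1, r1, hK1, hr1, H1⟩ := hf n
  obtain ⟨K2, r2, hK2, hr2, H2⟩ := hg n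
  refine ⟨K1 + K2, min r1 r2, by positivity, lt_min hr1 hr2, fun p hp hne => ?_⟩
  have a1 := H1 p (Metric.ball_subset_ball (min_le_left _ _) hp) hne
  have a2 := H2 p (Metric.ball_subset_ball (min_le_right _ _) hp) hne
  rw [ev_add]
  calc |ev f p + ev g p| ≤ |ev f p| + |ev g p| := abs_add_le _ _
    _ ≤ (K1 + K2) * ‖p - q0‖ ^ (n + 1) := by rw [add_mul]; exact add_le_add a1 a2

theorem Flat.mul_left {V : Set E2} {q0 : E2} (hV : IsOpen V) (hq : q0 ∈ V) {f : Sm V} (g : Sm V)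
    (hf : Flat q0 f) : Flat q0 (g * f) := by
  intro n
  obtain ⟨K1, r1, hK1, hr1, H1⟩ := hf n
  have hc : ContinuousAt (fun p => |ev g p|) q0 := ((ev_contDiffAt hV g hq).continuousAt).abs
  have h2 : ∀ᶠ p in 𝓝 q0, |ev g p| < |ev g q0| + 1 := hc.eventually (gt_mem_nhds (by linarith))
  obtain ⟨r2, hr2, H2⟩ := Metric.eventually_nhds_iff_ball.mp h2
  have h0 : 0 ≤ |ev g q0| := abs_nonneg _
  refine ⟨(|ev g q0| + 1) * K1, min r1 r2, by positivity, lt_min hr1 hr2, fun p hp hne => ?_⟩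
  have a1 := H1 p (Metric.ball_subset_ball (min_le_left _ _) hp) hne
  have a2 := (H2 p (Metric.ball_subset_ball (min_le_right _ _) hp)).le
  rw [ev_mul, abs_mul, mul_assoc]
  exact mul_le_mul a2 a1 (abs_nonneg _) (by positivity)

theorem Flat.of_zero {V : Set E2} {q0 : E2} : Flat q0 (0 : Sm V) := fun n =>
  ⟨0, 1, le_rfl, one_pos, fun p _ _ => by rw [ev_zero]; simp⟩

theorem line_der {V : Set E2} (hV : IsOpen V) (f : Sm V) (v p : E2) (s : ℝ) (h : p + s • v ∈ V) :
    HasDerivAt (fun s : ℝ => ev f (p + s • v)) (ev (pd hV v f) (p + s • v)) s := by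
  have hline : HasDerivAt (fun t : ℝ => p + t • v) v s := by
    have := ((hasDerivAt_id s).smul_const v).const_add p
    rwa [one_smul] at this
  rw [ev_pd hV v f h]
  exact HasFDerivAt.comp_hasDerivAt (f := fun t : ℝ => p + t • v) s (ev_diff hV f h) hline

/-- mean value inequality on `[0, s]` -/
theorem mv {g g' : ℝ → ℝ} {h M : ℝ} (hh : 0 ≤ h) (hd : ∀ s ∈ Icc 0 h, HasDerivAt g (g' s) s)
    (hM : ∀ s ∈ Icc 0 h, |g' s| ≤ M) : ∀ s ∈ Icc 0 h, |g s - g 0| ≤ M * s := by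
  intro s hs
  have h1 := (convex_Icc (0 : ℝ) h).norm_image_sub_le_of_norm_hasDerivWithin_le
    (f := g) (f' := g') (C := M) (fun x hx => (hd x hx).hasDerivWithinAt)
    (fun x hx => by rw [Real.norm_eq_abs]; exact hM x hx) (left_mem_Icc.mpr hh) hs
  rw [Real.norm_eq_abs, Real.norm_eq_abs, sub_zero, abs_of_nonneg hs.1] at h1
  exact h1

theorem Flat.pd {V : Set E2} {q0 : E2} (hV : IsOpen V) (hq : q0 ∈ V) {f : Sm V}
    (hf : Flat q0 f) (v : E2) : Flat q0 (pd hV v f) := by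
  intro n
  obtain ⟨K1, r1, hK1, hr1, H1⟩ := hf (2 * n + 1)
  obtain ⟨R, hR, hRV⟩ := Metric.nhds_basis_closedBall.mem_iff.mp (hV.mem_nhds hq)
  obtain ⟨M, hM0, hM⟩ := exists_bound ({AL.pd hV v (AL.pd hV v f)} : Finset (Sm V)) hRV
  obtain ⟨c, hc⟩ : ∃ c, c = 1 + ‖v‖ := ⟨_, rfl⟩
  have hc1 : 1 ≤ c := by rw [hc]; linarith [norm_nonneg v]
  refine ⟨2 * K1 * c ^ (2 * n + 2) + 2 * M, min 1 (min (r1 / c) (R / c)), by positivity,
    lt_min one_pos (lt_min (by positivity) (by positivity)), fun p hp hne => ?_⟩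
  rw [mem_ball_iff_norm] at hp
  obtain ⟨d, hd⟩ : ∃ d, d = ‖p - q0‖ := ⟨_, rfl⟩
  rw [← hd] at hp ⊢
  have hd0 : 0 < d := by rw [hd]; exact norm_pos_iff.mpr (sub_ne_zero.mpr hne)
  have hd1 : d < 1 := hp.trans_le (min_le_left _ _)
  have hd2 : d * c < r1 := by
    have := hp.trans_le ((min_le_right _ _).trans (min_le_left _ _))
    rwa [lt_div_iff₀ (by linarith)] at this
  have hd3 : d * c < R := by
    have := hp.trans_le ((min_le_right _ _).trans (min_le_right _ _))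
    rwa [lt_div_iff₀ (by linarith)] at this
  obtain ⟨h, hh⟩ : ∃ h, h = d ^ (n + 1) := ⟨_, rfl⟩
  have hh0 : 0 < h := by rw [hh]; positivity
  have hhd : h ≤ d := by
    rw [hh]
    calc d ^ (n + 1) ≤ d ^ 1 := pow_le_pow_of_le_one hd0.le hd1.le (by omega)
      _ = d := pow_one d
  have hdist : ∀ s ∈ Icc 0 h, ‖p + s • v - q0‖ ≤ d * c := by
    intro s hs
    have e1 : p + s • v - q0 = (p - q0) + s • v := by abel
    rw [e1, hc]
    have e2 : ‖s • v‖ ≤ d * ‖v‖ := by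
      rw [norm_smul, Real.norm_eq_abs, abs_of_nonneg hs.1]
      exact mul_le_mul_of_nonneg_right (hs.2.trans hhd) (norm_nonneg v)
    have e3 := norm_add_le (p - q0) (s • v)
    rw [← hd] at e3
    linarith
  have hinV : ∀ s ∈ Icc 0 h, p + s • v ∈ Metric.closedBall q0 R := fun s hs => by
    rw [mem_closedBall_iff_norm]
    exact (hdist s hs).trans hd3.le
  -- second derivative
  have m1 := mv (g := fun s => ev (AL.pd hV v f) (p + s • v))
    (g' := fun s => ev (AL.pd hV v (AL.pd hV v f)) (p + s • v)) (M := M) hh0.le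
    (fun s hs => line_der hV (AL.pd hV v f) v p s (hRV (hinV s hs)))
    (fun s hs => hM _ (Finset.mem_singleton_self _) _ (hinV s hs))
  obtain ⟨g0, hg0⟩ : ∃ g0, g0 = ev (AL.pd hV v f) p := ⟨_, rfl⟩
  simp only [zero_smul, add_zero, ← hg0] at m1
  have m2 := mv (g := fun s => ev f (p + s • v) - s * g0)
    (g' := fun s => ev (AL.pd hV v f) (p + s • v) - g0) (M := M * h) hh0.le
    (fun s hs => by
      have := (line_der hV f v p s (hRV (hinV s hs))).sub ((hasDerivAt_id s).mul_const g0)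
      rw [one_mul] at this
      exact this)
    (fun s hs => (m1 s hs).trans (mul_le_mul_of_nonneg_left hs.2 hM0)) h (right_mem_Icc.mpr hh0.le)
  simp only [zero_smul, add_zero, zero_mul, sub_zero] at m2
  -- values
  have hval : ∀ s ∈ Icc 0 h, |ev f (p + s • v)| ≤ K1 * (d * c) ^ (2 * n + 2) := by
    intro s hs
    by_cases hz : p + s • v = q0
    · rw [hz, hf.zero hV hq, abs_zero]
      positivity
    · refine (H1 _ ?_ hz).trans ?_
      · rw [mem_ball_iff_norm]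
        exact (hdist s hs).trans_lt hd2
      · exact mul_le_mul_of_nonneg_left (pow_le_pow_left₀ (norm_nonneg _) (hdist s hs) _) hK1
  have v0 := hval 0 (left_mem_Icc.mpr hh0.le)
  have v1 := hval h (right_mem_Icc.mpr hh0.le)
  simp only [zero_smul, add_zero] at v0
  rw [← hg0]
  have key : h * |g0| ≤ 2 * (K1 * (d * c) ^ (2 * n + 2)) + M * h * h := by
    have e1 : h * |g0| = |h * g0| := by rw [abs_mul, abs_of_pos hh0]
    rw [e1]
    have e2 : h * g0 = ev f (p + h • v) - ev f p - (ev f (p + h • v) - h * g0 - ev f p) := by ring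
    rw [e2]
    have e3 := abs_sub (ev f (p + h • v) - ev f p) (ev f (p + h • v) - h * g0 - ev f p)
    have e4 := abs_sub (ev f (p + h • v)) (ev f p)
    linarith
  have e5 : (d * c) ^ (2 * n + 2) = h * h * c ^ (2 * n + 2) := by
    rw [mul_pow, hh]
    ring
  rw [e5] at key
  have e6 : h * |g0| ≤ h * ((2 * K1 * c ^ (2 * n + 2) + 2 * M) * h) := by
    have : 0 ≤ M * h * h := by positivity
    calc h * |g0| ≤ 2 * (K1 * (h * h * c ^ (2 * n + 2))) + M * h * h := key
      _ ≤ h * ((2 * K1 * c ^ (2 * n + 2) + 2 * M) * h) := by nlinarith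
  have e7 := le_of_mul_le_mul_left e6 hh0
  rw [← hh]
  exact e7

end Pool.Agent.W5h48.AL
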