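import Pool.Agent.W5h48.AL.Curve

set_option autoImplicit false
set_option linter.unusedSimpArgs false

open Set Filter Topology
open scoped ContDiff

namespace Pool.Agent.W5h48.AL

theorem LC.rev {F : E2 → ℝ} {W : Set E2} {c : ℝ → E2} (h : LC F W c) :
    LC F W (fun t => c (-t)) where
  diff := h.diff.comp differentiable_neg
  reg t := by
    rw [deriv_comp_neg]
    exact neg_ne_zero.mpr (h.reg (-t))
  mem t := h.mem _
  lev t := by
    rw [h.lev (-t), neg_zero]
  tan t := h.tan _

/-- through each point passes a leaf -/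
theorem exists_leaf {W : Set E2} (hW : IsOpen W) {F : E2 → ℝ} (hF : ContDiffOn ℝ ∞ F W)
    (hreg : ∀ p ∈ W, tang F p ≠ 0) {p : E2} (hp : p ∈ W) : ∃ c, LC F W c ∧ c 0 = p := by
  have hFp := hF.contDiffAt (hW.mem_nhds hp)
  have h1 : ContDiffAt ℝ 1 (fderiv ℝ F) p := hFp.fderiv_right (m := 1) (by norm_cast)
  have h2 : ContDiffAt ℝ 1 (tang F) p := by
    unfold tang
    exact (h1.clm_apply contDiffAt_const).prodMk (h1.clm_apply contDiffAt_const).neg
  obtain ⟨f, hf0, ε, hε, hf⟩ :=
    h2.exists_forall_mem_closedBall_exists_eq_forall_mem_Ioo_hasDerivAt₀ 0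
  simp only [zero_sub, zero_add] at hf
  have hfc : ContinuousAt f 0 := (hf 0 ⟨by linarith, hε⟩).continuousAt
  have h3 : ∀ᶠ s in 𝓝 (0 : ℝ), f s ∈ W := by
    apply hfc.preimage_mem_nhds
    rw [hf0]
    exact hW.mem_nhds hp
  obtain ⟨r, hr, h4⟩ := Metric.eventually_nhds_iff_ball.mp h3
  obtain ⟨ρ, hρ⟩ : ∃ ρ, ρ = min ε r / 2 := ⟨_, rfl⟩
  have hρ0 : 0 < ρ := by rw [hρ]; positivity
  have hφ : ∀ t, |ρ * Real.arctan t| < min ε r := by
    intro t
    have h5 : |Real.arctan t| < 2 := by
      rw [abs_lt]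
      have := Real.neg_pi_div_two_lt_arctan t
      have := Real.arctan_lt_pi_div_two t
      have := Real.pi_lt_four
      constructor <;> linarith
    rw [abs_mul, abs_of_pos hρ0]
    have : min ε r = ρ * 2 := by rw [hρ]; ring
    rw [this]
    exact mul_lt_mul_of_pos_left h5 hρ0
  have hmem : ∀ t, f (ρ * Real.arctan t) ∈ W := fun t => h4 _ (by
    rw [mem_ball_zero_iff, Real.norm_eq_abs]
    exact (hφ t).trans_le (min_le_right _ _))
  have hder : ∀ t, HasDerivAt (fun t => f (ρ * Real.arctan t))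
      ((ρ * (1 / (1 + t ^ 2))) • tang F (f (ρ * Real.arctan t))) t := by
    intro t
    have h6 := (abs_lt.mp ((hφ t).trans_le (min_le_left _ _)))
    have h7 := hf (ρ * Real.arctan t) ⟨h6.1, h6.2⟩
    exact h7.scomp t ((Real.hasDerivAt_arctan t).const_mul ρ)
  have hlev : ∀ t, HasDerivAt (fun t => F (f (ρ * Real.arctan t))) 0 t := by
    intro t
    have h8 : HasDerivAt (fun t => F (f (ρ * Real.arctan t)))
        (fderiv ℝ F (f (ρ * Real.arctan t))
          ((ρ * (1 / (1 + t ^ 2))) • tang F (f (ρ * Real.arctan t)))) t :=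
      HasFDerivAt.comp_hasDerivAt t (((hF.contDiffAt (hW.mem_nhds (hmem t))).differentiableAt
        (by simp)).hasFDerivAt) (hder t)
    convert h8 using 1
    obtain ⟨q, hq⟩ : ∃ q, q = f (ρ * Real.arctan t) := ⟨_, rfl⟩
    rw [← hq, map_smul]
    have h6 : tang F q = (tang F q).1 • ((1 : ℝ), (0 : ℝ)) +
        (tang F q).2 • ((0 : ℝ), (1 : ℝ)) := by
      ext <;> simp
    have h9 : fderiv ℝ F q (tang F q) = 0 := by
      conv_lhs => rw [h6]
      rw [map_add, map_smul, map_smul, smul_eq_mul, smul_eq_mul]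
      unfold tang
      simp only
      ring
    rw [h9, smul_zero]
  refine ⟨fun t => f (ρ * Real.arctan t), ⟨fun t => (hder t).differentiableAt, fun t => ?_, hmem,
    fun t => ?_, fun t => hreg _ (hmem t)⟩, ?_⟩
  · rw [(hder t).deriv]
    have : 0 < ρ * (1 / (1 + t ^ 2)) := by positivity
    exact smul_ne_zero this.ne' (hreg _ (hmem t))
  · exact is_const_of_deriv_eq_zero (f := fun t => F (f (ρ * Real.arctan t)))
      (fun t => (hlev t).differentiableAt) (fun t => (hlev t).deriv) t 0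
  · simp [hf0]

/-- the tangent involution of a straight leaf is not projective -/
theorem not_flat {W : Set E2} (hW : IsOpen W) {F : E2 → ℝ} (hF : ContDiffOn ℝ ∞ F W) {c : ℝ → E2}
    (h : LC F W c) (hcon : ∀ t, bend F (c t) = 0) (hP : PI F (c 0)) : False := by
  have hN := flat_dir hW hF h hcon
  obtain ⟨n, hn⟩ : ∃ n, n = tang F (c 0) := ⟨_, rfl⟩
  simp only [← hn] at hN
  have hn0 : 0 < n.1 ^ 2 + n.2 ^ 2 := by
    have := sq_pos' (a := -n.2) (b := n.1) (by rw [neg_neg, hn]; exact h.tan 0)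
    nlinarith
  -- motion along the line
  have hdir : ∀ t, n.1 * (deriv c t).2 - n.2 * (deriv c t).1 = 0 := by
    intro t
    obtain ⟨μ, hμ, hμc, -⟩ := along hW hF h t
    rw [hμc]
    simp only [Prod.smul_fst, Prod.smul_snd, smul_eq_mul]
    linear_combination μ * hN t
  have hx : ∀ t, HasDerivAt (fun t => (c t).1) (deriv c t).1 t := fun t =>
    HasFDerivAt.comp_hasDerivAt t (hasFDerivAt_fst (𝕜 := ℝ) (p := c t)) (h.diff t).hasDerivAt
  have hy : ∀ t, HasDerivAt (fun t => (c t).2) (deriv c t).2 t := fun t =>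
    HasFDerivAt.comp_hasDerivAt t (hasFDerivAt_snd (𝕜 := ℝ) (p := c t)) (h.diff t).hasDerivAt
  have hcr : ∀ t, n.1 * (c t).2 - n.2 * (c t).1 = n.1 * (c 0).2 - n.2 * (c 0).1 := by
    intro t
    have hd : ∀ t, HasDerivAt (fun t => n.1 * (c t).2 - n.2 * (c t).1) 0 t := fun t => by
      have := ((hy t).const_mul n.1).sub ((hx t).const_mul n.2)
      rw [hdir t] at this
      exact this
    exact is_const_of_deriv_eq_zero (f := fun t => n.1 * (c t).2 - n.2 * (c t).1)
      (fun t => (hd t).differentiableAt) (fun t => (hd t).deriv) t 0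
  obtain ⟨s, hs⟩ : ∃ s : ℝ → ℝ, s = fun t => (n.1 * ((c t).1 - (c 0).1) +
    n.2 * ((c t).2 - (c 0).2)) / (n.1 ^ 2 + n.2 ^ 2) := ⟨_, rfl⟩
  have hcs : ∀ t, c t = c 0 + s t • n := by
    intro t
    have h1 := hcr t
    rw [hs]
    ext
    · simp only [Prod.fst_add, Prod.smul_fst, smul_eq_mul]
      field_simp
      linear_combination (-n.2) * h1
    · simp only [Prod.snd_add, Prod.smul_snd, smul_eq_mul]
      field_simp
      linear_combination n.1 * h1
  have hsd : ∀ t, HasDerivAt s ((n.1 * (deriv c t).1 + n.2 * (deriv c t).2) /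
      (n.1 ^ 2 + n.2 ^ 2)) t := by
    intro t
    rw [hs]
    exact ((((hx t).sub_const _).const_mul n.1).add
      (((hy t).sub_const _).const_mul n.2)).div_const _
  have hsne : ∀ t, (n.1 * (deriv c t).1 + n.2 * (deriv c t).2) / (n.1 ^ 2 + n.2 ^ 2) ≠ 0 := by
    intro t h0
    rw [div_eq_zero_iff] at h0
    rcases h0 with h0 | h0
    · have h1 := hdir t
      apply h.reg t
      have e1 : (n.1 ^ 2 + n.2 ^ 2) * (deriv c t).1 = 0 := by
        linear_combination n.1 * h0 - n.2 * h1
      have e2 : (n.1 ^ 2 + n.2 ^ 2) * (deriv c t).2 = 0 := by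
        linear_combination n.2 * h0 + n.1 * h1
      exact Prod.ext ((mul_eq_zero.mp e1).resolve_left hn0.ne')
        ((mul_eq_zero.mp e2).resolve_left hn0.ne')
    · exact hn0.ne' h0
  have hs0 : s 0 = 0 := by rw [hs]; simp
  have hFs : ∀ t, F (c 0 + s t • n) = F (c 0) := fun t => by rw [← hcs, h.lev t]
  have hmono : StrictMono s ∨ StrictAnti s := by
    rcases hasDerivWithinAt_forall_lt_or_forall_gt_of_forall_ne (convex_univ)
      (fun x _ => (hsd x).hasDerivWithinAt) (m := 0) (fun x _ => hsne x) with h1 | h1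
    · right
      exact strictAnti_of_deriv_neg fun x => by rw [(hsd x).deriv]; exact h1 x (mem_univ _)
    · left
      exact strictMono_of_deriv_pos fun x => by rw [(hsd x).deriv]; exact h1 x (mem_univ _)
  obtain ⟨κ, ε, hε, H⟩ := hP
  rw [← hn] at H
  have hsc : ContinuousAt s 0 := (hsd 0).continuousAt
  have h5 : ∀ᶠ t in 𝓝 (0 : ℝ), |s t| < ε := by
    have : Tendsto (fun t => |s t|) (𝓝 0) (𝓝 |s 0|) := hsc.abs
    rw [hs0, abs_zero] at this
    exact this.eventually (gt_mem_nhds hε)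
  obtain ⟨r, hr, h6⟩ := Metric.eventually_nhds_iff_ball.mp h5
  have h7 : ∀ t, |t| < r → |s t| < ε := fun t ht => h6 t (by
    rwa [mem_ball_zero_iff, Real.norm_eq_abs])
  -- two different pairs
  have key : ∀ u : ℝ → ℝ, StrictMono u → u 0 = 0 → (∀ t, |t| < r → |u t| < ε) →
      (∀ t, F (c 0 + u t • n) = F (c 0)) → False := by
    intro u hu hu0 hub huF
    have a1 : 0 < u (r / 4) := by rw [← hu0]; exact hu (by linarith)
    have a2 : u (r / 4) < u (r / 2) := hu (by linarith)
    have a3 : u (-(r / 2)) < 0 := by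
      conv_rhs => rw [← hu0]
      exact hu (by linarith)
    have b1 := hub (r / 4) (by rw [abs_of_pos (by linarith)]; linarith)
    have b2 := hub (r / 2) (by rw [abs_of_pos (by linarith)]; linarith)
    have b3 := hub (-(r / 2)) (by rw [abs_neg, abs_of_pos (by linarith)]; linarith)
    rw [abs_of_pos a1] at b1
    rw [abs_of_pos (a1.trans a2)] at b2
    rw [abs_of_neg a3] at b3
    have c1 := H (u (r / 4)) (-u (-(r / 2))) a1 b1 (by linarith) b3 (by
      rw [neg_smul, sub_neg_eq_add, huF, huF])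
    have c2 := H (u (r / 2)) (-u (-(r / 2))) (a1.trans a2) b2 (by linarith) b3 (by
      rw [neg_smul, sub_neg_eq_add, huF, huF])
    have c3 : 1 / u (r / 4) = 1 / u (r / 2) := by linarith
    have c4 := one_div_lt_one_div_of_lt a1 a2
    linarith
  rcases hmono with hm | hm
  · exact key s hm hs0 h7 hFs
  · refine key (fun t => s (-t)) (fun a b hab => hm (neg_lt_neg hab)) (by simp [hs0])
      (fun t ht => h7 _ (by rwa [abs_neg])) (fun t => hFs _)

end Pool.Agent.W5h48.AL
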