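import Pool.Agent.W5h48.AL.Base

set_option autoImplicit false
set_option linter.unusedSimpArgs false

namespace Pool.Agent.W5h48.AL

variable {A B : Type*} [CommRing A] [Algebra ℝ A] [CommRing B] [Algebra ℝ B]

/-- The Taylor relations. -/
theorem taylor {D' δ' T : Derivation ℝ B B} {t E C : B} {h : ℕ → B}
    (Tt : T t = 1) (TE : T E = 0) (TC : T C = 0)
    (TD : ∀ f, T (D' f) = D' (T f)) (Tδ : ∀ f, T (δ' f) = δ' (T f))
    (hh : ∀ n, T (h n) = h (n + 1))
    (pde : t * δ' (h 0) = D' (h 0) - (1 - E * t * t + C * t * t * t) * h 1) :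
    (δ' (h 0) + t * δ' (h 1) = D' (h 1) - (1 - E * t * t + C * t * t * t) * h 2
      - (-2 * E * t + 3 * C * t * t) * h 1) ∧
    (2 * δ' (h 1) + t * δ' (h 2) = D' (h 2) - (1 - E * t * t + C * t * t * t) * h 3
      - 2 * (-2 * E * t + 3 * C * t * t) * h 2 - (-2 * E + 6 * C * t) * h 1) ∧
    (3 * δ' (h 2) + t * δ' (h 3) = D' (h 3) - (1 - E * t * t + C * t * t * t) * h 4
      - 3 * (-2 * E * t + 3 * C * t * t) * h 3 - 3 * (-2 * E + 6 * C * t) * h 2 - 6 * C * h 1) ∧
    (4 * δ' (h 3) + t * δ' (h 4) = D' (h 4) - (1 - E * t * t + C * t * t * t) * h 5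
      - 4 * (-2 * E * t + 3 * C * t * t) * h 4 - 6 * (-2 * E + 6 * C * t) * h 3
      - 24 * C * h 2) ∧
    (5 * δ' (h 4) + t * δ' (h 5) = D' (h 5) - (1 - E * t * t + C * t * t * t) * h 6
      - 5 * (-2 * E * t + 3 * C * t * t) * h 5 - 10 * (-2 * E + 6 * C * t) * h 4
      - 60 * C * h 3) ∧
    (6 * δ' (h 5) + t * δ' (h 6) = D' (h 6) - (1 - E * t * t + C * t * t * t) * h 7
      - 6 * (-2 * E * t + 3 * C * t * t) * h 6 - 15 * (-2 * E + 6 * C * t) * h 5
      - 120 * C * h 4) := by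
  have Tδh : ∀ n, T (δ' (h n)) = δ' (h (n + 1)) := fun n => by rw [Tδ, hh]
  have TDh : ∀ n, T (D' (h n)) = D' (h (n + 1)) := fun n => by rw [TD, hh]
  have p1 : δ' (h 0) + t * δ' (h 1) = D' (h 1) - (1 - E * t * t + C * t * t * t) * h 2
      - (-2 * E * t + 3 * C * t * t) * h 1 := by
    have q := congrArg T pde
    simp only [map_add, map_sub, map_neg, Derivation.leibniz, smul_eq_mul, der_num,
      Derivation.map_one_eq_zero, Tt, TE, TC, hh, Tδh, TDh] at q
    linear_combination q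
  have p2 : 2 * δ' (h 1) + t * δ' (h 2) = D' (h 2) - (1 - E * t * t + C * t * t * t) * h 3
      - 2 * (-2 * E * t + 3 * C * t * t) * h 2 - (-2 * E + 6 * C * t) * h 1 := by
    have q := congrArg T p1
    simp only [map_add, map_sub, map_neg, Derivation.leibniz, smul_eq_mul, der_num,
      Derivation.map_one_eq_zero, Tt, TE, TC, hh, Tδh, TDh] at q
    linear_combination q
  have p3 : 3 * δ' (h 2) + t * δ' (h 3) = D' (h 3) - (1 - E * t * t + C * t * t * t) * h 4
      - 3 * (-2 * E * t + 3 * C * t * t) * h 3 - 3 * (-2 * E + 6 * C * t) * h 2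
      - 6 * C * h 1 := by
    have q := congrArg T p2
    simp only [map_add, map_sub, map_neg, Derivation.leibniz, smul_eq_mul, der_num,
      Derivation.map_one_eq_zero, Tt, TE, TC, hh, Tδh, TDh] at q
    linear_combination q
  have p4 : 4 * δ' (h 3) + t * δ' (h 4) = D' (h 4) - (1 - E * t * t + C * t * t * t) * h 5
      - 4 * (-2 * E * t + 3 * C * t * t) * h 4 - 6 * (-2 * E + 6 * C * t) * h 3
      - 24 * C * h 2 := by
    have q := congrArg T p3
    simp only [map_add, map_sub, map_neg, Derivation.leibniz, smul_eq_mul, der_num,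
      Derivation.map_one_eq_zero, Tt, TE, TC, hh, Tδh, TDh] at q
    linear_combination q
  have p5 : 5 * δ' (h 4) + t * δ' (h 5) = D' (h 5) - (1 - E * t * t + C * t * t * t) * h 6
      - 5 * (-2 * E * t + 3 * C * t * t) * h 5 - 10 * (-2 * E + 6 * C * t) * h 4
      - 60 * C * h 3 := by
    have q := congrArg T p4
    simp only [map_add, map_sub, map_neg, Derivation.leibniz, smul_eq_mul, der_num,
      Derivation.map_one_eq_zero, Tt, TE, TC, hh, Tδh, TDh] at q
    linear_combination q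
  have p6 : 6 * δ' (h 5) + t * δ' (h 6) = D' (h 6) - (1 - E * t * t + C * t * t * t) * h 7
      - 6 * (-2 * E * t + 3 * C * t * t) * h 6 - 15 * (-2 * E + 6 * C * t) * h 5
      - 120 * C * h 4 := by
    have q := congrArg T p5
    simp only [map_add, map_sub, map_neg, Derivation.leibniz, smul_eq_mul, der_num,
      Derivation.map_one_eq_zero, Tt, TE, TC, hh, Tδh, TDh] at q
    linear_combination q
  exact ⟨p1, p2, p3, p4, p5, p6⟩

/-- The partial differential equation. -/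
theorem pde_alg {D' δ' T : Derivation ℝ B B} {t v η η1 η2 s0 r0 dx dy wx wy x y H G1 G2 e c : B}
    {dwx dwy : B}
    (Tt : T t = 1) (Dt : D' t = 0) (δt : δ' t = 0) (hv : v * (1 + t * η) = 1)
    (Tη : T η = 0) (Dη : D' η = η1) (δη : δ' η = η2)
    (Tx : T x = 0) (Ty : T y = 0) (Dx : D' x = dx) (Dy : D' y = dy) (δx : δ' x = wx)
    (δy : δ' y = wy) (Tdx : T dx = 0) (Tdy : T dy = 0)
    (Ddx : D' dx = wx - 2 * η * dx) (Ddy : D' dy = wy - 2 * η * dy)
    (δdx : δ' dx = -η * wx + (e - η1 - η * η) * dx)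
    (δdy : δ' dy = -η * wy + (e - η1 - η * η) * dy)
    (hc : c = η2 - e * η + η * η1 + η * η * η)
    (hT : T H = G1 * T (x + t * v * dx) + G2 * T (y + t * v * dy))
    (hD : D' H = G1 * D' (x + t * v * dx) + G2 * D' (y + t * v * dy))
    (hδ : δ' H = G1 * δ' (x + t * v * dx) + G2 * δ' (y + t * v * dy)) :
    t * δ' H = D' H - (1 - e * t * t + c * t * t * t) * T H := by
  have Tv : T v = -(v * v * η) := by
    have h := congrArg T hv
    simp only [map_add, Derivation.leibniz, smul_eq_mul, Derivation.map_one_eq_zero, Tt, Tη] at h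
    linear_combination v * h - T v * hv
  have Dv : D' v = -(v * v * t * η1) := by
    have h := congrArg D' hv
    simp only [map_add, Derivation.leibniz, smul_eq_mul, Derivation.map_one_eq_zero, Dt, Dη] at h
    linear_combination v * h - D' v * hv
  have δv : δ' v = -(v * v * t * η2) := by
    have h := congrArg δ' hv
    simp only [map_add, Derivation.leibniz, smul_eq_mul, Derivation.map_one_eq_zero, δt, δη] at h
    linear_combination v * h - δ' v * hv
  simp only [map_add, Derivation.leibniz, smul_eq_mul, Tt, Tv, Tx, Ty, Tdx, Tdy] at hT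
  simp only [map_add, Derivation.leibniz, smul_eq_mul, Dt, Dv, Dx, Dy, Ddx, Ddy] at hD
  simp only [map_add, Derivation.leibniz, smul_eq_mul, δt, δv, δx, δy, δdx, δdy] at hδ
  rw [hT, hD, hδ, hc]
  obtain ⟨s, hs⟩ : ∃ s, s = G1 * dx + G2 * dy := ⟨_, rfl⟩
  obtain ⟨r, hr⟩ : ∃ r, r = G1 * wx + G2 * wy := ⟨_, rfl⟩
  linear_combination ((-(t * t * v * e) + t * t * v * η1 + (v + 1 - t * η * v) + t * η * (t * η * v)
    - (1 - e * t * t + (η2 - e * η + η * η1 + η * η * η) * t * t * t) * v) *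
    (G1 * dx + G2 * dy) - t * (G1 * wx + G2 * wy)) * hv

/-- The relations for the Taylor coefficients, abstract form. -/
theorem coef_alg {D δ : Derivation ℝ A A} {D' δ' T : Derivation ℝ B B} {σ : B →ₐ[ℝ] A}
    {ι : A →ₐ[ℝ] B} {t v G1 G2 : B} {h : ℕ → B} {Hc : ℕ → A}
    {x y F L η dx dy wx wy k0 k1 a β : A} {p0 p1 p2 : Fin 3 → A}
    (R : Rel D δ x y F L η dx dy wx wy k0 k1 a β p0 p1 p2)
    (iD : ∀ f, D' (ι f) = ι (D f)) (iδ : ∀ f, δ' (ι f) = ι (δ f))
    (sD : ∀ b, σ (D' b) = D (σ b)) (sδ : ∀ b, σ (δ' b) = δ (σ b))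
    (sι : ∀ f, σ (ι f) = f) (st : σ t = 0) (hs : ∀ n, σ (h n) = Hc n)
    (Tι : ∀ f, T (ι f) = 0) (Tt : T t = 1) (Dt : D' t = 0) (δt : δ' t = 0)
    (hv : v * (1 + t * ι η) = 1)
    (TD : ∀ f, T (D' f) = D' (T f)) (Tδ : ∀ f, T (δ' f) = δ' (T f))
    (hh : ∀ n, T (h n) = h (n + 1)) (h0 : Hc 0 = F)
    (hT : T (h 0) = G1 * T (ι x + t * v * ι dx) + G2 * T (ι y + t * v * ι dy))
    (hD : D' (h 0) = G1 * D' (ι x + t * v * ι dx) + G2 * D' (ι y + t * v * ι dy))
    (hδ : δ' (h 0) = G1 * δ' (ι x + t * v * ι dx) + G2 * δ' (ι y + t * v * ι dy)) :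
    Hc 1 = 0 ∧ Hc 2 = -1 ∧ Hc 3 = 0 ∧
    Hc 5 = 24 * (k0 + D a) - 6 * D (k1 + β) ∧
    Hc 7 = D (D (Hc 5) + 30 * δ (k1 + β) - 120 * (k1 + β) * (k1 + β))
      - 6 * δ (Hc 5) + 30 * (k1 + β) * Hc 5 + 720 * (k0 + D a) * (k1 + β) := by
  have hpde := pde_alg (D' := D') (δ' := δ') (T := T) (t := t)
    (v := v) (η := ι η) (η1 := ι (D η))
    (η2 := ι (δ η)) (dx := ι dx) (dy := ι dy)
    (wx := ι wx) (wy := ι wy) (x := ι x)
    (y := ι y) (H := h 0) (G1 := G1) (G2 := G2) (e := ι (k1 + β))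
    (c := ι (k0 + D a)) (s0 := 0) (r0 := 0) (dwx := 0) (dwy := 0)
    Tt Dt δt hv (Tι η) (iD η) (iδ η) (Tι x) (Tι y)
    (by rw [iD, R.Dx]) (by rw [iD, R.Dy]) (by rw [iδ, R.δx]) (by rw [iδ, R.δy])
    (Tι dx) (Tι dy)
    (by rw [iD, R.Ddx, map_sub, map_mul, map_mul, map_ofNat])
    (by rw [iD, R.Ddy, map_sub, map_mul, map_mul, map_ofNat])
    (by
      rw [iδ, R.δdx, R.Dwx]
      simp only [map_add, map_sub, map_mul, map_neg]
      ring)
    (by
      rw [iδ, R.δdy, R.Dwy]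
      simp only [map_add, map_sub, map_mul, map_neg]
      ring)
    (by
      rw [R.hc]
      simp only [map_add, map_sub, map_mul, map_neg])
    hT hD hδ
  rw [hh 0] at hpde
  have hpde' : t * δ' (h 0) = D' (h 0) - (1 - ι (k1 + β) * t * t + ι (k0 + D a) * t * t * t) * h 1 :=
    hpde
  obtain ⟨q1, q2, q3, q4, q5, q6⟩ := taylor (D' := D') (δ' := δ') (T := T) (t := t)
    (E := ι (k1 + β)) (C := ι (k0 + D a)) (h := h) Tt (Tι _) (Tι _) TD Tδ hh hpde'
  obtain ⟨e, he⟩ : ∃ e, e = k1 + β := ⟨_, rfl⟩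
  obtain ⟨c, hc⟩ : ∃ c, c = k0 + D a := ⟨_, rfl⟩
  rw [← he, ← hc] at hpde' q1 q2 q3 q4 q5 q6 ⊢
  have q0 := congrArg σ hpde'
  replace q1 := congrArg σ q1
  replace q2 := congrArg σ q2
  replace q3 := congrArg σ q3
  replace q4 := congrArg σ q4
  replace q5 := congrArg σ q5
  replace q6 := congrArg σ q6
  simp only [map_add, map_sub, map_mul, map_neg, map_one, map_ofNat, st, sD, sδ, hs,
    sι, mul_zero, zero_mul, add_zero, sub_zero] at q0 q1 q2 q3 q4 q5 q6
  rw [h0] at q0 q1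
  rw [R.DF] at q0
  rw [R.δF] at q1
  have f1 : Hc 1 = 0 := by linear_combination q0
  rw [f1, map_zero] at q1
  have f2 : Hc 2 = -1 := by linear_combination q1
  rw [f1, f2] at q2
  simp only [map_add, map_sub, map_mul, map_neg, map_zero, Derivation.map_one_eq_zero] at q2
  have f3 : Hc 3 = 0 := by linear_combination q2
  rw [f1, f2, f3] at q3
  simp only [map_add, map_sub, map_mul, map_neg, map_zero, Derivation.map_one_eq_zero] at q3
  have f4 : Hc 4 = -6 * e := by linear_combination q3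
  rw [f2, f3, f4] at q4
  simp only [map_sub, map_neg, map_zero, Derivation.leibniz, smul_eq_mul, der_num,
    Derivation.map_one_eq_zero] at q4
  have f5 : Hc 5 = 24 * c - 6 * D e := by linear_combination q4
  rw [f3, f4] at q5
  simp only [map_sub, map_neg, map_zero, Derivation.leibniz, smul_eq_mul, der_num,
    Derivation.map_one_eq_zero] at q5
  have f6 : Hc 6 = D (Hc 5) + 30 * δ e - 120 * e * e := by linear_combination q5
  rw [f4, f6] at q6
  refine ⟨f1, f2, f3, f5, ?_⟩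
  linear_combination q6

end Pool.Agent.W5h48.AL
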