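import Pool.Agent.W5h48.AL.Ring
import Pool.Agent.W5h48.AL.Base
import Pool.Agent.W5h48.AL.Pde

set_option autoImplicit false
set_option linter.unusedSimpArgs false

open Set Filter Topology
open scoped ContDiff

namespace Pool.Agent.W5h48.AL

/-- the plane -/
abbrev E2 := ℝ × ℝ

section Gen

variable {E : Type*} [NormedAddCommGroup E] [NormedSpace ℝ E]

theorem pd_mk {V : Set E} (hV : IsOpen V) (v : E) (f : E → ℝ) (hf : ContDiffOn ℝ ∞ f V) {x : E}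
    (hx : x ∈ V) : ev (pd hV v (mk f hf)) x = fderiv ℝ f x v := by
  rw [ev_pd hV v _ hx]
  have h1 : ev (mk f hf : Sm V) =ᶠ[𝓝 x] f := by
    filter_upwards [hV.mem_nhds hx] with y hy
    exact ev_mk _ _ hy
  rw [h1.fderiv_eq]

/-- chain rule for maps to the plane -/
theorem chain {V : Set E} {W : Set E2} (hV : IsOpen V) (hW : IsOpen W) (g : E → E2)
    (hg : ContDiffOn ℝ ∞ g V) (hm : MapsTo g V W) (v : E) (f : Sm W) :
    pd hV v (pull g hg hm f) =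
      pull g hg hm (pd hW (1, 0) f) * pd hV v (mk (fun x => (g x).1) (contDiff_fst.comp_contDiffOn hg)) +
      pull g hg hm (pd hW (0, 1) f) *
        pd hV v (mk (fun x => (g x).2) (contDiff_snd.comp_contDiffOn hg)) := by
  apply Sm_ext
  intro x hx
  have h2 : HasFDerivAt g (fderiv ℝ g x) x :=
    ((hg.contDiffAt (hV.mem_nhds hx)).differentiableAt (by simp)).hasFDerivAt
  rw [ev_pd_pull hV hW g hg hm f v hx, ev_add, ev_mul, ev_mul, ev_pull _ _ _ _ hx,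
    ev_pull _ _ _ _ hx, ev_pd hW _ _ (hm hx), ev_pd hW _ _ (hm hx), pd_mk hV _ _ _ hx,
    pd_mk hV _ _ _ hx]
  have h3 : fderiv ℝ (fun x => (g x).1) x v = (fderiv ℝ g x v).1 := by
    have := (hasFDerivAt_fst (𝕜 := ℝ) (p := g x)).comp x h2
    have h4 := this.fderiv
    show fderiv ℝ (Prod.fst ∘ g) x v = _
    rw [h4]
    rfl
  have h5 : fderiv ℝ (fun x => (g x).2) x v = (fderiv ℝ g x v).2 := by
    have := (hasFDerivAt_snd (𝕜 := ℝ) (p := g x)).comp x h2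
    have h4 := this.fderiv
    show fderiv ℝ (Prod.snd ∘ g) x v = _
    rw [h4]
    rfl
  rw [h3, h5]
  obtain ⟨u, hu⟩ : ∃ u, u = fderiv ℝ g x v := ⟨_, rfl⟩
  rw [← hu]
  have h6 : u = u.1 • ((1 : ℝ), (0 : ℝ)) + u.2 • ((0 : ℝ), (1 : ℝ)) := by
    ext <;> simp
  conv_lhs => rw [h6]
  rw [map_add, map_smul, map_smul, smul_eq_mul, smul_eq_mul]
  ring

end Gen

section Plane

variable {W : Set E2} (hW : IsOpen W)

noncomputable abbrev pX : Derivation ℝ (Sm W) (Sm W) := pd hW ((1 : ℝ), (0 : ℝ))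
noncomputable abbrev pY : Derivation ℝ (Sm W) (Sm W) := pd hW ((0 : ℝ), (1 : ℝ))
noncomputable abbrev cx : Sm W := mk (V := W) (fun p : E2 => p.1) contDiff_fst.contDiffOn
noncomputable abbrev cy : Sm W := mk (V := W) (fun p : E2 => p.2) contDiff_snd.contDiffOn

theorem fd_fst (x v : E2) : fderiv ℝ (fun p : E2 => p.1) x v = v.1 := by
  rw [(hasFDerivAt_fst (𝕜 := ℝ) (p := x)).fderiv]; rfl

theorem fd_snd (x v : E2) : fderiv ℝ (fun p : E2 => p.2) x v = v.2 := by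
  rw [(hasFDerivAt_snd (𝕜 := ℝ) (p := x)).fderiv]; rfl

theorem coords : pX hW (cx (W := W)) = 1 ∧ pX hW (cy (W := W)) = 0 ∧ pY hW (cx (W := W)) = 0 ∧
    pY hW (cy (W := W)) = 1 := by
  refine ⟨?_, ?_, ?_, ?_⟩ <;> apply Sm_ext <;> intro x hx
  · rw [pd_mk hW _ _ _ hx, ev_one hx, fd_fst]
  · rw [pd_mk hW _ _ _ hx, ev_zero, fd_snd]
  · rw [pd_mk hW _ _ _ hx, ev_zero, fd_fst]
  · rw [pd_mk hW _ _ _ hx, ev_one hx, fd_snd]

/-- the curvature form, up to sign -/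
noncomputable def hForm (F : Sm W) : Sm W :=
  pX hW F * (pY hW F * pX hW (pY hW F) - pX hW F * pY hW (pY hW F)) -
    pY hW F * (pY hW F * pX hW (pX hW F) - pX hW F * pY hW (pX hW F))

theorem exists_base (F : Sm W) (h : ∀ z ∈ W, 0 < ev (hForm hW F) z) :
    ∃ L μ Gi : Sm W, Base (pX hW) (pY hW) cx cy F L μ Gi ∧ (∀ z ∈ W, 0 < ev L z) ∧
      ∀ z ∈ W, 0 < ev μ z := by
  have hs : ContDiffOn ℝ ∞ (fun z => (ev (hForm hW F) z) ^ (1 / 6 : ℝ)) W :=
    (ev_smooth _).rpow_const_of_ne (fun z hz => (h z hz).ne')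
  have hs' : ContDiffOn ℝ ∞ (fun z => (ev (hForm hW F) z) ^ (-(1 / 6) : ℝ)) W :=
    (ev_smooth _).rpow_const_of_ne (fun z hz => (h z hz).ne')
  have hG : IsUnit (pX hW F * pX hW F + pY hW F * pY hW F) := by
    apply isUnit_of_ne
    intro z hz h0
    rw [ev_add, ev_mul, ev_mul] at h0
    have h1 : ev (pX hW F) z = 0 := by nlinarith [sq_nonneg (ev (pX hW F) z), sq_nonneg (ev (pY hW F) z)]
    have h2 : ev (pY hW F) z = 0 := by nlinarith [sq_nonneg (ev (pX hW F) z), sq_nonneg (ev (pY hW F) z)]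
    have h3 := h z hz
    unfold hForm at h3
    rw [ev_sub, ev_mul, ev_mul (pY hW F)] at h3
    rw [h1, h2] at h3
    simp at h3
  obtain ⟨Gi, hGi⟩ := hG.exists_right_inv
  obtain ⟨e1, e2, e3, e4⟩ := coords hW
  refine ⟨mk _ hs, mk _ hs', Gi, ⟨e1, e2, e3, e4, fun f => pd_comm hW _ _ f, ?_, ?_, hGi⟩, ?_, ?_⟩
  · apply Sm_ext
    intro z hz
    rw [ev_mul, ev_mk _ _ hz, ev_mk _ _ hz, ev_one hz, ← Real.rpow_add (h z hz)]
    norm_num
  · apply Sm_ext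
    intro z hz
    simp only [ev_mul, ev_mk _ _ hz]
    have h1 : (ev (hForm hW F) z) ^ (1 / 6 : ℝ) * (ev (hForm hW F) z) ^ (1 / 6 : ℝ) *
        (ev (hForm hW F) z) ^ (1 / 6 : ℝ) * (ev (hForm hW F) z) ^ (1 / 6 : ℝ) *
        (ev (hForm hW F) z) ^ (1 / 6 : ℝ) * (ev (hForm hW F) z) ^ (1 / 6 : ℝ) =
        ((ev (hForm hW F) z) ^ (1 / 6 : ℝ)) ^ 6 := by ring
    rw [h1, ← Real.rpow_natCast _ 6, ← Real.rpow_mul (h z hz).le]
    norm_num
    rfl
  · intro z hz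
    rw [ev_mk _ _ hz]
    exact Real.rpow_pos_of_pos (h z hz) _
  · intro z hz
    rw [ev_mk _ _ hz]
    exact Real.rpow_pos_of_pos (h z hz) _

end Plane

end Pool.Agent.W5h48.AL
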