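import Pool.Agent.W5h48.AL.Tay
import Pool.Agent.W5h48.AL.Even

set_option autoImplicit false
set_option linter.unusedSimpArgs false

open Set Filter Topology
open scoped ContDiff

namespace Pool.Agent.W5h48.AL

/-- direction of the tangent line of the leaf -/
noncomputable def tang (F : E2 → ℝ) (p : E2) : E2 :=
  (fderiv ℝ F p ((0 : ℝ), (1 : ℝ)), -fderiv ℝ F p ((1 : ℝ), (0 : ℝ)))

/-- the involution of the tangent line is projective -/
def PI (F : E2 → ℝ) (p : E2) : Prop :=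
  ∃ κ ε : ℝ, 0 < ε ∧ ∀ x y : ℝ, 0 < x → x < ε → 0 < y → y < ε →
    F (p + x • tang F p) = F (p - y • tang F p) → 1 / x - 1 / y = κ

theorem hc_zero {W : Set E2} (hW : IsOpen W) (F0 : E2 → ℝ) (hF : ContDiffOn ℝ ∞ F0 W)
    {μ η : Sm W} (hμ : ∀ z ∈ W, 0 < ev μ z) {dx dy : Sm W}
    (hdx : dx = μ * μ * μ * pY hW (mk F0 hF)) (hdy : dy = -(μ * μ * μ * pX hW (mk F0 hF)))
    (h1 : Hc dx dy η hW (mk F0 hF) 1 = 0) (h2 : Hc dx dy η hW (mk F0 hF) 2 = -1)
    (h3 : Hc dx dy η hW (mk F0 hF) 3 = 0) {z : E2} (hz : z ∈ W) (hP : PI F0 z) :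
    ev (Hc dx dy η hW (mk F0 hF) 5) z = 0 ∧ ev (Hc dx dy η hW (mk F0 hF) 7) z = 0 := by
  obtain ⟨κ, ε, hε, Hκ⟩ := hP
  obtain ⟨F, hFd⟩ : ∃ F : Sm W, F = mk F0 hF := ⟨_, rfl⟩
  rw [← hFd] at hdx hdy h1 h2 h3 ⊢
  have hz0 := zero_mem dx dy η hz
  have g1 : ContDiffAt ℝ ∞ (gmap dx dy η) (z, 0) :=
    (gmap_smooth dx dy η).contDiffAt ((Dom_open dx dy η hW).mem_nhds hz0)
  have g2 : ContDiffAt ℝ ∞ (ev F) (gmap dx dy η (z, 0)) := ev_contDiffAt hW F hz0.2.2
  have g3 : ContDiffAt ℝ ∞ (fun s : ℝ => ((z, s) : E2 × ℝ)) 0 := contDiffAt_const.prodMk contDiffAt_id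
  have hφ : ContDiffAt ℝ ∞ (fun s : ℝ => ev F (gmap dx dy η (z, s))) 0 :=
    ContDiffAt.comp (g := ev F) (0 : ℝ) g2
      (ContDiffAt.comp (g := gmap dx dy η) (f := fun s : ℝ => ((z, s) : E2 × ℝ)) (0 : ℝ) g1 g3)
  obtain ⟨m, hm⟩ : ∃ m, m = (ev μ z) ^ 3 := ⟨_, rfl⟩
  have hm0 : 0 < m := by rw [hm]; exact pow_pos (hμ z hz) 3
  obtain ⟨e, he⟩ : ∃ e, e = ev η z := ⟨_, rfl⟩
  obtain ⟨v, hv⟩ : ∃ v, v = tang F0 z := ⟨_, rfl⟩
  rw [← hv] at Hκ
  have hY : ev (pY hW F) z = v.1 := by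
    rw [hFd, pd_mk hW _ _ _ hz, hv]
    rfl
  have hX : ev (pX hW F) z = -v.2 := by
    rw [hFd, pd_mk hW _ _ _ hz, hv]
    unfold tang
    simp
  have edx : ev dx z = m * v.1 := by
    rw [hdx, ev_mul, ev_mul, ev_mul, hY, hm]; ring
  have edy : ev dy z = m * v.2 := by
    rw [hdy, ev_neg, ev_mul, ev_mul, ev_mul, hX, hm]; ring
  have hg : ∀ s : ℝ, gmap dx dy η (z, s) = z + (s * m / (1 + s * e)) • v := by
    intro s
    unfold gmap
    simp only
    rw [edx, edy, ← he]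
    ext
    · simp
      ring
    · simp
      ring
  obtain ⟨r, hr, hDom⟩ : ∃ r > 0, ∀ s : ℝ, |s| < r → ((z, s) : E2 × ℝ) ∈ Dom dx dy η := by
    have h5 : ∀ᶠ s in 𝓝 (0 : ℝ), ((z, s) : E2 × ℝ) ∈ Dom dx dy η :=
      g3.continuousAt.preimage_mem_nhds ((Dom_open dx dy η hW).mem_nhds hz0)
    obtain ⟨r, hr, h6⟩ := Metric.eventually_nhds_iff_ball.mp h5
    exact ⟨r, hr, fun s hs => h6 s (by rwa [mem_ball_zero_iff, Real.norm_eq_abs])⟩
  have hval : ∀ s : ℝ, |s| < r → ev F (gmap dx dy η (z, s)) = F0 (z + (s * m / (1 + s * e)) • v) := by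
    intro s hs
    rw [hFd, ev_mk _ _ (hDom s hs).2.2, hg]
  have hev := even_of_proj (φ := fun s : ℝ => ev F (gmap dx dy η (z, s)))
    (hφ.of_le (by norm_cast)) (by rw [← ev_Hc dx dy η hW F 1 hz, h1, ev_zero])
    (by rw [← ev_Hc dx dy η hW F 2 hz, h2, ev_neg, ev_one hz])
    (by rw [← ev_Hc dx dy η hW F 3 hz, h3, ev_zero]) (c := κ * m - 2 * e)
    (ε := min r (min (1 / (2 * (|e| + 1))) (ε / (2 * m))))
    (by
      have : 0 ≤ |e| := abs_nonneg e
      positivity)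
    (by
      intro s u hs0 hs1 hu0 hu1 hsu
      have key : ∀ s : ℝ, 0 < s → s < min r (min (1 / (2 * (|e| + 1))) (ε / (2 * m))) →
          s < r ∧ s * |e| < 1 / 2 ∧ 2 * (s * m) < ε := by
        intro s h0 h1
        have a1 := h1.trans_le (min_le_left _ _)
        have a2 := h1.trans_le ((min_le_right _ _).trans (min_le_left _ _))
        have a3 := h1.trans_le ((min_le_right _ _).trans (min_le_right _ _))
        refine ⟨a1, ?_, ?_⟩
        · have : 0 ≤ |e| := abs_nonneg e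
          rw [lt_div_iff₀ (by positivity)] at a2
          nlinarith
        · rw [lt_div_iff₀ (by positivity)] at a3
          linarith
      obtain ⟨s1, s2, s3⟩ := key s hs0 hs1
      obtain ⟨u1, u2, u3⟩ := key u hu0 hu1
      have b1 : 1 / 2 < 1 + s * e := by
        have : -(s * |e|) ≤ s * e := by
          have := neg_abs_le e
          nlinarith
        linarith
      have b2 : 1 / 2 < 1 + (-u) * e := by
        have : -(u * |e|) ≤ (-u) * e := by
          have := le_abs_self e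
          nlinarith
        linarith
      have b1' : 0 < 1 + s * e := by linarith
      have b2' : 0 < 1 + (-u) * e := by linarith
      have hsu' : F0 (z + (s * m / (1 + s * e)) • v) = F0 (z - (u * m / (1 + (-u) * e)) • v) := by
        have c1 := hval s (by rwa [abs_of_pos hs0])
        have c2 := hval (-u) (by rwa [abs_neg, abs_of_pos hu0])
        rw [c1, c2] at hsu
        rw [hsu]
        congr 1
        rw [sub_eq_add_neg, ← neg_smul]
        congr 2
        ring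
      have hx := Hκ (s * m / (1 + s * e)) (u * m / (1 + (-u) * e)) (by positivity) (by
          rw [div_lt_iff₀ b1']
          nlinarith [mul_pos hs0 hm0]) (by positivity) (by
          rw [div_lt_iff₀ b2']
          nlinarith [mul_pos hu0 hm0]) hsu'
      rw [one_div_div, one_div_div] at hx
      field_simp at hx ⊢
      linarith)
  constructor
  · rw [ev_Hc dx dy η hW F 5 hz]
    exact iteratedDeriv_odd hev 5 (by decide)
  · rw [ev_Hc dx dy η hW F 7 hz]
    exact iteratedDeriv_odd hev 7 (by decide)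

end Pool.Agent.W5h48.AL
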