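import Pool.Agent.W5h48.AL.An

set_option autoImplicit false
set_option linter.unusedSimpArgs false
set_option linter.unusedVariables false

open Set Filter Topology
open scoped ContDiff

namespace Pool.Agent.W5h48.AL

/-- an analytic function which vanishes on leaves accumulating at `q0` vanishes near `q0` -/
theorem vanish_near {V : Set E2} (hV : IsOpen V) {F : E2 → ℝ} (hF : ContDiffOn ℝ ω F V)
    {f : Sm V} (hf : IsAn f) {q0 : E2} (hq : q0 ∈ V) (hreg : tang F q0 ≠ 0) {C : Set ℝ}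
    (hC : AccPt (F q0) (𝓟 C)) (h0 : ∀ p ∈ V, F p ∈ C → ev f p = 0) :
    ∀ᶠ p in 𝓝 q0, ev f p = 0 := by
  have hFat : ∀ p ∈ V, ContDiffAt ℝ ω F p := fun p hp => hF.contDiffAt (hV.mem_nhds hp)
  obtain ⟨n, hn⟩ : ∃ n : E2, n = (fderiv ℝ F q0 ((1 : ℝ), (0 : ℝ)),
    fderiv ℝ F q0 ((0 : ℝ), (1 : ℝ))) := ⟨_, rfl⟩
  have hm : 0 < fderiv ℝ F q0 n := by
    have h6 : n = n.1 • ((1 : ℝ), (0 : ℝ)) + n.2 • ((0 : ℝ), (1 : ℝ)) := by
      ext <;> simp
    have h7 : fderiv ℝ F q0 n = n.1 * n.1 + n.2 * n.2 := by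
      conv_lhs => rw [h6]
      rw [map_add, map_smul, map_smul, smul_eq_mul, smul_eq_mul, hn]
    have h8 := sq_pos' (a := n.1) (b := n.2) (by
      have : ((n.2, -n.1) : E2) = tang F q0 := by rw [hn]; rfl
      rw [this]
      exact hreg)
    rw [h7]
    nlinarith
  have hcd : ContinuousOn (fun p => fderiv ℝ F p n) V :=
    ((hF.fderiv_of_isOpen hV (m := ω) (by simp)).continuousOn).clm_apply continuousOn_const
  have hpos : ∀ᶠ p in 𝓝 q0, p ∈ V ∧ 0 < fderiv ℝ F p n := by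
    filter_upwards [hV.mem_nhds hq,
      (hcd.continuousAt (hV.mem_nhds hq)).eventually (lt_mem_nhds hm)] with p h1 h2 using ⟨h1, h2⟩
  obtain ⟨r, hr, hball⟩ := Metric.eventually_nhds_iff_ball.mp hpos
  obtain ⟨ρ, hρ0, hρ⟩ : ∃ ρ : ℝ, 0 < ρ ∧ ρ * ‖n‖ < r / 2 := by
    refine ⟨r / (4 * (‖n‖ + 1)), by positivity, ?_⟩
    have h1 : 0 ≤ ‖n‖ := norm_nonneg n
    rw [div_mul_eq_mul_div, div_lt_div_iff₀ (by positivity) (by norm_num)]
    nlinarith
  have hin : ∀ p ∈ Metric.ball q0 (r / 2), ∀ t : ℝ, |t| ≤ ρ → p + t • n ∈ Metric.ball q0 r := by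
    intro p hp t ht
    rw [mem_ball_iff_norm] at hp ⊢
    have h1 : p + t • n - q0 = (p - q0) + t • n := by abel
    rw [h1]
    have h2 : ‖t • n‖ ≤ ρ * ‖n‖ := by
      rw [norm_smul, Real.norm_eq_abs]
      exact mul_le_mul_of_nonneg_right ht (norm_nonneg n)
    linarith [norm_add_le (p - q0) (t • n)]
  have hline : ∀ (p : E2) (t : ℝ), HasDerivAt (fun t : ℝ => p + t • n) n t := by
    intro p t
    have := ((hasDerivAt_id t).smul_const n).const_add p
    rwa [one_smul] at this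
  have hder : ∀ p ∈ Metric.ball q0 (r / 2), ∀ t : ℝ, |t| ≤ ρ →
      HasDerivAt (fun t : ℝ => F (p + t • n)) (fderiv ℝ F (p + t • n) n) t := by
    intro p hp t ht
    exact HasFDerivAt.comp_hasDerivAt t
      (((hFat _ (hball _ (hin p hp t ht)).1).differentiableAt (by simp)).hasFDerivAt) (hline p t)
  have hq0 : q0 ∈ Metric.ball q0 (r / 2) := Metric.mem_ball_self (by linarith)
  have hmono : StrictMonoOn (fun t : ℝ => F (q0 + t • n)) (Icc (-ρ) ρ) := by
    refine strictMonoOn_of_deriv_pos (convex_Icc _ _)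
      (fun t ht => (hder q0 hq0 t (abs_le.mpr ht)).continuousAt.continuousWithinAt) ?_
    intro t ht
    rw [interior_Icc] at ht
    have ht' : |t| ≤ ρ := abs_le.mpr ⟨ht.1.le, ht.2.le⟩
    rw [(hder q0 hq0 t ht').deriv]
    exact (hball _ (hin q0 hq0 t ht')).2
  have hz : (0 : ℝ) ∈ Icc (-ρ) ρ := ⟨by linarith, hρ0.le⟩
  have hup : F q0 < F (q0 + ρ • n) := by
    have := hmono hz (show ρ ∈ Icc (-ρ) ρ from ⟨by linarith, le_rfl⟩) hρ0
    simpa using this
  have hlo : F (q0 + (-ρ) • n) < F q0 := by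
    have := hmono (show -ρ ∈ Icc (-ρ) ρ from ⟨le_rfl, by linarith⟩) hz (by linarith)
    simpa using this
  have hcontF : ∀ t : ℝ, |t| ≤ ρ → ContinuousAt (fun p : E2 => F (p + t • n)) q0 := by
    intro t ht
    have h1 : ContinuousAt F (q0 + t • n) := (hFat _ (hball _ (hin q0 hq0 t ht)).1).continuousAt
    exact ContinuousAt.comp (f := fun p : E2 => p + t • n) h1
      (continuous_id.add continuous_const).continuousAt
  have e1 : ∀ᶠ p in 𝓝 q0, F q0 < F (p + ρ • n) :=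
    (hcontF ρ (abs_of_pos hρ0).le).eventually (lt_mem_nhds hup)
  have e2 : ∀ᶠ p in 𝓝 q0, F (p + (-ρ) • n) < F q0 :=
    (hcontF (-ρ) (by rw [abs_neg, abs_of_pos hρ0])).eventually (gt_mem_nhds hlo)
  filter_upwards [e1, e2, Metric.ball_mem_nhds q0 (by linarith : (0 : ℝ) < r / 2)] with p h1 h2 hp
  have hab : ∀ t ∈ Icc (-ρ) ρ, |t| ≤ ρ := fun t ht => abs_le.mpr ht
  obtain ⟨tp, htp, hFtp⟩ := intermediate_value_Ioo (f := fun t : ℝ => F (p + t • n))
    (by linarith : -ρ ≤ ρ)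
    (fun t ht => (hder p hp t (hab t ht)).continuousAt.continuousWithinAt)
    (show F q0 ∈ Ioo (F (p + (-ρ) • n)) (F (p + ρ • n)) from ⟨h2, h1⟩)
  have htp' : |tp| ≤ ρ := abs_le.mpr ⟨htp.1.le, htp.2.le⟩
  have hs : HasStrictDerivAt (fun t : ℝ => F (p + t • n)) (fderiv ℝ F (p + tp • n) n) tp := by
    have h3 : HasStrictFDerivAt F (fderiv ℝ F (p + tp • n)) (p + tp • n) :=
      (hFat _ (hball _ (hin p hp tp htp')).1).hasStrictFDerivAt (by simp)
    have h4 : HasStrictDerivAt (fun t : ℝ => p + t • n) n tp := by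
      have := ((hasStrictDerivAt_id tp).smul_const n).const_add p
      rwa [one_smul] at this
    exact h3.comp_hasStrictDerivAt tp h4
  have hmap := hs.map_nhds_eq (hball _ (hin p hp tp htp')).2.ne'
  rw [accPt_iff_frequently] at hC
  have hfr : ∃ᶠ t in 𝓝 tp, F (p + t • n) ≠ F q0 ∧ F (p + t • n) ∈ C := by
    have : ∃ᶠ y in map (fun t : ℝ => F (p + t • n)) (𝓝 tp), y ≠ F q0 ∧ y ∈ C := by
      rw [hmap]
      simp only at hFtp
      rw [hFtp]
      exact hC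
    exact this
  have hIoo : ∀ᶠ t in 𝓝 tp, t ∈ Ioo (-ρ) ρ := isOpen_Ioo.mem_nhds htp
  have hfr2 : ∃ᶠ t in 𝓝[≠] tp, ev f (p + t • n) = 0 := by
    rw [frequently_nhdsWithin_iff]
    refine (hfr.and_eventually hIoo).mono fun t ht => ⟨?_, ?_⟩
    · exact h0 _ (hball _ (hin p hp t (abs_le.mpr ⟨ht.2.1.le, ht.2.2.le⟩))).1 ht.1.2
    · rintro rfl
      exact ht.1.1 hFtp
  have hga : AnalyticOnNhd ℝ (fun t : ℝ => ev f (p + t • n)) (Ioo (-ρ) ρ) := by
    intro t ht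
    have h3 : ContDiffAt ℝ ω (ev f) (p + t • n) := ContDiffOn.contDiffAt hf
      (hV.mem_nhds (hball _ (hin p hp t (abs_le.mpr ⟨ht.1.le, ht.2.le⟩))).1)
    have h4 : ContDiffAt ℝ ω (fun t : ℝ => p + t • n) t :=
      contDiffAt_const.add (contDiffAt_id.smul contDiffAt_const)
    exact (ContDiffAt.comp t h3 h4).analyticAt
  have h9 := hga.eqOn_zero_of_preconnected_of_frequently_eq_zero isPreconnected_Ioo htp hfr2
    (show (0 : ℝ) ∈ Ioo (-ρ) ρ from ⟨by linarith, hρ0⟩)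
  simpa using h9

theorem vanish_conn {V : Set E2} (hV : IsOpen V) (hVc : IsPreconnected V) {f : Sm V} (hf : IsAn f)
    {q0 : E2} (hq : q0 ∈ V) (h : ∀ᶠ p in 𝓝 q0, ev f p = 0) : ∀ p ∈ V, ev f p = 0 := by
  have ha : AnalyticOnNhd ℝ (ev f) V := fun p hp =>
    (ContDiffOn.contDiffAt hf (hV.mem_nhds hp)).analyticAt
  exact fun p hp => ha.eqOn_zero_of_preconnected_of_eventuallyEq_zero hVc hq h hp

end Pool.Agent.W5h48.AL
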