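import Pool.Agent.W5h48.AL.Nid

set_option autoImplicit false
set_option linter.unusedSimpArgs false
set_option linter.unusedVariables false

open Set Filter Topology
open scoped ContDiff

namespace Pool.Agent.W5h48.AL

theorem Flat.res {V W : Set E2} {q0 : E2} (hV : IsOpen V) (h : V ⊆ W) (hq : q0 ∈ V) {f : Sm W}
    (hf : Flat q0 f) : Flat q0 (AL.res h f) := by
  intro n
  obtain ⟨K, r, hK, hr, H⟩ := hf n
  obtain ⟨r2, hr2, H2⟩ := Metric.isOpen_iff.mp hV q0 hq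
  refine ⟨K, min r r2, hK, lt_min hr hr2, fun p hp hne => ?_⟩
  rw [ev_res h f (H2 (Metric.ball_subset_ball (min_le_right _ _) hp))]
  exact H p (Metric.ball_subset_ball (min_le_left _ _) hp) hne

theorem Nf_one {V : Set E2} (hV : IsOpen V) {Γ : Set E2} {q : E2} (hq : q ∈ Γ) (hqV : q ∈ V)
    (h : (1 : Sm V ⧸ Nf hV Γ) = 0) : False := by
  have h1 : Ideal.Quotient.mk (Nf hV Γ) (1 : Sm V) = 0 := by rw [map_one, h]
  rw [Ideal.Quotient.eq_zero_iff_mem] at h1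
  have h2 := (Ninf_le _ _ _ h1) q hq hqV
  rw [ev_one hqV] at h2
  exact one_ne_zero h2

/-- the derivations of the jets along `Γ` -/
noncomputable def qX {V : Set E2} (hV : IsOpen V) (Γ : Set E2) :
    Derivation ℝ (Sm V ⧸ Nf hV Γ) (Sm V ⧸ Nf hV Γ) := qd (Nf hV Γ) (pX hV) (fun f hf => Ninf_X hf)
noncomputable def qY {V : Set E2} (hV : IsOpen V) (Γ : Set E2) :
    Derivation ℝ (Sm V ⧸ Nf hV Γ) (Sm V ⧸ Nf hV Γ) := qd (Nf hV Γ) (pY hV) (fun f hf => Ninf_Y hf)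

/-- the jets along `Γ` -/
noncomputable def mq {V : Set E2} (hV : IsOpen V) (Γ : Set E2) : Sm V →ₐ[ℝ] Sm V ⧸ Nf hV Γ :=
  Ideal.Quotient.mkₐ ℝ (Nf hV Γ)

theorem mq_pX {V : Set E2} (hV : IsOpen V) (Γ : Set E2) (f : Sm V) :
    mq hV Γ (pX hV f) = qX hV Γ (mq hV Γ f) := (qd_mk _ _ _ _).symm

theorem mq_pY {V : Set E2} (hV : IsOpen V) (Γ : Set E2) (f : Sm V) :
    mq hV Γ (pY hV f) = qY hV Γ (mq hV Γ f) := (qd_mk _ _ _ _).symm

theorem mq_zero {V : Set E2} (hV : IsOpen V) (Γ : Set E2) (f : Sm V) :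
    mq hV Γ f = 0 ↔ f ∈ Nf hV Γ := by
  unfold mq
  rw [Ideal.Quotient.mkₐ_eq_mk, Ideal.Quotient.eq_zero_iff_mem]

theorem q_comm {V : Set E2} (hV : IsOpen V) (Γ : Set E2) (f : Sm V ⧸ Nf hV Γ) :
    qX hV Γ (qY hV Γ f) = qY hV Γ (qX hV Γ f) := by
  obtain ⟨g, rfl⟩ := Ideal.Quotient.mkₐ_surjective ℝ (Nf hV Γ) f
  show qX hV Γ (qY hV Γ (mq hV Γ g)) = qY hV Γ (qX hV Γ (mq hV Γ g))
  rw [← mq_pX, ← mq_pY, ← mq_pX, ← mq_pY, pd_comm]

/-- combination of derivations -/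
theorem exists_comb {A : Type*} [CommRing A] [Algebra ℝ A] (u v : A) (X Y : Derivation ℝ A A) :
    ∃ D : Derivation ℝ A A, ∀ f, D f = u * X f + v * Y f := ⟨u • X + v • Y, fun f => rfl⟩

theorem Bf_D {A : Type*} [CommRing A] [Algebra ℝ A] {D δ : Derivation ℝ A A} {k0 k1 a β : A}
    {p0 p1 p2 : Fin 3 → A} (T : Frame D δ k0 k1 a β p0 p1 p2) (j l : Fin 3) :
    D (Bf k1 p0 p1 p2 j l) = (2 * k0 - D k1) * (cr p0 p1 j * cr p0 p1 l) := by
  have hp2 : (fun j => D (p2 j)) = fun j => k0 * p0 j + k1 * p1 j + 0 * p2 j := by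
    funext j
    rw [T.Dp2]; ring
  have hp0' : (fun j => D (p0 j)) = p1 := by funext j; exact T.Dp0 j
  have hp1' : (fun j => D (p1 j)) = p2 := by funext j; exact T.Dp1 j
  have U0 : ∀ j, D (cr p1 p2 j) = -k0 * cr p0 p1 j := fun j => by
    rw [D_cr, hp1', hp2, (cr_lin p0 p1 p2 p1 k0 k1 0 j).2, cr_self, cr_self, cr_anti p1 p0]
    ring
  have U1 : ∀ j, D (cr p2 p0 j) = -k1 * cr p0 p1 j - cr p1 p2 j := fun j => by
    rw [D_cr, hp0', hp2, (cr_lin p0 p1 p2 p0 k0 k1 0 j).1, cr_self, cr_anti p1 p0, cr_anti p2 p1]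
    ring
  have U2 : ∀ j, D (cr p0 p1 j) = -cr p2 p0 j := fun j => by
    rw [D_cr, hp0', hp1', cr_self, cr_anti p0 p2]
    ring
  unfold Bf
  simp only [map_add, map_sub, Derivation.leibniz, smul_eq_mul, U0, U1, U2]
  ring

section Jq

variable {W : Set E2} (hW : IsOpen W) (F0 : E2 → ℝ) (hF : ContDiffOn ℝ ∞ F0 W)
  {L μ η dx dy wx wy k0 k1 a β : Sm W} {p0 p1 p2 : Fin 3 → Sm W}
  {D δ : Derivation ℝ (Sm W) (Sm W)}

include hW in
theorem jets_at (hD : ∀ f, D f = dx * pX hW f + dy * pY hW f)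
    (hδ : ∀ f, δ f = wx * pX hW f + wy * pY hW f)
    (R : Rel D δ cx cy (mk F0 hF) L η dx dy wx wy k0 k1 a β p0 p1 p2) {Γ : Set E2}
    (z5 : Hc dx dy η hW (mk F0 hF) 5 ∈ Nf hW Γ) (z7 : Hc dx dy η hW (mk F0 hF) 7 ∈ Nf hW Γ)
    {i : Sm W} (hi : 3 * i = D β + 2 * (k0 + D a)) :
    2 * k0 - D k1 - 5 * i ∈ Nf hW Γ ∧ 7 * δ i - D (D i) - (21 * β - 2 * k1) * i ∈ Nf hW Γ ∧
    (i ∈ Nf hW Γ → ∀ j l, D (Bf k1 p0 p1 p2 j l) ∈ Nf hW Γ ∧
      D (Cf (k0 + D a) (D (k0 + D a)) p0 p1 p2 j l) -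
        2 * (k0 + D a) * Bf k1 p0 p1 p2 j l ∈ Nf hW Γ ∧
      δ (Bf k1 p0 p1 p2 j l) - (-2 * (k1 + a + β) * Bf k1 p0 p1 p2 j l +
        2 * Cf (k0 + D a) (D (k0 + D a)) p0 p1 p2 j l) ∈ Nf hW Γ ∧
      δ (Cf (k0 + D a) (D (k0 + D a)) p0 p1 p2 j l) -
        (-2 * a * Cf (k0 + D a) (D (k0 + D a)) p0 p1 p2 j l) ∈ Nf hW Γ) := by
  obtain ⟨-, -, -, c5, c7⟩ := coef_rel hW R hD hδ
  obtain ⟨r, hr⟩ : ∃ r, r = mq hW Γ := ⟨_, rfl⟩
  have hmem : ∀ f, r f = 0 ↔ f ∈ Nf hW Γ := fun f => by rw [hr]; exact mq_zero _ _ _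
  have rX : ∀ f, r (pX hW f) = qX hW Γ (r f) := fun f => by rw [hr]; exact mq_pX _ _ _
  have rY : ∀ f, r (pY hW f) = qY hW Γ (r f) := fun f => by rw [hr]; exact mq_pY _ _ _
  obtain ⟨D', hD''⟩ := exists_comb (r dx) (r dy) (qX hW Γ) (qY hW Γ)
  obtain ⟨δ', hδ''⟩ := exists_comb (r wx) (r wy) (qX hW Γ) (qY hW Γ)
  obtain ⟨rD, rδ, T⟩ := restrict_frame (A' := Sm W ⧸ Nf hW Γ) (X := pX hW) (Y := pY hW)
    (X' := qX hW Γ) (Y' := qY hW Γ) (r := r) R hD hδ hD'' hδ'' rX rY (fun f => q_comm hW Γ f)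
  obtain ⟨i', hi', hk0, hm, J⟩ := jet_of (A' := Sm W ⧸ Nf hW Γ) (X := pX hW) (Y := pY hW)
    (X' := qX hW Γ) (Y' := qY hW Γ)
    (D' := D') (δ' := δ') (r := r) R hD hδ hD'' hδ'' rX rY (fun f => q_comm hW Γ f) c5 c7
    ((hmem _).mpr z5) ((hmem _).mpr z7)
  have hii : i' = r i := by
    refine nat_cancel (n := 3) (by norm_num) ?_
    push_cast
    have h := congrArg r hi
    rw [map_mul, map_add, map_mul, map_add, rD, rD, map_ofNat, map_ofNat] at h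
    rw [hi', h]
  subst hii
  have Dk := J.Dk
  have hδi := J.δi
  have hDDi := J.DDi
  refine ⟨(hmem _).mp ?_, (hmem _).mp ?_, fun i0 j l => ?_⟩
  · rw [map_sub, map_sub, map_mul, map_mul, rD, map_ofNat, map_ofNat]
    linear_combination 2 * hk0 - Dk
  · simp only [map_sub, map_mul, rD, rδ, map_ofNat]
    linear_combination 7 * hδi - hDDi
  · have hi0 := (hmem _).mpr i0
    rw [hi0] at hk0 J
    have hc : r (k0 + D a) = r k0 + D' (r a) := by rw [map_add, rD]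
    rw [← hc] at hk0 J
    obtain ⟨h1, h2, h3, h4⟩ := forms T hc (by rw [hk0]; ring) hm J j l
    have hB : r (Bf k1 p0 p1 p2 j l) = Bf (r k1) (fun j => r (p0 j)) (fun j => r (p1 j))
      (fun j => r (p2 j)) j l := map_Bf (A' := Sm W ⧸ Nf hW Γ) r k1 p0 p1 p2 j l
    have hC : r (Cf (k0 + D a) (D (k0 + D a)) p0 p1 p2 j l) = Cf (r (k0 + D a))
      (D' (r (k0 + D a))) (fun j => r (p0 j)) (fun j => r (p1 j)) (fun j => r (p2 j)) j l := by
      rw [← rD]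
      exact map_Cf (A' := Sm W ⧸ Nf hW Γ) r (k0 + D a) (D (k0 + D a)) p0 p1 p2 j l
    refine ⟨(hmem _).mp ?_, (hmem _).mp ?_, (hmem _).mp ?_, (hmem _).mp ?_⟩
    · rw [rD, hB, h1]
    · have e1 : r (2 * (k0 + D a) * Bf k1 p0 p1 p2 j l) = 2 * r (k0 + D a) *
          r (Bf k1 p0 p1 p2 j l) := by
        simp only [map_mul, map_ofNat]
      rw [map_sub, rD, e1, hB, hC, h2, sub_self]
    · have e1 : r (-2 * (k1 + a + β) * Bf k1 p0 p1 p2 j l +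
          2 * Cf (k0 + D a) (D (k0 + D a)) p0 p1 p2 j l) = -2 * (r k1 + r a + r β) *
          r (Bf k1 p0 p1 p2 j l) + 2 * r (Cf (k0 + D a) (D (k0 + D a)) p0 p1 p2 j l) := by
        simp only [map_add, map_mul, map_neg, map_ofNat]
      rw [map_sub, rδ, e1, hB, hC, h3, sub_self]
    · have e1 : r (-2 * a * Cf (k0 + D a) (D (k0 + D a)) p0 p1 p2 j l) = -2 * r a *
          r (Cf (k0 + D a) (D (k0 + D a)) p0 p1 p2 j l) := by
        simp only [map_mul, map_neg, map_ofNat]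
      rw [map_sub, rδ, e1, hC, h4, sub_self]

include hW in
/-- `i` vanishes at `q0` -/
theorem i_zero_pt (hD : ∀ f, D f = dx * pX hW f + dy * pY hW f)
    (hδ : ∀ f, δ f = wx * pX hW f + wy * pY hW f)
    (R : Rel D δ cx cy (mk F0 hF) L η dx dy wx wy k0 k1 a β p0 p1 p2) {q0 : E2} (hq : q0 ∈ W)
    (f5 : Flat q0 (Hc dx dy η hW (mk F0 hF) 5)) (f7 : Flat q0 (Hc dx dy η hW (mk F0 hF) 7))
    {i : Sm W} (hi : 3 * i = D β + 2 * (k0 + D a)) : ev i q0 = 0 := by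
  by_contra hne
  obtain ⟨-, -, -, c5, c7⟩ := coef_rel hW R hD hδ
  obtain ⟨V, hVd⟩ : ∃ V : Set E2, V = W ∩ {z | ev i z ≠ 0} := ⟨_, rfl⟩
  have hV : IsOpen V := by
    rw [hVd]
    exact (ev_smooth i).continuousOn.isOpen_inter_preimage hW isOpen_compl_singleton
  have hVW : V ⊆ W := by rw [hVd]; exact inter_subset_left
  have hqV : q0 ∈ V := by rw [hVd]; exact ⟨hq, hne⟩
  obtain ⟨r, hr⟩ : ∃ r, r = (mq hV {q0}).comp (res hVW) := ⟨_, rfl⟩
  have hmem : ∀ f, Flat q0 f → r f = 0 := fun f hf => by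
    rw [hr]
    show mq hV {q0} (res hVW f) = 0
    rw [mq_zero]
    apply mem_Nf_of_flat
    rintro q rfl _
    exact hf.res hV hVW hqV
  have rX : ∀ f, r (pX hW f) = qX hV {q0} (r f) := fun f => by
    rw [hr]
    show mq hV {q0} (res hVW (pX hW f)) = _
    rw [res_pd hV hW]
    exact mq_pX _ _ _
  have rY : ∀ f, r (pY hW f) = qY hV {q0} (r f) := fun f => by
    rw [hr]
    show mq hV {q0} (res hVW (pY hW f)) = _
    rw [res_pd hV hW]
    exact mq_pY _ _ _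
  obtain ⟨D', hD''⟩ := exists_comb (r dx) (r dy) (qX hV {q0}) (qY hV {q0})
  obtain ⟨δ', hδ''⟩ := exists_comb (r wx) (r wy) (qX hV {q0}) (qY hV {q0})
  obtain ⟨rD, rδ, T⟩ := restrict_frame (A' := Sm V ⧸ Nf hV {q0}) (X := pX hW) (Y := pY hW)
    (X' := qX hV {q0}) (Y' := qY hV {q0}) (r := r) R hD hδ hD'' hδ'' rX rY
    (fun f => q_comm hV {q0} f)
  obtain ⟨i', hi', hk0, hm, J⟩ := jet_of (A' := Sm V ⧸ Nf hV {q0}) (X := pX hW) (Y := pY hW)
    (X' := qX hV {q0})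
    (Y' := qY hV {q0}) (D' := D') (δ' := δ') (r := r) R hD hδ hD'' hδ'' rX rY
    (fun f => q_comm hV {q0} f) c5 c7 (hmem _ f5) (hmem _ f7)
  have hii : i' = r i := by
    refine nat_cancel (n := 3) (by norm_num) ?_
    push_cast
    have h := congrArg r hi
    rw [map_mul, map_add, map_mul, map_add, rD, rD, map_ofNat, map_ofNat] at h
    rw [hi', h]
  have hunit : IsUnit i' := by
    rw [hii, hr]
    show IsUnit (mq hV {q0} (res hVW i))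
    refine IsUnit.map _ ?_
    apply isUnit_of_ne
    intro z hz
    rw [ev_res _ _ hz]
    rw [hVd] at hz
    exact hz.2
  exact Nf_one hV (mem_singleton q0) hqV (J.tab.trivial_of_unit hunit)

end Jq

end Pool.Agent.W5h48.AL
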