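import Pool.Agent.W5h48.AL.LimD

set_option autoImplicit false
set_option linter.unusedSimpArgs false
set_option linter.unusedVariables false

open Set Filter Topology
open scoped ContDiff

namespace Pool.Agent.W5h48.AL

theorem fd_of_D {W : Set E2} (hW : IsOpen W) {F : E2 → ℝ} (hF : ContDiffOn ℝ ∞ F W) {f : Sm W}
    {p : E2} (hp : p ∈ W) (htan : tang F p ≠ 0) (h0 : ev (Dl hW (mk F hF) f) p = 0) {v : E2}
    (hv : fderiv ℝ F p v = 0) : fderiv ℝ (ev f) p v = 0 := by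
  have hFx : ev (pX hW (mk F hF)) p = fderiv ℝ F p ((1 : ℝ), (0 : ℝ)) := pd_mk hW _ _ _ hp
  have hFy : ev (pY hW (mk F hF)) p = fderiv ℝ F p ((0 : ℝ), (1 : ℝ)) := pd_mk hW _ _ _ hp
  unfold tang at htan
  rw [← hFx, ← hFy] at htan
  obtain ⟨fx, hfx⟩ : ∃ fx, fx = ev (pX hW (mk F hF)) p := ⟨_, rfl⟩
  obtain ⟨fy, hfy⟩ : ∃ fy, fy = ev (pY hW (mk F hF)) p := ⟨_, rfl⟩
  obtain ⟨bx, hbx⟩ : ∃ bx, bx = ev (pX hW f) p := ⟨_, rfl⟩
  obtain ⟨bY, hbY⟩ : ∃ bY, bY = ev (pY hW f) p := ⟨_, rfl⟩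
  rw [← hfx, ← hfy] at htan
  rw [fd_eq hW _ hp, ← hbx, ← hbY]
  have e1 : v.1 * fx + v.2 * fy = 0 := by
    have h6 : v = v.1 • ((1 : ℝ), (0 : ℝ)) + v.2 • ((0 : ℝ), (1 : ℝ)) := by
      ext <;> simp
    have h7 : fderiv ℝ F p v = v.1 * fderiv ℝ F p ((1 : ℝ), (0 : ℝ)) +
        v.2 * fderiv ℝ F p ((0 : ℝ), (1 : ℝ)) := by
      conv_lhs => rw [h6]
      rw [map_add, map_smul, map_smul, smul_eq_mul, smul_eq_mul]
    rw [hfx, hfy, hFx, hFy, ← h7, hv]
  have e2 : fy * bx - fx * bY = 0 := by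
    rw [Dl_app] at h0
    simp only [ev_sub, ev_mul] at h0
    rw [← hfx, ← hfy, ← hbx, ← hbY] at h0
    exact h0
  have e3 : 0 < fx ^ 2 + fy ^ 2 := sq_pos' htan
  have e4 : (fx ^ 2 + fy ^ 2) * (v.1 * bx + v.2 * bY) = 0 := by
    linear_combination (fx * bx + fy * bY) * e1 + (fy * v.1 - fx * v.2) * e2
  exact (mul_eq_zero.mp e4).resolve_left e3.ne'

theorem Dl_of_D {W : Set E2} (hW : IsOpen W) {F : E2 → ℝ} (hF : ContDiffOn ℝ ∞ F W)
    {D : Derivation ℝ (Sm W) (Sm W)} {L μ : Sm W} (Lμ : L * μ = 1)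
    (hD : ∀ f, D f = μ * μ * μ * Dl hW (mk F hF) f) (f : Sm W) :
    Dl hW (mk F hF) f = L * L * L * D f := by
  rw [hD]
  linear_combination (-(Dl hW (mk F hF) f) * (L ^ 2 * μ ^ 2 + L * μ + 1)) * Lμ

/-- the limit leaf is curved, negative sign -/
theorem lim_curved_neg {W : Set E2} (hW : IsOpen W) {F : E2 → ℝ} (hF : ContDiffOn ℝ ∞ F W)
    (hreg : ∀ p ∈ W, tang F p ≠ 0) {c : ℝ → E2} (hc : CL F W c) {C : Set ℝ}
    (hC : AccPt (F (c 0)) (𝓟 C)) (hproj : ∀ z ∈ W, F z ∈ C → PI F z) {t0 : ℝ}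
    (ht0 : bend F (c t0) < 0) (t : ℝ) : bend F (c t) < 0 := by
  have hL := hc.toLC subset_rfl hreg
  obtain ⟨T, hT, hper⟩ := hc.per
  obtain ⟨W', hW'd⟩ : ∃ W', W' = W ∩ bend F ⁻¹' Iio 0 := ⟨_, rfl⟩
  have hW' : IsOpen W' := by
    rw [hW'd]
    exact (bend_cont hW F hF).isOpen_inter_preimage hW isOpen_Iio
  have hWW : W' ⊆ W := by rw [hW'd]; exact inter_subset_left
  have hF' := hF.mono hWW
  obtain ⟨B, G, D, δ, L, μ, β, c', m, a, dx, dy, wx, wy, H⟩ := lim_data hW' F hF'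
    (fun z hz => by
      have h1 : bend F z < 0 := by rw [hW'd] at hz; exact hz.2
      rw [bend_eq hW' F hF' hz] at h1
      linarith) (fun p hp => hreg p (hWW hp)) (fun z hz hzC => hproj z (hWW hz) hzC)
  by_contra hcon
  push Not at hcon
  obtain ⟨t', ht', hct'⟩ := exists_later hT hper t0 t
  have hcb : Continuous fun t => bend F (c t) := by
    rw [continuous_iff_continuousAt]
    intro s
    exact ContinuousAt.comp ((bend_cont hW F hF).continuousAt (hW.mem_nhds (hc.mem s)))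
      (hc.diff s).continuousAt
  obtain ⟨S, hS⟩ : ∃ S : Set ℝ, S = Ici t0 ∩ (fun t => bend F (c t)) ⁻¹' Ici 0 := ⟨_, rfl⟩
  have hSc : IsClosed S := by
    rw [hS]
    exact isClosed_Ici.inter (isClosed_Ici.preimage hcb)
  have hSb : BddBelow S := ⟨t0, fun s hs => by rw [hS] at hs; exact hs.1⟩
  have hSn : S.Nonempty := ⟨t', by
    rw [hS]
    refine ⟨ht'.le, ?_⟩
    show 0 ≤ bend F (c t')
    rw [hct']
    exact hcon⟩
  have hts := hSc.csInf_mem hSn hSb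
  obtain ⟨t1, ht1⟩ : ∃ t1, t1 = sInf S := ⟨_, rfl⟩
  rw [← ht1] at hts
  have hlt : t0 < t1 := by
    rw [hS] at hts
    refine lt_of_le_of_ne hts.1 ?_
    rintro rfl
    exact absurd ht0 (not_lt.mpr hts.2)
  have hneg : ∀ s, t0 ≤ s → s < t1 → bend F (c s) < 0 := by
    intro s hs0 hs1
    by_contra hn
    push Not at hn
    have : s ∈ S := by rw [hS]; exact ⟨hs0, hn⟩
    have := csInf_le hSb this
    rw [← ht1] at this
    linarith
  have hmem : ∀ s ∈ Ioo t0 t1, c s ∈ {q | q ∈ W' ∧ F q = F (c 0)} := fun s hs => by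
    refine ⟨?_, hL.lev s⟩
    rw [hW'd]
    exact ⟨hL.mem s, hneg s hs.1.le hs.2⟩
  have hbc := b_const (S := {q | q ∈ W' ∧ F q = F (c 0)}) (b := fun j l => ev (B j l))
    (fun p hp j l => ⟨(ev_diff hW' (B j l) hp.1).differentiableAt, fun v hv => by
      refine fd_of_D hW' hF' hp.1 (hreg p (hWW hp.1)) ?_ hv
      rw [Dl_of_D hW' hF' H.Lμ H.Dl', ev_mul, H.DB p hp.1 (by rw [hp.2]; exact hC) j l, mul_zero]⟩)
    (fun p hp => (hF.contDiffAt (hW.mem_nhds (hWW hp.1))).differentiableAt (by simp))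
    isOpen_Ioo isPreconnected_Ioo hL.diff.differentiableOn hmem
    (fun s _ t _ => by rw [hL.lev s, hL.lev t])
  have hs0 : (t0 + t1) / 2 ∈ Ioo t0 t1 := ⟨by linarith, by linarith⟩
  have hne := curv_ne hW hF hL (Q := fun j l => ev (B j l) (c ((t0 + t1) / 2)))
    (fun i j => by
      show ev (B i j) _ = ev (B j i) _
      rw [H.Bs])
    (by rw [H.Bdet _ (hmem _ hs0).1]; norm_num) hlt fun t ht => by
      have : (fun j l => ev (B j l) (c ((t0 + t1) / 2))) = fun j l => ev (B j l) (c t) := by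
        funext j l
        exact hbc _ hs0 _ ht j l
      rw [this]
      exact H.Bform _ (hmem _ ht).1
  rw [hS] at hts
  have hpos : 0 < bend F (c t1) := lt_of_le_of_ne hts.2 (Ne.symm hne)
  have h1 : ∀ᶠ s in 𝓝 t1, 0 < bend F (c s) := hcb.continuousAt.eventually (lt_mem_nhds hpos)
  have h2 : t1 ∈ closure (Ioo t0 t1) := by
    rw [closure_Ioo hlt.ne]
    exact ⟨hlt.le, le_rfl⟩
  obtain ⟨s, hs, hs'⟩ := mem_closure_iff_nhds.mp h2 _ h1
  exact absurd (hneg s hs'.1.le hs'.2) (not_lt.mpr (le_of_lt hs))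

/-- flat elements have vanishing derivatives of all orders -/
theorem flat_iter {V : Set E2} (hV : IsOpen V) {Γ : Set E2} {q : E2} (hq : q ∈ Γ) (hqV : q ∈ V)
    (n : ℕ) : ∀ f : Sm V, f ∈ Nf hV Γ → iteratedFDeriv ℝ n (ev f) q = 0 := by
  induction n with
  | zero =>
    intro f hf
    ext m
    rw [iteratedFDeriv_zero_apply]
    exact (Ninf_le _ _ _ hf) q hq hqV
  | succ n ih =>
    intro f hf
    have hX := ih _ (Ninf_X hf)
    have hY := ih _ (Ninf_Y hf)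
    obtain ⟨A1, hA1⟩ : ∃ A1 : ℝ →L[ℝ] (E2 →L[ℝ] ℝ), A1 = ContinuousLinearMap.toSpanSingleton ℝ
      (ContinuousLinearMap.fst ℝ ℝ ℝ) := ⟨_, rfl⟩
    obtain ⟨A2, hA2⟩ : ∃ A2 : ℝ →L[ℝ] (E2 →L[ℝ] ℝ), A2 = ContinuousLinearMap.toSpanSingleton ℝ
      (ContinuousLinearMap.snd ℝ ℝ ℝ) := ⟨_, rfl⟩
    have h1 : fderiv ℝ (ev f) =ᶠ[𝓝 q] (⇑A1 ∘ ev (pX hV f)) + (⇑A2 ∘ ev (pY hV f)) := by
      filter_upwards [hV.mem_nhds hqV] with y hy
      refine ContinuousLinearMap.ext fun v => ?_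
      rw [fd_eq hV f hy, hA1, hA2]
      simp
      ring
    have h2 : iteratedFDeriv ℝ n (fderiv ℝ (ev f)) q = 0 := by
      rw [(h1.iteratedFDeriv ℝ n).eq_of_nhds]
      have c1 : ContDiffAt ℝ n (ev (pX hV f)) q :=
        (ev_contDiffAt hV _ hqV).of_le (by exact_mod_cast le_top)
      have c2 : ContDiffAt ℝ n (ev (pY hV f)) q :=
        (ev_contDiffAt hV _ hqV).of_le (by exact_mod_cast le_top)
      rw [iteratedFDeriv_add_apply (A1.contDiff.contDiffAt.comp q c1)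
        (A2.contDiff.contDiffAt.comp q c2)]
      have e1 := A1.iteratedFDeriv_comp_left c1 (i := n) le_rfl
      have e2 := A2.iteratedFDeriv_comp_left c2 (i := n) le_rfl
      rw [e1, e2, hX, hY]
      refine ContinuousMultilinearMap.ext fun m => ?_
      show A1 0 + A2 0 = 0
      rw [map_zero, map_zero, add_zero]
    ext m
    rw [iteratedFDeriv_succ_apply_right, h2]
    simp

end Pool.Agent.W5h48.AL
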