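import Pool.Agent.W5h48.AL.Jq

set_option autoImplicit false
set_option linter.unusedSimpArgs false
set_option linter.unusedVariables false

open Set Filter Topology
open scoped ContDiff

namespace Pool.Agent.W5h48.AL

/-- the interface: the two quadratic forms and their relations at the accumulation leaves -/
structure LimData {W : Set E2} (hW : IsOpen W) (F0 : E2 → ℝ) (hF : ContDiffOn ℝ ∞ F0 W)
    (C : Set ℝ) (B G : Fin 3 → Fin 3 → Sm W) (D δ : Derivation ℝ (Sm W) (Sm W))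
    (L μ β c m a dx dy wx wy : Sm W) : Prop where
  Lμ : L * μ = 1
  Dl' : ∀ f, D f = μ * μ * μ * Dl hW (mk F0 hF) f
  hD : ∀ f, D f = dx * pX hW f + dy * pY hW f
  hδ : ∀ f, δ f = wx * pX hW f + wy * pY hW f
  hΔ : L * L * L * (dx * wy - dy * wx) = 1
  comm : ∀ f, δ (D f) = D (δ f) + β * D f
  Bs : ∀ j l, B j l = B l j
  Gs : ∀ j l, G j l = G l j
  Bdet : ∀ p ∈ W, (Matrix.of fun j l => ev (B j l) p).det = -1
  Bform : ∀ p ∈ W, form (fun j l => ev (B j l) p) ![p.1, p.2, 1] = 0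
  Gform : ∀ p ∈ W, 0 < form (fun j l => ev (G j l) p) ![p.1, p.2, 1]
  DB : ∀ q ∈ W, AccPt (F0 q) (𝓟 C) → ∀ j l, ev (D (B j l)) q = 0
  rels : ∀ Γ : Set E2, (∀ q ∈ Γ, AccPt (F0 q) (𝓟 C)) → (∀ f ∈ (Zg Γ : Ideal (Sm W)), D f ∈ (Zg Γ : Ideal (Sm W))) →
    ∀ j l, D (B j l) ∈ Nf hW Γ ∧ D (G j l) - 2 * c * B j l ∈ Nf hW Γ ∧
      δ (B j l) - (-2 * m * B j l + 2 * G j l) ∈ Nf hW Γ ∧ δ (G j l) - (-2 * a * G j l) ∈ Nf hW Γ

theorem lim_data {W : Set E2} (hW : IsOpen W) (F0 : E2 → ℝ) (hF : ContDiffOn ℝ ∞ F0 W)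
    (hpos : ∀ z ∈ W, 0 < ev (hForm hW (mk F0 hF)) z) (hreg : ∀ p ∈ W, tang F0 p ≠ 0) {C : Set ℝ}
    (hproj : ∀ z ∈ W, F0 z ∈ C → PI F0 z) :
    ∃ (B G : Fin 3 → Fin 3 → Sm W) (D δ : Derivation ℝ (Sm W) (Sm W))
      (L μ β c m a dx dy wx wy : Sm W), LimData hW F0 hF C B G D δ L μ β c m a dx dy wx wy := by
  obtain ⟨L, μ, Gi, Bs, hL, hμ⟩ := exists_base hW (mk F0 hF) hpos
  have Lμ := Bs.Lμ
  obtain ⟨k0, k1, a, β, p0, p1, p2, R⟩ := Bs.rel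
  obtain ⟨dx, hdx⟩ : ∃ dx, dx = dX (pY hW) (mk F0 hF) μ := ⟨_, rfl⟩
  obtain ⟨dy, hdy⟩ : ∃ dy, dy = dY (pX hW) (mk F0 hF) μ := ⟨_, rfl⟩
  obtain ⟨wx, hwx⟩ : ∃ wx, wx = wX (pX hW) (pY hW) (mk F0 hF) L μ := ⟨_, rfl⟩
  obtain ⟨wy, hwy⟩ : ∃ wy, wy = wY (pX hW) (pY hW) (mk F0 hF) L μ := ⟨_, rfl⟩
  obtain ⟨D, hD⟩ : ∃ D, D = DD (pX hW) (pY hW) (mk F0 hF) μ := ⟨_, rfl⟩
  obtain ⟨δ, hδ⟩ : ∃ δ, δ = dd (pX hW) (pY hW) (mk F0 hF) L μ := ⟨_, rfl⟩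
  obtain ⟨η, hη⟩ : ∃ η, η = eta (pX hW) (pY hW) (mk F0 hF) L μ := ⟨_, rfl⟩
  rw [← hdx, ← hdy, ← hwx, ← hwy, ← hD, ← hδ, ← hη] at R
  have hDf : ∀ f, D f = dx * pX hW f + dy * pY hW f := fun f => by rw [hD, hdx, hdy]; rfl
  have hδf : ∀ f, δ f = wx * pX hW f + wy * pY hW f := fun f => by rw [hδ, hwx, hwy]; rfl
  have hdx' : dx = μ * μ * μ * pY hW (mk F0 hF) := hdx
  have hdy' : dy = -(μ * μ * μ * pX hW (mk F0 hF)) := hdy
  clear hdx hdy hwx hwy hD hδ hη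
  obtain ⟨i, hi⟩ := Tab.exists_div 3 (by norm_num) (D β + 2 * (k0 + D a))
  push_cast at hi
  obtain ⟨c1, c2, c3, -, -⟩ := coef_rel hW R hDf hδf
  have hfl : ∀ q ∈ W, AccPt (F0 q) (𝓟 C) → Flat q (Hc dx dy η hW (mk F0 hF) 5) ∧
      Flat q (Hc dx dy η hW (mk F0 hF) 7) := fun q hq hC =>
    ⟨flat_of_vanish hW hF hq (hreg q hq) hC fun p hp hpC =>
      (hc_zero hW F0 hF hμ hdx' hdy' c1 c2 c3 hp (hproj p hp hpC)).1,
     flat_of_vanish hW hF hq (hreg q hq) hC fun p hp hpC =>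
      (hc_zero hW F0 hF hμ hdx' hdy' c1 c2 c3 hp (hproj p hp hpC)).2⟩
  have hi0 : ∀ q ∈ W, AccPt (F0 q) (𝓟 C) → ev i q = 0 := fun q hq hC =>
    i_zero_pt hW F0 hF hDf hδf R hq (hfl q hq hC).1 (hfl q hq hC).2 hi
  have hΓ : ∀ Γ : Set E2, (∀ q ∈ Γ, AccPt (F0 q) (𝓟 C)) →
      Hc dx dy η hW (mk F0 hF) 5 ∈ Nf hW Γ ∧ Hc dx dy η hW (mk F0 hF) 7 ∈ Nf hW Γ := fun Γ hC =>
    ⟨mem_Nf_of_flat hW fun q hq hqW => (hfl q hqW (hC q hq)).1,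
      mem_Nf_of_flat hW fun q hq hqW => (hfl q hqW (hC q hq)).2⟩
  obtain ⟨B, hB⟩ : ∃ B : Fin 3 → Fin 3 → Sm W, B = Bf k1 p0 p1 p2 := ⟨_, rfl⟩
  obtain ⟨G, hCd⟩ : ∃ C : Fin 3 → Fin 3 → Sm W, C = Cf (k0 + D a) (D (k0 + D a)) p0 p1 p2 :=
    ⟨_, rfl⟩
  have hdet : ∀ p ∈ W, det3 (fun j => ev (p0 j) p) (fun j => ev (p1 j) p)
      (fun j => ev (p2 j) p) = 1 := fun p hp => ev_det3 hp p0 p1 p2 R.frame.det
  have hBm : ∀ p ∈ W, (fun j l => ev (B j l) p) = Bf (ev k1 p) (fun j => ev (p0 j) p)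
      (fun j => ev (p1 j) p) (fun j => ev (p2 j) p) := fun p hp => by
    funext j l
    rw [hB, ev_Bf hp]
  have hCm : ∀ p ∈ W, (fun j l => ev (G j l) p) = Cf (ev (k0 + D a) p) (ev (D (k0 + D a)) p)
      (fun j => ev (p0 j) p) (fun j => ev (p1 j) p) (fun j => ev (p2 j) p) := fun p hp => by
    funext j l
    rw [hCd, ev_Cf hp]
  have hp0 : ∀ p ∈ W, ∀ j, ev (p0 j) p = ev L p * (![p.1, p.2, 1] : Fin 3 → ℝ) j := by
    intro p hp j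
    fin_cases j
    · show ev (p0 0) p = ev L p * p.1
      rw [R.p00, ev_mul, ev_mk _ _ hp]
    · show ev (p0 1) p = ev L p * p.2
      rw [R.p01, ev_mul, ev_mk _ _ hp]
    · show ev (p0 2) p = ev L p * 1
      rw [R.p02, mul_one]
  refine ⟨B, G, D, δ, L, μ, β, k0 + D a, k1 + a + β, a, dx, dy, wx, wy,
    ⟨Lμ, ?_, hDf, hδf, R.hΔ, R.frame.comm, ?_, ?_, ?_, ?_, ?_, ?_, ?_⟩⟩
  · intro f
    rw [hDf, Dl_app, hdx', hdy']
    ring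
  · intro j l
    rw [hB, Bf_symm]
  · intro j l
    rw [hCd, Cf_symm]
  · intro p hp
    rw [hBm p hp, Bf_det, hdet p hp]
    norm_num
  · intro p hp
    have hf := Bf_form (ev k1 p) (fun j => ev (p0 j) p) (fun j => ev (p1 j) p)
      (fun j => ev (p2 j) p)
    rw [← hBm p hp] at hf
    have hs := form_smul (fun j l => ev (B j l) p) (fun j => ev (p0 j) p) ![p.1, p.2, 1] (ev L p)
      (hp0 p hp)
    rw [hf] at hs
    exact ((mul_eq_zero.mp hs.symm).resolve_left (pow_pos (hL p hp) 2).ne')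
  · intro p hp
    have hf := Cf_form (ev (k0 + D a) p) (ev (D (k0 + D a)) p) (fun j => ev (p0 j) p)
      (fun j => ev (p1 j) p) (fun j => ev (p2 j) p)
    rw [hdet p hp, one_pow, ← hCm p hp] at hf
    have hs := form_smul (fun j l => ev (G j l) p) (fun j => ev (p0 j) p) ![p.1, p.2, 1] (ev L p)
      (hp0 p hp)
    rw [hf] at hs
    have h2 := pow_pos (hL p hp) 2
    by_contra hn
    push Not at hn
    nlinarith
  · intro q hq hC j l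
    obtain ⟨z5, z7⟩ := hΓ {q} (by rintro _ rfl; exact hC)
    have h1 := (jets_at hW F0 hF hDf hδf R z5 z7 hi).1
    have h2 := (Ninf_le _ _ _ h1) q (mem_singleton q) hq
    have h3 := hi0 q hq hC
    rw [hB, Bf_D R.frame, ev_mul]
    rw [ev_sub, ev_mul (5 : Sm W), h3, mul_zero, sub_zero] at h2
    rw [h2, zero_mul]
  · intro Γ hC hZ j l
    obtain ⟨z5, z7⟩ := hΓ Γ hC
    obtain ⟨-, h2, h3⟩ := jets_at hW F0 hF hDf hδf R z5 z7 hi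
    have hfr : Ninf D δ (Zg Γ) = Nf hW Γ := Ninf_frame hDf hδf R.hΔ
    have hiN : i ∈ Nf hW Γ := by
      rw [← hfr]
      refine heat R.frame.comm hZ (g := 21 * β - 2 * k1) (fun q hq hqW => hi0 q hqW (hC q hq)) ?_
      rw [hfr]
      exact h2
    have h4 := h3 hiN j l
    rw [← hB, ← hCd] at h4
    exact h4

end Pool.Agent.W5h48.AL
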