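import Pool.Agent.W5h48.AL.LimC

set_option autoImplicit false
set_option linter.unusedSimpArgs false
set_option linter.unusedVariables false

open Set Filter Topology
open scoped ContDiff

namespace Pool.Agent.W5h48.AL

/-- value of the form as a functional of the matrix -/
noncomputable def formL (X : Fin 3 → ℝ) : Matrix (Fin 3) (Fin 3) ℝ →ₗ[ℝ] ℝ where
  toFun M := form (fun i j => M i j) X
  map_add' M N := by simp only [form, Matrix.add_apply]; ring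
  map_smul' r M := by simp only [form, Matrix.smul_apply, smul_eq_mul, RingHom.id_apply]; ring

/-- entry -/
def entL (j l : Fin 3) : Matrix (Fin 3) (Fin 3) ℝ →ₗ[ℝ] ℝ where
  toFun M := M j l
  map_add' M N := rfl
  map_smul' r M := rfl

theorem const_along {W : Set E2} (hW : IsOpen W) {F : E2 → ℝ} (hF : ContDiffOn ℝ ∞ F W) {c : ℝ → E2}
    (h : LC F W c) {f : Sm W} (h0 : ∀ t, ev (Dl hW (mk F hF) f) (c t) = 0) (t : ℝ) :
    ev f (c t) = ev f (c 0) := by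
  have hd : ∀ t, HasDerivAt (fun s => ev f (c s)) 0 t := fun t => by
    obtain ⟨μ, -, -, hd⟩ := along hW hF h t
    have := hd f
    rwa [h0 t, mul_zero] at this
  exact is_const_of_deriv_eq_zero (f := fun s => ev f (c s)) (fun t => (hd t).differentiableAt)
    (fun t => (hd t).deriv) t 0

theorem Zg_Dl {W : Set E2} (hW : IsOpen W) {F : E2 → ℝ} (hF : ContDiffOn ℝ ∞ F W) {c : ℝ → E2}
    (h : LC F W c) {f : Sm W} (hf : f ∈ (Zg (range c) : Ideal (Sm W))) :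
    Dl hW (mk F hF) f ∈ (Zg (range c) : Ideal (Sm W)) := by
  rintro _ ⟨t, rfl⟩ ht
  obtain ⟨μ, hμ, -, hd⟩ := along hW hF h t
  have h1 : (fun s => ev f (c s)) = fun _ => 0 := funext fun s => hf (c s) ⟨s, rfl⟩ (h.mem s)
  have h2 := hd f
  rw [h1] at h2
  exact (mul_eq_zero.mp (h2.unique (hasDerivAt_const t (0 : ℝ)))).resolve_left hμ

section Lin

variable {W : Set E2} (φ : Matrix (Fin 3) (Fin 3) ℝ →ₗ[ℝ] ℝ)

theorem lin_mem {N : Ideal (Sm W)} {R : Fin 3 → Fin 3 → Sm W} (h : ∀ j l, R j l ∈ N) :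
    lin φ R ∈ N := by
  unfold lin
  refine Submodule.sum_mem _ fun j _ => Submodule.sum_mem _ fun l _ => ?_
  rw [Algebra.smul_def]
  exact Ideal.mul_mem_left _ _ (h j l)

theorem lin_der (D : Derivation ℝ (Sm W) (Sm W)) (R : Fin 3 → Fin 3 → Sm W) :
    D (lin φ R) = lin φ (fun j l => D (R j l)) := by
  unfold lin
  simp only [map_sum, Derivation.map_smul]

theorem lin_sub (R S : Fin 3 → Fin 3 → Sm W) :
    lin φ (fun j l => R j l - S j l) = lin φ R - lin φ S := by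
  unfold lin
  simp only [smul_sub, Finset.sum_sub_distrib]

theorem lin_add (R S : Fin 3 → Fin 3 → Sm W) :
    lin φ (fun j l => R j l + S j l) = lin φ R + lin φ S := by
  unfold lin
  simp only [smul_add, Finset.sum_add_distrib]

theorem lin_mul (x : Sm W) (R : Fin 3 → Fin 3 → Sm W) :
    lin φ (fun j l => x * R j l) = x * lin φ R := by
  unfold lin
  simp only [Finset.mul_sum, mul_smul_comm]

end Lin

theorem lim_neg {W : Set E2} (hW : IsOpen W) {F : E2 → ℝ} (hF : ContDiffOn ℝ ∞ F W)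
    (hreg : ∀ p ∈ W, tang F p ≠ 0) (hb : ∀ p ∈ W, bend F p < 0) {c : ℝ → E2} (hc : CL F W c)
    {C : Set ℝ} (hC : AccPt (F (c 0)) (𝓟 C)) (hproj : ∀ z ∈ W, F z ∈ C → PI F z) :
    ∃ Q₁ Q₂ : Matrix (Fin 3) (Fin 3) ℝ, Q₁.IsSymm ∧ Q₂.IsSymm ∧ Q₁.det ≠ 0 ∧ IsEll (range c) ∧
      range c = {p | form (fun i j => Q₁ i j) ![p.1, p.2, 1] = 0} ∧
      (∀ t, 0 < form (fun i j => Q₂ i j) ![(c t).1, (c t).2, 1]) ∧
      Gq (fun i j => Q₂ i j) * Dl hW (mk F hF) (Gq fun i j => Q₁ i j) -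
        Gq (fun i j => Q₁ i j) * Dl hW (mk F hF) (Gq fun i j => Q₂ i j) ∈ Nf hW (range c) := by
  have hL := hc.toLC subset_rfl hreg
  obtain ⟨B, G, D, δ, L, μ, β, cc, m, a, dx, dy, wx, wy, H⟩ := lim_data hW F hF
    (fun z hz => by
      have h1 : bend F z < 0 := hb z hz
      rw [bend_eq hW F hF hz] at h1
      linarith) hreg hproj
  obtain ⟨Γ, hΓ⟩ : ∃ Γ, Γ = range c := ⟨_, rfl⟩
  have hCΓ : ∀ q ∈ Γ, AccPt (F q) (𝓟 C) := by
    rw [hΓ]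
    rintro _ ⟨t, rfl⟩
    rw [hL.lev t]
    exact hC
  have hZ : ∀ f ∈ (Zg Γ : Ideal (Sm W)), D f ∈ (Zg Γ : Ideal (Sm W)) := by
    intro f hf
    rw [H.Dl']
    rw [hΓ] at hf ⊢
    exact Ideal.mul_mem_left _ _ (Zg_Dl hW hF hL hf)
  have hrel := H.rels Γ hCΓ hZ
  have hmemΓ : ∀ t, c t ∈ Γ := fun t => by rw [hΓ]; exact ⟨t, rfl⟩
  have hDl : ∀ f, Dl hW (mk F hF) f = L * L * L * D f := Dl_of_D hW hF H.Lμ H.Dl'
  have hfr : Ninf D δ (Zg Γ) = Nf hW Γ := Ninf_frame H.hD H.hδ H.hΔ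
  obtain ⟨Q₁, hQ₁⟩ : ∃ Q : Matrix (Fin 3) (Fin 3) ℝ, Q = Matrix.of fun j l => ev (B j l) (c 0) :=
    ⟨_, rfl⟩
  obtain ⟨Q₂, hQ₂⟩ : ∃ Q : Matrix (Fin 3) (Fin 3) ℝ, Q = Matrix.of fun j l => ev (G j l) (c 0) :=
    ⟨_, rfl⟩
  have hB : ∀ t, (Matrix.of fun j l => ev (B j l) (c t)) = Q₁ := by
    intro t
    rw [hQ₁]
    ext j l
    rw [Matrix.of_apply, Matrix.of_apply]
    refine const_along hW hF hL (fun s => ?_) t
    rw [hDl, ev_mul, (Ninf_le _ _ _ (hrel j l).1) (c s) (hmemΓ s) (hL.mem s), mul_zero]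
  have hG : ∀ φ : Matrix (Fin 3) (Fin 3) ℝ →ₗ[ℝ] ℝ, φ Q₁ = 0 → ∀ t, ev (lin φ G) (c t) = φ Q₂ := by
    intro φ hφ t
    have h1 : ev (lin φ G) (c 0) = φ Q₂ := by rw [ev_lin (hL.mem 0), hQ₂]
    rw [← h1]
    refine const_along hW hF hL (fun s => ?_) t
    have h2 : D (lin φ G) - 2 * cc * lin φ B ∈ Nf hW Γ := by
      rw [lin_der, ← lin_mul, ← lin_sub]
      exact lin_mem φ fun j l => (hrel j l).2.1
    have h3 := (Ninf_le _ _ _ h2) (c s) (hmemΓ s) (hL.mem s)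
    rw [ev_sub, ev_mul, ev_lin (hL.mem s) φ B, hB s, hφ, mul_zero, sub_zero] at h3
    rw [hDl, ev_mul, h3, mul_zero]
  have hker : ∀ φ : Matrix (Fin 3) (Fin 3) ℝ →ₗ[ℝ] ℝ, φ Q₁ = 0 → φ Q₂ = 0 →
      lin φ B ∈ Nf hW Γ := by
    intro φ h1 h2
    have f0 : lin φ B ∈ (Zg Γ : Ideal (Sm W)) := by
      rw [hΓ]
      rintro _ ⟨t, rfl⟩ ht
      rw [ev_lin ht, hB t, h1]
    have g0 : lin φ G ∈ (Zg Γ : Ideal (Sm W)) := by
      rw [hΓ]
      rintro _ ⟨t, rfl⟩ ht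
      rw [hG φ h1 t, h2]
    rw [← hfr]
    refine (cauchy H.comm hZ (a1 := -2 * m) (a2 := 2) (a3 := 0) (a4 := -2 * a) f0 g0 ?_ ?_).1
    · rw [hfr, lin_der]
      have : lin φ (fun j l => δ (B j l)) - (-2 * m * lin φ B + 2 * lin φ G) =
          lin φ (fun j l => δ (B j l) - (-2 * m * B j l + 2 * G j l)) := by
        rw [lin_sub, lin_add, lin_mul, lin_mul]
      rw [this]
      exact lin_mem φ fun j l => (hrel j l).2.2.1
    · rw [hfr, lin_der]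
      have : lin φ (fun j l => δ (G j l)) - (0 * lin φ B + -2 * a * lin φ G) =
          lin φ (fun j l => δ (G j l) - (-2 * a * G j l)) := by
        rw [lin_sub, lin_mul, zero_mul, zero_add]
      rw [this]
      exact lin_mem φ fun j l => (hrel j l).2.2.2
  have hdet : Q₁.det ≠ 0 := by
    rw [hQ₁, H.Bdet _ (hL.mem 0)]
    norm_num
  have hs₁ : ∀ i j, Q₁ i j = Q₁ j i := fun i j => by
    rw [hQ₁, Matrix.of_apply, Matrix.of_apply, H.Bs]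
  have hs₂ : ∀ i j, Q₂ i j = Q₂ j i := fun i j => by
    rw [hQ₂, Matrix.of_apply, Matrix.of_apply, H.Gs]
  have hform₁ : ∀ t, form (fun i j => Q₁ i j) ![(c t).1, (c t).2, 1] = 0 := by
    intro t
    have h1 := H.Bform (c t) (hL.mem t)
    rw [← hB t]
    exact h1
  have hform₂ : ∀ t, 0 < form (fun i j => Q₂ i j) ![(c t).1, (c t).2, 1] := by
    intro t
    have h1 := hG (formL ![(c t).1, (c t).2, 1]) (hform₁ t) t
    rw [ev_lin (hL.mem t)] at h1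
    have h2 : formL ![(c t).1, (c t).2, 1] Q₂ = form (fun i j => Q₂ i j) ![(c t).1, (c t).2, 1] :=
      rfl
    rw [← h2, ← h1]
    exact H.Gform (c t) (hL.mem t)
  obtain ⟨T, hT, hper⟩ := hc.per
  have key := ell (q := fun j l => Q₁ j l) hs₁ hdet hc.diff hc.reg hT (by simpa using hper 0) hform₁
  refine ⟨Q₁, Q₂, ?_, ?_, hdet, key.2, key.1, hform₂, ?_⟩
  · ext i j
    exact hs₁ j i
  · ext i j
    exact hs₂ j i
  -- dual functionals
  obtain ⟨E, hE⟩ : ∃ E, E = formL ![(c 0).1, (c 0).2, 1] := ⟨_, rfl⟩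
  have hE1 : E Q₁ = 0 := by rw [hE]; exact hform₁ 0
  have hE2 : E Q₂ ≠ 0 := by rw [hE]; exact (hform₂ 0).ne'
  obtain ⟨ψ₂, hψ₂⟩ : ∃ ψ : Matrix (Fin 3) (Fin 3) ℝ →ₗ[ℝ] ℝ, ψ = (E Q₂)⁻¹ • E := ⟨_, rfl⟩
  have h21 : ψ₂ Q₁ = 0 := by rw [hψ₂, LinearMap.smul_apply, hE1, smul_zero]
  have h22 : ψ₂ Q₂ = 1 := by
    rw [hψ₂, LinearMap.smul_apply, smul_eq_mul, inv_mul_cancel₀ hE2]
  obtain ⟨j0, l0, hjl⟩ : ∃ j0 l0, Q₁ j0 l0 ≠ 0 := by
    by_contra hcon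
    push Not at hcon
    apply hdet
    have : Q₁ = 0 := by
      ext i j
      exact hcon i j
    rw [this, Matrix.det_zero]
  obtain ⟨ψ₁, hψ₁⟩ : ∃ ψ : Matrix (Fin 3) (Fin 3) ℝ →ₗ[ℝ] ℝ,
    ψ = (Q₁ j0 l0)⁻¹ • (entL j0 l0 - (Q₂ j0 l0) • ψ₂) := ⟨_, rfl⟩
  have hent : ∀ j l (M : Matrix (Fin 3) (Fin 3) ℝ), entL j l M = M j l := fun j l M => rfl
  have h11 : ψ₁ Q₁ = 1 := by
    rw [hψ₁]
    simp only [LinearMap.smul_apply, LinearMap.sub_apply, hent, h21, smul_eq_mul, mul_zero,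
      sub_zero]
    exact inv_mul_cancel₀ hjl
  have h12 : ψ₁ Q₂ = 0 := by
    rw [hψ₁]
    simp only [LinearMap.smul_apply, LinearMap.sub_apply, hent, h22, smul_eq_mul, mul_one,
      sub_self, mul_zero]
  obtain ⟨l₁, hl₁⟩ : ∃ l, l = lin ψ₁ B := ⟨_, rfl⟩
  obtain ⟨l₂, hl₂⟩ : ∃ l, l = lin ψ₂ B := ⟨_, rfl⟩
  have hmem : ∀ j l, B j l - (Q₁ j l • l₁ + Q₂ j l • l₂) ∈ Nf hW Γ := by
    intro j l
    have h1 := hker (entL j l - ((Q₁ j l) • ψ₁ + (Q₂ j l) • ψ₂))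
      (by simp only [LinearMap.sub_apply, LinearMap.add_apply, LinearMap.smul_apply, hent, h11,
        h21, smul_eq_mul, mul_one, mul_zero, add_zero, sub_self])
      (by simp only [LinearMap.sub_apply, LinearMap.add_apply, LinearMap.smul_apply, hent, h12,
        h22, smul_eq_mul, mul_one, mul_zero, zero_add, sub_self])
    convert h1 using 1
    apply Sm_ext
    intro p hp
    rw [ev_lin hp, ev_sub, ev_add, ev_smul, ev_smul, hl₁, hl₂, ev_lin hp, ev_lin hp]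
    rfl
  obtain ⟨G₁, hG₁⟩ : ∃ g : Sm W, g = Gq (fun i j => Q₁ i j) := ⟨_, rfl⟩
  obtain ⟨G₂, hG₂⟩ : ∃ g : Sm W, g = Gq (fun i j => Q₂ i j) := ⟨_, rfl⟩
  have hk : l₁ * G₁ + l₂ * G₂ ∈ Nf hW Γ := by
    obtain ⟨X, hX⟩ : ∃ X : Fin 3 → Sm W, X = ![cx, cy, 1] := ⟨_, rfl⟩
    have h1 : ∑ j, ∑ l, (B j l - (Q₁ j l • l₁ + Q₂ j l • l₂)) * (X j * X l) ∈ Nf hW Γ :=
      Submodule.sum_mem _ fun j _ => Submodule.sum_mem _ fun l _ =>
        Ideal.mul_mem_right _ _ (hmem j l)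
    have h2 : l₁ * G₁ + l₂ * G₂ =
        -∑ j, ∑ l, (B j l - (Q₁ j l • l₁ + Q₂ j l • l₂)) * (X j * X l) := by
      apply Sm_ext
      intro p hp
      have h3 := H.Bform p hp
      rw [hG₁, hG₂, ev_add, ev_mul, ev_mul, ev_Gq _ hp, ev_Gq _ hp]
      unfold form at h3 ⊢
      simp only [Fin.sum_univ_three, ev_neg, ev_add, ev_sub, ev_mul, ev_smul, hX,
        Matrix.cons_val_zero, Matrix.cons_val_one, Matrix.cons_val, ev_mk _ _ hp, ev_one hp]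
        at h3 ⊢
      linear_combination h3
    rw [h2]
    exact neg_mem h1
  have hD₁ : D l₁ ∈ Nf hW Γ := by
    rw [hl₁, lin_der]
    exact lin_mem _ fun j l => (hrel j l).1
  have hD₂ : D l₂ ∈ Nf hW Γ := by
    rw [hl₂, lin_der]
    exact lin_mem _ fun j l => (hrel j l).1
  have hDk : l₁ * D G₁ + l₂ * D G₂ ∈ Nf hW Γ := by
    have h1 : D (l₁ * G₁ + l₂ * G₂) ∈ Nf hW Γ := by
      rw [← hfr] at hk ⊢
      exact Ninf_X hk
    have h2 : l₁ * D G₁ + l₂ * D G₂ = D (l₁ * G₁ + l₂ * G₂) - G₁ * D l₁ - G₂ * D l₂ := by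
      simp only [map_add, Derivation.leibniz, smul_eq_mul]
      ring
    rw [h2]
    exact sub_mem (sub_mem h1 (Ideal.mul_mem_left _ _ hD₁)) (Ideal.mul_mem_left _ _ hD₂)
  have hh : G₂ * D G₁ - G₁ * D G₂ ∈ Nf hW Γ := by
    refine Ninf_cancel (l := l₁) ?_ ?_
    · intro f k hf q hq hqW
      have h1 := hf q hq hqW
      rw [hΓ] at hq
      obtain ⟨t, rfl⟩ := hq
      have h2 : ev l₁ (c t) = 1 := by rw [hl₁, ev_lin (hL.mem t), hB t, h11]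
      rw [ev_mul, ev_pow _ hqW, h2, one_pow, one_mul] at h1
      exact h1
    · have h2 : l₁ * (G₂ * D G₁ - G₁ * D G₂) = G₂ * (l₁ * D G₁ + l₂ * D G₂) -
          D G₂ * (l₁ * G₁ + l₂ * G₂) := by ring
      rw [h2]
      exact sub_mem (Ideal.mul_mem_left _ _ hDk) (Ideal.mul_mem_left _ _ hk)
  rw [← hG₁, ← hG₂, ← hΓ, hDl, hDl]
  have h2 : G₂ * (L * L * L * D G₁) - G₁ * (L * L * L * D G₂) =
      L * L * L * (G₂ * D G₁ - G₁ * D G₂) := by ring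
  rw [h2]
  exact Ideal.mul_mem_left _ _ hh

end Pool.Agent.W5h48.AL
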