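import Pool.Agent.W5h48.AL.LimE

set_option autoImplicit false
set_option linter.unusedSimpArgs false
set_option linter.unusedVariables false

open Set Filter Topology
open scoped ContDiff

namespace Pool.Agent.W5h48.AL

/-- the value of the conic -/
noncomputable def cq (Q : Matrix (Fin 3) (Fin 3) ℝ) (p : E2) : ℝ :=
  form (fun i j => Q i j) ![p.1, p.2, 1]

/-- comparison of the foliation and the pencil -/
noncomputable def wdg (F : E2 → ℝ) (Q₁ Q₂ : Matrix (Fin 3) (Fin 3) ℝ) (p : E2) : ℝ :=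
  cq Q₂ p * fderiv ℝ (cq Q₁) p (tang F p) - cq Q₁ p * fderiv ℝ (cq Q₂) p (tang F p)

theorem wdg_eq {W : Set E2} (hW : IsOpen W) {F : E2 → ℝ} (hF : ContDiffOn ℝ ∞ F W)
    (Q₁ Q₂ : Matrix (Fin 3) (Fin 3) ℝ) {p : E2} (hp : p ∈ W) :
    wdg F Q₁ Q₂ p = ev (Gq (fun i j => Q₂ i j) * Dl hW (mk F hF) (Gq fun i j => Q₁ i j) -
        Gq (fun i j => Q₁ i j) * Dl hW (mk F hF) (Gq fun i j => Q₂ i j)) p := by
  have h1 : ∀ Q : Matrix (Fin 3) (Fin 3) ℝ, cq Q p = ev (Gq (fun i j => Q i j) : Sm W) p :=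
    fun Q => (ev_Gq _ hp).symm
  have h2 : ∀ Q : Matrix (Fin 3) (Fin 3) ℝ, fderiv ℝ (cq Q) p (tang F p) =
      ev (Dl hW (mk F hF) (Gq fun i j => Q i j)) p := by
    intro Q
    have h3 : cq Q =ᶠ[𝓝 p] ev (Gq (fun i j => Q i j) : Sm W) := by
      filter_upwards [hW.mem_nhds hp] with y hy
      exact (ev_Gq _ hy).symm
    rw [h3.fderiv_eq, fd_eq hW _ hp, Dl_app, ev_sub, ev_mul, ev_mul, pd_mk hW _ _ _ hp,
      pd_mk hW _ _ _ hp]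
    unfold tang
    ring
  unfold wdg
  rw [h1, h1, h2, h2, ev_sub, ev_mul, ev_mul]

theorem wdg_flat {W : Set E2} (hW : IsOpen W) {F : E2 → ℝ} (hF : ContDiffOn ℝ ∞ F W)
    {Q₁ Q₂ : Matrix (Fin 3) (Fin 3) ℝ} {Γ : Set E2}
    (h : Gq (fun i j => Q₂ i j) * Dl hW (mk F hF) (Gq fun i j => Q₁ i j) -
        Gq (fun i j => Q₁ i j) * Dl hW (mk F hF) (Gq fun i j => Q₂ i j) ∈ Nf hW Γ) {q : E2}
    (hq : q ∈ Γ) (hqW : q ∈ W) (n : ℕ) : iteratedFDeriv ℝ n (wdg F Q₁ Q₂) q = 0 := by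
  have h1 : wdg F Q₁ Q₂ =ᶠ[𝓝 q] ev (Gq (fun i j => Q₂ i j) * Dl hW (mk F hF) (Gq fun i j => Q₁ i j) -
        Gq (fun i j => Q₁ i j) * Dl hW (mk F hF) (Gq fun i j => Q₂ i j)) := by
    filter_upwards [hW.mem_nhds hqW] with y hy
    exact wdg_eq hW hF Q₁ Q₂ hy
  rw [(h1.iteratedFDeriv ℝ n).eq_of_nhds]
  exact flat_iter hW hq hqW n _ h

theorem lim_neg' {W : Set E2} (hW : IsOpen W) {F : E2 → ℝ} (hF : ContDiffOn ℝ ∞ F W)
    (hreg : ∀ p ∈ W, tang F p ≠ 0) {c : ℝ → E2} (hc : CL F W c)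
    {C : Set ℝ} (hC : AccPt (F (c 0)) (𝓟 C)) (hproj : ∀ z ∈ W, F z ∈ C → PI F z) {t0 : ℝ}
    (ht0 : bend F (c t0) < 0) :
    ∃ Q₁ Q₂ : Matrix (Fin 3) (Fin 3) ℝ, Q₁.IsSymm ∧ Q₂.IsSymm ∧ Q₁.det ≠ 0 ∧ IsEll (range c) ∧
      range c = {p | cq Q₁ p = 0} ∧ (∀ t, 0 < cq Q₂ (c t)) ∧
      ∀ t n, iteratedFDeriv ℝ n (wdg F Q₁ Q₂) (c t) = 0 := by
  have hneg := lim_curved_neg hW hF hreg hc hC hproj ht0
  obtain ⟨W', hW'd⟩ : ∃ W', W' = W ∩ bend F ⁻¹' Iio 0 := ⟨_, rfl⟩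
  have hW' : IsOpen W' := by
    rw [hW'd]
    exact (bend_cont hW F hF).isOpen_inter_preimage hW isOpen_Iio
  have hWW : W' ⊆ W := by rw [hW'd]; exact inter_subset_left
  have hmem : ∀ t, c t ∈ W' := fun t => by rw [hW'd]; exact ⟨hc.mem t, hneg t⟩
  obtain ⟨Q₁, Q₂, h1, h2, h3, h4, h5, h6, h7⟩ := lim_neg hW' (hF.mono hWW)
    (fun p hp => hreg p (hWW hp)) (fun p hp => by rw [hW'd] at hp; exact hp.2)
    (c := c) ⟨hc.diff, hc.reg, hc.per, hmem, hc.lev⟩ hC (fun z hz hzC => hproj z (hWW hz) hzC)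
  exact ⟨Q₁, Q₂, h1, h2, h3, h4, h5, h6, fun t n =>
    wdg_flat hW' (hF.mono hWW) h7 ⟨t, rfl⟩ (hmem t) n⟩

theorem lim_main {W : Set E2} (hW : IsOpen W) {F : E2 → ℝ} (hF : ContDiffOn ℝ ∞ F W)
    (hreg : ∀ p ∈ W, tang F p ≠ 0) {c : ℝ → E2} (hc : CL F W c)
    {C : Set ℝ} (hC : AccPt (F (c 0)) (𝓟 C)) (hproj : ∀ z ∈ W, F z ∈ C → PI F z) :
    ∃ Q₁ Q₂ : Matrix (Fin 3) (Fin 3) ℝ, Q₁.IsSymm ∧ Q₂.IsSymm ∧ Q₁.det ≠ 0 ∧ IsEll (range c) ∧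
      range c = {p | cq Q₁ p = 0} ∧ (∀ t, 0 < cq Q₂ (c t)) ∧
      ∀ t n, iteratedFDeriv ℝ n (wdg F Q₁ Q₂) (c t) = 0 := by
  obtain ⟨T, hT, hper⟩ := hc.per
  obtain ⟨t0, ht0⟩ := exists_curved hW hF (hc.toLC subset_rfl hreg) hT (by simpa using hper 0)
  rcases lt_or_gt_of_ne ht0 with h | h
  · exact lim_neg' hW hF hreg hc hC hproj h
  · obtain ⟨Q₁, Q₂, h1, h2, h3, h4, h5, h6, h7⟩ := lim_neg' hW (F := -F) hF.neg
      (fun p hp => by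
        rw [tang_neg]
        exact neg_ne_zero.mpr (hreg p hp)) (c := c)
      ⟨hc.diff, hc.reg, hc.per, hc.mem, fun t => by rw [Pi.neg_apply, Pi.neg_apply, hc.lev t]⟩
      (C := -C) (accPt_neg hC) (fun z hz hzC => PI_neg (hproj z hz (by
        rw [Set.mem_neg, Pi.neg_apply, neg_neg] at hzC
        exact hzC))) (t0 := t0) (by rw [bend_neg]; linarith)
    refine ⟨Q₁, Q₂, h1, h2, h3, h4, h5, h6, fun t n => ?_⟩
    have h8 : wdg F Q₁ Q₂ = -wdg (-F) Q₁ Q₂ := by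
      funext p
      unfold wdg
      rw [Pi.neg_apply, tang_neg, map_neg, map_neg]
      ring
    rw [h8, iteratedFDeriv_neg_apply, h7 t n, neg_zero]

theorem cq_smooth (Q : Matrix (Fin 3) (Fin 3) ℝ) : ContDiff ℝ ω (cq Q) := by
  unfold cq form
  simp only [Matrix.cons_val_zero, Matrix.cons_val_one, Matrix.cons_val]
  fun_prop

theorem wdg_an {W : Set E2} (hW : IsOpen W) {F : E2 → ℝ} (hF : ContDiffOn ℝ ω F W)
    (Q₁ Q₂ : Matrix (Fin 3) (Fin 3) ℝ) : AnalyticOnNhd ℝ (wdg F Q₁ Q₂) W := by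
  have hFd : ContDiffOn ℝ ω (fderiv ℝ F) W := hF.fderiv_of_isOpen hW (m := ω) (by simp)
  have ht : ContDiffOn ℝ ω (tang F) W := by
    unfold tang
    exact (hFd.clm_apply contDiffOn_const).prodMk (hFd.clm_apply contDiffOn_const).neg
  have hd : ∀ Q : Matrix (Fin 3) (Fin 3) ℝ,
      ContDiffOn ℝ ω (fun p => fderiv ℝ (cq Q) p (tang F p)) W := fun Q =>
    (((cq_smooth Q).fderiv_right (m := ω) (by simp)).contDiffOn).clm_apply ht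
  have h : ContDiffOn ℝ ω (wdg F Q₁ Q₂) W :=
    ((cq_smooth Q₂).contDiffOn.mul (hd Q₁)).sub ((cq_smooth Q₁).contDiffOn.mul (hd Q₂))
  exact fun p hp => (h.contDiffAt (hW.mem_nhds hp)).analyticAt

theorem zero_of_flat {g : E2 → ℝ} {q : E2} (hg : AnalyticAt ℝ g q)
    (h : ∀ n, iteratedFDeriv ℝ n g q = 0) : g =ᶠ[𝓝 q] 0 := by
  obtain ⟨p, r, hp⟩ := hg
  have h1 : Metric.eball q r ∈ 𝓝 q := Metric.eball_mem_nhds q hp.r_pos
  filter_upwards [h1] with z hz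
  have h2 := hp.hasSum_iteratedFDeriv (y := z - q) (by
    rw [Metric.mem_eball, edist_zero_right]
    rw [Metric.mem_eball, edist_eq_enorm_sub] at hz
    exact hz)
  simp only [h] at h2
  have h3 : q + (z - q) = z := by abel
  rw [h3] at h2
  have h5 : HasSum (fun n : ℕ => (0 : ℝ)) (g z) := by
    have h6 : (fun n : ℕ => (0 : ℝ)) = fun n : ℕ => ((n.factorial : ℝ))⁻¹ •
        ((0 : ContinuousMultilinearMap ℝ (fun _ : Fin n => E2) ℝ) fun _ => z - q) := by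
      funext n
      show (0 : ℝ) = ((n.factorial : ℝ))⁻¹ • (0 : ℝ)
      rw [smul_zero]
    rw [h6]
    exact h2
  exact h5.unique hasSum_zero

theorem wdg_zero {W : Set E2} (hW : IsOpen W) (hWc : IsPreconnected W) {F : E2 → ℝ}
    (hF : ContDiffOn ℝ ω F W) {Q₁ Q₂ : Matrix (Fin 3) (Fin 3) ℝ} {q : E2} (hq : q ∈ W)
    (h : ∀ n, iteratedFDeriv ℝ n (wdg F Q₁ Q₂) q = 0) : ∀ p ∈ W, wdg F Q₁ Q₂ p = 0 := by
  have ha := wdg_an hW hF Q₁ Q₂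
  exact fun p hp => ha.eqOn_zero_of_preconnected_of_eventuallyEq_zero hWc hq
    (zero_of_flat (ha q hq) h) hp

end Pool.Agent.W5h48.AL
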