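import Pool.Agent.W5h48.AL.LimF

set_option autoImplicit false
set_option linter.unusedSimpArgs false
set_option linter.unusedVariables false

open Set Filter Topology
open scoped ContDiff

namespace Pool.Agent.W5h48.AL

theorem cq_lin (Q₁ Q₂ : Matrix (Fin 3) (Fin 3) ℝ) (l : ℝ) (p : E2) :
    cq (Q₁ - l • Q₂) p = cq Q₁ p - l * cq Q₂ p := by
  unfold cq form
  simp only [Matrix.sub_apply, Matrix.smul_apply, smul_eq_mul]
  ring

theorem ratio_const {W : Set E2} (hW : IsOpen W) {F : E2 → ℝ} (hF : ContDiffOn ℝ ∞ F W)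
    {c : ℝ → E2} (h : LC F W c) {Q₁ Q₂ : Matrix (Fin 3) (Fin 3) ℝ}
    (h2 : ∀ t, cq Q₂ (c t) ≠ 0) (h0 : ∀ t, wdg F Q₁ Q₂ (c t) = 0) (t : ℝ) :
    cq Q₁ (c t) = cq Q₁ (c 0) / cq Q₂ (c 0) * cq Q₂ (c t) := by
  have hd : ∀ t, HasDerivAt (fun s => cq Q₁ (c s) / cq Q₂ (c s)) 0 t := by
    intro t
    obtain ⟨μ, -, hμ, -⟩ := along hW hF h t
    have hc := (h.diff t).hasDerivAt
    have hq : ∀ Q : Matrix (Fin 3) (Fin 3) ℝ, HasDerivAt (fun s => cq Q (c s))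
        (fderiv ℝ (cq Q) (c t) (deriv c t)) t := fun Q =>
      HasFDerivAt.comp_hasDerivAt t
        (((cq_smooth Q).contDiffAt.differentiableAt (by simp)).hasFDerivAt) hc
    refine ((hq Q₁).div (hq Q₂) (h2 t)).congr_deriv ?_
    rw [div_eq_zero_iff]
    left
    have h3 := h0 t
    unfold wdg at h3
    rw [hμ, map_smul, map_smul, smul_eq_mul, smul_eq_mul]
    linear_combination μ * h3
  have h3 : cq Q₁ (c t) / cq Q₂ (c t) = cq Q₁ (c 0) / cq Q₂ (c 0) :=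
    is_const_of_deriv_eq_zero (f := fun s => cq Q₁ (c s) / cq Q₂ (c s))
      (fun t => (hd t).differentiableAt) (fun t => (hd t).deriv) t 0
  rw [← h3, div_mul_cancel₀ _ (h2 t)]

theorem lim_an {W : Set E2} (hW : IsOpen W) {F : E2 → ℝ} (hF : ContDiffOn ℝ ω F W)
    (hreg : ∀ p ∈ W, tang F p ≠ 0) {Γ : Set E2} (hΓ : Γ ⊆ W)
    {Q₁ Q₂ : Matrix (Fin 3) (Fin 3) ℝ} (hs1 : Q₁.IsSymm) (hs2 : Q₂.IsSymm) (hdet : Q₁.det ≠ 0)
    (h1 : ∀ q ∈ Γ, cq Q₁ q = 0) (h2 : ∀ q ∈ Γ, 0 < cq Q₂ q)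
    (h3 : ∀ q ∈ Γ, ∀ n, iteratedFDeriv ℝ n (wdg F Q₁ Q₂) q = 0) :
    ∃ N : Set E2, IsOpen N ∧ Γ ⊆ N ∧ N ⊆ W ∧ ∀ c, CL F N c → ∃ l : ℝ,
      (Q₁ - l • Q₂).det ≠ 0 ∧ IsEll (range c) ∧ range c = {p | cq (Q₁ - l • Q₂) p = 0} := by
  have hF' : ContDiffOn ℝ ∞ F W := hF.of_le (by simp)
  have ha := wdg_an hW hF Q₁ Q₂
  have hcont : ∀ Q : Matrix (Fin 3) (Fin 3) ℝ, Continuous (cq Q) := fun Q => (cq_smooth Q).continuous
  obtain ⟨N, hN⟩ : ∃ N : Set E2, N = W ∩ ({p | ∀ᶠ z in 𝓝 p, wdg F Q₁ Q₂ z = 0} ∩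
    ({p | 0 < cq Q₂ p} ∩ {p | (cq Q₂ p • Q₁ - cq Q₁ p • Q₂).det ≠ 0})) := ⟨_, rfl⟩
  refine ⟨N, ?_, ?_, by rw [hN]; exact inter_subset_left, ?_⟩
  · rw [hN]
    refine hW.inter (isOpen_setOfPred_eventually_nhds.inter
      ((isOpen_lt continuous_const (hcont Q₂)).inter ?_))
    have : Continuous fun p : E2 => (cq Q₂ p • Q₁ - cq Q₁ p • Q₂).det := by
      apply Continuous.matrix_det
      exact ((hcont Q₂).smul continuous_const).sub ((hcont Q₁).smul continuous_const)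
    exact isOpen_ne_fun this continuous_const
  · intro q hq
    rw [hN]
    refine ⟨hΓ hq, zero_of_flat (ha q (hΓ hq)) (h3 q hq), h2 q hq, ?_⟩
    show (cq Q₂ q • Q₁ - cq Q₁ q • Q₂).det ≠ 0
    rw [h1 q hq, zero_smul, sub_zero, Matrix.det_smul]
    exact mul_ne_zero (pow_ne_zero _ (h2 q hq).ne') hdet
  · intro c hc
    have hmem : ∀ t, c t ∈ W ∧ wdg F Q₁ Q₂ (c t) = 0 ∧ 0 < cq Q₂ (c t) ∧
        (cq Q₂ (c t) • Q₁ - cq Q₁ (c t) • Q₂).det ≠ 0 := by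
      intro t
      have h4 := hc.mem t
      rw [hN] at h4
      exact ⟨h4.1, h4.2.1.self_of_nhds, h4.2.2.1, h4.2.2.2⟩
    have hL : LC F W c := ⟨hc.diff, hc.reg, fun t => (hmem t).1, hc.lev,
      fun t => hreg _ (hmem t).1⟩
    obtain ⟨l, hl⟩ : ∃ l, l = cq Q₁ (c 0) / cq Q₂ (c 0) := ⟨_, rfl⟩
    have hr := ratio_const hW hF' hL (Q₁ := Q₁) (Q₂ := Q₂) (fun t => (hmem t).2.2.1.ne')
      (fun t => (hmem t).2.1)
    rw [← hl] at hr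
    have hq : ∀ t, cq (Q₁ - l • Q₂) (c t) = 0 := fun t => by rw [cq_lin, hr t, sub_self]
    have hd : (Q₁ - l • Q₂).det ≠ 0 := by
      intro h0
      apply (hmem 0).2.2.2
      have h4 : cq Q₂ (c 0) • Q₁ - cq Q₁ (c 0) • Q₂ = cq Q₂ (c 0) • (Q₁ - l • Q₂) := by
        rw [smul_sub, smul_smul, hl, mul_div_cancel₀ _ (hmem 0).2.2.1.ne']
      rw [h4, Matrix.det_smul, h0, mul_zero]
    obtain ⟨T, hT, hper⟩ := hc.per
    have key := ell (q := fun i j => (Q₁ - l • Q₂) i j) (fun i j => by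
        simp only [Matrix.sub_apply, Matrix.smul_apply]
        rw [hs1.apply j i, hs2.apply j i]) hd hc.diff hc.reg hT (by simpa using hper 0) hq
    exact ⟨l, hd, key.2, key.1⟩

end Pool.Agent.W5h48.AL
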