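import Pool.Agent.W5h48.AL.Pencil

set_option autoImplicit false
set_option linter.unusedSimpArgs false

open Set Filter Topology
open scoped ContDiff

namespace Pool.Agent.W5h48.AL

theorem ev_Bf {W : Set E2} {p : E2} (hp : p ∈ W) (k : Sm W) (p0 p1 p2 : Fin 3 → Sm W)
    (j l : Fin 3) : ev (Bf k p0 p1 p2 j l) p = Bf (ev k p) (fun j => ev (p0 j) p)
      (fun j => ev (p1 j) p) (fun j => ev (p2 j) p) j l := map_Bf (evA hp) k p0 p1 p2 j l

theorem ev_Cf {W : Set E2} {p : E2} (hp : p ∈ W) (c c' : Sm W) (p0 p1 p2 : Fin 3 → Sm W)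
    (j l : Fin 3) : ev (Cf c c' p0 p1 p2 j l) p = Cf (ev c p) (ev c' p) (fun j => ev (p0 j) p)
      (fun j => ev (p1 j) p) (fun j => ev (p2 j) p) j l := map_Cf (evA hp) c c' p0 p1 p2 j l

theorem ev_det3 {W : Set E2} {p : E2} (hp : p ∈ W) (p0 p1 p2 : Fin 3 → Sm W)
    (h : det3 p0 p1 p2 = 1) : det3 (fun j => ev (p0 j) p) (fun j => ev (p1 j) p)
      (fun j => ev (p2 j) p) = 1 := by
  have h1 := congrArg (evA hp) h
  unfold det3 at h1 ⊢
  simp only [map_add, map_sub, map_mul, map_one, evA_app] at h1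
  exact h1

theorem form_smul (M : Fin 3 → Fin 3 → ℝ) (X Y : Fin 3 → ℝ) (c : ℝ) (h : ∀ j, X j = c * Y j) :
    form M X = c ^ 2 * form M Y := by
  unfold form
  rw [h 0, h 1, h 2]
  ring

/-- the functional applied to a matrix of functions -/
noncomputable def lin {W : Set E2} (φ : Matrix (Fin 3) (Fin 3) ℝ →ₗ[ℝ] ℝ)
    (B : Fin 3 → Fin 3 → Sm W) : Sm W :=
  ∑ j, ∑ l, φ (Matrix.single j l 1) • B j l

theorem ev_lin {W : Set E2} {p : E2} (hp : p ∈ W) (φ : Matrix (Fin 3) (Fin 3) ℝ →ₗ[ℝ] ℝ)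
    (B : Fin 3 → Fin 3 → Sm W) : ev (lin φ B) p = φ (Matrix.of fun j l => ev (B j l) p) := by
  have h1 : ev (lin φ B) p = ∑ j, ∑ l, φ (Matrix.single j l 1) * ev (B j l) p := by
    rw [← evA_app hp]
    unfold lin
    simp only [map_sum, map_smul, smul_eq_mul, evA_app]
  rw [h1]
  conv_rhs => rw [Matrix.matrix_eq_sum_single (Matrix.of fun j l => ev (B j l) p)]
  simp only [map_sum]
  refine Finset.sum_congr rfl fun j _ => Finset.sum_congr rfl fun l _ => ?_
  rw [show Matrix.single j l ((Matrix.of fun j l => ev (B j l) p) j l) =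
    ev (B j l) p • (Matrix.single j l (1 : ℝ) : Matrix (Fin 3) (Fin 3) ℝ) by
      rw [Matrix.smul_single, smul_eq_mul, mul_one]; rfl]
  rw [map_smul, smul_eq_mul, mul_comm]

theorem pencil {W U : Set E2} (hW : IsOpen W) (hU : IsOpen U) (hUW : U ⊆ W)
    (hUc : IsConnected U) (F0 : E2 → ℝ) (hF : ContDiffOn ℝ ∞ F0 W)
    (hpos : ∀ z ∈ W, 0 < ev (hForm hW (mk F0 hF)) z) (hproj : ∀ z ∈ U, PI F0 z) :
    ∃ (B : Fin 3 → Fin 3 → Sm W) (Q₁ Q₂ : Matrix (Fin 3) (Fin 3) ℝ),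
      Q₁.IsSymm ∧ Q₂.IsSymm ∧ LinearIndependent ℝ ![Q₁, Q₂] ∧
      (∀ p ∈ W, (Matrix.of fun j l => ev (B j l) p).det = -1) ∧
      (∀ p ∈ W, form (fun j l => ev (B j l) p) ![p.1, p.2, 1] = 0) ∧
      (∀ p ∈ W, p ∈ closure U → ∃ l₁ l₂ : ℝ,
        (Matrix.of fun j l => ev (B j l) p) = l₁ • Q₁ + l₂ • Q₂) ∧
      (∀ p ∈ W, p ∈ closure U → ∀ v, fderiv ℝ F0 p v = 0 →
        ∀ j l, fderiv ℝ (ev (B j l)) p v = 0) := by
  obtain ⟨L, μ, Gi, Bs, hL, hμ⟩ := exists_base hW (mk F0 hF) hpos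
  obtain ⟨k0, k1, a, β, p0, p1, p2, R⟩ := Bs.rel
  obtain ⟨dx, hdx⟩ : ∃ dx, dx = dX (pY hW) (mk F0 hF) μ := ⟨_, rfl⟩
  obtain ⟨dy, hdy⟩ : ∃ dy, dy = dY (pX hW) (mk F0 hF) μ := ⟨_, rfl⟩
  obtain ⟨wx, hwx⟩ : ∃ wx, wx = wX (pX hW) (pY hW) (mk F0 hF) L μ := ⟨_, rfl⟩
  obtain ⟨wy, hwy⟩ : ∃ wy, wy = wY (pX hW) (pY hW) (mk F0 hF) L μ := ⟨_, rfl⟩
  obtain ⟨D, hD⟩ : ∃ D, D = DD (pX hW) (pY hW) (mk F0 hF) μ := ⟨_, rfl⟩
  obtain ⟨δ, hδ⟩ : ∃ δ, δ = dd (pX hW) (pY hW) (mk F0 hF) L μ := ⟨_, rfl⟩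
  obtain ⟨η, hη⟩ : ∃ η, η = eta (pX hW) (pY hW) (mk F0 hF) L μ := ⟨_, rfl⟩
  rw [← hdx, ← hdy, ← hwx, ← hwy, ← hD, ← hδ, ← hη] at R
  have hDf : ∀ f, D f = dx * pX hW f + dy * pY hW f := fun f => by rw [hD, hdx, hdy]; rfl
  have hδf : ∀ f, δ f = wx * pX hW f + wy * pY hW f := fun f => by rw [hδ, hwx, hwy]; rfl
  have hdx' : dx = μ * μ * μ * pY hW (mk F0 hF) := hdx
  have hdy' : dy = -(μ * μ * μ * pX hW (mk F0 hF)) := hdy
  clear hdx hdy hwx hwy hD hδ hη
  have hC := core2 hW F0 hF hμ hdx' hdy' hDf hδf R hU hUW hproj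
    (D' := res hUW dx • pX hU + res hUW dy • pY hU)
    (δ' := res hUW wx • pX hU + res hUW wy • pY hU) (fun f => rfl) (fun f => rfl)
  obtain ⟨z0, hz0⟩ := hUc.nonempty
  have hz0W : z0 ∈ W := hUW hz0
  obtain ⟨B, hB⟩ : ∃ B : Fin 3 → Fin 3 → Sm W, B = Bf k1 p0 p1 p2 := ⟨_, rfl⟩
  obtain ⟨C, hCd⟩ : ∃ C : Fin 3 → Fin 3 → Sm W, C = Cf (k0 + D a) (D (k0 + D a)) p0 p1 p2 :=
    ⟨_, rfl⟩
  rw [← hB, ← hCd] at hC
  have hdet : ∀ p ∈ W, det3 (fun j => ev (p0 j) p) (fun j => ev (p1 j) p)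
      (fun j => ev (p2 j) p) = 1 := fun p hp => ev_det3 hp p0 p1 p2 R.frame.det
  have hBm : ∀ p ∈ W, (fun j l => ev (B j l) p) = Bf (ev k1 p) (fun j => ev (p0 j) p)
      (fun j => ev (p1 j) p) (fun j => ev (p2 j) p) := fun p hp => by
    funext j l
    rw [hB, ev_Bf hp]
  have hCm : ∀ p ∈ W, (fun j l => ev (C j l) p) = Cf (ev (k0 + D a) p) (ev (D (k0 + D a)) p)
      (fun j => ev (p0 j) p) (fun j => ev (p1 j) p) (fun j => ev (p2 j) p) := fun p hp => by
    funext j l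
    rw [hCd, ev_Cf hp]
  have hBdet : ∀ p ∈ W, (Matrix.of fun j l => ev (B j l) p).det = -1 := fun p hp => by
    rw [hBm p hp, Bf_det, hdet p hp]
    norm_num
  refine ⟨B, Matrix.of fun j l => ev (B j l) z0, Matrix.of fun j l => ev (C j l) z0,
    ?_, ?_, ?_, hBdet, ?_, ?_, ?_⟩
  · ext j l
    rw [Matrix.transpose_apply, Matrix.of_apply, Matrix.of_apply, hB, Bf_symm]
  · ext j l
    rw [Matrix.transpose_apply, Matrix.of_apply, Matrix.of_apply, hCd, Cf_symm]
  · rw [LinearIndependent.pair_iff]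
    intro s t hst
    have hf := Bf_form (ev k1 z0) (fun j => ev (p0 j) z0) (fun j => ev (p1 j) z0)
      (fun j => ev (p2 j) z0)
    have hg := Cf_form (ev (k0 + D a) z0) (ev (D (k0 + D a)) z0) (fun j => ev (p0 j) z0)
      (fun j => ev (p1 j) z0) (fun j => ev (p2 j) z0)
    rw [hdet z0 hz0W, one_pow, ← hCm z0 hz0W] at hg
    rw [← hBm z0 hz0W] at hf
    have hent : ∀ j l, s * ev (B j l) z0 + t * ev (C j l) z0 = 0 := fun j l => by
      have := congrFun (congrFun hst j) l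
      simpa using this
    have ht : t = 0 := by
      unfold form at hf hg
      linear_combination (-s) * hf - t * hg +
        (ev (p0 0) z0 * ev (p0 0) z0) * hent 0 0 + (ev (p0 0) z0 * ev (p0 1) z0) * hent 0 1 +
        (ev (p0 0) z0 * ev (p0 2) z0) * hent 0 2 + (ev (p0 1) z0 * ev (p0 0) z0) * hent 1 0 +
        (ev (p0 1) z0 * ev (p0 1) z0) * hent 1 1 + (ev (p0 1) z0 * ev (p0 2) z0) * hent 1 2 +
        (ev (p0 2) z0 * ev (p0 0) z0) * hent 2 0 + (ev (p0 2) z0 * ev (p0 1) z0) * hent 2 1 +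
        (ev (p0 2) z0 * ev (p0 2) z0) * hent 2 2
    refine ⟨?_, ht⟩
    by_contra hs
    have h0 : (Matrix.of fun j l => ev (B j l) z0) = 0 := by
      ext j l
      have := hent j l
      rw [ht, zero_mul, add_zero] at this
      rw [Matrix.of_apply, Matrix.zero_apply]
      exact (mul_eq_zero.mp this).resolve_left hs
    have h1 := hBdet z0 hz0W
    rw [h0, Matrix.det_zero] at h1
    norm_num at h1
  · intro p hp
    have hf := Bf_form (ev k1 p) (fun j => ev (p0 j) p) (fun j => ev (p1 j) p)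
      (fun j => ev (p2 j) p)
    rw [← hBm p hp] at hf
    have hs := form_smul (fun j l => ev (B j l) p) (fun j => ev (p0 j) p) ![p.1, p.2, 1] (ev L p)
      (by
        intro j
        fin_cases j
        · show ev (p0 0) p = ev L p * p.1
          rw [R.p00, ev_mul, ev_mk _ _ hp]
        · show ev (p0 1) p = ev L p * p.2
          rw [R.p01, ev_mul, ev_mk _ _ hp]
        · show ev (p0 2) p = ev L p * 1
          rw [R.p02, mul_one])
    rw [hf] at hs
    exact ((mul_eq_zero.mp hs.symm).resolve_left (pow_pos (hL p hp) 2).ne')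
  · intro p hp hpc
    have hmem : (Matrix.of fun j l => ev (B j l) p) ∈ Submodule.span ℝ
        {Matrix.of fun j l => ev (B j l) z0, Matrix.of fun j l => ev (C j l) z0} := by
      rw [← Subspace.forall_mem_dualAnnihilator_apply_eq_zero_iff]
      intro φ hφ
      rw [Submodule.mem_dualAnnihilator] at hφ
      have hφ1 : φ (Matrix.of fun j l => ev (B j l) z0) = 0 :=
        hφ _ (Submodule.subset_span (by simp))
      have hφ2 : φ (Matrix.of fun j l => ev (C j l) z0) = 0 :=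
        hφ _ (Submodule.subset_span (by simp))
      rw [← ev_lin hp φ B]
      refine closure_zero hW (lin φ B) ?_ hp hpc
      intro z hz
      rw [← ev_res hUW _ hz]
      have hΔ := congrArg (res hUW) R.hΔ
      simp only [map_mul, map_sub, map_one] at hΔ
      have rl : ∀ M : Fin 3 → Fin 3 → Sm W, res hUW (lin φ M) =
          ∑ j, ∑ l, φ (Matrix.single j l 1) • res hUW (M j l) := fun M => by
        unfold lin
        simp only [map_sum, map_smul]
      refine two_forms hU hUc.isPreconnected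
        (D' := res hUW dx • pX hU + res hUW dy • pY hU)
        (δ' := res hUW wx • pX hU + res hUW wy • pY hU)
        (L := res hUW L) (c := res hUW (k0 + D a)) (m := res hUW (k1 + a + β))
        (a := res hUW a) (f := res hUW (lin φ B)) (g := res hUW (lin φ C))
        (fun f => rfl) (fun f => rfl) hΔ ?_ ?_ ?_ ?_ hz0 ?_ ?_ z hz
      · rw [rl, map_sum]
        refine Finset.sum_eq_zero fun j _ => ?_
        rw [map_sum]
        refine Finset.sum_eq_zero fun l _ => ?_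
        rw [Derivation.map_smul, (hC j l).1, smul_zero]
      · rw [rl, rl, map_sum, Finset.mul_sum]
        refine Finset.sum_congr rfl fun j _ => ?_
        rw [map_sum, Finset.mul_sum]
        refine Finset.sum_congr rfl fun l _ => ?_
        rw [Derivation.map_smul, (hC j l).2.1, mul_smul_comm]
      · rw [rl, rl, map_sum, Finset.mul_sum, Finset.mul_sum, ← Finset.sum_add_distrib]
        refine Finset.sum_congr rfl fun j _ => ?_
        rw [map_sum, Finset.mul_sum, Finset.mul_sum, ← Finset.sum_add_distrib]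
        refine Finset.sum_congr rfl fun l _ => ?_
        rw [Derivation.map_smul, (hC j l).2.2.1, mul_smul_comm, mul_smul_comm, smul_add]
      · rw [rl, map_sum, Finset.mul_sum]
        refine Finset.sum_congr rfl fun j _ => ?_
        rw [map_sum, Finset.mul_sum]
        refine Finset.sum_congr rfl fun l _ => ?_
        rw [Derivation.map_smul, (hC j l).2.2.2, mul_smul_comm]
      · rw [ev_res hUW _ hz0, ev_lin hz0W, hφ1]
      · rw [ev_res hUW _ hz0, ev_lin hz0W, hφ2]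
    rw [Submodule.mem_span_pair] at hmem
    obtain ⟨l₁, l₂, h⟩ := hmem
    exact ⟨l₁, l₂, h.symm⟩
  · intro p hp hpc v hv j l
    have h0 : ev (D (B j l)) p = 0 := by
      refine closure_zero hW _ ?_ hp hpc
      intro z hz
      have h1 := (hC j l).1
      have h2 : res hUW (D (B j l)) = (res hUW dx • pX hU + res hUW dy • pY hU)
          (res hUW (B j l)) := by
        rw [hDf, map_add, map_mul, map_mul, res_pd hU hW, res_pd hU hW]
        rfl
      rw [← ev_res hUW _ hz, h2, h1, ev_zero]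
    have hFx : ev (pX hW (mk F0 hF)) p = fderiv ℝ F0 p ((1 : ℝ), (0 : ℝ)) := pd_mk hW _ _ _ hp
    have hFy : ev (pY hW (mk F0 hF)) p = fderiv ℝ F0 p ((0 : ℝ), (1 : ℝ)) := pd_mk hW _ _ _ hp
    obtain ⟨fx, hfx⟩ : ∃ fx, fx = ev (pX hW (mk F0 hF)) p := ⟨_, rfl⟩
    obtain ⟨fy, hfy⟩ : ∃ fy, fy = ev (pY hW (mk F0 hF)) p := ⟨_, rfl⟩
    obtain ⟨bx, hbx⟩ : ∃ bx, bx = ev (pX hW (B j l)) p := ⟨_, rfl⟩
    obtain ⟨bY, hbY⟩ : ∃ bY, bY = ev (pY hW (B j l)) p := ⟨_, rfl⟩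
    rw [fd_eq hW _ hp, ← hbx, ← hbY]
    have e1 : v.1 * fx + v.2 * fy = 0 := by
      have h6 : v = v.1 • ((1 : ℝ), (0 : ℝ)) + v.2 • ((0 : ℝ), (1 : ℝ)) := by
        ext <;> simp
      have h7 : fderiv ℝ F0 p v = v.1 * fderiv ℝ F0 p ((1 : ℝ), (0 : ℝ)) +
          v.2 * fderiv ℝ F0 p ((0 : ℝ), (1 : ℝ)) := by
        conv_lhs => rw [h6]
        rw [map_add, map_smul, map_smul, smul_eq_mul, smul_eq_mul]
      rw [hfx, hfy, hFx, hFy, ← h7, hv]
    have e2 : fy * bx - fx * bY = 0 := by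
      rw [hDf, hdx', hdy'] at h0
      simp only [ev_add, ev_mul, ev_neg] at h0
      rw [← hfx, ← hfy, ← hbx, ← hbY] at h0
      have h3 := hμ p hp
      have h4 : ev μ p ^ 3 * (fy * bx - fx * bY) = 0 := by linear_combination h0
      exact (mul_eq_zero.mp h4).resolve_left (pow_pos h3 3).ne'
    have e3 : 0 < fx ^ 2 + fy ^ 2 := by
      by_contra hn
      have h1 : fx = 0 := by nlinarith [sq_nonneg fx, sq_nonneg fy]
      have h2 : fy = 0 := by nlinarith [sq_nonneg fx, sq_nonneg fy]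
      have h3 := hpos p hp
      unfold hForm at h3
      rw [ev_sub, ev_mul, ev_mul (pY hW (mk F0 hF)), ← hfx, ← hfy, h1, h2] at h3
      simp at h3
    have e4 : (fx ^ 2 + fy ^ 2) * (v.1 * bx + v.2 * bY) = 0 := by
      linear_combination (fx * bx + fy * bY) * e1 + (fy * v.1 - fx * v.2) * e2
    exact (mul_eq_zero.mp e4).resolve_left e3.ne'

end Pool.Agent.W5h48.AL
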