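import Pool.Agent.W5h48.AL.Tr

set_option autoImplicit false
set_option linter.unusedSimpArgs false
set_option linter.unusedVariables false

open Set Filter Topology
open scoped ContDiff

namespace Pool.Agent.W5h48.AL

section Alg

variable {A : Type*} [CommRing A] [Algebra ℝ A]

/-- elements whose derivatives up to order `n` are in `Z` -/
def Nn (X Y : Derivation ℝ A A) (Z : Ideal A) : ℕ → Ideal A
  | 0 => Z
  | n + 1 =>
    { carrier := {f | f ∈ Nn X Y Z n ∧ X f ∈ Nn X Y Z n ∧ Y f ∈ Nn X Y Z n}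
      add_mem' := by
        rintro f g ⟨h1, h2, h3⟩ ⟨g1, g2, g3⟩
        refine ⟨add_mem h1 g1, ?_, ?_⟩
        · rw [map_add]; exact add_mem h2 g2
        · rw [map_add]; exact add_mem h3 g3
      zero_mem' := by
        refine ⟨Submodule.zero_mem _, ?_, ?_⟩ <;> rw [map_zero] <;> exact Submodule.zero_mem _
      smul_mem' := by
        rintro g f ⟨h1, h2, h3⟩
        rw [smul_eq_mul]
        refine ⟨Ideal.mul_mem_left _ _ h1, ?_, ?_⟩
        · rw [Derivation.leibniz, smul_eq_mul, smul_eq_mul]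
          exact add_mem (Ideal.mul_mem_left _ _ h2) (Ideal.mul_mem_right _ _ h1)
        · rw [Derivation.leibniz, smul_eq_mul, smul_eq_mul]
          exact add_mem (Ideal.mul_mem_left _ _ h3) (Ideal.mul_mem_right _ _ h1) }

theorem mem_Nn_succ {X Y : Derivation ℝ A A} {Z : Ideal A} {n : ℕ} {f : A} :
    f ∈ Nn X Y Z (n + 1) ↔ f ∈ Nn X Y Z n ∧ X f ∈ Nn X Y Z n ∧ Y f ∈ Nn X Y Z n := Iff.rfl

/-- elements all of whose derivatives are in `Z` -/
def Ninf (X Y : Derivation ℝ A A) (Z : Ideal A) : Ideal A := ⨅ n, Nn X Y Z n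

theorem mem_Ninf {X Y : Derivation ℝ A A} {Z : Ideal A} {f : A} :
    f ∈ Ninf X Y Z ↔ ∀ n, f ∈ Nn X Y Z n := by
  unfold Ninf
  exact Submodule.mem_iInf _

theorem Ninf_X {X Y : Derivation ℝ A A} {Z : Ideal A} {f : A} (h : f ∈ Ninf X Y Z) :
    X f ∈ Ninf X Y Z := by
  rw [mem_Ninf] at h ⊢
  exact fun n => (h (n + 1)).2.1

theorem Ninf_Y {X Y : Derivation ℝ A A} {Z : Ideal A} {f : A} (h : f ∈ Ninf X Y Z) :
    Y f ∈ Ninf X Y Z := by
  rw [mem_Ninf] at h ⊢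
  exact fun n => (h (n + 1)).2.2

theorem Ninf_le (X Y : Derivation ℝ A A) (Z : Ideal A) : Ninf X Y Z ≤ Z := fun f h =>
  mem_Ninf.mp h 0

theorem le_Ninf {X Y : Derivation ℝ A A} {Z S : Ideal A} (h : S ≤ Z) (hX : ∀ f ∈ S, X f ∈ S)
    (hY : ∀ f ∈ S, Y f ∈ S) : S ≤ Ninf X Y Z := by
  intro f hf
  rw [mem_Ninf]
  intro n
  induction n generalizing f with
  | zero => exact h hf
  | succ n ih => exact ⟨ih hf, ih (hX f hf), ih (hY f hf)⟩

/-- change of frame -/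
theorem Ninf_frame {X Y D δ : Derivation ℝ A A} {Z : Ideal A} {L dx dy wx wy : A}
    (hD : ∀ f, D f = dx * X f + dy * Y f) (hδ : ∀ f, δ f = wx * X f + wy * Y f)
    (hΔ : L * L * L * (dx * wy - dy * wx) = 1) : Ninf D δ Z = Ninf X Y Z := by
  apply le_antisymm
  · refine le_Ninf (Ninf_le _ _ _) (fun f hf => ?_) (fun f hf => ?_)
    · have h1 : X f = L * L * L * wy * D f - L * L * L * dy * δ f := by
        rw [hD, hδ]
        linear_combination (-X f) * hΔ
      rw [h1]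
      exact sub_mem (Ideal.mul_mem_left _ _ (Ninf_X hf)) (Ideal.mul_mem_left _ _ (Ninf_Y hf))
    · have h1 : Y f = L * L * L * dx * δ f - L * L * L * wx * D f := by
        rw [hD, hδ]
        linear_combination (-Y f) * hΔ
      rw [h1]
      exact sub_mem (Ideal.mul_mem_left _ _ (Ninf_Y hf)) (Ideal.mul_mem_left _ _ (Ninf_X hf))
  · refine le_Ninf (Ninf_le _ _ _) (fun f hf => ?_) (fun f hf => ?_)
    · rw [hD]
      exact add_mem (Ideal.mul_mem_left _ _ (Ninf_X hf)) (Ideal.mul_mem_left _ _ (Ninf_Y hf))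
    · rw [hδ]
      exact add_mem (Ideal.mul_mem_left _ _ (Ninf_X hf)) (Ideal.mul_mem_left _ _ (Ninf_Y hf))

section Cauchy

variable {D δ : Derivation ℝ A A} {Z : Ideal A} {β : A}

theorem Nn_D (comm : ∀ f, δ (D f) = D (δ f) + β * D f) (hZ : ∀ f ∈ Z, D f ∈ Z) (n : ℕ) :
    ∀ f ∈ Nn D δ Z n, D f ∈ Nn D δ Z n := by
  induction n with
  | zero => exact hZ
  | succ n ih =>
    rintro f ⟨h1, h2, h3⟩
    refine ⟨h2, ih _ h2, ?_⟩
    rw [comm]
    exact add_mem (ih _ h3) (Ideal.mul_mem_left _ _ h2)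

theorem heat (comm : ∀ f, δ (D f) = D (δ f) + β * D f) (hZ : ∀ f ∈ Z, D f ∈ Z) {i g : A}
    (h0 : i ∈ Z) (h : 7 * δ i - D (D i) - g * i ∈ Ninf D δ Z) : i ∈ Ninf D δ Z := by
  rw [mem_Ninf]
  intro n
  induction n with
  | zero => exact h0
  | succ n ih =>
    have hD := Nn_D comm hZ n
    refine ⟨ih, hD _ ih, ?_⟩
    have h1 : 7 * δ i ∈ Nn D δ Z n := by
      have : 7 * δ i = (7 * δ i - D (D i) - g * i) + D (D i) + g * i := by ring
      rw [this]
      exact add_mem (add_mem (mem_Ninf.mp h n) (hD _ (hD _ ih))) (Ideal.mul_mem_left _ _ ih)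
    obtain ⟨u, hu⟩ := Tab.exists_div 7 (by norm_num) (1 : A)
    push_cast at hu
    have h2 : δ i = u * (7 * δ i) := by linear_combination (-δ i) * hu
    rw [h2]
    exact Ideal.mul_mem_left _ _ h1

theorem cauchy (comm : ∀ f, δ (D f) = D (δ f) + β * D f) (hZ : ∀ f ∈ Z, D f ∈ Z)
    {f g a1 a2 a3 a4 : A} (f0 : f ∈ Z) (g0 : g ∈ Z)
    (hf : δ f - (a1 * f + a2 * g) ∈ Ninf D δ Z) (hg : δ g - (a3 * f + a4 * g) ∈ Ninf D δ Z) :
    f ∈ Ninf D δ Z ∧ g ∈ Ninf D δ Z := by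
  have key : ∀ n, f ∈ Nn D δ Z n ∧ g ∈ Nn D δ Z n := by
    intro n
    induction n with
    | zero => exact ⟨f0, g0⟩
    | succ n ih =>
      have hD := Nn_D comm hZ n
      have hlin : ∀ a b : A, a * f + b * g ∈ Nn D δ Z n := fun a b =>
        add_mem (Ideal.mul_mem_left _ _ ih.1) (Ideal.mul_mem_left _ _ ih.2)
      refine ⟨⟨ih.1, hD _ ih.1, ?_⟩, ih.2, hD _ ih.2, ?_⟩
      · have : δ f = (δ f - (a1 * f + a2 * g)) + (a1 * f + a2 * g) := by ring
        rw [this]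
        exact add_mem (mem_Ninf.mp hf n) (hlin _ _)
      · have : δ g = (δ g - (a3 * f + a4 * g)) + (a3 * f + a4 * g) := by ring
        rw [this]
        exact add_mem (mem_Ninf.mp hg n) (hlin _ _)
  exact ⟨mem_Ninf.mpr fun n => (key n).1, mem_Ninf.mpr fun n => (key n).2⟩

end Cauchy

theorem Ninf_cancel {X Y : Derivation ℝ A A} {Z : Ideal A} {l : A}
    (hl : ∀ (f : A) (k : ℕ), l ^ k * f ∈ Z → f ∈ Z) {h : A} (hh : l * h ∈ Ninf X Y Z) :
    h ∈ Ninf X Y Z := by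
  have key : ∀ (n k : ℕ) (h : A), l ^ k * h ∈ Ninf X Y Z → h ∈ Nn X Y Z n := by
    intro n
    induction n with
    | zero => exact fun k h hh => hl h k (Ninf_le _ _ _ hh)
    | succ n ih =>
      intro k h hh
      refine ⟨ih k h hh, ih (2 * k) _ ?_, ih (2 * k) _ ?_⟩
      · have h1 := Ninf_X hh
        rw [Derivation.leibniz, smul_eq_mul, smul_eq_mul] at h1
        have h2 : l ^ (2 * k) * X h = l ^ k * (l ^ k * X h + h * X (l ^ k)) -
            X (l ^ k) * (l ^ k * h) := by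
          rw [two_mul, pow_add]
          ring
        rw [h2]
        exact sub_mem (Ideal.mul_mem_left _ _ h1) (Ideal.mul_mem_left _ _ hh)
      · have h1 := Ninf_Y hh
        rw [Derivation.leibniz, smul_eq_mul, smul_eq_mul] at h1
        have h2 : l ^ (2 * k) * Y h = l ^ k * (l ^ k * Y h + h * Y (l ^ k)) -
            Y (l ^ k) * (l ^ k * h) := by
          rw [two_mul, pow_add]
          ring
        rw [h2]
        exact sub_mem (Ideal.mul_mem_left _ _ h1) (Ideal.mul_mem_left _ _ hh)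
  exact mem_Ninf.mpr fun n => key n 1 h (by rwa [pow_one])

theorem Ninf_mono {X Y : Derivation ℝ A A} {Z Z' : Ideal A} (h : Z ≤ Z') :
    Ninf X Y Z ≤ Ninf X Y Z' :=
  le_Ninf ((Ninf_le _ _ _).trans h) (fun _ => Ninf_X) (fun _ => Ninf_Y)

/-- derivation of the quotient -/
noncomputable def qd (N : Ideal A) (X : Derivation ℝ A A) (h : ∀ f ∈ N, X f ∈ N) :
    Derivation ℝ (A ⧸ N) (A ⧸ N) :=
  Derivation.liftOfSurjective (f := Ideal.Quotient.mkₐ ℝ N) (Ideal.Quotient.mkₐ_surjective ℝ N)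
    (d := X) (fun x hx => by
      rw [Ideal.Quotient.mkₐ_eq_mk, Ideal.Quotient.eq_zero_iff_mem] at hx ⊢
      exact h x hx)

theorem qd_mk (N : Ideal A) (X : Derivation ℝ A A) (h : ∀ f ∈ N, X f ∈ N) (f : A) :
    qd N X h (Ideal.Quotient.mkₐ ℝ N f) = Ideal.Quotient.mkₐ ℝ N (X f) :=
  Derivation.liftOfSurjective_apply (Ideal.Quotient.mkₐ_surjective ℝ N)
    (fun x hx => by
      rw [Ideal.Quotient.mkₐ_eq_mk, Ideal.Quotient.eq_zero_iff_mem] at hx ⊢
      exact h x hx) f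

end Alg

/-- the functions which vanish on `Γ` -/
def Zg {V : Set E2} (Γ : Set E2) : Ideal (Sm V) where
  carrier := {f | ∀ q ∈ Γ, q ∈ V → ev f q = 0}
  add_mem' := by
    intro f g hf hg q hq hqV
    rw [ev_add, hf q hq hqV, hg q hq hqV, add_zero]
  zero_mem' := fun q _ _ => ev_zero q
  smul_mem' := by
    intro g f hf q hq hqV
    rw [smul_eq_mul, ev_mul, hf q hq hqV, mul_zero]

theorem mem_Zg {V Γ : Set E2} {f : Sm V} : f ∈ (Zg Γ : Ideal (Sm V)) ↔
    ∀ q ∈ Γ, q ∈ V → ev f q = 0 := Iff.rfl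

/-- the functions which are flat on `Γ` -/
noncomputable def Nf {V : Set E2} (hV : IsOpen V) (Γ : Set E2) : Ideal (Sm V) :=
  Ninf (pX hV) (pY hV) (Zg Γ)

theorem mem_Nf_of_flat {V : Set E2} (hV : IsOpen V) {Γ : Set E2} {f : Sm V}
    (h : ∀ q ∈ Γ, q ∈ V → Flat q f) : f ∈ Nf hV Γ := by
  obtain ⟨S, hS⟩ : ∃ S : Ideal (Sm V), ∀ f : Sm V, f ∈ S ↔ ∀ q ∈ Γ, q ∈ V → Flat q f :=
    ⟨{ carrier := {f | ∀ q ∈ Γ, q ∈ V → Flat q f}
       add_mem' := fun hf hg q hq hqV => (hf q hq hqV).add (hg q hq hqV)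
       zero_mem' := fun q _ _ => Flat.of_zero
       smul_mem' := fun g f hf q hq hqV => by
        rw [smul_eq_mul]
        exact (hf q hq hqV).mul_left hV hqV g }, fun f => Iff.rfl⟩
  refine (le_Ninf (X := pX hV) (Y := pY hV) (Z := Zg Γ) (S := S) ?_ ?_ ?_) ((hS f).mpr h)
  · exact fun f hf q hq hqV => ((hS f).mp hf q hq hqV).zero hV hqV
  · exact fun f hf => (hS _).mpr fun q hq hqV => ((hS f).mp hf q hq hqV).pd hV hqV _
  · exact fun f hf => (hS _).mpr fun q hq hqV => ((hS f).mp hf q hq hqV).pd hV hqV _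

end Pool.Agent.W5h48.AL
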