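import Pool.Agent.W5h48.AL.Core

set_option autoImplicit false
set_option linter.unusedSimpArgs false

open Set Filter Topology
open scoped ContDiff

namespace Pool.Agent.W5h48.AL

/-- evaluation as an algebra homomorphism -/
noncomputable def evA {W : Set E2} {p : E2} (hp : p ∈ W) : Sm W →ₐ[ℝ] ℝ where
  toFun f := ev f p
  map_one' := ev_one hp
  map_mul' f g := ev_mul f g p
  map_zero' := ev_zero p
  map_add' f g := ev_add f g p
  commutes' r := by
    rw [ev_of_mem _ hp]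
    rfl

theorem evA_app {W : Set E2} {p : E2} (hp : p ∈ W) (f : Sm W) : evA hp f = ev f p := rfl

section Alg

variable {A : Type*} [CommRing A] [Algebra ℝ A]

theorem Bf_symm (k : A) (p0 p1 p2 : Fin 3 → A) (j l : Fin 3) :
    Bf k p0 p1 p2 j l = Bf k p0 p1 p2 l j := by
  unfold Bf
  ring

theorem Cf_symm (c c' : A) (p0 p1 p2 : Fin 3 → A) (j l : Fin 3) :
    Cf c c' p0 p1 p2 j l = Cf c c' p0 p1 p2 l j := by
  unfold Cf
  ring

/-- the dual frame as a matrix -/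
def UM (p0 p1 p2 : Fin 3 → A) : Matrix (Fin 3) (Fin 3) A :=
  Matrix.of ![cr p1 p2, cr p2 p0, cr p0 p1]

theorem UM_det (p0 p1 p2 : Fin 3 → A) : (UM p0 p1 p2).det = det3 p0 p1 p2 ^ 2 := by
  rw [Matrix.det_fin_three]
  unfold UM det3 cr
  simp only [Matrix.of_apply, Matrix.cons_val_zero, Matrix.cons_val_one, Matrix.cons_val]
  ring

theorem Bf_mul (k : A) (p0 p1 p2 : Fin 3 → A) : Matrix.of (Bf k p0 p1 p2) =
    (UM p0 p1 p2).transpose * !![0, 0, -1; 0, 1, 0; -1, 0, -k] * UM p0 p1 p2 := by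
  ext j l
  simp only [Matrix.mul_apply, Fin.sum_univ_three, Matrix.transpose_apply, UM, Matrix.of_apply,
    Matrix.cons_val_zero, Matrix.cons_val_one, Matrix.cons_val, Bf, Matrix.cons_val', Matrix.cons_val_fin_one]
  ring

theorem Bf_det (k : A) (p0 p1 p2 : Fin 3 → A) :
    (Matrix.of (Bf k p0 p1 p2)).det = -(det3 p0 p1 p2) ^ 4 := by
  rw [Bf_mul, Matrix.det_mul, Matrix.det_mul, Matrix.det_transpose, UM_det]
  have : (!![0, 0, -1; 0, 1, 0; -1, 0, -k] : Matrix (Fin 3) (Fin 3) A).det = -1 := by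
    rw [Matrix.det_fin_three]
    simp
  rw [this]
  ring

/-- value of a form -/
def form (M : Fin 3 → Fin 3 → A) (X : Fin 3 → A) : A :=
  M 0 0 * X 0 * X 0 + M 0 1 * X 0 * X 1 + M 0 2 * X 0 * X 2 +
  (M 1 0 * X 1 * X 0 + M 1 1 * X 1 * X 1 + M 1 2 * X 1 * X 2) +
  (M 2 0 * X 2 * X 0 + M 2 1 * X 2 * X 1 + M 2 2 * X 2 * X 2)

theorem Bf_form (k : A) (p0 p1 p2 : Fin 3 → A) : form (Bf k p0 p1 p2) p0 = 0 := by
  have h1 : cr p2 p0 0 * p0 0 + cr p2 p0 1 * p0 1 + cr p2 p0 2 * p0 2 = 0 := by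
    simp only [cr, Matrix.cons_val_zero, Matrix.cons_val_one, Matrix.cons_val]
    ring
  have h2 : cr p0 p1 0 * p0 0 + cr p0 p1 1 * p0 1 + cr p0 p1 2 * p0 2 = 0 := by
    simp only [cr, Matrix.cons_val_zero, Matrix.cons_val_one, Matrix.cons_val]
    ring
  unfold form Bf
  linear_combination (cr p2 p0 0 * p0 0 + cr p2 p0 1 * p0 1 + cr p2 p0 2 * p0 2) * h1 -
    (2 * (cr p1 p2 0 * p0 0 + cr p1 p2 1 * p0 1 + cr p1 p2 2 * p0 2) +
      k * (cr p0 p1 0 * p0 0 + cr p0 p1 1 * p0 1 + cr p0 p1 2 * p0 2)) * h2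

theorem Cf_form (c c' : A) (p0 p1 p2 : Fin 3 → A) : form (Cf c c' p0 p1 p2) p0 =
    det3 p0 p1 p2 ^ 2 := by
  have h1 : cr p2 p0 0 * p0 0 + cr p2 p0 1 * p0 1 + cr p2 p0 2 * p0 2 = 0 := by
    simp only [cr, Matrix.cons_val_zero, Matrix.cons_val_one, Matrix.cons_val]
    ring
  have h2 : cr p0 p1 0 * p0 0 + cr p0 p1 1 * p0 1 + cr p0 p1 2 * p0 2 = 0 := by
    simp only [cr, Matrix.cons_val_zero, Matrix.cons_val_one, Matrix.cons_val]
    ring
  have h3 : cr p1 p2 0 * p0 0 + cr p1 p2 1 * p0 1 + cr p1 p2 2 * p0 2 = det3 p0 p1 p2 := by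
    simp only [cr, Matrix.cons_val_zero, Matrix.cons_val_one, Matrix.cons_val, det3]
    ring
  unfold form Cf
  linear_combination ((cr p1 p2 0 * p0 0 + cr p1 p2 1 * p0 1 + cr p1 p2 2 * p0 2) +
    det3 p0 p1 p2) * h3 - (2 * c * (cr p2 p0 0 * p0 0 + cr p2 p0 1 * p0 1 + cr p2 p0 2 * p0 2) +
      c' * (cr p0 p1 0 * p0 0 + cr p0 p1 1 * p0 1 + cr p0 p1 2 * p0 2)) * h2

end Alg

theorem closure_zero {W U : Set E2} (hW : IsOpen W) (f : Sm W) (h : ∀ z ∈ U, ev f z = 0) {p : E2}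
    (hp : p ∈ W) (hc : p ∈ closure U) : ev f p = 0 := by
  have h1 : ContinuousAt (ev f) p := (ev_contDiffAt hW f hp).continuousAt
  have h2 : (𝓝[U] p).NeBot := mem_closure_iff_nhdsWithin_neBot.mp hc
  have h3 : Tendsto (ev f) (𝓝[U] p) (𝓝 (ev f p)) := h1.tendsto.mono_left nhdsWithin_le_nhds
  have h4 : Tendsto (ev f) (𝓝[U] p) (𝓝 0) := by
    refine tendsto_const_nhds.congr' ?_
    filter_upwards [self_mem_nhdsWithin] with w hw
    exact (h w hw).symm
  exact tendsto_nhds_unique h3 h4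

/-- uniqueness argument for the two forms -/
theorem two_forms {U : Set E2} (hU : IsOpen U) (hUc : IsPreconnected U)
    {D' δ' : Derivation ℝ (Sm U) (Sm U)} {L dx dy wx wy c m a f g : Sm U}
    (hD' : ∀ f, D' f = dx * pX hU f + dy * pY hU f)
    (hδ' : ∀ f, δ' f = wx * pX hU f + wy * pY hU f)
    (hΔ : L * L * L * (dx * wy - dy * wx) = 1)
    (h1 : D' f = 0) (h2 : D' g = 2 * c * f) (h3 : δ' f = -2 * m * f + 2 * g)
    (h4 : δ' g = -2 * a * g) {z0 : E2} (hz0 : z0 ∈ U) (f0 : ev f z0 = 0) (g0 : ev g z0 = 0) :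
    ∀ z ∈ U, ev f z = 0 := by
  have hX : ∀ f, pX hU f = L * L * L * (wy * D' f - dy * δ' f) := fun f => by
    rw [hD', hδ']
    linear_combination (-pX hU f) * hΔ
  have hY : ∀ f, pY hU f = L * L * L * (dx * δ' f - wx * D' f) := fun f => by
    rw [hD', hδ']
    linear_combination (-pY hU f) * hΔ
  have key := lin_zero hU hUc (f := f) (g := g)
    (a1 := 2 * L * L * L * dy * m) (a2 := -2 * L * L * L * dy)
    (a3 := 2 * L * L * L * wy * c) (a4 := 2 * L * L * L * dy * a)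
    (b1 := -2 * L * L * L * dx * m) (b2 := 2 * L * L * L * dx)
    (b3 := -2 * L * L * L * wx * c) (b4 := -2 * L * L * L * dx * a)
    (by rw [hX, h1, h3]; ring) (by rw [hX, h2, h4]; ring) (by rw [hY, h1, h3]; ring)
    (by rw [hY, h2, h4]; ring) hz0 f0 g0
  exact fun z hz => (key z hz).1

end Pool.Agent.W5h48.AL
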