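import Mathlib

set_option autoImplicit false
set_option linter.unusedSectionVars false

open Set Filter Topology
open scoped ContDiff

namespace Pool.Agent.W5h48.AL

section Ring

variable {E : Type*} [NormedAddCommGroup E] [NormedSpace ℝ E]

open Classical in
/-- extension by zero -/
noncomputable def ext (V : Set E) (f : V → ℝ) (x : E) : ℝ := if h : x ∈ V then f ⟨x, h⟩ else 0

theorem ext_of_mem {V : Set E} (f : V → ℝ) {x : E} (h : x ∈ V) : ext V f x = f ⟨x, h⟩ := by
  simp [ext, h]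

/-- the ring of smooth functions on `V` -/
def Sm (V : Set E) : Subalgebra ℝ (V → ℝ) where
  carrier := {f | ContDiffOn ℝ ∞ (ext V f) V}
  mul_mem' := by
    intro f g hf hg
    refine (ContDiffOn.mul hf hg).congr fun x hx => ?_
    simp only [ext_of_mem _ hx, Pi.mul_apply]
  add_mem' := by
    intro f g hf hg
    refine (ContDiffOn.add hf hg).congr fun x hx => ?_
    simp only [ext_of_mem _ hx, Pi.add_apply]
  algebraMap_mem' := by
    intro r
    refine (contDiffOn_const (c := r)).congr fun x hx => ?_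
    simp only [ext_of_mem _ hx, Pi.algebraMap_apply, Algebra.algebraMap_self, RingHom.id_apply]

/-- the smooth function given by `f` -/
def mk {V : Set E} (f : E → ℝ) (hf : ContDiffOn ℝ ∞ f V) : Sm V :=
  ⟨fun x => f x, hf.congr fun x hx => by simp only [ext_of_mem _ hx]⟩

theorem mk_apply {V : Set E} (f : E → ℝ) (hf : ContDiffOn ℝ ∞ f V) (x : V) :
    (mk f hf : Sm V).1 x = f x := rfl

/-- the value -/
noncomputable def ev {V : Set E} (f : Sm V) : E → ℝ := ext V f.1

theorem ev_of_mem {V : Set E} (f : Sm V) {x : E} (h : x ∈ V) : ev f x = f.1 ⟨x, h⟩ :=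
  ext_of_mem _ h

theorem ev_smooth {V : Set E} (f : Sm V) : ContDiffOn ℝ ∞ (ev f) V := f.2

theorem Sm_ext {V : Set E} {f g : Sm V} (h : ∀ x ∈ V, ev f x = ev g x) : f = g := by
  apply Subtype.ext
  funext x
  have := h x x.2
  rwa [ev_of_mem f x.2, ev_of_mem g x.2] at this

theorem ev_mk {V : Set E} (f : E → ℝ) (hf : ContDiffOn ℝ ∞ f V) {x : E} (hx : x ∈ V) :
    ev (mk f hf : Sm V) x = f x := by
  rw [ev_of_mem _ hx]
  rfl

theorem ev_add {V : Set E} (f g : Sm V) (x : E) : ev (f + g) x = ev f x + ev g x := by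
  unfold ev ext
  split_ifs <;> simp

theorem ev_mul {V : Set E} (f g : Sm V) (x : E) : ev (f * g) x = ev f x * ev g x := by
  unfold ev ext
  split_ifs <;> simp

theorem ev_smul {V : Set E} (r : ℝ) (f : Sm V) (x : E) : ev (r • f) x = r * ev f x := by
  unfold ev ext
  split_ifs <;> simp

theorem ev_sub {V : Set E} (f g : Sm V) (x : E) : ev (f - g) x = ev f x - ev g x := by
  unfold ev ext
  split_ifs <;> simp

theorem ev_neg {V : Set E} (f : Sm V) (x : E) : ev (-f) x = -ev f x := by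
  unfold ev ext
  split_ifs <;> simp

theorem ev_zero {V : Set E} (x : E) : ev (0 : Sm V) x = 0 := by
  unfold ev ext
  split_ifs <;> simp

theorem ev_pow {V : Set E} (f : Sm V) {x : E} (hx : x ∈ V) (n : ℕ) : ev (f ^ n) x = ev f x ^ n := by
  rw [ev_of_mem _ hx, ev_of_mem _ hx]
  simp

theorem ev_one {V : Set E} {x : E} (hx : x ∈ V) : ev (1 : Sm V) x = 1 := by
  rw [ev_of_mem _ hx]
  simp

theorem ev_contDiffAt {V : Set E} (hV : IsOpen V) (f : Sm V) {x : E} (hx : x ∈ V) :
    ContDiffAt ℝ ∞ (ev f) x := (ev_smooth f).contDiffAt (hV.mem_nhds hx)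

theorem ev_diff {V : Set E} (hV : IsOpen V) (f : Sm V) {x : E} (hx : x ∈ V) :
    HasFDerivAt (ev f) (fderiv ℝ (ev f) x) x :=
  ((ev_contDiffAt hV f hx).differentiableAt (by simp)).hasFDerivAt

/-- partial derivative in the direction `v` -/
noncomputable def pdf {V : Set E} (hV : IsOpen V) (v : E) (f : Sm V) : Sm V :=
  mk (fun x => fderiv ℝ (ev f) x v)
    (((ev_smooth f).fderiv_of_isOpen hV (by simp)).clm_apply contDiffOn_const)

theorem ev_pdf {V : Set E} (hV : IsOpen V) (v : E) (f : Sm V) {x : E} (hx : x ∈ V) :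
    ev (pdf hV v f) x = fderiv ℝ (ev f) x v := ev_mk _ _ hx

/-- partial derivative in the direction `v`, as a derivation -/
noncomputable def pd {V : Set E} (hV : IsOpen V) (v : E) : Derivation ℝ (Sm V) (Sm V) :=
  Derivation.mk'
    { toFun := pdf hV v
      map_add' := fun f g => by
        apply Sm_ext
        intro x hx
        rw [ev_add, ev_pdf _ _ _ hx, ev_pdf _ _ _ hx, ev_pdf _ _ _ hx]
        have h := (ev_diff hV f hx).add (ev_diff hV g hx)
        have h2 : (ev f + ev g) = ev (f + g) := by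
          funext y
          rw [ev_add]; rfl
        rw [h2] at h
        rw [h.fderiv]
        rfl
      map_smul' := fun r f => by
        apply Sm_ext
        intro x hx
        rw [RingHom.id_apply, ev_smul, ev_pdf _ _ _ hx, ev_pdf _ _ _ hx]
        have h := (ev_diff hV f hx).const_mul r
        have h2 : (fun y => r * ev f y) = ev (r • f) := by
          funext y
          rw [ev_smul]
        rw [h2] at h
        rw [h.fderiv]
        rfl }
    (fun f g => by
      apply Sm_ext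
      intro x hx
      show ev (pdf hV v (f * g)) x = ev (f * pdf hV v g + g * pdf hV v f) x
      rw [ev_add, ev_mul, ev_mul, ev_pdf _ _ _ hx, ev_pdf _ _ _ hx, ev_pdf _ _ _ hx]
      have h := (ev_diff hV f hx).mul (ev_diff hV g hx)
      have h2 : (ev f * ev g) = ev (f * g) := by
        funext y
        rw [ev_mul]; rfl
      rw [h2] at h
      rw [h.fderiv]
      rfl)

theorem ev_pd {V : Set E} (hV : IsOpen V) (v : E) (f : Sm V) {x : E} (hx : x ∈ V) :
    ev (pd hV v f) x = fderiv ℝ (ev f) x v := ev_mk _ _ hx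

theorem pd_comm {V : Set E} (hV : IsOpen V) (v w : E) (f : Sm V) :
    pd hV v (pd hV w f) = pd hV w (pd hV v f) := by
  apply Sm_ext
  intro x hx
  have key : ∀ v w : E, ev (pd hV v (pd hV w f)) x = fderiv ℝ (fderiv ℝ (ev f)) x v w := by
    intro v w
    rw [ev_pd hV v _ hx]
    have h1 : ev (pd hV w f) =ᶠ[𝓝 x] fun y => fderiv ℝ (ev f) y w := by
      filter_upwards [hV.mem_nhds hx] with y hy
      exact ev_pd hV w f hy
    rw [h1.fderiv_eq]
    have h2 : DifferentiableAt ℝ (fderiv ℝ (ev f)) x :=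
      ((ev_contDiffAt hV f hx).fderiv_right (m := 1) (by norm_cast)).differentiableAt (by simp)
    have h3 := h2.hasFDerivAt.clm_apply (hasFDerivAt_const w x)
    rw [h3.fderiv]
    simp
  rw [key, key]
  have hs : IsSymmSndFDerivAt ℝ (ev f) x :=
    (ev_contDiffAt hV f hx).isSymmSndFDerivAt (by
      rw [minSmoothness_of_isRCLikeNormedField]; norm_cast)
  exact hs v w

theorem isUnit_of_ne {V : Set E} (f : Sm V) (h : ∀ x ∈ V, ev f x ≠ 0) : IsUnit f := by
  refine IsUnit.of_mul_eq_one (mk (fun x => (ev f x)⁻¹) ((ev_smooth f).inv h)) ?_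
  apply Sm_ext
  intro x hx
  rw [ev_mul, ev_mk _ _ hx, ev_one hx]
  exact mul_inv_cancel₀ (h x hx)

end Ring

section Pull

variable {E₁ E₂ : Type*} [NormedAddCommGroup E₁] [NormedSpace ℝ E₁]
  [NormedAddCommGroup E₂] [NormedSpace ℝ E₂]

/-- composition with `g` -/
noncomputable def pull {V₁ : Set E₁} {V₂ : Set E₂} (g : E₁ → E₂) (hg : ContDiffOn ℝ ∞ g V₁)
    (hm : MapsTo g V₁ V₂) : Sm V₂ →ₐ[ℝ] Sm V₁ where
  toFun f := mk (fun x => ev f (g x)) ((ev_smooth f).comp hg hm)
  map_one' := by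
    apply Sm_ext
    intro x hx
    rw [ev_mk _ _ hx, ev_one hx, ev_one (hm hx)]
  map_mul' f₁ f₂ := by
    apply Sm_ext
    intro x hx
    rw [ev_mul, ev_mk _ _ hx, ev_mk _ _ hx, ev_mk _ _ hx, ev_mul]
  map_zero' := by
    apply Sm_ext
    intro x hx
    rw [ev_mk _ _ hx, ev_zero, ev_zero]
  map_add' f₁ f₂ := by
    apply Sm_ext
    intro x hx
    rw [ev_add, ev_mk _ _ hx, ev_mk _ _ hx, ev_mk _ _ hx, ev_add]
  commutes' r := by
    apply Sm_ext
    intro x hx
    rw [ev_mk _ _ hx, ev_of_mem _ hx, ev_of_mem _ (hm hx)]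
    rfl

theorem ev_pull {V₁ : Set E₁} {V₂ : Set E₂} (g : E₁ → E₂) (hg : ContDiffOn ℝ ∞ g V₁)
    (hm : MapsTo g V₁ V₂) (f : Sm V₂) {x : E₁} (hx : x ∈ V₁) :
    ev (pull g hg hm f) x = ev f (g x) := ev_mk _ _ hx

theorem ev_pd_pull {V₁ : Set E₁} {V₂ : Set E₂} (h₁ : IsOpen V₁) (h₂ : IsOpen V₂) (g : E₁ → E₂)
    (hg : ContDiffOn ℝ ∞ g V₁) (hm : MapsTo g V₁ V₂) (f : Sm V₂) (v : E₁) {x : E₁} (hx : x ∈ V₁) :
    ev (pd h₁ v (pull g hg hm f)) x = fderiv ℝ (ev f) (g x) (fderiv ℝ g x v) := by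
  rw [ev_pd h₁ v _ hx]
  have h1 : ev (pull g hg hm f) =ᶠ[𝓝 x] fun y => ev f (g y) := by
    filter_upwards [h₁.mem_nhds hx] with y hy
    exact ev_pull g hg hm f hy
  rw [h1.fderiv_eq]
  have h2 : HasFDerivAt g (fderiv ℝ g x) x :=
    ((hg.contDiffAt (h₁.mem_nhds hx)).differentiableAt (by simp)).hasFDerivAt
  have h3 := (ev_diff h₂ f (hm hx)).comp x h2
  have h4 := h3.fderiv
  show fderiv ℝ (ev f ∘ g) x v = _
  rw [h4]
  rfl

end Pull

end Pool.Agent.W5h48.AL
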