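import Pool.Agent.W5h48.AL.Bend

set_option autoImplicit false
set_option linter.unusedSimpArgs false

open Set Filter Topology
open scoped ContDiff

namespace Pool.Agent.W5h48.AL

/-- the conclusion of the local theorem -/
def Local (F : E2 → ℝ) (W U : Set E2) : Prop :=
  ∃ (b : Fin 3 → Fin 3 → E2 → ℝ) (Q₁ Q₂ : Matrix (Fin 3) (Fin 3) ℝ),
    Q₁.IsSymm ∧ Q₂.IsSymm ∧ LinearIndependent ℝ ![Q₁, Q₂] ∧
    ∀ p ∈ W, p ∈ closure U →
      (Matrix.of fun j l => b j l p).det = -1 ∧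
      form (fun j l => b j l p) ![p.1, p.2, 1] = 0 ∧
      (∃ l₁ l₂ : ℝ, (Matrix.of fun j l => b j l p) = l₁ • Q₁ + l₂ • Q₂) ∧
      ∀ j l, DifferentiableAt ℝ (b j l) p ∧ ∀ v, fderiv ℝ F p v = 0 → fderiv ℝ (b j l) p v = 0

theorem local_of_neg {W U : Set E2} (hW : IsOpen W) (hU : IsOpen U) (hUW : U ⊆ W)
    (hUc : IsConnected U) (F : E2 → ℝ) (hF : ContDiffOn ℝ ∞ F W) (hb : ∀ p ∈ W, bend F p < 0)
    (hproj : ∀ p ∈ U, PI F p) : Local F W U := by
  obtain ⟨B, Q₁, Q₂, h1, h2, h3, h4, h5, h6, h7⟩ := pencil hW hU hUW hUc F hF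
    (fun z hz => by
      have := hb z hz
      rw [bend_eq hW F hF hz] at this
      linarith) hproj
  refine ⟨fun j l => ev (B j l), Q₁, Q₂, h1, h2, h3, fun p hp hpc => ⟨h4 p hp, h5 p hp, h6 p hp hpc,
    fun j l => ⟨(ev_diff hW (B j l) hp).differentiableAt, fun v hv => h7 p hp hpc v hv j l⟩⟩⟩

theorem local_sub {F : E2 → ℝ} {W W' U : Set E2} (h : Local F W' U) (hWW : W ∩ closure U ⊆ W') :
    Local F W U := by
  obtain ⟨b, Q₁, Q₂, h1, h2, h3, h4⟩ := h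
  exact ⟨b, Q₁, Q₂, h1, h2, h3, fun p hp hpc => h4 p (hWW ⟨hp, hpc⟩) hpc⟩

theorem local_pencil {W U : Set E2} (hW : IsOpen W) (hU : IsOpen U) (hUW : U ⊆ W)
    (hUc : IsConnected U) (F : E2 → ℝ) (hF : ContDiffOn ℝ ∞ F W) (hb : ∀ p ∈ W, bend F p ≠ 0)
    (hproj : ∀ p ∈ U, PI F p) : Local F W U := by
  have hcont := bend_cont hW F hF
  have hopen : ∀ s : Set ℝ, IsOpen s → IsOpen (W ∩ bend F ⁻¹' s) := fun s hs =>
    hcont.isOpen_inter_preimage hW hs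
  have hsign : (∀ p ∈ U, bend F p < 0) ∨ ∀ p ∈ U, 0 < bend F p := by
    by_contra hcon
    push Not at hcon
    obtain ⟨⟨z1, hz1, h1⟩, z2, hz2, h2⟩ := hcon
    obtain ⟨z, hz, hz0⟩ := hUc.isPreconnected.intermediate_value hz2 hz1 (hcont.mono hUW)
      (show (0 : ℝ) ∈ Icc (bend F z2) (bend F z1) from ⟨h2, h1⟩)
    exact hb z (hUW hz) hz0
  rcases hsign with hs | hs
  · have hW' := hopen (Iio 0) isOpen_Iio
    refine local_sub (W' := W ∩ bend F ⁻¹' Iio 0) (local_of_neg hW' hU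
      (fun z hz => ⟨hUW hz, hs z hz⟩) hUc F (hF.mono inter_subset_left) (fun p hp => hp.2) hproj) ?_
    rintro z ⟨hz, hzc⟩
    refine ⟨hz, lt_of_le_of_ne ?_ (hb z hz)⟩
    have h2 : (𝓝[U] z).NeBot := mem_closure_iff_nhdsWithin_neBot.mp hzc
    have h3 : Tendsto (bend F) (𝓝[U] z) (𝓝 (bend F z)) :=
      (hcont.continuousAt (hW.mem_nhds hz)).tendsto.mono_left nhdsWithin_le_nhds
    exact le_of_tendsto h3 (by filter_upwards [self_mem_nhdsWithin] with w hw using (hs w hw).le)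
  · have hW' := hopen (Ioi 0) isOpen_Ioi
    have h1 : Local F (W ∩ bend F ⁻¹' Ioi 0) U := by
      obtain ⟨b, Q₁, Q₂, h1, h2, h3, h4⟩ := local_of_neg hW' hU
        (fun z hz => ⟨hUW hz, hs z hz⟩) hUc (-F) (hF.neg.mono inter_subset_left)
        (fun p hp => by
          rw [bend_neg]
          have : 0 < bend F p := hp.2
          linarith) (fun p hp => PI_neg (hproj p hp))
      refine ⟨b, Q₁, Q₂, h1, h2, h3, fun p hp hpc => ?_⟩
      obtain ⟨g1, g2, g3, g4⟩ := h4 p hp hpc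
      refine ⟨g1, g2, g3, fun j l => ⟨(g4 j l).1, fun v hv => (g4 j l).2 v ?_⟩⟩
      rw [fderiv_neg]
      simp [hv]
    refine local_sub h1 ?_
    rintro z ⟨hz, hzc⟩
    refine ⟨hz, lt_of_le_of_ne ?_ (hb z hz).symm⟩
    have h2 : (𝓝[U] z).NeBot := mem_closure_iff_nhdsWithin_neBot.mp hzc
    have h3 : Tendsto (bend F) (𝓝[U] z) (𝓝 (bend F z)) :=
      (hcont.continuousAt (hW.mem_nhds hz)).tendsto.mono_left nhdsWithin_le_nhds
    exact ge_of_tendsto h3 (by filter_upwards [self_mem_nhdsWithin] with w hw using (hs w hw).le)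

end Pool.Agent.W5h48.AL
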