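import Pool.Agent.W5h48.AL.Elim

set_option autoImplicit false
set_option linter.unusedSimpArgs false

namespace Pool.Agent.W5h48.AL

variable {A : Type*} [CommRing A] [Algebra ℝ A]

/-- determinant -/
def det3 (u v w : Fin 3 → A) : A :=
  u 0 * (v 1 * w 2 - v 2 * w 1) - u 1 * (v 0 * w 2 - v 2 * w 0) + u 2 * (v 0 * w 1 - v 1 * w 0)

theorem indep {u v w : Fin 3 → A} (h : det3 u v w = 1) {a b c : A}
    (h0 : ∀ j, a * u j + b * v j + c * w j = 0) : a = 0 ∧ b = 0 ∧ c = 0 := by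
  have e0 := h0 0
  have e1 := h0 1
  have e2 := h0 2
  unfold det3 at h
  refine ⟨?_, ?_, ?_⟩
  · linear_combination (v 1 * w 2 - v 2 * w 1) * e0 - (v 0 * w 2 - v 2 * w 0) * e1 +
      (v 0 * w 1 - v 1 * w 0) * e2 - a * h
  · linear_combination -(u 1 * w 2 - u 2 * w 1) * e0 + (u 0 * w 2 - u 2 * w 0) * e1 -
      (u 0 * w 1 - u 1 * w 0) * e2 - b * h
  · linear_combination (u 1 * v 2 - u 2 * v 1) * e0 - (u 0 * v 2 - u 2 * v 0) * e1 +
      (u 0 * v 1 - u 1 * v 0) * e2 - c * h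

theorem cramer3 (u v w z : Fin 3 → A) (j : Fin 3) :
    det3 u v w * z j = det3 z v w * u j + det3 u z w * v j + det3 u v z * w j := by
  unfold det3
  fin_cases j <;> simp only [Fin.zero_eta, Fin.mk_one, Fin.reduceFinMk] <;> ring

/-- the moving frame -/
structure Frame (D δ : Derivation ℝ A A) (k0 k1 a β : A) (p0 p1 p2 : Fin 3 → A) : Prop where
  comm : ∀ f, δ (D f) = D (δ f) + β * D f
  Dp0 : ∀ j, D (p0 j) = p1 j
  Dp1 : ∀ j, D (p1 j) = p2 j
  Dp2 : ∀ j, D (p2 j) = k0 * p0 j + k1 * p1 j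
  δp0 : ∀ j, δ (p0 j) = p2 j + a * p0 j
  det : det3 p0 p1 p2 = 1

namespace Frame

variable {D δ : Derivation ℝ A A} {k0 k1 a β : A} {p0 p1 p2 : Fin 3 → A}

theorem δp1 (T : Frame D δ k0 k1 a β p0 p1 p2) (j : Fin 3) :
    δ (p1 j) = (k0 + D a) * p0 j + (k1 + a + β) * p1 j := by
  have h := T.comm (p0 j)
  rw [T.δp0, T.Dp0] at h
  simp only [map_add, Derivation.leibniz, smul_eq_mul, T.Dp0, T.Dp2] at h
  linear_combination h

theorem δp2 (T : Frame D δ k0 k1 a β p0 p1 p2) (j : Fin 3) :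
    δ (p2 j) = D (k0 + D a) * p0 j + ((k0 + D a) + D (k1 + a + β)) * p1 j +
      (k1 + a + 2 * β) * p2 j := by
  have h := T.comm (p1 j)
  rw [T.δp1, T.Dp1] at h
  obtain ⟨c, hc⟩ : ∃ c, c = k0 + D a := ⟨_, rfl⟩
  obtain ⟨m, hm⟩ : ∃ m, m = k1 + a + β := ⟨_, rfl⟩
  rw [← hc, ← hm] at h ⊢
  have e : k1 + a + 2 * β = m + β := by rw [hm]; ring
  rw [e]
  simp only [map_add, Derivation.leibniz, smul_eq_mul, T.Dp0, T.Dp1] at h
  linear_combination h

theorem trace (T : Frame D δ k0 k1 a β p0 p1 p2) : 3 * a + 3 * β + 2 * k1 = 0 := by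
  have h := congrArg δ T.det
  have hd := T.det
  unfold det3 at h hd
  simp only [map_add, map_sub, Derivation.leibniz, smul_eq_mul, T.δp0, T.δp1, T.δp2,
    Derivation.map_one_eq_zero] at h
  linear_combination h - (3 * a + 3 * β + 2 * k1) * hd

theorem str (T : Frame D δ k0 k1 a β p0 p1 p2) {c m : A} (hc : c = k0 + D a)
    (hm : m = k1 + a + β) :
    k0 = c + 2 * D m + D β ∧ δ k1 = 2 * D c + D (D m) + 2 * β * k1 ∧
    δ k0 = D (D c) + (m + 2 * β - a) * k0 - k1 * c := by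
  have h : ∀ j, (δ k0 - (D (D c) + (m + 2 * β - a) * k0 - k1 * c)) * p0 j +
      (δ k1 - (2 * D c + D (D m) + 2 * β * k1)) * p1 j + (k0 - (c + 2 * D m + D β)) * p2 j = 0 := by
    intro j
    have h1 := T.comm (p2 j)
    have h2 := T.δp2 j
    rw [← hc, ← hm] at h2
    have h3 := T.δp1 j
    rw [← hc, ← hm] at h3
    have e : k1 + a + 2 * β = m + β := by rw [hm]; ring
    rw [e] at h2
    rw [h2, T.Dp2] at h1
    simp only [map_add, Derivation.leibniz, smul_eq_mul, T.Dp0, T.Dp1, T.Dp2, T.δp0, h3] at h1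
    linear_combination h1
  obtain ⟨h0, h1, h2⟩ := indep T.det h
  exact ⟨by linear_combination h2, by linear_combination h1, by linear_combination h0⟩

/-- The two relations from the evenness give the jet relations. -/
theorem jet (T : Frame D δ k0 k1 a β p0 p1 p2) (h1 : D (k1 + β) = 4 * (k0 + D a))
    (h2 : D (δ (k1 + β)) = 8 * ((k0 + D a) * (k1 + β))) :
    ∃ i, 3 * i = D β + 2 * (k0 + D a) ∧ k0 = 3 * (k0 + D a) + i ∧ 3 * (k1 + a + β) = k1 ∧
      Jet D δ k1 β (k0 + D a) i := by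
  obtain ⟨i, hi⟩ := Tab.exists_div 3 (by norm_num) (D β + 2 * (k0 + D a))
  push_cast at hi
  refine ⟨i, hi, ?_⟩
  obtain ⟨c, hc⟩ : ∃ c, c = k0 + D a := ⟨_, rfl⟩
  obtain ⟨m, hm⟩ : ∃ m, m = k1 + a + β := ⟨_, rfl⟩
  have htr := T.trace
  obtain ⟨s0, s1, s2⟩ := T.str hc hm
  rw [← hc] at hi h1 h2 ⊢
  have hDβ : D β = 3 * i - 2 * c := by linear_combination -hi
  have hDk : D k1 = 6 * c - 3 * i := by
    rw [map_add] at h1
    linear_combination h1 - hDβ
  have hm3 : 3 * m = k1 := by rw [hm]; linear_combination htr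
  have hDm : D m = 2 * c - i := by
    refine nat_cancel (n := 3) (by norm_num) ?_
    have h := congrArg D hm3
    simp only [Derivation.leibniz, smul_eq_mul, der_num, hDk] at h
    push_cast
    linear_combination h
  have hk0 : k0 = 3 * c + i := by
    rw [hDm, hDβ] at s0
    linear_combination s0
  have hδk : δ k1 = 4 * D c - D i + 2 * β * k1 := by
    rw [hDm] at s1
    simp only [map_sub, Derivation.leibniz, smul_eq_mul, der_num] at s1
    linear_combination s1
  have hδc : δ c = 3 * β * c + 2 * k1 * c := by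
    refine nat_cancel (n := 4) (by norm_num) ?_
    have h := T.comm (k1 + β)
    rw [h1, h2] at h
    simp only [Derivation.leibniz, smul_eq_mul, der_num] at h
    push_cast
    linear_combination h
  have hδi : δ i = D (D c) - 4 * k1 * c + (3 * β + k1) * i := by
    have h := s2
    have ha : m - a = k1 + β := by rw [hm]; ring
    rw [hk0] at h
    simp only [map_add, Derivation.leibniz, smul_eq_mul, der_num, hδc] at h
    linear_combination h + (3 * c + i) * ha
  refine ⟨hk0, by rw [← hm]; exact hm3, T.comm, hDβ, hDk, hδk, hδc, hδi, ?_⟩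
  have h := T.comm β
  have e1 : δ β = δ (k1 + β) - δ k1 := by rw [map_add]; ring
  have e2 : D (δ β) = 8 * (c * (k1 + β)) - (4 * D (D c) - D (D i) + 2 * β * (6 * c - 3 * i) +
      2 * k1 * (3 * i - 2 * c)) := by
    rw [e1, map_sub, h2, hδk]
    simp only [map_add, map_sub, Derivation.leibniz, smul_eq_mul, der_num, hDβ, hDk]
    ring
  rw [hDβ, e2] at h
  simp only [map_sub, Derivation.leibniz, smul_eq_mul, der_num, hδc, hδi] at h
  linear_combination -h

end Frame

end Pool.Agent.W5h48.AL
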