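import Pool.Agent.W5h48.AL.Dom

set_option autoImplicit false
set_option linter.unusedSimpArgs false

open Set Filter Topology
open scoped ContDiff

namespace Pool.Agent.W5h48.AL

section Tay

variable {W : Set E2} (dx dy η : Sm W) (hW : IsOpen W)

/-- derivative in `t` -/
noncomputable def dT : Derivation ℝ (Sm (Dom dx dy η)) (Sm (Dom dx dy η)) :=
  pd (Dom_open dx dy η hW) (((0 : ℝ), (0 : ℝ)), (1 : ℝ))

/-- lift of the derivation `u ∂_x + v ∂_y` -/
noncomputable def lft (u v : Sm W) : Derivation ℝ (Sm (Dom dx dy η)) (Sm (Dom dx dy η)) :=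
  iota dx dy η u • pd (Dom_open dx dy η hW) (((1 : ℝ), (0 : ℝ)), (0 : ℝ)) +
    iota dx dy η v • pd (Dom_open dx dy η hW) (((0 : ℝ), (1 : ℝ)), (0 : ℝ))

theorem lft_app (u v : Sm W) (b : Sm (Dom dx dy η)) : lft dx dy η hW u v b =
    iota dx dy η u * pd (Dom_open dx dy η hW) (((1 : ℝ), (0 : ℝ)), (0 : ℝ)) b +
      iota dx dy η v * pd (Dom_open dx dy η hW) (((0 : ℝ), (1 : ℝ)), (0 : ℝ)) b := rfl

theorem lft_iota (u v f : Sm W) : lft dx dy η hW u v (iota dx dy η f) =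
    iota dx dy η (u * pX hW f + v * pY hW f) := by
  rw [lft_app, pd_iota, pd_iota, map_add, map_mul, map_mul]

theorem lft_tt (u v : Sm W) : lft dx dy η hW u v (tt dx dy η) = 0 := by
  rw [lft_app, pd_tt dx dy η hW, pd_tt dx dy η hW]
  simp

theorem dT_iota (f : Sm W) : dT dx dy η hW (iota dx dy η f) = 0 := by
  unfold dT
  rw [pd_iota]
  have h0 : pd hW (((0 : ℝ), (0 : ℝ)) : E2) f = 0 := by
    apply Sm_ext
    intro z hz
    rw [ev_pd _ _ _ hz, ev_zero]
    exact map_zero _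
  show iota dx dy η (pd hW (((0 : ℝ), (0 : ℝ)) : E2) f) = 0
  rw [h0, map_zero]

theorem dT_tt : dT dx dy η hW (tt dx dy η) = 1 := by
  unfold dT
  rw [pd_tt dx dy η hW]
  simp

theorem dT_lft (u v : Sm W) (b : Sm (Dom dx dy η)) :
    dT dx dy η hW (lft dx dy η hW u v b) = lft dx dy η hW u v (dT dx dy η hW b) := by
  rw [lft_app, lft_app]
  simp only [map_add, Derivation.leibniz, smul_eq_mul, dT_iota]
  unfold dT
  rw [pd_comm (Dom_open dx dy η hW) (((0 : ℝ), (0 : ℝ)), (1 : ℝ)) (((1 : ℝ), (0 : ℝ)), (0 : ℝ)) b,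
    pd_comm (Dom_open dx dy η hW) (((0 : ℝ), (0 : ℝ)), (1 : ℝ)) (((0 : ℝ), (1 : ℝ)), (0 : ℝ)) b]
  ring

theorem sigma_lft (u v : Sm W) (b : Sm (Dom dx dy η)) :
    sigma dx dy η (lft dx dy η hW u v b) =
      u * pX hW (sigma dx dy η b) + v * pY hW (sigma dx dy η b) := by
  rw [lft_app, map_add, map_mul, map_mul, sigma_iota, sigma_iota, sigma_pd, sigma_pd]

/-- chain rule -/
theorem chain_g (w : E2 × ℝ) (f : Sm W) :
    pd (Dom_open dx dy η hW) w (gpull dx dy η f) =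
      gpull dx dy η (pX hW f) * pd (Dom_open dx dy η hW) w (gpull dx dy η cx) +
      gpull dx dy η (pY hW f) * pd (Dom_open dx dy η hW) w (gpull dx dy η cy) := by
  have h := chain (Dom_open dx dy η hW) hW (gmap dx dy η) (gmap_smooth dx dy η)
    (gmap_maps dx dy η) w f
  have h1 : gpull dx dy η (cx (W := W)) =
      mk (fun x => (gmap dx dy η x).1) (contDiff_fst.comp_contDiffOn (gmap_smooth dx dy η)) := by
    apply Sm_ext
    intro q hq
    unfold gpull cx
    rw [ev_pull _ _ _ _ hq, ev_mk _ _ hq.2.2, ev_mk _ _ hq]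
  have h2 : gpull dx dy η (cy (W := W)) =
      mk (fun x => (gmap dx dy η x).2) (contDiff_snd.comp_contDiffOn (gmap_smooth dx dy η)) := by
    apply Sm_ext
    intro q hq
    unfold gpull cy
    rw [ev_pull _ _ _ _ hq, ev_mk _ _ hq.2.2, ev_mk _ _ hq]
  rw [h1, h2]
  exact h

theorem chain_l (u v f : Sm W) :
    lft dx dy η hW u v (gpull dx dy η f) =
      gpull dx dy η (pX hW f) * lft dx dy η hW u v (gpull dx dy η cx) +
      gpull dx dy η (pY hW f) * lft dx dy η hW u v (gpull dx dy η cy) := by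
  rw [lft_app, lft_app, lft_app, chain_g dx dy η hW (((1 : ℝ), (0 : ℝ)), (0 : ℝ)) f,
    chain_g dx dy η hW (((0 : ℝ), (1 : ℝ)), (0 : ℝ)) f]
  ring

/-- the derivatives in `t` -/
noncomputable def hh (F : Sm W) (n : ℕ) : Sm (Dom dx dy η) :=
  (dT dx dy η hW)^[n] (gpull dx dy η F)

theorem hh_succ (F : Sm W) (n : ℕ) : dT dx dy η hW (hh dx dy η hW F n) = hh dx dy η hW F (n + 1) := by
  unfold hh
  rw [Function.iterate_succ_apply']

/-- the Taylor coefficients -/
noncomputable def Hc (F : Sm W) (n : ℕ) : Sm W := sigma dx dy η (hh dx dy η hW F n)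

theorem ev_hh (F : Sm W) (n : ℕ) : ∀ q ∈ Dom dx dy η, ev (hh dx dy η hW F n) q =
    iteratedDeriv n (fun s => ev F (gmap dx dy η (q.1, s))) q.2 := by
  induction n with
  | zero =>
    intro q hq
    unfold hh gpull
    rw [Function.iterate_zero, id_eq, ev_pull _ _ _ _ hq, iteratedDeriv_zero]
  | succ n ih =>
    intro q hq
    rw [← hh_succ]
    unfold dT
    rw [ev_pd _ _ _ hq, iteratedDeriv_succ]
    have h1 := ev_diff (Dom_open dx dy η hW) (hh dx dy η hW F n) hq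
    have h2 : HasDerivAt (fun s : ℝ => ((q.1, s) : E2 × ℝ)) ((0, 1) : E2 × ℝ) q.2 :=
      (hasDerivAt_const q.2 q.1).prodMk (hasDerivAt_id q.2)
    have h3 : HasDerivAt (fun s : ℝ => ev (hh dx dy η hW F n) (q.1, s))
        (fderiv ℝ (ev (hh dx dy η hW F n)) q ((0, 1) : E2 × ℝ)) q.2 :=
      HasFDerivAt.comp_hasDerivAt (f := fun s : ℝ => ((q.1, s) : E2 × ℝ)) q.2 h1 h2
    have h4 : (fun s : ℝ => ev (hh dx dy η hW F n) (q.1, s)) =ᶠ[𝓝 q.2]
        iteratedDeriv n (fun s => ev F (gmap dx dy η (q.1, s))) := by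
      have h5 : ∀ᶠ s in 𝓝 q.2, ((q.1, s) : E2 × ℝ) ∈ Dom dx dy η :=
        h2.continuousAt.preimage_mem_nhds ((Dom_open dx dy η hW).mem_nhds hq)
      filter_upwards [h5] with s hs
      exact ih (q.1, s) hs
    rw [← h4.deriv_eq, h3.deriv]
    rfl

theorem ev_Hc (F : Sm W) (n : ℕ) {z : E2} (hz : z ∈ W) : ev (Hc dx dy η hW F n) z =
    iteratedDeriv n (fun s => ev F (gmap dx dy η (z, s))) 0 := by
  unfold Hc sigma
  rw [ev_pull _ _ _ _ hz]
  exact ev_hh dx dy η hW F n (z, 0) (zero_mem dx dy η hz)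

end Tay

/-- The relations for the Taylor coefficients. -/
theorem coef_rel {W : Set E2} (hW : IsOpen W) {D δ : Derivation ℝ (Sm W) (Sm W)}
    {F L η dx dy wx wy k0 k1 a β : Sm W} {p0 p1 p2 : Fin 3 → Sm W}
    (R : Rel D δ cx cy F L η dx dy wx wy k0 k1 a β p0 p1 p2)
    (hD : ∀ f, D f = dx * pX hW f + dy * pY hW f)
    (hδ : ∀ f, δ f = wx * pX hW f + wy * pY hW f) :
    Hc dx dy η hW F 1 = 0 ∧ Hc dx dy η hW F 2 = -1 ∧ Hc dx dy η hW F 3 = 0 ∧
    Hc dx dy η hW F 5 = 24 * (k0 + D a) - 6 * D (k1 + β) ∧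
    Hc dx dy η hW F 7 = D (D (Hc dx dy η hW F 5) + 30 * δ (k1 + β) - 120 * (k1 + β) * (k1 + β))
      - 6 * δ (Hc dx dy η hW F 5) + 30 * (k1 + β) * Hc dx dy η hW F 5
      + 720 * (k0 + D a) * (k1 + β) := by
  have iD : ∀ f, lft dx dy η hW dx dy (iota dx dy η f) = iota dx dy η (D f) := fun f => by
    rw [lft_iota, hD]
  have iδ : ∀ f, lft dx dy η hW wx wy (iota dx dy η f) = iota dx dy η (δ f) := fun f => by
    rw [lft_iota, hδ]
  have sD : ∀ b, sigma dx dy η (lft dx dy η hW dx dy b) = D (sigma dx dy η b) := fun b => by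
    rw [sigma_lft, hD]
  have sδ : ∀ b, sigma dx dy η (lft dx dy η hW wx wy b) = δ (sigma dx dy η b) := fun b => by
    rw [sigma_lft, hδ]
  exact coef_alg (D' := lft dx dy η hW dx dy) (δ' := lft dx dy η hW wx wy) (T := dT dx dy η hW)
    (σ := sigma dx dy η) (ι := iota dx dy η) (t := tt dx dy η) (v := vv dx dy η)
    (G1 := gpull dx dy η (pX hW F)) (G2 := gpull dx dy η (pY hW F)) (h := hh dx dy η hW F)
    (Hc := Hc dx dy η hW F) R iD iδ sD sδ (sigma_iota dx dy η) (sigma_tt dx dy η) (fun _ => rfl)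
    (dT_iota dx dy η hW) (dT_tt dx dy η hW) (lft_tt dx dy η hW dx dy) (lft_tt dx dy η hW wx wy)
    (vv_mul dx dy η) (dT_lft dx dy η hW dx dy) (dT_lft dx dy η hW wx wy) (hh_succ dx dy η hW F)
    (sigma_gpull dx dy η F)
    (by
      rw [← gpull_x, ← gpull_y]
      exact chain_g dx dy η hW _ F)
    (by
      rw [← gpull_x, ← gpull_y]
      exact chain_l dx dy η hW _ _ F)
    (by
      rw [← gpull_x, ← gpull_y]
      exact chain_l dx dy η hW _ _ F)

end Pool.Agent.W5h48.AL
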