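import Pool.Agent.W5h48.AL.Fl

set_option autoImplicit false
set_option linter.unusedSimpArgs false
set_option linter.unusedVariables false

open Set Filter Topology
open scoped ContDiff

namespace Pool.Agent.W5h48.AL

/-- transversal lines through the points near `q0` -/
theorem transversal {V : Set E2} (hV : IsOpen V) {F : E2 → ℝ} (hF : ContDiffOn ℝ ∞ F V)
    {q0 : E2} (hq : q0 ∈ V) (hreg : tang F q0 ≠ 0) {C : Set ℝ}
    (hC : AccPt (F q0) (𝓟 C)) {R : ℝ} (hR : 0 < R) (hRV : Metric.closedBall q0 R ⊆ V) :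
    ∃ (n : E2) (K r : ℝ), 0 < r ∧ 0 ≤ K ∧ ∀ p ∈ Metric.ball q0 r, ∃ tp : ℝ,
      |tp| ≤ K * ‖p - q0‖ ∧ (∀ s : ℝ, |s| ≤ |tp| → p + tp • n + s • n ∈ Metric.closedBall q0 R) ∧
      ∃ᶠ s in 𝓝[≠] (0 : ℝ), F (p + tp • n + s • n) ∈ C := by
  have hFat : ∀ p ∈ V, ContDiffAt ℝ ∞ F p := fun p hp => hF.contDiffAt (hV.mem_nhds hp)
  obtain ⟨n, hn⟩ : ∃ n : E2, n = (fderiv ℝ F q0 ((1 : ℝ), (0 : ℝ)),
    fderiv ℝ F q0 ((0 : ℝ), (1 : ℝ))) := ⟨_, rfl⟩
  have hm : 0 < fderiv ℝ F q0 n := by
    have h6 : n = n.1 • ((1 : ℝ), (0 : ℝ)) + n.2 • ((0 : ℝ), (1 : ℝ)) := by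
      ext <;> simp
    have h7 : fderiv ℝ F q0 n = n.1 * n.1 + n.2 * n.2 := by
      conv_lhs => rw [h6]
      rw [map_add, map_smul, map_smul, smul_eq_mul, smul_eq_mul, hn]
    have h8 := sq_pos' (a := n.1) (b := n.2) (by
      have : ((n.2, -n.1) : E2) = tang F q0 := by rw [hn]; rfl
      rw [this]
      exact hreg)
    rw [h7]
    nlinarith
  obtain ⟨m, hmd⟩ : ∃ m, m = fderiv ℝ F q0 n / 2 := ⟨_, rfl⟩
  have hm0 : 0 < m := by rw [hmd]; positivity
  have hcd : ContinuousOn (fun p => fderiv ℝ F p n) V :=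
    ((hF.fderiv_of_isOpen hV (m := ∞) (by simp)).continuousOn).clm_apply continuousOn_const
  obtain ⟨Lp, t, ht, hLip⟩ := ((hFat q0 hq).of_le (m := 1) (by norm_cast)).exists_lipschitzOnWith
  have hmlt : m < fderiv ℝ F q0 n := by rw [hmd]; linarith
  have hpos : ∀ᶠ p in 𝓝 q0, p ∈ V ∧ m < fderiv ℝ F p n ∧ p ∈ t ∧ ‖p - q0‖ < R := by
    filter_upwards [hV.mem_nhds hq,
      (hcd.continuousAt (hV.mem_nhds hq)).eventually (lt_mem_nhds hmlt), ht,
      Metric.ball_mem_nhds q0 hR] with p h1 h2 h3 h4 using ⟨h1, h2, h3, mem_ball_iff_norm.mp h4⟩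
  obtain ⟨r, hr, hball⟩ := Metric.eventually_nhds_iff_ball.mp hpos
  obtain ⟨ρ, hρ0, hρ⟩ : ∃ ρ : ℝ, 0 < ρ ∧ ρ * ‖n‖ < r / 4 := by
    refine ⟨r / (8 * (‖n‖ + 1)), by positivity, ?_⟩
    have h1 : 0 ≤ ‖n‖ := norm_nonneg n
    rw [div_mul_eq_mul_div, div_lt_div_iff₀ (by positivity) (by norm_num)]
    nlinarith
  have hin : ∀ p ∈ Metric.ball q0 (r / 2), ∀ t : ℝ, |t| ≤ 2 * ρ → p + t • n ∈ Metric.ball q0 r := by
    intro p hp t ht
    rw [mem_ball_iff_norm] at hp ⊢
    have h1 : p + t • n - q0 = (p - q0) + t • n := by abel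
    rw [h1]
    have h2 : ‖t • n‖ ≤ 2 * ρ * ‖n‖ := by
      rw [norm_smul, Real.norm_eq_abs]
      exact mul_le_mul_of_nonneg_right ht (norm_nonneg n)
    linarith [norm_add_le (p - q0) (t • n)]
  have hline : ∀ (p : E2) (t : ℝ), HasDerivAt (fun t : ℝ => p + t • n) n t := by
    intro p t
    have := ((hasDerivAt_id t).smul_const n).const_add p
    rwa [one_smul] at this
  have hder : ∀ p ∈ Metric.ball q0 (r / 2), ∀ t : ℝ, |t| ≤ 2 * ρ →
      HasDerivAt (fun t : ℝ => F (p + t • n)) (fderiv ℝ F (p + t • n) n) t := by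
    intro p hp t ht
    exact HasFDerivAt.comp_hasDerivAt t
      (((hFat _ (hball _ (hin p hp t ht)).1).differentiableAt (by simp)).hasFDerivAt) (hline p t)
  have hq0 : q0 ∈ Metric.ball q0 (r / 2) := Metric.mem_ball_self (by linarith)
  have hmono : ∀ p ∈ Metric.ball q0 (r / 2),
      StrictMonoOn (fun t : ℝ => F (p + t • n) - m * t) (Icc (-ρ) ρ) := by
    intro p hp
    have hd : ∀ t : ℝ, |t| ≤ ρ → HasDerivAt (fun t : ℝ => F (p + t • n) - m * t)
        (fderiv ℝ F (p + t • n) n - m) t := by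
      intro t ht
      have := (hder p hp t (by linarith)).sub ((hasDerivAt_id t).const_mul m)
      rw [mul_one] at this
      exact this
    refine strictMonoOn_of_deriv_pos (convex_Icc _ _)
      (fun t ht => (hd t (abs_le.mpr ht)).continuousAt.continuousWithinAt) ?_
    intro t ht
    rw [interior_Icc] at ht
    have ht' : |t| ≤ ρ := abs_le.mpr ⟨ht.1.le, ht.2.le⟩
    rw [(hd t ht').deriv]
    linarith [(hball _ (hin p hp t (by linarith))).2.1]
  have hz : (0 : ℝ) ∈ Icc (-ρ) ρ := ⟨by linarith, hρ0.le⟩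
  have hup : F q0 < F (q0 + ρ • n) := by
    have := hmono q0 hq0 hz (show ρ ∈ Icc (-ρ) ρ from ⟨by linarith, le_rfl⟩) hρ0
    simp only [zero_smul, add_zero, mul_zero, sub_zero] at this
    nlinarith
  have hlo : F (q0 + (-ρ) • n) < F q0 := by
    have := hmono q0 hq0 (show -ρ ∈ Icc (-ρ) ρ from ⟨le_rfl, by linarith⟩) hz (by linarith)
    simp only [zero_smul, add_zero, mul_zero, sub_zero] at this
    nlinarith
  have hcontF : ∀ t : ℝ, |t| ≤ 2 * ρ → ContinuousAt (fun p : E2 => F (p + t • n)) q0 := by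
    intro t ht
    have h1 : ContinuousAt F (q0 + t • n) := (hFat _ (hball _ (hin q0 hq0 t ht)).1).continuousAt
    exact ContinuousAt.comp (f := fun p : E2 => p + t • n) h1
      (continuous_id.add continuous_const).continuousAt
  have e1 : ∀ᶠ p in 𝓝 q0, F q0 < F (p + ρ • n) :=
    (hcontF ρ (by rw [abs_of_pos hρ0]; linarith)).eventually (lt_mem_nhds hup)
  have e2 : ∀ᶠ p in 𝓝 q0, F (p + (-ρ) • n) < F q0 :=
    (hcontF (-ρ) (by rw [abs_neg, abs_of_pos hρ0]; linarith)).eventually (gt_mem_nhds hlo)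
  obtain ⟨r', hr', hball'⟩ := Metric.eventually_nhds_iff_ball.mp
    (e1.and (e2.and (show ∀ᶠ p in 𝓝 q0, p ∈ Metric.ball q0 (r / 2) from
      Metric.ball_mem_nhds q0 (by linarith))))
  refine ⟨n, Lp / m, r', hr', by positivity, fun p hp => ?_⟩
  obtain ⟨h1, h2, hp2⟩ := hball' p hp
  obtain ⟨tp, htp, hFtp⟩ := intermediate_value_Ioo (f := fun t : ℝ => F (p + t • n))
    (by linarith : -ρ ≤ ρ)
    (fun t ht => (hder p hp2 t (by
      have := abs_le.mpr ht
      linarith)).continuousAt.continuousWithinAt)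
    (show F q0 ∈ Ioo (F (p + (-ρ) • n)) (F (p + ρ • n)) from ⟨h2, h1⟩)
  simp only at hFtp
  have htp' : |tp| ≤ ρ := abs_le.mpr ⟨htp.1.le, htp.2.le⟩
  have hmem : ∀ s : ℝ, |s| ≤ ρ → p + tp • n + s • n ∈ Metric.ball q0 r := by
    intro s hs
    rw [add_assoc, ← add_smul]
    exact hin p hp2 _ ((abs_add_le _ _).trans (by linarith))
  refine ⟨tp, ?_, fun s hs => ?_, ?_⟩
  · -- size of `tp`
    have hb1 : ‖p - q0‖ < r / 2 := mem_ball_iff_norm.mp hp2
    have hpt : p ∈ t := (hball p (by rw [mem_ball_iff_norm]; linarith)).2.2.1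
    have hqt : q0 ∈ t := (hball q0 (Metric.mem_ball_self hr)).2.2.1
    have l1 := hLip.dist_le_mul p hpt q0 hqt
    rw [Real.dist_eq, dist_eq_norm] at l1
    have l2 : m * |tp| ≤ |F p - F q0| := by
      have hI : tp ∈ Icc (-ρ) ρ := ⟨htp.1.le, htp.2.le⟩
      rcases lt_trichotomy tp 0 with h | h | h
      · have := hmono p hp2 hI hz h
        simp only [zero_smul, add_zero, mul_zero, sub_zero] at this
        rw [hFtp] at this
        rw [abs_of_neg h]
        have := le_abs_self (F p - F q0)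
        linarith
      · rw [h, abs_zero, mul_zero]
        exact abs_nonneg _
      · have := hmono p hp2 hz hI h
        simp only [zero_smul, add_zero, mul_zero, sub_zero] at this
        rw [hFtp] at this
        rw [abs_of_pos h]
        have := neg_le_abs (F p - F q0)
        linarith
    rw [div_mul_eq_mul_div, le_div_iff₀ hm0]
    linarith
  · have := (hball _ (hmem s (hs.trans htp'))).2.2.2
    rw [mem_closedBall_iff_norm]
    exact this.le
  · have hpV := (hball _ (hmem 0 (by simp [hρ0.le]))).1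
    rw [zero_smul, add_zero] at hpV
    have hgt := (hball _ (hmem 0 (by simp [hρ0.le]))).2.1
    rw [zero_smul, add_zero] at hgt
    have hs : HasStrictDerivAt (fun s : ℝ => F (p + tp • n + s • n))
        (fderiv ℝ F (p + tp • n) n) 0 := by
      have h3 : HasStrictFDerivAt F (fderiv ℝ F (p + tp • n)) (p + tp • n + (0 : ℝ) • n) := by
        rw [zero_smul, add_zero]
        exact (hFat _ hpV).hasStrictFDerivAt (by simp)
      have h4 : HasStrictDerivAt (fun s : ℝ => p + tp • n + s • n) n 0 := by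
        have := ((hasStrictDerivAt_id (0 : ℝ)).smul_const n).const_add (p + tp • n)
        rwa [one_smul] at this
      exact h3.comp_hasStrictDerivAt 0 h4
    have hmap := hs.map_nhds_eq (hm0.trans hgt).ne'
    rw [accPt_iff_frequently] at hC
    have hfr : ∃ᶠ s in 𝓝 (0 : ℝ), F (p + tp • n + s • n) ≠ F q0 ∧ F (p + tp • n + s • n) ∈ C := by
      have : ∃ᶠ y in map (fun s : ℝ => F (p + tp • n + s • n)) (𝓝 0), y ≠ F q0 ∧ y ∈ C := by
        rw [hmap]
        rw [zero_smul, add_zero, hFtp]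
        exact hC
      exact this
    rw [frequently_nhdsWithin_iff]
    refine hfr.mono fun s hs => ⟨hs.2, ?_⟩
    rintro rfl
    apply hs.1
    rw [zero_smul, add_zero, hFtp]

/-- zeros accumulating at a point -/
theorem taylor_bound {V : Set E2} (hV : IsOpen V) (n : E2) (q : E2) (hq : q ∈ V) (N : ℕ) :
    ∀ (f : Sm V) (M T : ℝ), 0 ≤ T → 0 ≤ M → (∀ s : ℝ, |s| ≤ T → q + s • n ∈ V) →
      (∀ s : ℝ, |s| ≤ T → |ev ((pd hV n)^[N] f) (q + s • n)| ≤ M) →
      (∃ᶠ s in 𝓝[≠] (0 : ℝ), ev f (q + s • n) = 0) →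
      ∀ s : ℝ, |s| ≤ T → |ev f (q + s • n)| ≤ M * |s| ^ N := by
  induction N with
  | zero =>
    intro f M T hT hM0 hin hM _ s hs
    simpa using hM s hs
  | succ N ih =>
    intro f M T hT hM0 hin hM hfr s hs
    have hcont : ContinuousAt (fun s : ℝ => ev f (q + s • n)) 0 :=
      (line_der hV f n q 0 (by simpa using hq)).continuousAt
    have hf0 : ev f q = 0 := by
      by_contra hne
      have h1 : ∀ᶠ s in 𝓝 (0 : ℝ), ev f (q + s • n) ≠ 0 := hcont.eventually
        (isOpen_ne.mem_nhds (by simpa using hne))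
      exact hfr (h1.filter_mono nhdsWithin_le_nhds)
    have hfr' : ∃ᶠ s in 𝓝[≠] (0 : ℝ), ev (pd hV n f) (q + s • n) = 0 := by
      rw [Filter.frequently_iff]
      intro U hU
      rw [mem_nhdsWithin_iff_exists_mem_nhds_inter] at hU
      obtain ⟨u, hu, huU⟩ := hU
      obtain ⟨ε, hε, hεu⟩ := Metric.mem_nhds_iff.mp hu
      have hVn : ∀ᶠ s in 𝓝 (0 : ℝ), q + s • n ∈ V := by
        have : Continuous (fun s : ℝ => q + s • n) := by fun_prop
        apply this.continuousAt.preimage_mem_nhds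
        rw [zero_smul, add_zero]
        exact hV.mem_nhds hq
      obtain ⟨ε', hε', hV'⟩ := Metric.eventually_nhds_iff_ball.mp hVn
      have h2 : ∀ᶠ s in 𝓝[≠] (0 : ℝ), |s| < min ε ε' := by
        refine (Filter.Eventually.filter_mono nhdsWithin_le_nhds ?_)
        filter_upwards [Metric.ball_mem_nhds (0 : ℝ) (lt_min hε hε')] with s hs
        simpa using hs
      obtain ⟨s1, hs1, hs1', hs1n⟩ := (hfr.and_eventually (h2.and self_mem_nhdsWithin)).exists
      have hd : ∀ s : ℝ, |s| < ε' → HasDerivAt (fun s : ℝ => ev f (q + s • n))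
          (ev (pd hV n f) (q + s • n)) s := fun s hs =>
        line_der hV f n q s (hV' s (by simpa using hs))
      have hlt1 := hs1'.trans_le (min_le_left _ _)
      have hlt2 := hs1'.trans_le (min_le_right _ _)
      rcases lt_or_gt_of_ne (show s1 ≠ 0 from hs1n) with h | h
      · rw [abs_of_neg h] at hlt1 hlt2
        obtain ⟨s2, hs2, h2⟩ := exists_hasDerivAt_eq_zero (f := fun s : ℝ => ev f (q + s • n))
          (f' := fun s => ev (pd hV n f) (q + s • n)) h
          (fun s hs => (hd s (by rw [abs_lt]; constructor <;> linarith [hs.1, hs.2])).continuousAt.continuousWithinAt)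
          (by simp only [zero_smul, add_zero, hs1, hf0])
          (fun s hs => hd s (by rw [abs_lt]; constructor <;> linarith [hs.1, hs.2]))
        refine ⟨s2, huU ⟨hεu ?_, hs2.2.ne⟩, h2⟩
        rw [mem_ball_zero_iff, Real.norm_eq_abs, abs_lt]
        constructor <;> linarith [hs2.1, hs2.2]
      · rw [abs_of_pos h] at hlt1 hlt2
        obtain ⟨s2, hs2, h2⟩ := exists_hasDerivAt_eq_zero (f := fun s : ℝ => ev f (q + s • n))
          (f' := fun s => ev (pd hV n f) (q + s • n)) h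
          (fun s hs => (hd s (by rw [abs_lt]; constructor <;> linarith [hs.1, hs.2])).continuousAt.continuousWithinAt)
          (by simp only [zero_smul, add_zero, hs1, hf0])
          (fun s hs => hd s (by rw [abs_lt]; constructor <;> linarith [hs.1, hs.2]))
        refine ⟨s2, huU ⟨hεu ?_, hs2.1.ne'⟩, h2⟩
        rw [mem_ball_zero_iff, Real.norm_eq_abs, abs_lt]
        constructor <;> linarith [hs2.1, hs2.2]
    have hih := ih (pd hV n f) M T hT hM0 hin (fun s hs => by
      have := hM s hs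
      rwa [Function.iterate_succ_apply] at this) hfr'
    -- mean value inequality between 0 and s
    have hconv : Convex ℝ (uIcc (0 : ℝ) s) := convex_uIcc 0 s
    have hb : ∀ x ∈ uIcc (0 : ℝ) s, |x| ≤ |s| := by
      intro x hx
      rcases le_total 0 s with h | h
      · rw [uIcc_of_le h] at hx
        rw [abs_of_nonneg hx.1, abs_of_nonneg h]
        exact hx.2
      · rw [uIcc_of_ge h] at hx
        rw [abs_of_nonpos hx.2, abs_of_nonpos h]
        linarith [hx.1]
    have h1 := hconv.norm_image_sub_le_of_norm_hasDerivWithin_le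
      (f := fun s : ℝ => ev f (q + s • n)) (f' := fun s => ev (pd hV n f) (q + s • n))
      (C := M * |s| ^ N)
      (fun x hx => (line_der hV f n q x (hin x ((hb x hx).trans hs))).hasDerivWithinAt)
      (fun x hx => by
        rw [Real.norm_eq_abs]
        refine (hih x ((hb x hx).trans hs)).trans ?_
        exact mul_le_mul_of_nonneg_left (pow_le_pow_left₀ (abs_nonneg x) (hb x hx) N) hM0)
      left_mem_uIcc right_mem_uIcc
    simp only [zero_smul, add_zero, hf0, sub_zero, Real.norm_eq_abs] at h1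
    rw [pow_succ, ← mul_assoc]
    exact h1

/-- A function which vanishes on leaves accumulating at the leaf of `q0` is flat at `q0`. -/
theorem flat_of_vanish {V : Set E2} (hV : IsOpen V) {F : E2 → ℝ} (hF : ContDiffOn ℝ ∞ F V)
    {q0 : E2} (hq : q0 ∈ V) (hreg : tang F q0 ≠ 0) {C : Set ℝ}
    (hC : AccPt (F q0) (𝓟 C)) {f : Sm V} (h0 : ∀ p ∈ V, F p ∈ C → ev f p = 0) : Flat q0 f := by
  intro N
  obtain ⟨R, hR, hRV⟩ := Metric.nhds_basis_closedBall.mem_iff.mp (hV.mem_nhds hq)
  obtain ⟨n, K, r, hr, hK, H⟩ := transversal hV hF hq hreg hC hR hRV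
  obtain ⟨M, hM0, hM⟩ := exists_bound ({(pd hV n)^[N + 1] f} : Finset (Sm V)) hRV
  refine ⟨M * K ^ (N + 1), r, by positivity, hr, fun p hp _ => ?_⟩
  obtain ⟨tp, h1, h2, h3⟩ := H p hp
  have hmemV : p + tp • n ∈ V := hRV (by simpa using h2 0 (by simp))
  have hin : ∀ s : ℝ, |s| ≤ |tp| → p + tp • n + s • n ∈ V := fun s hs => hRV (h2 s hs)
  have hVn : ∀ᶠ s in 𝓝[≠] (0 : ℝ), p + tp • n + s • n ∈ V := by
    refine (Filter.Eventually.filter_mono nhdsWithin_le_nhds ?_)
    have : Continuous (fun s : ℝ => p + tp • n + s • n) := by fun_prop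
    apply this.continuousAt.preimage_mem_nhds
    rw [zero_smul, add_zero]
    exact hV.mem_nhds hmemV
  have h4 := taylor_bound hV n (p + tp • n) hmemV (N + 1) f M |tp| (abs_nonneg _) hM0 hin
    (fun s hs => hM _ (Finset.mem_singleton_self _) _ (h2 s hs))
    ((h3.and_eventually hVn).mono fun s hs => h0 _ hs.2 hs.1) (-tp) (by rw [abs_neg])
  have h5 : p + tp • n + (-tp) • n = p := by rw [add_assoc, ← add_smul]; simp
  rw [h5, abs_neg] at h4
  refine h4.trans ?_
  rw [mul_assoc, ← mul_pow]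
  exact mul_le_mul_of_nonneg_left (pow_le_pow_left₀ (abs_nonneg _) h1 _) hM0

end Pool.Agent.W5h48.AL
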